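import Mathlib.Algebra.EuclideanDomain.Defs
import Mathlib.Algebra.EuclideanDomain.Field
import Mathlib.RingTheory.Flat.TorsionFree
import Mathlib.NumberTheory.LegendreSymbol.AddCharacter
import Mathlib.RingTheory.RootsOfUnity.AlgebraicallyClosed
import Mathlib.FieldTheory.Galois.Profinite
import Mathlib.NumberTheory.ModularForms.LFunction
import Mathlib.RingTheory.Henselian
import Mathlib.Topology.Algebra.ClopenNhdofOne
import Mathlib.RingTheory.RegularLocalRing.Defs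
import Pool.Agent.MP_59efd2_nt.Stmt

-- ======== part 0: formerly Pool.Agent.MP_59efd2_nt.Defs
section MrgPart0

/-!
# MP_59efd2_nt : abbreviations and working forms of the definitions in `Stmt`
-/

noncomputable section

namespace Pool.Agent.MP_59efd2_nt

open scoped MatrixGroups

/-- The algebraic closure of `ℚ`. -/
abbrev Qb : Type := AlgebraicClosure ℚ

/-- The absolute Galois group of `ℚ`, with the Krull topology. -/
abbrev GQ : Type := Qb ≃ₐ[ℚ] Qb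

variable (p : ℕ) [Fact p.Prime]

/-- `Γ_n = Gal(ℚ(μ_{p^n})/ℚ) = (ℤ/p^n)ˣ`. -/
abbrev Gam (n : ℕ) : Type := (ZMod (p ^ n))ˣ

/-- `Λ_n = (ℤ/p^n)[Γ_n]`. -/
abbrev LamN (n : ℕ) : Type := MonoidAlgebra (ZMod (p ^ n)) (Gam p n)

/-- The Iwasawa algebra as a type. -/
abbrev Lam : Type := IwAlg p

/-- `Λ_E = ℚ_p ⊗ Λ = Λ[1/p]`. -/
abbrev LamE : Type := Localization.Away (p : Lam p)

section Cohomology

variable {p} {H M : Type} [Group H] [TopologicalSpace H] [AddCommGroup M] [Module (Lam p) M]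
  [TopologicalSpace M] [ContinuousAdd M] [ContinuousConstSMul (Lam p) M]

/-- Continuous 1-cocycles of `H` acting on `M` through `A`, as functions. -/
def Z1 (A : H → M →ₗ[Lam p] M) : Submodule (Lam p) (H → M) where
  carrier := {c | Continuous c ∧ ∀ g h, c (g * h) = c g + A g (c h)}
  add_mem' := fun {a b} ha hb => ⟨ha.1.add hb.1, fun g h => by
    simp only [Pi.add_apply, ha.2 g h, hb.2 g h, map_add]; abel⟩
  zero_mem' := ⟨continuous_const, fun g h => by simp⟩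
  smul_mem' := fun r a ha => ⟨ha.1.const_smul r, fun g h => by
    simp only [Pi.smul_apply, ha.2 g h, map_smul, smul_add]⟩

/-- 1-coboundaries `g ↦ g m - m`. -/
def B1 (A : H → M →ₗ[Lam p] M) : Submodule (Lam p) (H → M) :=
  LinearMap.range (LinearMap.pi fun g => A g - LinearMap.id)

end Cohomology

variable {p}

/-- `T ⊗ Λ^ι` for `T = ℤ_p²`: `g` acts by `ρ(g) ⊗ [χ g]⁻¹`. -/
def actG (ρ : GQ →* GL (Fin 2) ℤ_[p]) (g : GQ) : (Fin 2 → Lam p) →ₗ[Lam p] (Fin 2 → Lam p) :=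
  grp p (chi p g)⁻¹ • Matrix.mulVecLin ((ρ g : Matrix (Fin 2) (Fin 2) ℤ_[p]).map (cst p))

/-- `ℤ_p(δ) ⊗ Λ^ι` for a character `δ` of the decomposition group: `g` acts by `δ(g) [χ g]⁻¹`. -/
def actL (V : ValuationSubring Qb) (δ : V.decompositionSubgroup ℚ →* ℤ_[p]ˣ)
    (g : V.decompositionSubgroup ℚ) : Lam p →ₗ[Lam p] Lam p :=
  (grp p (chi p g)⁻¹ * cst p (δ g)) • LinearMap.id

lemma actG_apply_of_splits {ρ : GQ →* GL (Fin 2) ℤ_[p]} {V : ValuationSubring Qb}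
    {δ : Fin 2 → (V.decompositionSubgroup ℚ →* ℤ_[p]ˣ)} (h : SplitsAs ρ V δ) (i : Fin 2)
    (g : V.decompositionSubgroup ℚ) (m : Fin 2 → Lam p) :
    actG ρ g m i = actL V (δ i) g (m i) := act_split (cst p) (taut p) h i g m

/-- Stage 1: the general statement at `j = k / 2 = m`. -/
def GeneralStmt : Prop :=
  ∀ (p : ℕ) [Fact p.Prime], p ≠ 2 → ∀ (m : ℤ) (ρ : GQ →* GL (Fin 2) ℤ_[p]), Continuous ρ →
    (∀ g, Matrix.GeneralLinearGroup.det (ρ g) = chi p g ^ (1 - 2 * m)) →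
    ∀ (V : ValuationSubring Qb), Above V p →
    ∀ (δ : Fin 2 → (V.decompositionSubgroup ℚ →* ℤ_[p]ˣ)) (h : SplitsAs ρ V δ) (β : ℤ_[p]),
      UnramWith V (δ 1) β → ¬ (p : ℤ_[p]) ∣ β - 1 → ∀ S : Set ℕ, IwZeroOrPole h S m

/-- Stage 2: an instance of the Setting with `L(f, k/2) ≠ 0`, trivial character and `β ≢ 1`. -/
def InstanceStmt : Prop :=
  ∃ (p : ℕ) (_ : Fact p.Prime) (N m : ℕ) (_ : NeZero N) (hk : (0 : ℤ) < (2 * m : ℕ))
    (f : CuspForm (CongruenceSubgroup.Gamma0 N) (2 * m : ℕ)) (a : ℕ → ℤ)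
    (ρ : GQ →* GL (Fin 2) ℤ_[p]) (V : ValuationSubring Qb)
    (δ : Fin 2 → (V.decompositionSubgroup ℚ →* ℤ_[p]ˣ)) (α β : ℤ_[p]),
    ¬ p ∣ N ∧ IsNewform N (2 * m : ℕ) f ∧ (∀ n, coef f n = a n) ∧ IsDeligne N (2 * m) a ρ ∧
    Above V p ∧ SplitsAs ρ V δ ∧ CriticalChars (2 * m) (a p) V δ α β ∧
    ModularForm.L hk f m ≠ 0 ∧
    p ≠ 2 ∧ ¬ (p : ℤ_[p]) ∣ β - 1 ∧
    ∀ g, Matrix.GeneralLinearGroup.det (ρ g) = chi p g ^ (1 - 2 * (m : ℤ))

/-- The negation of Q1: an instance of the Setting with `L(f, k/2) ≠ 0` in which the critical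
invariant has a zero or a pole at `χ^(-k/2)`. -/
def CounterStmt : Prop :=
  ∃ (p : ℕ) (_ : Fact p.Prime) (N m : ℕ) (_ : NeZero N) (hk : (0 : ℤ) < (2 * m : ℕ))
    (f : CuspForm (CongruenceSubgroup.Gamma0 N) (2 * m : ℕ)) (a : ℕ → ℤ)
    (ρ : GQ →* GL (Fin 2) ℤ_[p]) (V : ValuationSubring Qb)
    (δ : Fin 2 → (V.decompositionSubgroup ℚ →* ℤ_[p]ˣ)) (α β : ℤ_[p]) (h : SplitsAs ρ V δ),
    ¬ p ∣ N ∧ IsNewform N (2 * m : ℕ) f ∧ (∀ n, coef f n = a n) ∧ IsDeligne N (2 * m) a ρ ∧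
    Above V p ∧ CriticalChars (2 * m) (a p) V δ α β ∧ ModularForm.L hk f m ≠ 0 ∧
    IwZeroOrPole h {l | l ∣ N * p} m

theorem counter_of (hg : GeneralStmt) (hi : InstanceStmt) : CounterStmt := by
  obtain ⟨p, hp, N, m, hN, hk, f, a, ρ, V, δ, α, β, h1, h2, h3, h4, h5, h6, h7, h8, h9, h10, h11⟩ :=
    hi
  exact ⟨p, hp, N, m, hN, hk, f, a, ρ, V, δ, α, β, h6, h1, h2, h3, h4, h5, h7, h8,
    hg p h9 m ρ h4.1 h11 V h5 δ h6 β h7.2.2.2.1 h10 _⟩

end Pool.Agent.MP_59efd2_nt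

end
end MrgPart0

-- ======== part 1: formerly Pool.Agent.MP_59efd2_nt.lz.Lii
section MrgPart1

-- ======== part 0: formerly Pool.Agent.MP_59efd2_nt.lz.Core
section MrgPart0

/-!
# Core notions for the stage 1 proof

Fields are subgroups `H` of `GQ`; cochains are functions on `GQ`, conditions are quantified over `H`.
-/

noncomputable section

namespace Pool.Agent.MP_59efd2_nt.lz

open scoped Pointwise

set_option linter.unusedSectionVars false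

instance instAlgClosureQb : IsAlgClosure ℚ Qb := AlgebraicClosure.instIsAlgClosure ℚ

instance instAlgebraicQb : Algebra.IsAlgebraic ℚ Qb := IsAlgClosure.isAlgebraic

instance instGaloisQb : IsGalois ℚ Qb := IsAlgClosure.isGalois ℚ Qb

/-- Open normal subgroups of `GQ`. -/
abbrev ONS : Type := OpenNormalSubgroup GQ

/-- `H'` is an open subgroup of `H`. -/
def OpenIn (H' H : Subgroup GQ) : Prop := H' ≤ H ∧ ∃ N : ONS, ∀ g ∈ H, g ∈ N → g ∈ H'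

/-- `H'` is normalised by `H`. -/
def NormalIn (H' H : Subgroup GQ) : Prop := ∀ g ∈ H, ∀ h ∈ H', g * h * g⁻¹ ∈ H'

section Cochains

variable {M M' : Type} [AddCommGroup M] [AddCommGroup M']

/-- Smooth functions of one variable on `H`. -/
def Sm1 {X : Type} (H : Subgroup GQ) (c : GQ → X) : Prop :=
  ∃ N : ONS, ∀ g ∈ H, ∀ n ∈ H, n ∈ N → c (g * n) = c g

/-- Smooth functions of two variables on `H`. -/
def Sm2 {X : Type} (H : Subgroup GQ) (f : GQ → GQ → X) : Prop :=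
  ∃ N : ONS, ∀ g ∈ H, ∀ h ∈ H, ∀ n ∈ H, ∀ n' ∈ H, n ∈ N → n' ∈ N → f (g * n) (h * n') = f g h

/-- `a` is a smooth action of `H` on `M`. -/
structure IsAct (H : Subgroup GQ) (a : GQ → M →+ M) : Prop where
  one : ∀ m, a 1 m = m
  mul : ∀ g ∈ H, ∀ h ∈ H, ∀ m, a (g * h) m = a g (a h m)
  smooth : ∀ m, ∃ N : ONS, ∀ n ∈ H, n ∈ N → a n m = m

/-- 1-cocycles. -/
def Zo (H : Subgroup GQ) (a : GQ → M →+ M) (c : GQ → M) : Prop :=
  Sm1 H c ∧ ∀ g ∈ H, ∀ h ∈ H, c (g * h) = c g + a g (c h)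

/-- 1-coboundaries. -/
def Bo (H : Subgroup GQ) (a : GQ → M →+ M) (c : GQ → M) : Prop :=
  ∃ m, ∀ g ∈ H, c g = a g m - m

/-- 2-cocycles. -/
def Z2 (H : Subgroup GQ) (a : GQ → M →+ M) (f : GQ → GQ → M) : Prop :=
  Sm2 H f ∧ ∀ g ∈ H, ∀ h ∈ H, ∀ k ∈ H, a g (f h k) + f g (h * k) = f (g * h) k + f g h

/-- 2-coboundaries. -/
def B2 (H : Subgroup GQ) (a : GQ → M →+ M) (f : GQ → GQ → M) : Prop :=
  ∃ b : GQ → M, Sm1 H b ∧ ∀ g ∈ H, ∀ h ∈ H, f g h = a g (b h) - b (g * h) + b g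

/-- `H¹ = 0`. -/
def V1 (H : Subgroup GQ) (a : GQ → M →+ M) : Prop := ∀ c, Zo H a c → Bo H a c

/-- `H² = 0`. -/
def V2 (H : Subgroup GQ) (a : GQ → M →+ M) : Prop := ∀ f, Z2 H a f → B2 H a f

/-- `f` is inflated from `H / H'` with values fixed by `H'`. -/
def Infl (H H' : Subgroup GQ) (a : GQ → M →+ M) (f : GQ → GQ → M) : Prop :=
  ∀ g ∈ H, ∀ h ∈ H, ∀ n ∈ H', f (g * n) h = f g h ∧ f g (h * n) = f g h ∧ a n (f g h) = f g h

/-- `H' = ker (x : H → ℤ/d)` is open in `H`, and `σ ∈ H` maps to `1`. -/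
structure Cyc (H H' : Subgroup GQ) (d : ℕ) (x : GQ → ZMod d) (σ : GQ) : Prop where
  pos : 0 < d
  add : ∀ g ∈ H, ∀ h ∈ H, x (g * h) = x g + x h
  ker : ∀ g, g ∈ H' ↔ g ∈ H ∧ x g = 0
  mem : σ ∈ H
  gen : x σ = 1
  opn : OpenIn H' H

/-- The cyclic 2-cocycle attached to `x` and `m` (carry cocycle). -/
def cyc (d : ℕ) (x : GQ → ZMod d) (m : M) : GQ → GQ → M :=
  fun g h => if d ≤ (x g).val + (x h).val then m else 0

lemma ons_mem_inf {N N' : ONS} {g : GQ} : g ∈ N ⊓ N' ↔ g ∈ N ∧ g ∈ N' := Iff.rfl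

lemma ons_conj (N : ONS) {n : GQ} (hn : n ∈ N) (g : GQ) : g * n * g⁻¹ ∈ N :=
  N.isNormal'.conj_mem n hn g

lemma ons_conj' (N : ONS) {n : GQ} (hn : n ∈ N) (g : GQ) : g⁻¹ * n * g ∈ N := by
  simpa using ons_conj N hn g⁻¹

/-- The whole group as an open normal subgroup. -/
def onsTop : ONS where
  toOpenSubgroup := ⊤
  isNormal' := (inferInstance : (⊤ : Subgroup GQ).Normal)

lemma mem_onsTop (g : GQ) : g ∈ onsTop := trivial

lemma ons_finite (N : ONS) : Finite (GQ ⧸ (N : Subgroup GQ)) :=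
  Subgroup.quotient_finite_of_isOpen _ N.toOpenSubgroup.isOpen

lemma ons_finiteIndex (N : ONS) : (N : Subgroup GQ).FiniteIndex :=
  haveI := ons_finite N
  Subgroup.finiteIndex_of_finite_quotient

lemma exists_ons_of_isOpen {U : Set GQ} (hU : IsOpen U) (h1 : (1 : GQ) ∈ U) :
    ∃ N : ONS, ∀ g ∈ N, g ∈ U := by
  obtain ⟨N, hN⟩ := ProfiniteGrp.exist_openNormalSubgroup_sub_open_nhds_of_one hU h1
  exact ⟨N, fun g hg => hN hg⟩

lemma exists_ons_fix (x : Qb) : ∃ N : ONS, ∀ g ∈ N, g x = x := by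
  obtain ⟨N, hN⟩ := exists_ons_of_isOpen (stabilizer_isOpen_of_isIntegral (K := ℚ) x)
    (Subgroup.one_mem _)
  exact ⟨N, fun g hg => hN g hg⟩

/-- Finitely many open normal subgroups have a common open normal subgroup. -/
lemma exists_ons_forall {ι : Type*} [Finite ι] (P : ι → GQ → Prop)
    (h : ∀ i, ∃ N : ONS, ∀ g ∈ N, P i g) : ∃ N : ONS, ∀ i, ∀ g ∈ N, P i g := by
  choose F hF using h
  have hU : IsOpen (⋂ i, (F i : Set GQ)) :=
    isOpen_iInter_of_finite fun i => (F i).toOpenSubgroup.isOpen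
  obtain ⟨N, hN⟩ := exists_ons_of_isOpen hU (Set.mem_iInter.2 fun i => (F i).one_mem)
  exact ⟨N, fun i g hg => hF i g (Set.mem_iInter.1 (hN g hg) i)⟩

lemma OpenIn.refl (H : Subgroup GQ) : OpenIn H H := ⟨le_rfl, onsTop, fun _ hg _ => hg⟩

lemma OpenIn.trans {A B C : Subgroup GQ} (h1 : OpenIn A B) (h2 : OpenIn B C) : OpenIn A C := by
  obtain ⟨l1, N1, hN1⟩ := h1
  obtain ⟨l2, N2, hN2⟩ := h2
  exact ⟨l1.trans l2, N1 ⊓ N2, fun g hg hN => hN1 g (hN2 g hg hN.2) hN.1⟩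

lemma OpenIn.inf_left {A B : Subgroup GQ} (h : OpenIn A B) (C : Subgroup GQ) :
    OpenIn (C ⊓ A) (C ⊓ B) := by
  obtain ⟨l1, N1, hN1⟩ := h
  exact ⟨inf_le_inf_left C l1, N1, fun g hg hN => ⟨hg.1, hN1 g hg.2 hN⟩⟩

lemma OpenIn.inf_top {U : Subgroup GQ} (h : OpenIn U ⊤) (C : Subgroup GQ) : OpenIn (C ⊓ U) C := by
  simpa using h.inf_left C

lemma OpenIn.inf {A B C : Subgroup GQ} (h1 : OpenIn A C) (h2 : OpenIn B C) : OpenIn (A ⊓ B) C := by
  obtain ⟨l1, N1, hN1⟩ := h1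
  obtain ⟨_, N2, hN2⟩ := h2
  exact ⟨inf_le_left.trans l1, N1 ⊓ N2, fun g hg hN => ⟨hN1 g hg hN.1, hN2 g hg hN.2⟩⟩

lemma OpenIn.of_le {A B C : Subgroup GQ} (h1 : OpenIn A C) (hAB : A ≤ B) (hBC : B ≤ C) :
    OpenIn A B ∧ OpenIn B C := by
  obtain ⟨_, N1, hN1⟩ := h1
  exact ⟨⟨hAB, N1, fun g hg hN => hN1 g (hBC hg) hN⟩, hBC, N1, fun g hg hN => hAB (hN1 g hg hN)⟩

lemma openIn_inf_ons (H : Subgroup GQ) (N : ONS) : OpenIn (H ⊓ (N : Subgroup GQ)) H :=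
  ⟨inf_le_left, N, fun _ hg hN => ⟨hg, hN⟩⟩

lemma OpenIn.relIndex_ne_zero {A B : Subgroup GQ} (h : OpenIn A B) : A.relIndex B ≠ 0 := by
  obtain ⟨_, N, hN⟩ := h
  have := ons_finiteIndex N
  have h1 : ((N : Subgroup GQ).subgroupOf B).FiniteIndex := inferInstance
  have h2 : (N : Subgroup GQ).subgroupOf B ≤ A.subgroupOf B := fun g hg => hN g g.2 hg
  exact (Subgroup.finiteIndex_of_le h2).index_ne_zero

/-- A smooth function takes finitely many values on `H`. -/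
lemma Sm1.finite {X : Type} {H : Subgroup GQ} {c : GQ → X} (hc : Sm1 H c) :
    (c '' (H : Set GQ)).Finite := by
  obtain ⟨N, hN⟩ := hc
  have := ons_finite N
  classical
  let F : GQ ⧸ (N : Subgroup GQ) → Option X := fun q =>
    if h : ∃ g ∈ H, (g : GQ ⧸ (N : Subgroup GQ)) = q then some (c h.choose) else none
  refine Set.Finite.of_finite_image (f := some) ((Set.finite_range F).subset ?_)
    (Option.some_injective X).injOn
  rintro _ ⟨_, ⟨g, hg, rfl⟩, rfl⟩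
  refine ⟨(g : GQ ⧸ (N : Subgroup GQ)), ?_⟩
  have h : ∃ g' ∈ H, (g' : GQ ⧸ (N : Subgroup GQ)) = (g : GQ ⧸ (N : Subgroup GQ)) := ⟨g, hg, rfl⟩
  simp only [F, dif_pos h]
  have h2 := QuotientGroup.eq.1 h.choose_spec.2
  have h3 := hN _ h.choose_spec.1 _ (H.mul_mem (H.inv_mem h.choose_spec.1) hg) h2
  rw [mul_inv_cancel_left] at h3
  rw [h3]

lemma Sm1.mono {X : Type} {H H' : Subgroup GQ} {c : GQ → X} (hc : Sm1 H c) (h : H' ≤ H) :
    Sm1 H' c := hc.imp fun _ hN g hg n hn => hN g (h hg) n (h hn)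

lemma Sm2.mono {X : Type} {H H' : Subgroup GQ} {f : GQ → GQ → X} (hf : Sm2 H f) (h : H' ≤ H) :
    Sm2 H' f := hf.imp fun _ hN g hg k hk n hn n' hn' => hN g (h hg) k (h hk) n (h hn) n' (h hn')

lemma Sm1.comp {X Y : Type} {H : Subgroup GQ} {c : GQ → X} (hc : Sm1 H c) (φ : X → Y) :
    Sm1 H fun g => φ (c g) := hc.imp fun _ hN g hg n hn hnN => congrArg φ (hN g hg n hn hnN)

lemma Sm2.comp {X Y : Type} {H : Subgroup GQ} {f : GQ → GQ → X} (hf : Sm2 H f) (φ : X → Y) :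
    Sm2 H fun g h => φ (f g h) :=
  hf.imp fun _ hN g hg k hk n hn n' hn' h1 h2 => congrArg φ (hN g hg k hk n hn n' hn' h1 h2)

lemma Sm1.comp₂ {X Y Z : Type} {H : Subgroup GQ} {c : GQ → X} {c' : GQ → Y} (hc : Sm1 H c)
    (hc' : Sm1 H c') (φ : X → Y → Z) : Sm1 H fun g => φ (c g) (c' g) := by
  obtain ⟨N, hN⟩ := hc
  obtain ⟨N', hN'⟩ := hc'
  exact ⟨N ⊓ N', fun g hg n hn h => congrArg₂ φ (hN g hg n hn h.1) (hN' g hg n hn h.2)⟩

lemma Sm2.comp₂ {X Y Z : Type} {H : Subgroup GQ} {f : GQ → GQ → X} {f' : GQ → GQ → Y}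
    (hf : Sm2 H f) (hf' : Sm2 H f') (φ : X → Y → Z) : Sm2 H fun g h => φ (f g h) (f' g h) := by
  obtain ⟨N, hN⟩ := hf
  obtain ⟨N', hN'⟩ := hf'
  exact ⟨N ⊓ N', fun g hg k hk n hn n' hn' h1 h2 =>
    congrArg₂ φ (hN g hg k hk n hn n' hn' h1.1 h2.1) (hN' g hg k hk n hn n' hn' h1.2 h2.2)⟩

lemma sm1_const {X : Type} (H : Subgroup GQ) (x : X) : Sm1 H fun _ => x :=
  ⟨onsTop, fun _ _ _ _ _ => rfl⟩

lemma sm2_const {X : Type} (H : Subgroup GQ) (x : X) : Sm2 H fun _ _ => x :=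
  ⟨onsTop, fun _ _ _ _ _ _ _ _ _ _ => rfl⟩

lemma Sm1.left {X : Type} {H : Subgroup GQ} {c : GQ → X} (hc : Sm1 H c) :
    Sm2 H fun g _ => c g := hc.imp fun _ hN g hg _ _ n hn _ _ h _ => hN g hg n hn h

lemma Sm1.right {X : Type} {H : Subgroup GQ} {c : GQ → X} (hc : Sm1 H c) :
    Sm2 H fun _ h => c h := hc.imp fun _ hN _ _ k hk _ _ n hn _ h => hN k hk n hn h

lemma Sm1.mul {X : Type} {H : Subgroup GQ} {c : GQ → X} (hc : Sm1 H c) :
    Sm2 H fun g h => c (g * h) := by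
  refine hc.imp fun N hN g hg k hk n hn n' hn' h1 h2 => ?_
  have : g * n * (k * n') = g * k * (k⁻¹ * n * k * n') := by group
  change c (g * n * (k * n')) = c (g * k)
  rw [this]
  exact hN _ (H.mul_mem hg hk) _
    (H.mul_mem (H.mul_mem (H.mul_mem (H.inv_mem hk) hn) hk) hn') (N.mul_mem (ons_conj' N h1 k) h2)

lemma IsAct.mono {H H' : Subgroup GQ} {a : GQ → M →+ M} (ha : IsAct H a) (h : H' ≤ H) :
    IsAct H' a :=
  ⟨ha.one, fun g hg k hk => ha.mul g (h hg) k (h hk),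
    fun m => (ha.smooth m).imp fun _ hN n hn => hN n (h hn)⟩

/-- One open normal subgroup fixes a finite set. -/
lemma IsAct.exists_fix {H : Subgroup GQ} {a : GQ → M →+ M} (ha : IsAct H a) {s : Set M}
    (hs : s.Finite) : ∃ N : ONS, ∀ m ∈ s, ∀ n ∈ H, n ∈ N → a n m = m := by
  have := hs.to_subtype
  obtain ⟨N, hN⟩ := exists_ons_forall (fun (m : s) g => g ∈ H → a g m = m)
    (fun m => (ha.smooth m).imp fun _ hN g hg hH => hN g hH hg)
  exact ⟨N, fun m hm n hn hnN => hN ⟨m, hm⟩ n hnN hn⟩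

/-- The function sending g, h to g · c(h) is smooth. -/
lemma Sm1.act {H : Subgroup GQ} {a : GQ → M →+ M} (ha : IsAct H a) {c : GQ → M} (hc : Sm1 H c) :
    Sm2 H fun g h => a g (c h) := by
  obtain ⟨N', hN'⟩ := ha.exists_fix hc.finite
  obtain ⟨N, hN⟩ := hc
  refine ⟨N ⊓ N', fun g hg k hk n hn n' hn' h1 h2 => ?_⟩
  change a (g * n) (c (k * n')) = a g (c k)
  rw [hN k hk n' hn' h2.1, ha.mul g hg n hn, hN' _ ⟨k, hk, rfl⟩ n hn h1.2]

lemma IsAct.sm1 {H : Subgroup GQ} {a : GQ → M →+ M} (ha : IsAct H a) (m : M) :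
    Sm1 H fun g => a g m :=
  (ha.smooth m).imp fun _ hN g hg n hn h => by
    change a (g * n) m = a g m
    rw [ha.mul g hg n hn, hN n hn h]

lemma Zo.mono {H H' : Subgroup GQ} {a : GQ → M →+ M} {c : GQ → M} (hc : Zo H a c) (h : H' ≤ H) :
    Zo H' a c := ⟨hc.1.mono h, fun g hg k hk => hc.2 g (h hg) k (h hk)⟩

lemma Bo.mono {H H' : Subgroup GQ} {a : GQ → M →+ M} {c : GQ → M} (hc : Bo H a c) (h : H' ≤ H) :
    Bo H' a c := hc.imp fun _ hm g hg => hm g (h hg)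

lemma Bo.zo {H : Subgroup GQ} {a : GQ → M →+ M} (ha : IsAct H a) {c : GQ → M} (hc : Bo H a c) :
    Zo H a c := by
  obtain ⟨m, hm⟩ := hc
  refine ⟨(ha.smooth m).imp fun _ hN g hg n hn h => ?_, fun g hg k hk => ?_⟩
  · rw [hm _ (H.mul_mem hg hn), hm g hg, ha.mul g hg n hn, hN n hn h]
  · rw [hm _ (H.mul_mem hg hk), hm g hg, hm k hk, ha.mul g hg k hk, map_sub]; abel

lemma Zo.map_one {H : Subgroup GQ} {a : GQ → M →+ M} (ha : IsAct H a) {c : GQ → M}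
    (hc : Zo H a c) : c 1 = 0 := by
  have := hc.2 1 H.one_mem 1 H.one_mem
  rw [mul_one, ha.one] at this
  exact left_eq_add.1 this

lemma Z2.mono {H H' : Subgroup GQ} {a : GQ → M →+ M} {f : GQ → GQ → M} (hf : Z2 H a f)
    (h : H' ≤ H) : Z2 H' a f :=
  ⟨hf.1.mono h, fun g hg k hk l hl => hf.2 g (h hg) k (h hk) l (h hl)⟩

lemma B2.mono {H H' : Subgroup GQ} {a : GQ → M →+ M} {f : GQ → GQ → M} (hf : B2 H a f)
    (h : H' ≤ H) : B2 H' a f :=
  hf.imp fun _ hb => ⟨hb.1.mono h, fun g hg k hk => hb.2 g (h hg) k (h hk)⟩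

lemma Z2.congr {H : Subgroup GQ} {a : GQ → M →+ M} {f f' : GQ → GQ → M} (hf : Z2 H a f)
    (h : ∀ g ∈ H, ∀ k ∈ H, f' g k = f g k) : Z2 H a f' := by
  refine ⟨hf.1.imp fun _ hN g hg k hk n hn n' hn' h1 h2 => ?_, fun g hg k hk l hl => ?_⟩
  · rw [h _ (H.mul_mem hg hn) _ (H.mul_mem hk hn'), h g hg k hk, hN g hg k hk n hn n' hn' h1 h2]
  · rw [h k hk l hl, h g hg _ (H.mul_mem hk hl), h _ (H.mul_mem hg hk) l hl, h g hg k hk,
      hf.2 g hg k hk l hl]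

lemma B2.congr {H : Subgroup GQ} {a : GQ → M →+ M} {f f' : GQ → GQ → M} (hf : B2 H a f)
    (h : ∀ g ∈ H, ∀ k ∈ H, f' g k = f g k) : B2 H a f' :=
  hf.imp fun _ hb => ⟨hb.1, fun g hg k hk => (h g hg k hk).trans (hb.2 g hg k hk)⟩

lemma B2.z2 {H : Subgroup GQ} {a : GQ → M →+ M} (ha : IsAct H a) {f : GQ → GQ → M}
    (hf : B2 H a f) : Z2 H a f := by
  obtain ⟨b, hb, h⟩ := hf
  refine Z2.congr (f := fun g k => a g (b k) - b (g * k) + b g) ⟨?_, fun g hg k hk l hl => ?_⟩ h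
  · exact ((hb.act ha).comp₂ hb.mul (· - ·)).comp₂ hb.left (· + ·)
  · simp only [map_add, map_sub, ha.mul g hg k hk, mul_assoc]; abel

lemma z2_zero (H : Subgroup GQ) (a : GQ → M →+ M) : Z2 H a 0 :=
  ⟨sm2_const H 0, fun _ _ _ _ _ _ => by simp⟩

lemma b2_zero (H : Subgroup GQ) (a : GQ → M →+ M) : B2 H a 0 :=
  ⟨0, sm1_const H 0, fun _ _ _ _ => by simp⟩

lemma Z2.add {H : Subgroup GQ} {a : GQ → M →+ M} {f f' : GQ → GQ → M} (hf : Z2 H a f)
    (hf' : Z2 H a f') : Z2 H a (f + f') := by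
  refine ⟨hf.1.comp₂ hf'.1 (· + ·), fun g hg k hk l hl => ?_⟩
  have h1 := hf.2 g hg k hk l hl
  have h2 := hf'.2 g hg k hk l hl
  simp only [Pi.add_apply, map_add]
  rw [add_add_add_comm, h1, h2]; abel

lemma B2.add {H : Subgroup GQ} {a : GQ → M →+ M} {f f' : GQ → GQ → M} (hf : B2 H a f)
    (hf' : B2 H a f') : B2 H a (f + f') := by
  obtain ⟨b, hb, h⟩ := hf
  obtain ⟨b', hb', h'⟩ := hf'
  refine ⟨b + b', hb.comp₂ hb' (· + ·), fun g hg k hk => ?_⟩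
  simp only [Pi.add_apply, map_add, h g hg k hk, h' g hg k hk]; abel

/-- Push-forward along an equivariant additive map. -/
lemma Z2.map {H : Subgroup GQ} {a : GQ → M →+ M} {a' : GQ → M' →+ M'} (φ : M →+ M')
    (hφ : ∀ g ∈ H, ∀ m, φ (a g m) = a' g (φ m)) {f : GQ → GQ → M} (hf : Z2 H a f) :
    Z2 H a' fun g h => φ (f g h) :=
  ⟨hf.1.comp φ, fun g hg k hk l hl => by
    beta_reduce
    rw [← hφ g hg, ← map_add, hf.2 g hg k hk l hl, map_add]⟩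

lemma B2.map {H : Subgroup GQ} {a : GQ → M →+ M} {a' : GQ → M' →+ M'} (φ : M →+ M')
    (hφ : ∀ g ∈ H, ∀ m, φ (a g m) = a' g (φ m)) {f : GQ → GQ → M} (hf : B2 H a f) :
    B2 H a' fun g h => φ (f g h) := by
  obtain ⟨b, hb, h⟩ := hf
  exact ⟨fun g => φ (b g), hb.comp φ, fun g hg k hk => by
    beta_reduce
    rw [h g hg k hk, map_add, map_sub, hφ g hg]⟩

lemma Zo.map {H : Subgroup GQ} {a : GQ → M →+ M} {a' : GQ → M' →+ M'} (φ : M →+ M')
    (hφ : ∀ g ∈ H, ∀ m, φ (a g m) = a' g (φ m)) {c : GQ → M} (hc : Zo H a c) :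
    Zo H a' fun g => φ (c g) :=
  ⟨hc.1.comp φ, fun g hg k hk => by
    beta_reduce
    rw [hc.2 g hg k hk, map_add, hφ g hg]⟩

lemma Z2.neg {H : Subgroup GQ} {a : GQ → M →+ M} {f : GQ → GQ → M} (hf : Z2 H a f) :
    Z2 H a (-f) := hf.map (-AddMonoidHom.id M) fun _ _ _ => by simp

lemma B2.neg {H : Subgroup GQ} {a : GQ → M →+ M} {f : GQ → GQ → M} (hf : B2 H a f) :
    B2 H a (-f) := hf.map (-AddMonoidHom.id M) fun _ _ _ => by simp

lemma Z2.sub {H : Subgroup GQ} {a : GQ → M →+ M} {f f' : GQ → GQ → M} (hf : Z2 H a f)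
    (hf' : Z2 H a f') : Z2 H a (f - f') := by
  rw [sub_eq_add_neg]; exact hf.add hf'.neg

lemma B2.sub {H : Subgroup GQ} {a : GQ → M →+ M} {f f' : GQ → GQ → M} (hf : B2 H a f)
    (hf' : B2 H a f') : B2 H a (f - f') := by
  rw [sub_eq_add_neg]; exact hf.add hf'.neg

lemma Z2.zsmul {H : Subgroup GQ} {a : GQ → M →+ M} {f : GQ → GQ → M} (hf : Z2 H a f) (n : ℤ) :
    Z2 H a (n • f) := hf.map (n • AddMonoidHom.id M) fun _ _ _ => by simp

lemma B2.zsmul {H : Subgroup GQ} {a : GQ → M →+ M} {f : GQ → GQ → M} (hf : B2 H a f) (n : ℤ) :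
    B2 H a (n • f) := hf.map (n • AddMonoidHom.id M) fun _ _ _ => by simp

lemma Z2.nsmul {H : Subgroup GQ} {a : GQ → M →+ M} {f : GQ → GQ → M} (hf : Z2 H a f) (n : ℕ) :
    Z2 H a (n • f) := hf.map (n • AddMonoidHom.id M) fun _ _ _ => by simp

lemma B2.nsmul {H : Subgroup GQ} {a : GQ → M →+ M} {f : GQ → GQ → M} (hf : B2 H a f) (n : ℕ) :
    B2 H a (n • f) := hf.map (n • AddMonoidHom.id M) fun _ _ _ => by simp

/-- The subgroup of 2-cocycles. -/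
def Z2G (H : Subgroup GQ) (a : GQ → M →+ M) : AddSubgroup (GQ → GQ → M) where
  carrier := {f | Z2 H a f}
  add_mem' := Z2.add
  zero_mem' := z2_zero H a
  neg_mem' := Z2.neg

/-- The subgroup of 2-coboundaries. -/
def B2G (H : Subgroup GQ) (a : GQ → M →+ M) : AddSubgroup (GQ → GQ → M) where
  carrier := {f | B2 H a f}
  add_mem' := B2.add
  zero_mem' := b2_zero H a
  neg_mem' := B2.neg

lemma Cyc.map_one {H H' : Subgroup GQ} {d : ℕ} {x : GQ → ZMod d} {σ : GQ}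
    (h : Cyc H H' d x σ) : x 1 = 0 := ((h.ker 1).1 H'.one_mem).2

lemma Cyc.map_pow {H H' : Subgroup GQ} {d : ℕ} {x : GQ → ZMod d} {σ : GQ}
    (h : Cyc H H' d x σ) {g : GQ} (hg : g ∈ H) (i : ℕ) : x (g ^ i) = i * x g := by
  induction i with
  | zero => simp [h.map_one]
  | succ i ih => rw [pow_succ, h.add _ (H.pow_mem hg i) _ hg, ih]; push_cast; ring

lemma Cyc.map_inv {H H' : Subgroup GQ} {d : ℕ} {x : GQ → ZMod d} {σ : GQ}
    (h : Cyc H H' d x σ) {g : GQ} (hg : g ∈ H) : x g⁻¹ = -x g := by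
  have := h.add _ (H.inv_mem hg) _ hg
  rw [inv_mul_cancel, h.map_one] at this
  exact eq_neg_of_add_eq_zero_left this.symm

lemma Cyc.le {H H' : Subgroup GQ} {d : ℕ} {x : GQ → ZMod d} {σ : GQ}
    (h : Cyc H H' d x σ) : H' ≤ H := h.opn.1

lemma Cyc.normalIn {H H' : Subgroup GQ} {d : ℕ} {x : GQ → ZMod d} {σ : GQ}
    (h : Cyc H H' d x σ) : NormalIn H' H := by
  intro g hg k hk
  have hk' := (h.ker k).1 hk
  refine (h.ker _).2 ⟨H.mul_mem (H.mul_mem hg hk'.1) (H.inv_mem hg), ?_⟩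
  rw [h.add _ (H.mul_mem hg hk'.1) _ (H.inv_mem hg), h.add _ hg _ hk'.1, h.map_inv hg, hk'.2]
  ring

lemma Cyc.pow_mem {H H' : Subgroup GQ} {d : ℕ} {x : GQ → ZMod d} {σ : GQ}
    (h : Cyc H H' d x σ) {g : GQ} (hg : g ∈ H) : g ^ d ∈ H' :=
  (h.ker _).2 ⟨H.pow_mem hg d, by rw [h.map_pow hg]; simp⟩

/-- Every element of `H` is `σ^i n` with `i = (x g).val` and `n ∈ H'`. -/
lemma Cyc.decomp {H H' : Subgroup GQ} {d : ℕ} {x : GQ → ZMod d} {σ : GQ}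
    (h : Cyc H H' d x σ) {g : GQ} (hg : g ∈ H) : (σ ^ (x g).val)⁻¹ * g ∈ H' := by
  have : NeZero d := ⟨h.pos.ne'⟩
  have hs := H.pow_mem h.mem (x g).val
  refine (h.ker _).2 ⟨H.mul_mem (H.inv_mem hs) hg, ?_⟩
  rw [h.add _ (H.inv_mem hs) _ hg, h.map_inv hs, h.map_pow h.mem, h.gen]
  simp

/-- Restriction of cyclic data to a subgroup that contains an element mapping to `1`. -/
lemma Cyc.restrict {H H' : Subgroup GQ} {d : ℕ} {x : GQ → ZMod d} {σ : GQ}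
    (h : Cyc H H' d x σ) (C : Subgroup GQ) {τ : GQ} (hτ : τ ∈ C ⊓ H) (hx : x τ = 1) :
    Cyc (C ⊓ H) (C ⊓ H') d x τ :=
  ⟨h.pos, fun g hg k hk => h.add g hg.2 k hk.2,
    fun g => ⟨fun hg => ⟨⟨hg.1, h.le hg.2⟩, ((h.ker g).1 hg.2).2⟩,
      fun hg => ⟨hg.1.1, (h.ker g).2 ⟨hg.1.2, hg.2⟩⟩⟩, hτ, hx, h.opn.inf_left C⟩

lemma Cyc.sm1 {H H' : Subgroup GQ} {d : ℕ} {x : GQ → ZMod d} {σ : GQ}
    (h : Cyc H H' d x σ) : Sm1 H x :=
  h.opn.2.imp fun _ hN g hg n hn hnN => by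
    rw [h.add g hg n hn, ((h.ker n).1 (hN n hn hnN)).2, add_zero]

end Cochains

end Pool.Agent.MP_59efd2_nt.lz

end
end MrgPart0

-- ======== part 1: formerly Pool.Agent.MP_59efd2_nt.lz.Core2
section MrgPart1

/-!
# Units, places, roots of unity, the involution of `Λ`
-/

noncomputable section

namespace Pool.Agent.MP_59efd2_nt.lz

open scoped Pointwise

set_option linter.unusedSectionVars false

section Units

/-- `Qbˣ` written additively. -/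
abbrev AU : Type := Additive Qbˣ

/-- Galois action on `Qbˣ`. -/
def sU (g : GQ) : Qbˣ →* Qbˣ := Units.map (g : Qb →* Qb)

@[simp] lemma coe_sU (g : GQ) (u : Qbˣ) : (sU g u : Qb) = g u := rfl

lemma sU_one (u : Qbˣ) : sU 1 u = u := Units.ext rfl

lemma sU_mul (g h : GQ) (u : Qbˣ) : sU (g * h) u = sU g (sU h u) := Units.ext rfl

/-- Galois action on `AU`. -/
def aU (g : GQ) : AU →+ AU := MonoidHom.toAdditive (sU g)

@[simp] lemma aU_ofMul (g : GQ) (u : Qbˣ) : aU g (Additive.ofMul u) = Additive.ofMul (sU g u) := rfl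

@[simp] lemma toMul_aU (g : GQ) (u : AU) : (aU g u).toMul = sU g u.toMul := rfl

lemma isAct_aU (H : Subgroup GQ) : IsAct H aU :=
  ⟨fun m => congrArg Additive.ofMul (sU_one m.toMul),
    fun g _ h _ m => congrArg Additive.ofMul (sU_mul g h m.toMul),
    fun m => (exists_ons_fix (m.toMul : Qbˣ)).imp fun _ hN n _ hn =>
      congrArg Additive.ofMul (Units.ext (hN n hn))⟩

/-- `x` lies in the fixed field of `H`. -/
def IsFix (H : Subgroup GQ) (x : Qb) : Prop := ∀ g ∈ H, g x = x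

lemma isFix_iff (H : Subgroup GQ) (x : Qb) : IsFix H x ↔ x ∈ IntermediateField.fixedField H :=
  (IntermediateField.mem_fixedField_iff H x).symm

lemma IsFix.mono {H H' : Subgroup GQ} {x : Qb} (hx : IsFix H x) (h : H' ≤ H) : IsFix H' x :=
  fun g hg => hx g (h hg)

/-- The multiplicative group of the fixed field of `H`. -/
def fixU (H : Subgroup GQ) : Subgroup Qbˣ where
  carrier := {u | IsFix H u}
  mul_mem' := fun {a b} ha hb g hg => by rw [Units.val_mul, map_mul, ha g hg, hb g hg]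
  one_mem' := fun g _ => by simp
  inv_mem' := fun {a} ha g hg => by rw [Units.val_inv_eq_inv_val, map_inv₀, ha g hg]

lemma mem_fixU {H : Subgroup GQ} {u : Qbˣ} : u ∈ fixU H ↔ IsFix H u := Iff.rfl

lemma fixU_anti {H H' : Subgroup GQ} (h : H' ≤ H) : fixU H ≤ fixU H' := fun _ hu => IsFix.mono hu h

/-- The norm `∏_{i<d} σ^i`. -/
def nrmU (σ : GQ) (d : ℕ) : Qbˣ →* Qbˣ := ∏ i ∈ Finset.range d, sU (σ ^ i)

lemma nrmU_apply (σ : GQ) (d : ℕ) (u : Qbˣ) :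
    nrmU σ d u = ∏ i ∈ Finset.range d, sU (σ ^ i) u := by
  simp [nrmU, MonoidHom.finsetProd_apply]

lemma ofMul_nrmU (σ : GQ) (d : ℕ) (u : Qbˣ) :
    Additive.ofMul (nrmU σ d u) = ∑ i ∈ Finset.range d, aU (σ ^ i) (Additive.ofMul u) := by
  rw [nrmU_apply, ofMul_prod]; rfl

lemma nrmU_of_fix {σ : GQ} {u : Qbˣ} (h : sU σ u = u) (d : ℕ) : nrmU σ d u = u ^ d := by
  have : ∀ i, sU (σ ^ i) u = u := fun i => by
    induction i with
    | zero => exact sU_one u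
    | succ i ih => rw [pow_succ, sU_mul, h, ih]
  rw [nrmU_apply]; simp [this]

/-- The group of norms from the fixed field of `H'`. -/
def NG (H' : Subgroup GQ) (σ : GQ) (d : ℕ) : Subgroup Qbˣ := (fixU H').map (nrmU σ d)

/-- The norm does not depend on the generator with `x σ = 1`. -/
lemma Cyc.nrmU_eq {H H' : Subgroup GQ} {d : ℕ} {x : GQ → ZMod d} {σ τ : GQ}
    (h : Cyc H H' d x σ) (hτ : τ ∈ H) (hx : x τ = 1) {u : Qbˣ} (hu : u ∈ fixU H') :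
    nrmU τ d u = nrmU σ d u := by
  rw [nrmU_apply, nrmU_apply]
  refine Finset.prod_congr rfl fun i _ => Units.ext ?_
  have hs := H.pow_mem h.mem i
  have ht := H.pow_mem hτ i
  have : (σ ^ i)⁻¹ * τ ^ i ∈ H' := (h.ker _).2 ⟨H.mul_mem (H.inv_mem hs) ht, by
    rw [h.add _ (H.inv_mem hs) _ ht, h.map_inv hs, h.map_pow h.mem, h.map_pow hτ, h.gen, hx]; ring⟩
  have h2 := congrArg (σ ^ i) (hu _ this)
  rw [← AlgEquiv.mul_apply, mul_inv_cancel_left] at h2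
  exact h2

/-- `[B : B^r]`. -/
def pw {Γ : Type} [CommGroup Γ] (r : ℕ) (B : Subgroup Γ) : ℕ :=
  (B.map (powMonoidHom r)).relIndex B

/-- `|B[r]|`. -/
def tor {Γ : Type} [CommGroup Γ] (r : ℕ) (B : Subgroup Γ) : ℕ :=
  Nat.card (B ⊓ (powMonoidHom r).ker : Subgroup Γ)

/-- The fixed field of `U` is totally complex: it contains a root of unity of order `> 2`. -/
def TC (U : Subgroup GQ) : Prop := ∃ (n : ℕ) (ζ : Qb), 2 < n ∧ IsPrimitiveRoot ζ n ∧ IsFix U ζ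

lemma TC.mono {U U' : Subgroup GQ} (h : TC U) (hU : U' ≤ U) : TC U' :=
  h.imp fun _ h => h.imp fun _ h => ⟨h.1, h.2.1, h.2.2.mono hU⟩

/-- An open subgroup of `D` is cut out by an open subgroup of `GQ`. -/
lemma OpenIn.exists_inf {H D : Subgroup GQ} (h : OpenIn H D) : ∃ U, OpenIn U ⊤ ∧ D ⊓ U = H := by
  obtain ⟨hle, N, hN⟩ := h
  refine ⟨H ⊔ (N : Subgroup GQ), ⟨le_top, N, fun g _ hg => Subgroup.mem_sup_right hg⟩,
    le_antisymm (fun g hg => ?_) (le_inf hle le_sup_left)⟩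
  have h2 : g ∈ ((H ⊔ (N : Subgroup GQ) : Subgroup GQ) : Set GQ) := hg.2
  rw [Subgroup.mul_normal] at h2
  obtain ⟨k, hk, n, hn, rfl⟩ := h2
  have : n ∈ D := by simpa using D.mul_mem (D.inv_mem (hle hk)) hg.1
  exact H.mul_mem hk (hN n this hn)

lemma OpenIn.isOpen {U : Subgroup GQ} (h : OpenIn U ⊤) : IsOpen (U : Set GQ) := by
  obtain ⟨_, N, hN⟩ := h
  exact Subgroup.isOpen_mono (H₁ := (N : Subgroup GQ)) (fun g hg => hN g trivial hg)
    N.toOpenSubgroup.isOpen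

lemma OpenIn.isClosed {H D : Subgroup GQ} (h : OpenIn H D) (hD : IsClosed (D : Set GQ)) :
    IsClosed (H : Set GQ) := by
  obtain ⟨U, hU, rfl⟩ := h.exists_inf
  exact hD.inter (U.isClosed_of_isOpen hU.isOpen)

/-- Galois correspondence for closed subgroups. -/
lemma mem_of_fix {H : Subgroup GQ} (hH : IsClosed (H : Set GQ)) {g : GQ}
    (hg : ∀ x, IsFix H x → g x = x) : g ∈ H := by
  have h := InfiniteGalois.fixingSubgroup_fixedField (k := ℚ) (K := Qb) ⟨H, hH⟩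
  have h2 : g ∈ (IntermediateField.fixedField H).fixingSubgroup :=
    fun x => hg x ((isFix_iff H x).2 x.2)
  exact h.le h2

lemma isFix_top {x : Qb} (hx : IsFix ⊤ x) : ∃ q : ℚ, x = q := by
  have h := (isFix_iff ⊤ x).1 hx
  rw [InfiniteGalois.fixedField_bot, IntermediateField.mem_bot] at h
  obtain ⟨q, hq⟩ := h
  exact ⟨q, hq.symm⟩

end Units

section Places

/-- Places (and the trivial valuation `⊤`). -/
abbrev Pl : Type := ValuationSubring Qb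

/-- Decomposition group. -/
abbrev DG (V : Pl) : Subgroup GQ := V.decompositionSubgroup ℚ

/-- Inertia group, as a subgroup of `GQ`. -/
def IG (V : Pl) : Subgroup GQ := (V.inertiaSubgroup ℚ).map (DG V).subtype

lemma IG_le (V : Pl) : IG V ≤ DG V := Subgroup.map_subtype_le _

lemma mem_IG {V : Pl} (g : DG V) : (g : GQ) ∈ IG V ↔ g ∈ V.inertiaSubgroup ℚ :=
  ⟨fun ⟨_, hk, e⟩ => (Subtype.ext e : _ = g) ▸ hk, fun h => ⟨g, h, rfl⟩⟩

/-- The valuation ring of the fixed field of `H`, as an additive subgroup of `Qb`. -/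
def OH (V : Pl) (H : Subgroup GQ) : Subring Qb :=
  V.toSubring ⊓ (IntermediateField.fixedField H).toSubfield.toSubring

lemma mem_OH {V : Pl} {H : Subgroup GQ} {x : Qb} : x ∈ OH V H ↔ x ∈ V ∧ IsFix H x :=
  and_congr Iff.rfl (isFix_iff H x).symm

/-- `|O / c O|` for the valuation ring `O` of the fixed field of `H`. -/
def qO (V : Pl) (H : Subgroup GQ) (c : Qb) : ℕ :=
  ((OH V H).toAddSubgroup.map (AddMonoidHom.mulLeft c)).relIndex (OH V H).toAddSubgroup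

/-- `π` is a uniformiser of the fixed field of `H` at `V`. -/
def Unif (V : Pl) (H : Subgroup GQ) (π : Qbˣ) : Prop :=
  π ∈ fixU H ∧ V.valuation (π : Qb) < 1 ∧
    ∀ y ∈ fixU H, ∃ j : ℤ, V.valuation (y : Qb) = V.valuation (π : Qb) ^ j

/-- `R` is a finite set of pairwise non `U`-conjugate places. -/
def Rep (U : Subgroup GQ) (R : Finset Pl) : Prop :=
  (∀ V ∈ R, V ≠ ⊤) ∧ ∀ V ∈ R, ∀ W ∈ R, ∀ u ∈ U, u • V = W → V = W

/-- The `U`-conjugates of the places in `R`. -/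
def Sat (U : Subgroup GQ) (R : Finset Pl) : Set Pl := {W | ∃ V ∈ R, ∃ u ∈ U, W = u • V}

/-- The places above a finite set of primes. -/
def AboveSet (P : Finset ℕ) : Set Pl := {W | ∃ l ∈ P, l.Prime ∧ Above W l}

/-- `S`-units of the fixed field of `U`. -/
def ES (U : Subgroup GQ) (S : Set Pl) : Subgroup Qbˣ where
  carrier := {u | u ∈ fixU U ∧ ∀ W : Pl, W ∉ S → W.valuation (u : Qb) = 1}
  mul_mem' := fun {a b} ha hb => ⟨(fixU U).mul_mem ha.1 hb.1, fun W hW => by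
    rw [Units.val_mul, map_mul, ha.2 W hW, hb.2 W hW, one_mul]⟩
  one_mem' := ⟨(fixU U).one_mem, fun W _ => by simp⟩
  inv_mem' := fun {a} ha => ⟨(fixU U).inv_mem ha.1, fun W hW => by
    rw [Units.val_inv_eq_inv_val, map_inv₀, ha.2 W hW, inv_one]⟩

lemma mem_ES {U : Subgroup GQ} {S : Set Pl} {u : Qbˣ} :
    u ∈ ES U S ↔ u ∈ fixU U ∧ ∀ W : Pl, W ∉ S → W.valuation (u : Qb) = 1 := Iff.rfl

/-- The `S`-class group of the fixed field of `U` is trivial. -/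
def Adq (U : Subgroup GQ) (S : Set Pl) : Prop :=
  ∀ W₀ : Pl, W₀ ≠ ⊤ → W₀ ∉ S → ∃ π ∈ fixU U, Unif W₀ (DG W₀ ⊓ U) π ∧
    ∀ W : Pl, W ∉ S → (∀ u ∈ U, W ≠ u • W₀) → W.valuation (π : Qb) = 1

lemma Adq.mono {U : Subgroup GQ} {S S' : Set Pl} (h : Adq U S) (hS : S ⊆ S') : Adq U S' :=
  fun W₀ h0 hW => (h W₀ h0 fun h' => hW (hS h')).imp fun _ hπ =>
    ⟨hπ.1, hπ.2.1, fun W hW' => hπ.2.2 W fun h' => hW' (hS h')⟩

/-- `b` is a local norm at `V` for the cyclic extension `U' ≤ U` (no condition if `V` splits). -/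
def LocNorm (V : Pl) (U U' : Subgroup GQ) (r : ℕ) (x : GQ → ZMod r) (b : Qbˣ) : Prop :=
  ∀ τ ∈ DG V ⊓ U, x τ = 1 → b ∈ NG (DG V ⊓ U') τ r

/-- `f` is a coboundary on `D_V ∩ J` for every place `V`. -/
def LocTriv (J : Subgroup GQ) (f : GQ → GQ → AU) : Prop :=
  ∀ V : Pl, V ≠ ⊤ → B2 (DG V ⊓ J) aU f

/-- Extension by a junk value of a function on a subgroup. -/
def ext {X : Type} (H : Subgroup GQ) (x₀ : X) (c : H → X) : GQ → X :=
  open Classical in fun g => if h : g ∈ H then c ⟨g, h⟩ else x₀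

lemma ext_of_mem {X : Type} {H : Subgroup GQ} (x₀ : X) (c : H → X) {g : GQ} (h : g ∈ H) :
    ext H x₀ c g = c ⟨g, h⟩ := dif_pos h

@[simp] lemma ext_coe {X : Type} {H : Subgroup GQ} (x₀ : X) (c : H → X) (g : H) :
    ext H x₀ c g = c g := dif_pos g.2

end Places

section Roots

variable (p : ℕ) [Fact p.Prime]

lemma exists_root_step (n : ℕ) (z : Qb) (hz : IsPrimitiveRoot z (p ^ (n + 1))) :
    ∃ w : Qb, IsPrimitiveRoot w (p ^ (n + 2)) ∧ w ^ p = z := by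
  have hp : p.Prime := Fact.out
  obtain ⟨w, hw⟩ := IsAlgClosed.exists_pow_nat_eq z hp.pos
  refine ⟨w, ?_, hw⟩
  have h1 : w ^ p ^ (n + 2) = 1 := by rw [pow_succ' p (n + 1), pow_mul, hw, hz.pow_eq_one]
  have h2 : ¬ w ^ p ^ (n + 1) = 1 := by
    rw [pow_succ' p n, pow_mul, hw]
    exact hz.pow_ne_one_of_pos_of_lt (pow_pos hp.pos n).ne'
      (Nat.pow_lt_pow_right hp.one_lt (Nat.lt_succ_self n))
  rw [IsPrimitiveRoot.iff_orderOf]
  exact orderOf_eq_prime_pow h2 h1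

/-- Auxiliary compatible roots of unity of order `p^(n+1)`. -/
def ztAux : (n : ℕ) → {z : Qb // IsPrimitiveRoot z (p ^ (n + 1))}
  | 0 => ⟨(HasEnoughRootsOfUnity.exists_primitiveRoot Qb (p ^ 1)).choose,
      (HasEnoughRootsOfUnity.exists_primitiveRoot Qb (p ^ 1)).choose_spec⟩
  | n + 1 => ⟨(exists_root_step p n (ztAux n).1 (ztAux n).2).choose,
      (exists_root_step p n (ztAux n).1 (ztAux n).2).choose_spec.1⟩

/-- A compatible system `ζ_n` of primitive `p^n`-th roots of unity. -/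
def zt (n : ℕ) : Qb := (ztAux p n).1 ^ p

lemma zt_succ_eq (n : ℕ) : zt p (n + 1) = (ztAux p n).1 :=
  (exists_root_step p n (ztAux p n).1 (ztAux p n).2).choose_spec.2

lemma zt_succ_pow (n : ℕ) : zt p (n + 1) ^ p = zt p n := by rw [zt_succ_eq]; rfl

lemma zt_prim (n : ℕ) : IsPrimitiveRoot (zt p n) (p ^ n) :=
  (ztAux p n).2.pow (pow_pos (Fact.out : p.Prime).pos _) (pow_succ' p n)

lemma zt_prim_one : IsPrimitiveRoot (zt p 1) p := by simpa using zt_prim p 1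

lemma zt_ne_zero (n : ℕ) : zt p n ≠ 0 :=
  (zt_prim p n).ne_zero (pow_pos (Fact.out : p.Prime).pos n).ne'

/-- `ζ_n` as a unit. -/
def ztU (n : ℕ) : Qbˣ := Units.mk0 (zt p n) (zt_ne_zero p n)

/-- The cyclotomic character modulo `p^n`. -/
def chiN (n : ℕ) : GQ →* Gam p n := (Units.map (PadicInt.toZModPow n).toMonoidHom).comp (chi p)

lemma coe_chiN (n : ℕ) (g : GQ) :
    (chiN p n g : ZMod (p ^ n)) = PadicInt.toZModPow n (chi p g : ℤ_[p]) := rfl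

/-- `g ζ = ζ ^ χ(g)` for `p^n`-th roots of unity. -/
lemma apply_root (n : ℕ) (g : GQ) {t : Qb} (ht : t ^ p ^ n = 1) :
    g t = t ^ (chiN p n g : ZMod (p ^ n)).val :=
  cyclotomicCharacter.spec p (g : Qb ≃+* Qb) t ht

lemma ztU_pow (n : ℕ) : ztU p n ^ p ^ n = 1 := Units.ext (by
  simpa [ztU] using (zt_prim p n).pow_eq_one)

/-- `ℤ/p^n → Qbˣ`, `t ↦ ζ_n ^ t`. -/
def iot (n : ℕ) : ZMod (p ^ n) →+ AU :=
  (AddChar.zmodChar (p ^ n) (ztU_pow p n)).toAddMonoidHom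

lemma iot_apply (n : ℕ) (t : ZMod (p ^ n)) : iot p n t = Additive.ofMul (ztU p n ^ t.val) := rfl

lemma iot_natCast (n : ℕ) (k : ℕ) : iot p n (k : ZMod (p ^ n)) = Additive.ofMul (ztU p n ^ k) :=
  congrArg Additive.ofMul (AddChar.zmodChar_apply' (ztU_pow p n) k)

lemma aU_iot (n : ℕ) (g : GQ) (t : ZMod (p ^ n)) :
    aU g (iot p n t) = iot p n ((chiN p n g : ZMod (p ^ n)) * t) := by
  have : (chiN p n g : ZMod (p ^ n)) * t =
      (((chiN p n g : ZMod (p ^ n)).val * t.val : ℕ) : ZMod (p ^ n)) := by simp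
  rw [this, iot_natCast, iot_apply, aU_ofMul, map_pow, pow_mul]
  congr 2
  exact Units.ext (by simpa [ztU] using apply_root p n g (zt_prim p n).pow_eq_one)

lemma iot_red (n : ℕ) (t : ZMod (p ^ (n + 1))) : iot p n (red p n t) = p • iot p (n + 1) t := by
  have h : t = (t.val : ZMod (p ^ (n + 1))) := by simp
  have h2 : ztU p (n + 1) ^ p = ztU p n := Units.ext (by simpa [ztU] using zt_succ_pow p n)
  rw [h, map_natCast, iot_natCast, iot_natCast, ← ofMul_pow, ← pow_mul, mul_comm, pow_mul, h2]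

lemma ztU_prim (n : ℕ) : IsPrimitiveRoot (ztU p n) (p ^ n) :=
  IsPrimitiveRoot.coe_units_iff.1 (zt_prim p n)

lemma iot_injective (n : ℕ) : Function.Injective (iot p n) := fun s t h =>
  ZMod.val_injective _ ((ztU_prim p n).pow_inj (ZMod.val_lt _) (ZMod.val_lt _)
    (congrArg Additive.toMul h))

lemma exists_iot (n : ℕ) {u : Qbˣ} (hu : u ^ p ^ n = 1) : ∃ t, iot p n t = Additive.ofMul u := by
  obtain ⟨i, -, hi⟩ := (zt_prim p n).eq_pow_of_pow_eq_one (ξ := (u : Qb))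
    (by simpa using congrArg Units.val hu)
  refine ⟨i, ?_⟩
  rw [iot_natCast]
  exact congrArg Additive.ofMul (Units.ext (by simpa [ztU] using hi))

/-- The cyclotomic character modulo `p`. -/
def om (g : GQ) : ZMod p := PadicInt.toZMod (chi p g : ℤ_[p])

lemma om_one : om p 1 = 1 := by simp [om]

lemma om_mul (g h : GQ) : om p (g * h) = om p g * om p h := by simp [om]

/-- The identification `ℤ/p = ℤ/p^1`. -/
def e1 : ZMod p ≃+* ZMod (p ^ 1) := ZMod.ringEquivCongr (pow_one p).symm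

lemma e1_toZMod (x : ℤ_[p]) : e1 p (PadicInt.toZMod x) = PadicInt.toZModPow 1 x := by
  have h1 : x - (x.appr 1 : ℤ_[p]) ∈ RingHom.ker (PadicInt.toZModPow (p := p) 1) := by
    rw [PadicInt.ker_toZModPow]; exact PadicInt.appr_spec 1 x
  have h2 : x - (x.appr 1 : ℤ_[p]) ∈ RingHom.ker (PadicInt.toZMod (p := p)) := by
    rw [PadicInt.ker_toZMod, PadicInt.maximalIdeal_eq_span_p]
    simpa using PadicInt.appr_spec 1 x
  rw [RingHom.mem_ker, map_sub, sub_eq_zero] at h1 h2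
  rw [h1, h2, map_natCast, map_natCast, map_natCast]

/-- `ℤ/p → Qbˣ`, `t ↦ ζ_1 ^ t`. -/
def iot1 : ZMod p →+ AU := (iot p 1).comp (e1 p).toAddMonoidHom

lemma iot1_apply (t : ZMod p) : iot1 p t = Additive.ofMul (ztU p 1 ^ t.val) := by
  have h : t = (t.val : ZMod p) := by simp
  change iot p 1 (e1 p t) = _
  rw [h, map_natCast, iot_natCast, ← h]

lemma aU_iot1 (g : GQ) (t : ZMod p) : aU g (iot1 p t) = iot1 p (om p g * t) := by
  change aU g (iot p 1 (e1 p t)) = iot p 1 (e1 p _)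
  rw [aU_iot, map_mul (e1 p), om, e1_toZMod, coe_chiN]

lemma iot1_injective : Function.Injective (iot1 p) := (iot_injective p 1).comp (e1 p).injective

lemma exists_iot1 {u : Qbˣ} (hu : u ^ p = 1) : ∃ t, iot1 p t = Additive.ofMul u := by
  obtain ⟨t, ht⟩ := exists_iot p 1 (u := u) (by simpa using hu)
  exact ⟨(e1 p).symm t, by rw [← ht]; exact congrArg (iot p 1) ((e1 p).apply_symm_apply t)⟩

lemma om_eq_one_iff (g : GQ) : om p g = 1 ↔ g (zt p 1) = zt p 1 := by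
  have h := aU_iot1 p g 1
  have h1 : iot1 p 1 = Additive.ofMul (ztU p 1) := by
    rw [iot1_apply, ZMod.val_one, pow_one]
  rw [mul_one] at h
  constructor
  · intro h2
    rw [h2, h1] at h
    exact congrArg (fun u : AU => ((u.toMul : Qbˣ) : Qb)) h
  · intro h2
    apply iot1_injective p
    rw [← h, h1]
    exact congrArg Additive.ofMul (Units.ext h2)

lemma tc_of_fix (hp : p ≠ 2) {U : Subgroup GQ} (h : IsFix U (zt p 1)) : TC U :=
  ⟨p, zt p 1, lt_of_le_of_ne (Fact.out : p.Prime).two_le hp.symm, zt_prim_one p, h⟩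

/-- The action of `g` on a ring by multiplication by `θ g`. -/
def mulAct {R : Type} [CommRing R] (θ : GQ → R) (g : GQ) : R →+ R := AddMonoidHom.mulLeft (θ g)

@[simp] lemma mulAct_apply {R : Type} [CommRing R] (θ : GQ → R) (g : GQ) (t : R) :
    mulAct θ g t = θ g * t := rfl

/-- `θ` is a smooth character of `H` with values in a commutative ring. -/
structure IsChar {R : Type} [CommRing R] (H : Subgroup GQ) (θ : GQ → R) : Prop where
  one : θ 1 = 1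
  mul : ∀ g ∈ H, ∀ h ∈ H, θ (g * h) = θ g * θ h
  smooth : Sm1 H θ

lemma IsChar.isAct {R : Type} [CommRing R] {H : Subgroup GQ} {θ : GQ → R} (h : IsChar H θ) :
    IsAct H (mulAct θ) :=
  ⟨fun m => by simp [h.one], fun g hg k hk m => by simp [h.mul g hg k hk, mul_assoc],
    fun m => h.smooth.imp fun _ hN n hn hnN => by
      have := hN 1 H.one_mem n hn hnN
      rw [one_mul, h.one] at this
      simp [this]⟩

lemma sm1_chiN (H : Subgroup GQ) (n : ℕ) : Sm1 H (chiN p n) := by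
  obtain ⟨N, hN⟩ := exists_ons_fix (zt p n)
  refine ⟨N, fun g _ k _ hk => ?_⟩
  have h1 : chiN p n k = 1 := by
    have h := (apply_root p n k (zt_prim p n).pow_eq_one).symm.trans (hN k hk)
    have h2 : zt p n ^ (chiN p n k : ZMod (p ^ n)).val = zt p n ^ (1 : ZMod (p ^ n)).val := by
      rw [h]
      have := apply_root p n 1 (zt_prim p n).pow_eq_one
      simpa using this
    exact Units.ext (ZMod.val_injective _
      ((zt_prim p n).pow_inj (ZMod.val_lt _) (ZMod.val_lt _) h2))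
  rw [map_mul, h1, mul_one]

lemma isChar_om (H : Subgroup GQ) : IsChar H (om p) := by
  refine ⟨om_one p, fun g _ h _ => om_mul p g h, ?_⟩
  have := (sm1_chiN p H 1).comp fun u => (e1 p).symm (u : ZMod (p ^ 1))
  refine this.imp fun _ hN g hg n hn h => ?_
  have h2 := hN g hg n hn h
  simp only [coe_chiN, ← e1_toZMod, RingEquiv.symm_apply_apply] at h2
  exact h2

end Roots

section Star

variable (p : ℕ) [Fact p.Prime]

lemma lam_ext {x y : Lam p} (h : ∀ n, proj p n x = proj p n y) : x = y :=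
  Subtype.ext (funext h)

lemma trans_proj (n : ℕ) (x : Lam p) : trans p n (proj p (n + 1) x) = proj p n x := x.2 n

/-- An element of `Λ` from a compatible family. -/
def mkLam (x : ∀ n, LamN p n) (h : ∀ n, trans p n (x (n + 1)) = x n) : Lam p := ⟨x, h⟩

@[simp] lemma proj_mkLam (x : ∀ n, LamN p n) (h : ∀ n, trans p n (x (n + 1)) = x n) (n : ℕ) :
    proj p n (mkLam p x h) = x n := rfl

lemma proj_cst (n : ℕ) (x : ℤ_[p]) :
    proj p n (cst p x) = MonoidAlgebra.single 1 (PadicInt.toZModPow n x) := rfl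

lemma proj_grp (n : ℕ) (γ : ℤ_[p]ˣ) :
    proj p n (grp p γ) =
      MonoidAlgebra.single (Units.map (PadicInt.toZModPow n).toMonoidHom γ) 1 := rfl

lemma toZModPow_eval (j : ℤ) (n : ℕ) (x : Lam p) :
    PadicInt.toZModPow n (eval p j x) = evalN p j n (proj p n x) :=
  RingHom.congr_fun (PadicInt.lift_spec (eval_compat p j) n) x

lemma eval_cst (j : ℤ) (x : ℤ_[p]) : eval p j (cst p x) = x :=
  PadicInt.ext_of_toZModPow.1 fun n => by rw [toZModPow_eval, proj_cst, evalN_single]; simp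

lemma eval_grp (j : ℤ) (γ : ℤ_[p]ˣ) : eval p j (grp p γ) = ((γ ^ (-j) : ℤ_[p]ˣ) : ℤ_[p]) :=
  PadicInt.ext_of_toZModPow.1 fun n => by
    rw [toZModPow_eval, proj_grp, evalN_single, one_mul, ← map_zpow]; rfl

/-- `[γ] ↦ γ^(-2m) [γ⁻¹]` on group elements. -/
def starG (m : ℤ) (n : ℕ) : Gam p n →* LamN p n where
  toFun γ := MonoidAlgebra.single γ⁻¹ ((γ ^ (-(2 * m)) : Gam p n) : ZMod (p ^ n))
  map_one' := by simp [MonoidAlgebra.one_def]
  map_mul' a b := by rw [MonoidAlgebra.single_mul_single, mul_zpow, mul_inv, Units.val_mul]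

/-- The involution of `Λ_n`. -/
def starN (m : ℤ) (n : ℕ) : LamN p n →+* LamN p n :=
  MonoidAlgebra.liftNCRingHom MonoidAlgebra.singleOneRingHom (starG p m n)
    (fun _ _ => Commute.all _ _)

lemma starN_single (m : ℤ) (n : ℕ) (γ : Gam p n) (c : ZMod (p ^ n)) :
    starN p m n (MonoidAlgebra.single γ c) =
      MonoidAlgebra.single γ⁻¹ (c * ((γ ^ (-(2 * m)) : Gam p n) : ZMod (p ^ n))) := by
  simp [starN, starG, MonoidAlgebra.liftNCRingHom, MonoidAlgebra.single_mul_single]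

lemma trans_starN (m : ℤ) (n : ℕ) (x : LamN p (n + 1)) :
    trans p n (starN p m (n + 1) x) = starN p m n (trans p n x) := by
  induction x using MonoidAlgebra.induction_linear with
  | zero => simp
  | add a b ha hb => simp only [map_add, ha, hb]
  | single γ c =>
    rw [starN_single, trans_single, trans_single, starN_single, map_mul, map_inv, ← map_zpow]
    rfl

lemma starN_starN (m : ℤ) (n : ℕ) (x : LamN p n) : starN p m n (starN p m n x) = x := by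
  induction x using MonoidAlgebra.induction_linear with
  | zero => simp
  | add a b ha hb => simp only [map_add, ha, hb]
  | single γ c =>
    rw [starN_single, starN_single, inv_inv, mul_assoc, ← Units.val_mul, ← mul_zpow]
    simp

lemma evalN_starN (m : ℤ) (n : ℕ) (x : LamN p n) :
    evalN p m n (starN p m n x) = evalN p m n x := by
  induction x using MonoidAlgebra.induction_linear with
  | zero => simp
  | add a b ha hb => simp only [map_add, ha, hb]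
  | single γ c =>
    rw [starN_single, evalN_single, evalN_single, mul_assoc, ← Units.val_mul, inv_zpow',
      ← zpow_add]
    congr 3
    ring

/-- The involution `*` of `Λ`. -/
def star (m : ℤ) : Lam p →+* Lam p where
  toFun x := mkLam p (fun n => starN p m n (proj p n x)) fun n => by rw [trans_starN, trans_proj]
  map_one' := lam_ext p fun n => by simp
  map_mul' a b := lam_ext p fun n => by simp
  map_zero' := lam_ext p fun n => by simp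
  map_add' a b := lam_ext p fun n => by simp

lemma proj_star (m : ℤ) (n : ℕ) (x : Lam p) : proj p n (star p m x) = starN p m n (proj p n x) :=
  rfl

lemma star_star (m : ℤ) (x : Lam p) : star p m (star p m x) = x :=
  lam_ext p fun n => by rw [proj_star, proj_star, starN_starN]

lemma eval_star (m : ℤ) (x : Lam p) : eval p m (star p m x) = eval p m x :=
  PadicInt.ext_of_toZModPow.1 fun n => by
    rw [toZModPow_eval, toZModPow_eval, proj_star, evalN_starN]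

lemma star_cst (m : ℤ) (x : ℤ_[p]) : star p m (cst p x) = cst p x :=
  lam_ext p fun n => by rw [proj_star, proj_cst, starN_single]; simp

lemma star_grp (m : ℤ) (γ : ℤ_[p]ˣ) :
    star p m (grp p γ) = grp p γ⁻¹ * cst p ((γ ^ (-(2 * m)) : ℤ_[p]ˣ) : ℤ_[p]) :=
  lam_ext p fun n => by
    rw [proj_star, map_mul, proj_grp, proj_grp, proj_cst, starN_single,
      MonoidAlgebra.single_mul_single, mul_one, map_inv, ← map_zpow]
    rfl

/-- Evaluation at `χ^(-j)` modulo `p`. -/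
def ev1 (j : ℤ) : Lam p →+* ZMod p := PadicInt.toZMod.comp (eval p j)

/-- The pairing `⟨s, t⟩ = s₀ t₁^* - s₁ t₀^*`. -/
def pairL (m : ℤ) (s t : Fin 2 → Lam p) : Lam p := s 0 * star p m (t 1) - s 1 * star p m (t 0)

/-- The action on `Λ_n(1)`. -/
def chiAct (n : ℕ) : GQ → LamN p n →+ LamN p n :=
  mulAct fun g => MonoidAlgebra.single 1 (chiN p n g : ZMod (p ^ n))

/-- `F` is a continuous 2-cocycle of `H` with values in `Λ(1)`. -/
def ZZ (H : Subgroup GQ) (F : GQ → GQ → Lam p) : Prop :=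
  ∀ n, Z2 H (chiAct p n) fun g h => proj p n (F g h)

/-- Every level of `F` is a coboundary. -/
def BB (H : Subgroup GQ) (F : GQ → GQ → Lam p) : Prop :=
  ∀ n, B2 H (chiAct p n) fun g h => proj p n (F g h)

/-- Every group-ring coefficient of `F` is trivial in the Brauer group of `H`. -/
def TrivBr (H : Subgroup GQ) (F : GQ → GQ → Lam p) : Prop :=
  ∀ (n : ℕ) (γ : Gam p n), B2 H aU fun g h => iot p n ((proj p n (F g h)).coeff γ)

variable {p}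

/-- The scalar `δ(g) [χ g]⁻¹` by which `g ∈ D` acts on `Λ(δ)`. -/
def sc (V : Pl) (δ : DG V →* ℤ_[p]ˣ) : GQ → Lam p :=
  ext (DG V) 1 fun g => grp p (chi p g)⁻¹ * cst p (δ g)

lemma actL_apply (V : Pl) (δ : DG V →* ℤ_[p]ˣ) (g : DG V) (x : Lam p) :
    actL V δ g x = sc V δ g * x := by simp [actL, sc]

/-- The character `δ` modulo `p`. -/
def dbar (V : Pl) (δ : DG V →* ℤ_[p]ˣ) : GQ → ZMod p :=
  ext (DG V) 1 fun g => PadicInt.toZMod (δ g : ℤ_[p])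

/-- The action on `T ⊗ Λ_n^ι`. -/
def actN (ρ : GQ →* GL (Fin 2) ℤ_[p]) (n : ℕ) (g : GQ) :
    (Fin 2 → LamN p n) →+ (Fin 2 → LamN p n) :=
  ((proj p n (grp p (chi p g)⁻¹)) • Matrix.mulVecLin
    ((ρ g : Matrix (Fin 2) (Fin 2) ℤ_[p]).map ((proj p n).comp (cst p)))).toAddMonoidHom

lemma proj_actG (ρ : GQ →* GL (Fin 2) ℤ_[p]) (n : ℕ) (g : GQ) (v : Fin 2 → Lam p) :
    (fun i => proj p n (actG ρ g v i)) = actN ρ n g fun i => proj p n (v i) := by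
  funext i
  fin_cases i <;> simp [actG, actN]

end Star

end Pool.Agent.MP_59efd2_nt.lz

end
end MrgPart1

-- ======== part 2: formerly Pool.Agent.MP_59efd2_nt.lz.Spec
section MrgPart2

/-!
# The rows of the stage 1 proof, as propositions
-/

noncomputable section

namespace Pool.Agent.MP_59efd2_nt.lz

open scoped Pointwise Classical
open Additive Finset

/-! ## Cohomology -/

/-- Row COH1. -/
structure Coh1Stmt : Prop where
  trans : ∀ (M : Type) [AddCommGroup M] (H H' : Subgroup GQ) (a : GQ → M →+ M) (f : GQ → GQ → M),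
    IsAct H a → OpenIn H' H → Z2 H a f → B2 H' a f → B2 H a (H'.relIndex H • f)
  transCop : ∀ (M : Type) [AddCommGroup M] (H H' : Subgroup GQ) (a : GQ → M →+ M)
    (f : GQ → GQ → M) (p n : ℕ), IsAct H a → OpenIn H' H → Z2 H a f → B2 H' a f →
    Nat.Coprime p (H'.relIndex H) → B2 H a (p ^ n • f) → B2 H a f
  conj : ∀ (M : Type) [AddCommGroup M] (H : Subgroup GQ) (a : GQ → M →+ M) (f : GQ → GQ → M),
    IsAct H a → Z2 H a f → ∀ g ∈ H,
    B2 H a fun x y => a g (f (g⁻¹ * x * g) (g⁻¹ * y * g)) - f x y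
  ext : ∀ (M : Type) [AddCommGroup M] (H J : Subgroup GQ) (a : GQ → M →+ M) (f : GQ → GQ → M),
    IsAct H a → J ≤ H → Z2 H a f → B2 J a f → ∃ H', J ≤ H' ∧ OpenIn H' H ∧ B2 H' a f
  cycEx : ∀ (H H' : Subgroup GQ) (r : ℕ), r.Prime → OpenIn H' H → NormalIn H' H →
    H'.relIndex H = r → ∃ x σ, Cyc H H' r x σ
  cycIdx : ∀ (H H' : Subgroup GQ) (d : ℕ) (x : GQ → ZMod d) (σ : GQ), Cyc H H' d x σ →
    H'.relIndex H = d
  transv : ∀ (H H' : Subgroup GQ), OpenIn H' H → ∃ Rr : Finset GQ, (∀ r ∈ Rr, r ∈ H) ∧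
    Rr.card = H'.relIndex H ∧ ∀ g ∈ H, ∃! r, r ∈ Rr ∧ r⁻¹ * g ∈ H'
  cores : ∀ (M : Type) [AddCommGroup M] (H H' : Subgroup GQ) (a : GQ → M →+ M) (c : GQ → M)
    (Rr : Finset GQ), IsAct H a → OpenIn H' H → NormalIn H' H → (∀ r ∈ Rr, r ∈ H) →
    (∀ g ∈ H, ∃! r, r ∈ Rr ∧ r⁻¹ * g ∈ H') → Zo H' a c →
    ∃ c', Zo H a c' ∧ ∀ h ∈ H', c' h = ∑ r ∈ Rr, a r (c (r⁻¹ * h * r))

/-- Row COH2. -/
structure Coh2Stmt : Prop where
  infl : ∀ (M : Type) [AddCommGroup M] (H H' : Subgroup GQ) (a : GQ → M →+ M) (f : GQ → GQ → M),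
    IsAct H a → OpenIn H' H → NormalIn H' H → V1 H' a → Z2 H a f → B2 H' a f →
    ∃ f', Z2 H a f' ∧ Infl H H' a f' ∧ B2 H a (f - f')
  cycNf : ∀ (M : Type) [AddCommGroup M] (H H' : Subgroup GQ) (a : GQ → M →+ M) (f : GQ → GQ → M)
    (d : ℕ) (x : GQ → ZMod d) (σ : GQ), IsAct H a → Cyc H H' d x σ → Z2 H a f → Infl H H' a f →
    (∀ g ∈ H, a g (∑ i ∈ range d, f (σ ^ i) σ) = ∑ i ∈ range d, f (σ ^ i) σ) ∧
      B2 H a (f - cyc d x (∑ i ∈ range d, f (σ ^ i) σ))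
  cycZ : ∀ (M : Type) [AddCommGroup M] (H H' : Subgroup GQ) (a : GQ → M →+ M)
    (d : ℕ) (x : GQ → ZMod d) (σ : GQ) (m : M), IsAct H a → Cyc H H' d x σ →
    (∀ g ∈ H, a g m = m) → Z2 H a (cyc d x m)
  cycOfNorm : ∀ (M : Type) [AddCommGroup M] (H H' : Subgroup GQ) (a : GQ → M →+ M)
    (d : ℕ) (x : GQ → ZMod d) (σ : GQ) (y : M), IsAct H a → Cyc H H' d x σ →
    (∀ n ∈ H', a n y = y) → B2 H a (cyc d x (∑ i ∈ range d, a (σ ^ i) y))
  normOfCyc : ∀ (M : Type) [AddCommGroup M] (H H' : Subgroup GQ) (a : GQ → M →+ M)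
    (d : ℕ) (x : GQ → ZMod d) (σ : GQ) (m : M), IsAct H a → Cyc H H' d x σ → V1 H' a →
    (∀ g ∈ H, a g m = m) → B2 H a (cyc d x m) →
    ∃ y, (∀ n ∈ H', a n y = y) ∧ ∑ i ∈ range d, a (σ ^ i) y = m

/-- A short exact sequence of smooth `H`-modules. -/
structure SES {A B C : Type} [AddCommGroup A] [AddCommGroup B] [AddCommGroup C] (H : Subgroup GQ)
    (aA : GQ → A →+ A) (aB : GQ → B →+ B) (aC : GQ → C →+ C) (ι : A →+ B) (π : B →+ C) :
    Prop where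
  actA : IsAct H aA
  actB : IsAct H aB
  actC : IsAct H aC
  inj : Function.Injective ι
  surj : Function.Surjective π
  exa : ∀ b, π b = 0 ↔ ∃ a, ι a = b
  eqι : ∀ g ∈ H, ∀ a, ι (aA g a) = aB g (ι a)
  eqπ : ∀ g ∈ H, ∀ b, π (aB g b) = aC g (π b)

/-- An equivariant pairing of smooth `H`-modules. -/
structure Pairing {A A' C : Type} [AddCommGroup A] [AddCommGroup A'] [AddCommGroup C]
    (H : Subgroup GQ) (a : GQ → A →+ A) (a' : GQ → A' →+ A') (aC : GQ → C →+ C)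
    (B : A →+ A' →+ C) : Prop where
  act : IsAct H a
  act' : IsAct H a'
  actC : IsAct H aC
  eqv : ∀ g ∈ H, ∀ s t, B (a g s) (a' g t) = aC g (B s t)

/-- Row COH3. -/
structure Coh3Stmt : Prop where
  sesV2 : ∀ (A B C : Type) [AddCommGroup A] [AddCommGroup B] [AddCommGroup C] (H : Subgroup GQ)
    (aA : GQ → A →+ A) (aB : GQ → B →+ B) (aC : GQ → C →+ C) (ι : A →+ B) (π : B →+ C),
    SES H aA aB aC ι π → V2 H aA → V2 H aC → V2 H aB
  sesLift : ∀ (A B C : Type) [AddCommGroup A] [AddCommGroup B] [AddCommGroup C] (H : Subgroup GQ)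
    (aA : GQ → A →+ A) (aB : GQ → B →+ B) (aC : GQ → C →+ C) (ι : A →+ B) (π : B →+ C),
    SES H aA aB aC ι π → V2 H aA → ∀ c, Zo H aC c → ∃ c', Zo H aB c' ∧ ∀ g ∈ H, π (c' g) = c g
  cup : ∀ (A A' C : Type) [AddCommGroup A] [AddCommGroup A'] [AddCommGroup C] (H : Subgroup GQ)
    (a : GQ → A →+ A) (a' : GQ → A' →+ A') (aC : GQ → C →+ C) (B : A →+ A' →+ C)
    (c : GQ → A) (c' : GQ → A'), Pairing H a a' aC B → Zo H a c → Zo H a' c' →
    (Z2 H aC fun g h => B (c g) (a' g (c' h))) ∧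
    (Bo H a c → B2 H aC fun g h => B (c g) (a' g (c' h))) ∧
    (Bo H a' c' → B2 H aC fun g h => B (c g) (a' g (c' h))) ∧
    (B2 H aC fun g h => B (c g) (a' g (c' h)) + B (a g (c h)) (c' g))
  h90 : ∀ H : Subgroup GQ, V1 H aU
  cycH90 : ∀ (H H' : Subgroup GQ) (d : ℕ) (x : GQ → ZMod d) (σ : GQ), Cyc H H' d x σ →
    ∀ u ∈ fixU H', nrmU σ d u = 1 → ∃ y ∈ fixU H', u = sU σ y / y
  kumInj : ∀ (p : ℕ) [Fact p.Prime] (H : Subgroup GQ) (f : GQ → GQ → ZMod p),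
    Z2 H (mulAct (om p)) f → (B2 H aU fun g h => iot1 p (f g h)) → B2 H (mulAct (om p)) f
  kumOf : ∀ (p : ℕ) [Fact p.Prime] (n : ℕ) (H : Subgroup GQ) (w : Qbˣ), w ^ p ^ n ∈ fixU H →
    ∃ κ : GQ → ZMod (p ^ n), Zo H (mulAct fun g => (chiN p n g : ZMod (p ^ n))) κ ∧
      ∀ g ∈ H, iot p n (κ g) = ofMul (sU g w / w)
  kumTo : ∀ (p : ℕ) [Fact p.Prime] (n : ℕ) (H : Subgroup GQ) (κ : GQ → ZMod (p ^ n)),
    Zo H (mulAct fun g => (chiN p n g : ZMod (p ^ n))) κ →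
    ∃ w : Qbˣ, w ^ p ^ n ∈ fixU H ∧ ∀ g ∈ H, iot p n (κ g) = ofMul (sU g w / w)
  kumOf1 : ∀ (p : ℕ) [Fact p.Prime] (H : Subgroup GQ) (w : Qbˣ), w ^ p ∈ fixU H →
    ∃ κ : GQ → ZMod p, Zo H (mulAct (om p)) κ ∧ ∀ g ∈ H, iot1 p (κ g) = ofMul (sU g w / w)
  kumTo1 : ∀ (p : ℕ) [Fact p.Prime] (H : Subgroup GQ) (κ : GQ → ZMod p),
    Zo H (mulAct (om p)) κ →
    ∃ w : Qbˣ, w ^ p ∈ fixU H ∧ ∀ g ∈ H, iot1 p (κ g) = ofMul (sU g w / w)

/-- Row DV, first part: devissage to cyclic steps of degree `p`. -/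
def DvStmt : Prop :=
  ∀ (p : ℕ), p.Prime → ∀ (J : Subgroup GQ) (P : Subgroup GQ → (GQ → GQ → AU) → Prop),
    (∀ J' J'' f, J'' ≤ J' → P J' f → P J'' f) →
    (∀ J' f f', B2 J' aU (f - f') → P J' f → P J' f') →
    (∀ J' J'' x σ m, OpenIn J' J → Cyc J' J'' p x σ → m ∈ fixU J' → P J' (cyc p x (ofMul m)) →
      m ∈ NG J'' σ p) →
    ∀ f, Z2 J aU f → (∃ n, B2 J aU (p ^ n • f)) → P J f → B2 J aU f

/-- Row TATE: Herbrand quotient for prime order when `Ĥ⁻¹ = 0`. -/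
def TateStmt : Prop :=
  ∀ (r : ℕ), r.Prime → ∀ (σ : GQ) (A A₀ : Subgroup Qbˣ), (∀ a ∈ A, sU σ a ∈ A) →
    (∀ a ∈ A, sU (σ ^ r) a = a) → (∀ a, a ∈ A₀ ↔ a ∈ A ∧ sU σ a = a) →
    pw r A ≠ 0 → tor r A ≠ 0 → (∀ a ∈ A, nrmU σ r a = 1 → ∃ y ∈ A, a = sU σ y / y) →
    pw r A₀ ≠ 0 ∧
      (A.map (nrmU σ r)).relIndex A₀ ^ (r - 1) * pw r A * tor r A₀ ^ r = tor r A * pw r A₀ ^ r

/-! ## Places and local fields -/

/-- Row VAL. -/
structure ValStmt : Prop where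
  inv : ∀ (V : Pl), ∀ g ∈ DG V, ∀ x, V.valuation (g x) = V.valuation x
  smul_le : ∀ (V : Pl) (g : GQ) (x y : Qb),
    (g • V).valuation (g x) ≤ (g • V).valuation (g y) ↔ V.valuation x ≤ V.valuation y
  smul_lt : ∀ (V : Pl) (g : GQ) (x : Qb), (g • V).valuation (g x) < 1 ↔ V.valuation x < 1
  smul_one : ∀ (V : Pl) (g : GQ) (x : Qb), (g • V).valuation (g x) = 1 ↔ V.valuation x = 1
  smul_top : ∀ (V : Pl) (g : GQ), g • V = ⊤ ↔ V = ⊤
  dg_smul : ∀ (V : Pl) (g k : GQ), k ∈ DG (g • V) ↔ g⁻¹ * k * g ∈ DG V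
  ig_smul : ∀ (V : Pl) (g k : GQ), k ∈ IG (g • V) ↔ g⁻¹ * k * g ∈ IG V
  ig : ∀ (V : Pl) (g : GQ), g ∈ IG V ↔ g ∈ DG V ∧ ∀ x ∈ V, V.valuation (g x - x) < 1
  ig_normal : ∀ V : Pl, NormalIn (IG V) (DG V)
  dg_closed : ∀ V : Pl, IsClosed (DG V : Set GQ)
  ig_closed : ∀ V : Pl, IsClosed (IG V : Set GQ)
  above_ex : ∀ V : Pl, V ≠ ⊤ → ∃ l : ℕ, l.Prime ∧ Above V l
  above_ne : ∀ (V : Pl) (l : ℕ), l ≠ 0 → Above V l → V ≠ ⊤
  ex_above : ∀ l : ℕ, l.Prime → ∃ V : Pl, Above V l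
  above_smul : ∀ (V : Pl) (g : GQ) (l : ℕ), Above (g • V) l ↔ Above V l
  top_one : ∀ x : Qb, x ≠ 0 → (⊤ : Pl).valuation x = 1
  int : ∀ (V : Pl) (l : ℕ), l.Prime → Above V l → ∀ n : ℤ, V.valuation (n : Qb) = 1 ↔ ¬ (l : ℤ) ∣ n
  integral : ∀ (V : Pl) (x : Qb), IsIntegral ℤ x → x ∈ V
  arch : ∀ (V : Pl) (l : ℕ), l.Prime → Above V l → ∀ x : Qb, x ≠ 0 →
    ∃ (m : ℕ) (j : ℤ), 0 < m ∧ V.valuation x ^ m = V.valuation (l : Qb) ^ j
  hensel : ∀ (V : Pl) (H : Subgroup GQ), H ≤ DG V → ∀ P : Polynomial Qb, P.Monic →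
    (∀ i, P.coeff i ∈ OH V H) → ∀ r ∈ OH V H, V.valuation (P.eval r) < 1 →
    V.valuation (P.derivative.eval r) = 1 → ∃ s ∈ OH V H, P.eval s = 0 ∧ V.valuation (s - r) < 1
  mu : ∀ (V : Pl) (r : ℕ), r.Prime → ∀ ζ : Qb, ζ ^ r = 1 → ζ ≠ 1 →
    V.valuation (ζ - 1) ^ (r - 1) = V.valuation (r : Qb)
  mu' : ∀ (V : Pl) (n : ℕ) (ζ : Qb), V.valuation (n : Qb) = 1 → ζ ^ n = 1 →
    V.valuation (ζ - 1) < 1 → ζ = 1
  root : ∀ (V : Pl) (H : Subgroup GQ), H ≤ DG V → ∀ r : ℕ, r.Prime → ∀ x : Qb, IsFix H x →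
    V.valuation (x - 1) ^ (r - 1) < V.valuation (r : Qb) ^ r →
    ∃ y, IsFix H y ∧ y ^ r = x ∧ V.valuation (y - 1) * V.valuation (r : Qb) = V.valuation (x - 1)
  teich : ∀ (V : Pl) (l : ℕ), l.Prime → Above V l → ∀ x : Qb, V.valuation x = 1 →
    ∃ (n : ℕ) (ζ : Qb), ¬ l ∣ n ∧ ζ ^ n = 1 ∧ V.valuation (x - ζ) < 1

/-- The number of places of `R` that do not split in `U'`. -/
def nsp (U U' : Subgroup GQ) (R : Finset Pl) : ℕ := (R.filter fun V => ¬ DG V ⊓ U ≤ U').card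

/-- Row PLC. -/
structure PlcStmt : Prop where
  trans : ∀ (U : Subgroup GQ) (V W : Pl), OpenIn U ⊤ → (∀ x, IsFix U x → (x ∈ V ↔ x ∈ W)) →
    ∃ u ∈ U, W = u • V
  rep : ∀ (U : Subgroup GQ) (R₀ : Finset Pl) (P : Finset ℕ), OpenIn U ⊤ → Rep U R₀ →
    ∃ R, R₀ ⊆ R ∧ Rep U R ∧ Sat U R = Sat U R₀ ∪ AboveSet P
  supp : ∀ x : Qbˣ, ∃ P : Finset ℕ, ∀ W : Pl, W ∉ AboveSet P → W.valuation (x : Qb) = 1
  primes : ∀ R : Finset Pl, (∀ V ∈ R, V ≠ ⊤) → ∃ P : Finset ℕ, ∀ U, Sat U R ⊆ AboveSet P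
  ram : ∀ N : ONS, ∃ P : Finset ℕ, ∀ W : Pl, W ≠ ⊤ → W ∉ AboveSet P → ∀ g ∈ IG W, g ∈ N
  split : ∀ (U U' : Subgroup GQ) (r : ℕ) (x : GQ → ZMod r) (σ : GQ) (R : Finset Pl), r.Prime →
    Cyc U U' r x σ → Rep U R → ∃ R', Rep U' R' ∧ Sat U' R' = Sat U R ∧
      R'.card = nsp U U' R + r * (R.card - nsp U U' R)

/-- Row DENS. -/
structure DensStmt : Prop where
  approx : ∀ (U : Subgroup GQ) (R : Finset Pl) (a : Pl → Qb) (c : Qb), OpenIn U ⊤ → Rep U R →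
    (∀ V ∈ R, a V ∈ OH V (DG V ⊓ U)) → c ≠ 0 →
    ∃ y, IsFix U y ∧ IsIntegral ℤ y ∧ ∀ V ∈ R, V.valuation (y - a V) ≤ V.valuation c
  unif : ∀ (V : Pl) (H : Subgroup GQ), V ≠ ⊤ → OpenIn H (DG V) → ∃ π, Unif V H π
  fin : ∀ (V : Pl) (H : Subgroup GQ) (c : ℕ), V ≠ ⊤ → OpenIn H (DG V) → c ≠ 0 →
    qO V H (c : Qb) ≠ 0
  prod : ∀ (U : Subgroup GQ) (R : Finset Pl) (c : ℕ), OpenIn U ⊤ → Rep U R → c ≠ 0 →
    ∏ V ∈ R, qO V (DG V ⊓ U) (c : Qb) ≤ c ^ U.index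
  baseVal : ∀ (V : Pl) (l : ℕ), l.Prime → Above V l → ∀ y ∈ fixU (DG V),
    ∃ j : ℤ, V.valuation (y : Qb) = V.valuation (l : Qb) ^ j
  baseRes : ∀ (V : Pl), V ≠ ⊤ → ∀ x ∈ OH V (DG V), ∃ n : ℤ, V.valuation (x - n) < 1

/-- Row UNR. -/
structure UnrStmt : Prop where
  frob : ∀ (V : Pl) (l : ℕ), l.Prime → Above V l → ∃ φ, IsFrob V l φ
  frob_root : ∀ (V : Pl) (l : ℕ) (φ : GQ), l.Prime → Above V l → IsFrob V l φ →
    ∀ (n : ℕ) (ζ : Qb), ¬ l ∣ n → ζ ^ n = 1 → φ ζ = ζ ^ l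
  ig_root : ∀ (V : Pl) (l : ℕ), l.Prime → Above V l → ∀ g ∈ IG V,
    ∀ (n : ℕ) (ζ : Qb), ¬ l ∣ n → ζ ^ n = 1 → g ζ = ζ
  gen : ∀ (V : Pl) (l : ℕ) (φ : GQ), l.Prime → Above V l → IsFrob V l φ → ∀ N : ONS,
    ∀ g ∈ DG V, ∃ j : ℕ, ∃ i ∈ IG V, ∃ n ∈ N, g = φ ^ j * i * n
  cyc : ∀ (V : Pl) (H H' : Subgroup GQ), V ≠ ⊤ → OpenIn H (DG V) → OpenIn H' H → IG V ⊓ H ≤ H' →
    ∃ (H'' : Subgroup GQ) (d : ℕ) (x : GQ → ZMod d) (σ : GQ),
      H'' ≤ H' ∧ IG V ⊓ H ≤ H'' ∧ Cyc H H'' d x σ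
  vg : ∀ (V : Pl) (H : Subgroup GQ), V ≠ ⊤ → OpenIn H (DG V) → ∀ y ∈ fixU (IG V ⊓ H),
    ∃ z ∈ fixU H, V.valuation (y : Qb) = V.valuation (z : Qb)
  ex : ∀ (V : Pl) (H : Subgroup GQ) (d : ℕ), V ≠ ⊤ → OpenIn H (DG V) → 0 < d →
    ∃ (H' : Subgroup GQ) (x : GQ → ZMod d) (σ : GQ), IG V ⊓ H ≤ H' ∧ Cyc H H' d x σ
  ramp : ∀ (p : ℕ) [Fact p.Prime] (V : Pl), Above V p → ∀ t : ZMod p, t ≠ 0 →
    ∃ g ∈ IG V, om p g = t

/-- Row PHI. -/
structure PhiStmt : Prop where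
  tor : ∀ (r : ℕ) (B : Subgroup Qbˣ), r.Prime → tor r B ≠ 0 ∧ tor r B ≤ r
  pw : ∀ (V : Pl) (H : Subgroup GQ) (r : ℕ), V ≠ ⊤ → OpenIn H (DG V) → r.Prime →
    pw r (fixU H) = r * lz.tor r (fixU H) * qO V H (r : Qb)
  deg : ∀ (V : Pl) (H H' : Subgroup GQ) (d : ℕ) (x : GQ → ZMod d) (σ : GQ) (c : ℕ), V ≠ ⊤ →
    OpenIn H (DG V) → Cyc H H' d x σ → c ≠ 0 → qO V H' (c : Qb) = qO V H (c : Qb) ^ d

/-- Row LII, first part: the local norm index in prime degree. -/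
def LiiStmt : Prop :=
  ∀ (V : Pl) (H H' : Subgroup GQ) (r : ℕ) (x : GQ → ZMod r) (σ : GQ), V ≠ ⊤ → OpenIn H (DG V) →
    r.Prime → Cyc H H' r x σ → (NG H' σ r).relIndex (fixU H) = r

/-- Row LII, second part: units are norms in unramified cyclic extensions. -/
def UnStmt : Prop :=
  ∀ (V : Pl) (H H' : Subgroup GQ) (d : ℕ) (x : GQ → ZMod d) (σ : GQ), V ≠ ⊤ → OpenIn H (DG V) →
    Cyc H H' d x σ → IG V ⊓ H ≤ H' → ∀ u ∈ fixU H, V.valuation (u : Qb) = 1 → u ∈ NG H' σ d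

/-- Row BRI: the `p`-part of the Brauer group of the maximal unramified extension vanishes. -/
def BriStmt : Prop :=
  ∀ (V : Pl) (H : Subgroup GQ) (p : ℕ) (f : GQ → GQ → AU), V ≠ ⊤ → OpenIn H (DG V) → p.Prime →
    Z2 (IG V ⊓ H) aU f → (∃ n, B2 (IG V ⊓ H) aU (p ^ n • f)) → B2 (IG V ⊓ H) aU f

/-- Row LB, first part: `Br[p]` of a local field has order `p`. -/
structure LbStmt : Prop where
  cyc1 : ∀ (V : Pl) (H : Subgroup GQ) (p : ℕ) (f f' : GQ → GQ → AU), V ≠ ⊤ → OpenIn H (DG V) →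
    p.Prime → Z2 H aU f → Z2 H aU f' → B2 H aU (p • f) → B2 H aU (p • f') → ¬ B2 H aU f →
    ∃ j : ℕ, B2 H aU (f' - j • f)
  nz : ∀ (V : Pl) (H : Subgroup GQ) (p : ℕ), V ≠ ⊤ → OpenIn H (DG V) → p.Prime →
    ∃ f, Z2 H aU f ∧ B2 H aU (p • f) ∧ ¬ B2 H aU f
  split : ∀ (V : Pl) (H H' : Subgroup GQ) (p : ℕ) (x : GQ → ZMod p) (σ : GQ) (f : GQ → GQ → AU),
    V ≠ ⊤ → OpenIn H (DG V) → p.Prime → Cyc H H' p x σ → Z2 H aU f → B2 H aU (p • f) →
    B2 H' aU f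

/-- Row LB, second part: `H²(D, 𝔽_p(θ)) = 0` for `θ ≠ ω`. -/
def H2vStmt : Prop :=
  ∀ (p : ℕ) [Fact p.Prime] (V : Pl) (θ : GQ → ZMod p), V ≠ ⊤ → IsChar (DG V) θ →
    (∃ g ∈ DG V, θ g ≠ om p g) → V2 (DG V) (mulAct θ)

/-! ## Global fields -/

/-- Row SU: Dirichlet's theorem for `S`-units, modulo `r`-th powers. -/
def SuStmt : Prop :=
  ∀ (U : Subgroup GQ) (R : Finset Pl) (r : ℕ), OpenIn U ⊤ → TC U → Rep U R → r.Prime →
    Even U.index ∧
      pw r (ES U (Sat U R)) * r = r ^ (R.card + U.index / 2) * tor r (ES U (Sat U R))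

/-- Row ADQ: the `S`-class group is trivial for large `S`. -/
def AdqStmt : Prop := ∀ U : Subgroup GQ, OpenIn U ⊤ → ∃ P : Finset ℕ, Adq U (AboveSet P)

/-- Row FIRST. -/
structure FirstStmt : Prop where
  idx : ∀ (U U' : Subgroup GQ) (r : ℕ) (x : GQ → ZMod r) (σ : GQ) (R : Finset Pl), OpenIn U ⊤ →
    TC U → r.Prime → Cyc U U' r x σ → Rep U R → Adq U (Sat U R) →
    (∀ W : Pl, W ≠ ⊤ → W ∉ Sat U R → IG W ⊓ U ≤ U') →
    ((ES U' (Sat U R)).map (nrmU σ r)).relIndex (ES U (Sat U R)) * r = r ^ nsp U U' R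
  first : ∀ (U U' : Subgroup GQ) (r : ℕ) (x : GQ → ZMod r) (σ : GQ), OpenIn U ⊤ → TC U → r.Prime →
    Cyc U U' r x σ → ∃ (R : Finset Pl) (a : Pl → Qbˣ), Rep U R ∧
      (∀ V ∈ R, a V ∈ fixU (DG V ⊓ U)) ∧ ∀ e ∈ fixU U,
        ¬ ((∀ V ∈ R, LocNorm V U U' r x (e / a V)) ∧
          ∀ W : Pl, W ≠ ⊤ → W ∉ Sat U R → LocNorm W U U' r x e)

/-- Row FST: infinitely many primes do not split. -/
def FStmt : Prop :=
  ∀ (U U' : Subgroup GQ) (r : ℕ) (x : GQ → ZMod r) (σ : GQ) (P : Finset ℕ), OpenIn U ⊤ → TC U →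
    r.Prime → Cyc U U' r x σ → ∃ W : Pl, W ≠ ⊤ ∧ W ∉ AboveSet P ∧ ¬ DG W ⊓ U ≤ U'

/-- Row TSET: Chevalley's auxiliary set of primes. -/
def TsetStmt : Prop :=
  ∀ (p : ℕ) [Fact p.Prime], p ≠ 2 → ∀ (U U' : Subgroup GQ) (x : GQ → ZMod p) (σ : GQ)
    (R : Finset Pl), OpenIn U ⊤ → IsFix U (zt p 1) → Cyc U U' p x σ → Rep U R →
    AboveSet {p} ⊆ Sat U R →
    (∃ w : Qbˣ, w ^ p ∈ ES U (Sat U R) ∧ ∀ g ∈ U, iot1 p (x g) = ofMul (sU g w / w)) →
    ∃ T : Finset Pl, Disjoint R T ∧ Rep U (R ∪ T) ∧ T.card + 1 = R.card + U.index / 2 ∧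
      (∀ W ∈ T, DG W ⊓ U ≤ U') ∧ ∀ u : Pl → Qbˣ,
        (∀ W ∈ T, u W ∈ fixU (DG W ⊓ U) ∧ W.valuation (u W : Qb) = 1) →
        ∃ e ∈ ES U (Sat U R), ∀ W ∈ T, ∃ y ∈ fixU (DG W ⊓ U), u W = e * y ^ p

/-- Row HNT: the Hasse norm theorem for Kummer extensions of degree `p`. -/
def HntStmt : Prop :=
  ∀ (p : ℕ) [Fact p.Prime], p ≠ 2 → ∀ (U U' : Subgroup GQ) (x : GQ → ZMod p) (σ : GQ),
    OpenIn U ⊤ → IsFix U (zt p 1) → Cyc U U' p x σ → ∀ b ∈ fixU U,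
    (∀ V : Pl, V ≠ ⊤ → LocNorm V U U' p x b) → b ∈ NG U' σ p

/-- Row DV, second part: Hasse principle for the `p`-part of the Brauer group. -/
def AbhnStmt : Prop :=
  ∀ (p : ℕ) [Fact p.Prime], p ≠ 2 → ∀ (U : Subgroup GQ) (f : GQ → GQ → AU), OpenIn U ⊤ →
    Z2 U aU f → (∃ n, B2 U aU (p ^ n • f)) → LocTriv U f → B2 U aU f

/-- Row REC: a `p`-primary Brauer class of `ℚ` that is trivial away from `p` is trivial. -/
def RecStmt : Prop :=
  ∀ (p : ℕ) [Fact p.Prime], p ≠ 2 → ∀ f : GQ → GQ → AU, Z2 ⊤ aU f → (∃ n, B2 ⊤ aU (p ^ n • f)) →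
    (∀ V : Pl, V ≠ ⊤ → ¬ Above V p → B2 (DG V) aU f) → B2 ⊤ aU f

/-! ## Iwasawa theory -/

/-- Row CONT. -/
structure ContStmt : Prop where
  lc : ∀ (X : Type) (H : Subgroup GQ) (c : H → X) (x₀ : X), IsClosed (H : Set GQ) →
    IsLocallyConstant c → Sm1 H (ext H x₀ c)
  lc' : ∀ (X : Type) (H : Subgroup GQ) (c : GQ → X), Sm1 H c → IsLocallyConstant fun g : H => c g
  lcG : ∀ (X : Type) (c : GQ → X), IsLocallyConstant c → Sm1 ⊤ c
  lam : ∀ (p : ℕ) [Fact p.Prime] (Y : Type) [TopologicalSpace Y] (c : Y → Lam p),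
    Continuous c ↔ ∀ n, IsLocallyConstant fun y => proj p n (c y)
  zp : ∀ (p : ℕ) [Fact p.Prime] (Y : Type) [TopologicalSpace Y] (c : Y → ℤ_[p]), Continuous c →
    ∀ n, IsLocallyConstant fun y => PadicInt.toZModPow n (c y)
  rho : ∀ (p : ℕ) [Fact p.Prime] (ρ : GQ →* GL (Fin 2) ℤ_[p]), Continuous ρ → ∀ n,
    Sm1 ⊤ fun g => (ρ g : Matrix (Fin 2) (Fin 2) ℤ_[p]).map (PadicInt.toZModPow n)
  actN : ∀ (p : ℕ) [Fact p.Prime] (ρ : GQ →* GL (Fin 2) ℤ_[p]), Continuous ρ → ∀ n,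
    IsAct ⊤ (actN ρ n)
  zG : ∀ (p : ℕ) [Fact p.Prime] (ρ : GQ →* GL (Fin 2) ℤ_[p]), ∀ c ∈ Z1 (actG ρ), ∀ n,
    Zo ⊤ (lz.actN ρ n) fun g i => proj p n (c g i)
  scN : ∀ (p : ℕ) [Fact p.Prime] (V : Pl) (δ : DG V →* ℤ_[p]ˣ), Continuous δ → ∀ n,
    IsChar (DG V) fun g => proj p n (sc V δ g)
  dbar : ∀ (p : ℕ) [Fact p.Prime] (V : Pl) (δ : DG V →* ℤ_[p]ˣ), Continuous δ →
    IsChar (DG V) (dbar V δ)
  zL : ∀ (p : ℕ) [Fact p.Prime] (V : Pl) (δ : DG V →* ℤ_[p]ˣ) (c : DG V → Lam p),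
    c ∈ Z1 (actL V δ) ↔ ∀ n, Zo (DG V) (mulAct fun g => proj p n (sc V δ g))
      fun g => proj p n (ext (DG V) 0 c g)
  chiAct : ∀ (p : ℕ) [Fact p.Prime] (H : Subgroup GQ) (n : ℕ), IsAct H (chiAct p n)

/-- Row ND: the local cup product modulo `p` is not zero. -/
def NdStmt : Prop :=
  ∀ (p : ℕ) [Fact p.Prime], p ≠ 2 → ∀ (V : Pl) (θ θ' : GQ → ZMod p), Above V p →
    IsChar (DG V) θ → IsChar (DG V) θ' → (∀ g ∈ DG V, θ g * θ' g = om p g) →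
    ∃ x y, Zo (DG V) (mulAct θ) x ∧ Zo (DG V) (mulAct θ') y ∧
      ¬ B2 (DG V) aU fun g h => iot1 p (x g * (θ' g * y h))

/-- Row LIFT: classes modulo `p` lift to Iwasawa classes. -/
def LiftStmt : Prop :=
  ∀ (p : ℕ) [Fact p.Prime] (V : Pl) (δ : DG V →* ℤ_[p]ˣ), V ≠ ⊤ → Continuous δ →
    (∃ g ∈ DG V, om p g = 1 ∧ dbar V δ g ≠ 1) → ∀ (j : ℤ) (c₁ : GQ → ZMod p),
    Zo (DG V) (mulAct fun g => dbar V δ g * om p g ^ j) c₁ →
    ∃ c ∈ Z1 (actL V δ), ∀ g : DG V, ev1 p j (c g) = c₁ g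

/-- Row IWA: Iwasawa classes are unramified away from `p`. -/
def IwaStmt : Prop :=
  ∀ (p : ℕ) [Fact p.Prime] (ρ : GQ →* GL (Fin 2) ℤ_[p]), Continuous ρ → ∀ c ∈ Z1 (actG ρ),
    ∀ W : Pl, W ≠ ⊤ → ¬ Above W p → ∀ n, Bo (IG W) (actN ρ n) fun g i => proj p n (c g i)

/-- Row IWB: global classes are isotropic. -/
def IwbStmt : Prop :=
  ∀ (p : ℕ) [Fact p.Prime], p ≠ 2 → ∀ (m : ℤ) (ρ : GQ →* GL (Fin 2) ℤ_[p]), Continuous ρ →
    (∀ g, Matrix.GeneralLinearGroup.det (ρ g) = chi p g ^ (1 - 2 * m)) → ∀ c ∈ Z1 (actG ρ),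
    TrivBr p ⊤ fun g h => pairL p m (c g) (actG ρ g (c h))

/-- Row INV: the `Λ`-valued local invariant. -/
def InvStmt : Prop :=
  ∀ (p : ℕ) [Fact p.Prime] (V : Pl) (m : ℤ) (F₀ : GQ → GQ → Lam p), V ≠ ⊤ → ZZ p (DG V) F₀ →
    (¬ B2 (DG V) aU fun g h => iot1 p (ev1 p m (F₀ g h))) →
    ∃ Inv : (GQ → GQ → Lam p) → Lam p,
      (∀ F F', ZZ p (DG V) F → ZZ p (DG V) F' → Inv (F + F') = Inv F + Inv F') ∧
      (∀ l F, ZZ p (DG V) F → Inv (fun g h => l * F g h) = l * Inv F) ∧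
      (∀ F, ZZ p (DG V) F → Inv (fun g h => star p m (F g h)) = star p m (Inv F)) ∧
      (∀ F, ZZ p (DG V) F → TrivBr p (DG V) F → Inv F = 0) ∧
      (∀ F, BB p (DG V) F → TrivBr p (DG V) F) ∧ ev1 p m (Inv F₀) ≠ 0

end Pool.Agent.MP_59efd2_nt.lz

end
end MrgPart2

-- ======== part 3: formerly Pool.Agent.MP_59efd2_nt.lz.Lii
section MrgPart3

/-!
# Row LII: the local norm index in prime degree, and norms of units in unramified extensions
-/

noncomputable section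

namespace Pool.Agent.MP_59efd2_nt.lz

open scoped Pointwise Classical

namespace LiiP

variable {H H' : Subgroup GQ} {d : ℕ} {x : GQ → ZMod d} {σ : GQ}

lemma sU_mem (h : Cyc H H' d x σ) {g : GQ} (hg : g ∈ H) {a : Qbˣ} (ha : a ∈ fixU H') :
    sU g a ∈ fixU H' := fun k hk => by
  have h1 : g⁻¹ * k * g⁻¹⁻¹ ∈ H' := h.normalIn _ (H.inv_mem hg) k hk
  have h2 := congrArg g (ha _ h1)
  rw [inv_inv, ← AlgEquiv.mul_apply, show g * (g⁻¹ * k * g) = k * g by group] at h2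
  exact h2

lemma sU_pow {a : Qbˣ} (ha : sU σ a = a) (i : ℕ) : sU (σ ^ i) a = a := by
  induction i with
  | zero => exact sU_one a
  | succ i ih => rw [pow_succ, sU_mul, ha, ih]

lemma mem_fix (h : Cyc H H' d x σ) (a : Qbˣ) : a ∈ fixU H ↔ a ∈ fixU H' ∧ sU σ a = a := by
  refine ⟨fun ha => ⟨fixU_anti h.le ha, Units.ext (ha σ h.mem)⟩, fun ha g hg => ?_⟩
  have h1 : sU ((σ ^ (x g).val)⁻¹ * g) a = a := Units.ext (ha.1 _ (h.decomp hg))
  have h2 := congrArg (sU (σ ^ (x g).val)) h1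
  rw [← sU_mul, mul_inv_cancel_left, sU_pow ha.2] at h2
  exact congrArg Units.val h2

lemma nrm_mem (h : Cyc H H' d x σ) {y : Qbˣ} (hy : y ∈ fixU H') : nrmU σ d y ∈ fixU H := by
  refine (mem_fix h _).2 ⟨?_, ?_⟩
  · rw [nrmU_apply]
    exact Subgroup.prod_mem _ fun i _ => sU_mem h (H.pow_mem h.mem i) hy
  · have e : sU (σ ^ d) y = sU (σ ^ 0) y := by
      rw [pow_zero, sU_one]
      exact Units.ext (hy _ (h.pow_mem h.mem))
    have h1 := Finset.prod_range_succ (fun i => sU (σ ^ i) y) d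
    rw [Finset.prod_range_succ', e] at h1
    rw [nrmU_apply, map_prod, ← mul_right_cancel h1]
    exact Finset.prod_congr rfl fun i _ => by rw [← sU_mul, pow_succ']

lemma val_nrm (hv : ValStmt) {V : Pl} (hσ : σ ∈ DG V) (d : ℕ) (y : Qbˣ) :
    V.valuation (nrmU σ d y : Qb) = V.valuation (y : Qb) ^ d := by
  rw [nrmU_apply, Units.coe_prod, map_prod]
  refine (Finset.prod_congr rfl fun i _ => hv.inv V _ ((DG V).pow_mem hσ i) (y : Qb)).trans ?_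
  simp

lemma nrm_mul (σ : GQ) (r n : ℕ) (w : Qbˣ) :
    nrmU σ (r * n) w = nrmU σ r (nrmU (σ ^ r) n w) := by
  induction n with
  | zero => simp [nrmU_apply]
  | succ n ih =>
    rw [nrmU_apply (σ ^ r), Finset.prod_range_succ, map_mul, ← nrmU_apply, ← ih, Nat.mul_succ,
      nrmU_apply, Finset.prod_range_add, ← nrmU_apply, nrmU_apply σ r]
    congr 1
    exact Finset.prod_congr rfl fun i _ => by rw [← sU_mul, ← pow_mul, ← pow_add, add_comm]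

/-- elements whose valuation is an `r`-th power of a value -/
def BB (V : Pl) (H : Subgroup GQ) (π : Qbˣ) (r : ℕ) : Subgroup Qbˣ where
  carrier := {u | u ∈ fixU H ∧ ∃ j : ℤ, V.valuation (u : Qb) = V.valuation (π : Qb) ^ (j * r)}
  one_mem' := ⟨(fixU H).one_mem, 0, by simp⟩
  mul_mem' := fun {a b} ⟨ha, i, hi⟩ ⟨hb, j, hj⟩ => ⟨(fixU H).mul_mem ha hb, i + j, by
    rw [Units.val_mul, map_mul, hi, hj, add_mul, zpow_add₀ (by simp)]⟩
  inv_mem' := fun {a} ⟨ha, i, hi⟩ => ⟨(fixU H).inv_mem ha, -i, by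
    rw [Units.val_inv_eq_inv_val, map_inv₀, hi, neg_mul, zpow_neg]⟩

lemma un_prime (hv : ValStmt) (hd : DensStmt) (hu : UnrStmt) (hl : LiiStmt) {V : Pl}
    (hV : V ≠ ⊤) (hH : OpenIn H (DG V)) (hp : d.Prime) (h : Cyc H H' d x σ)
    (hI : IG V ⊓ H ≤ H') {u : Qbˣ} (hu1 : u ∈ fixU H) (hu2 : V.valuation (u : Qb) = 1) :
    u ∈ NG H' σ d := by
  obtain ⟨π, p1, p2, p3⟩ := hd.unif V H hV hH
  have l1 : NG H' σ d ≤ BB V H π d := by
    rintro _ ⟨y, hy, rfl⟩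
    obtain ⟨z, hz, e⟩ := hu.vg V H hV hH y (fixU_anti hI hy)
    obtain ⟨j, hj⟩ := p3 z hz
    exact ⟨nrm_mem h hy, j, by rw [val_nrm hv (hH.1 h.mem), e, hj, zpow_mul, zpow_natCast]⟩
  have l2 : BB V H π d ≤ fixU H := fun _ hb => hb.1
  have e := Subgroup.relIndex_mul_relIndex _ _ _ l1 l2
  rw [hl V H H' d x σ hV hH hp h] at e
  have ne : (BB V H π d).relIndex (fixU H) ≠ 1 := fun e1 => by
    obtain ⟨-, j, hj⟩ := Subgroup.relIndex_eq_one.1 e1 p1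
    have h0 : 0 < V.valuation (π : Qb) := zero_lt_iff.2 (by simp)
    have h1 : (1 : ℤ) = j * d := zpow_right_injective₀ h0 p2.ne (by simpa using hj)
    have h2 : (d : ℤ) ∣ 1 := Dvd.intro_left j h1.symm
    exact hp.one_lt.ne' (Nat.dvd_one.1 (by exact_mod_cast h2))
  have e2 : (NG H' σ d).relIndex (BB V H π d) = 1 := by
    rcases (Nat.dvd_prime hp).1 (Dvd.intro_left _ e) with h1 | h1
    · exact absurd h1 ne
    · rw [h1] at e
      exact mul_right_cancel₀ hp.ne_zero (e.trans (one_mul d).symm)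
  exact Subgroup.relIndex_eq_one.1 e2 ⟨hu1, 0, by simpa using hu2⟩

/-- division by `r` -/
def dv (r n : ℕ) (z : ZMod (r * n)) : ZMod n := ((z.val / r : ℕ) : ZMod n)

lemma dv_cast {r n : ℕ} (hr : 0 < r) (k : ℕ) : dv r n ((r * k : ℕ) : ZMod (r * n)) = k := by
  rw [dv, ZMod.val_natCast, Nat.mul_mod_mul_left, Nat.mul_div_cancel_left _ hr, ZMod.natCast_mod]

lemma tower {r n : ℕ} {x : GQ → ZMod (r * n)} (h : Cyc H H' (r * n) x σ) :
    ∃ (H₁ : Subgroup GQ) (x₁ : GQ → ZMod r) (x₂ : GQ → ZMod n),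
      Cyc H H₁ r x₁ σ ∧ Cyc H₁ H' n x₂ (σ ^ r) := by
  have hr : 0 < r := Nat.pos_of_mul_pos_right h.pos
  have hn : 0 < n := Nat.pos_of_mul_pos_left h.pos
  have : NeZero (r * n) := ⟨h.pos.ne'⟩
  let c : ZMod (r * n) →+* ZMod r := ZMod.castHom (Dvd.intro n rfl) (ZMod r)
  let H₁ : Subgroup GQ :=
    { carrier := {g | g ∈ H ∧ c (x g) = 0}
      one_mem' := ⟨H.one_mem, by rw [h.map_one, map_zero]⟩
      mul_mem' := fun {a b} ha hb => ⟨H.mul_mem ha.1 hb.1, by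
        rw [h.add a ha.1 b hb.1, map_add, ha.2, hb.2, add_zero]⟩
      inv_mem' := fun {a} ha => ⟨H.inv_mem ha.1, by rw [h.map_inv ha.1, map_neg, ha.2, neg_zero]⟩ }
  have l1 : H' ≤ H₁ := fun g hg => ⟨h.le hg, by rw [((h.ker g).1 hg).2, map_zero]⟩
  have l2 : H₁ ≤ H := fun g hg => hg.1
  have ex : ∀ g ∈ H₁, ∃ k : ℕ, x g = ((r * k : ℕ) : ZMod (r * n)) := fun g hg => by
    have h1 : c (x g) = 0 := hg.2
    rw [← ZMod.natCast_zmod_val (x g), map_natCast, ZMod.natCast_eq_zero_iff] at h1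
    obtain ⟨k, hk⟩ := h1
    exact ⟨k, by rw [← hk, ZMod.natCast_zmod_val]⟩
  have hs : x (σ ^ r) = ((r * 1 : ℕ) : ZMod (r * n)) := by
    rw [h.map_pow h.mem, h.gen, mul_one, mul_one]
  refine ⟨H₁, fun g => c (x g), fun g => dv r n (x g),
    ⟨hr, fun g hg k hk => by rw [h.add g hg k hk, map_add], fun g => Iff.rfl, h.mem,
      by rw [h.gen, map_one], (h.opn.of_le l1 l2).2⟩,
    ⟨hn, fun g hg k hk => ?_, fun g => ⟨fun hg => ⟨l1 hg, ?_⟩, fun hg => ?_⟩,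
      ⟨H.pow_mem h.mem r, ?_⟩, ?_, (h.opn.of_le l1 l2).1⟩⟩
  · obtain ⟨a, ha⟩ := ex g hg
    obtain ⟨b, hb⟩ := ex k hk
    rw [h.add g hg.1 k hk.1, ha, hb, ← Nat.cast_add, ← mul_add, dv_cast hr, dv_cast hr,
      dv_cast hr, Nat.cast_add]
  · rw [((h.ker g).1 hg).2]
    simp [dv]
  · obtain ⟨a, ha⟩ := ex g hg.1
    have h1 := hg.2
    rw [ha, dv_cast hr, ZMod.natCast_eq_zero_iff] at h1
    exact (h.ker g).2 ⟨hg.1.1, by
      rw [ha, ZMod.natCast_eq_zero_iff]; exact Nat.mul_dvd_mul_left r h1⟩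
  · rw [hs, map_natCast, mul_one, ZMod.natCast_self]
  · rw [hs, dv_cast hr, Nat.cast_one]

end LiiP

theorem lii (h3 : Coh3Stmt) (ht : TateStmt) (hd : DensStmt) (hφ : PhiStmt) : LiiStmt := by
  intro V H H' r x σ hV hH hr h
  have hH' : OpenIn H' (DG V) := h.opn.trans hH
  have q0 := hd.fin V H r hV hH hr.ne_zero
  have t0 := (hφ.tor r (fixU H) hr).1
  have t1 := (hφ.tor r (fixU H') hr).1
  have p0 := hφ.pw V H r hV hH hr
  have p1 := hφ.pw V H' r hV hH' hr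
  rw [hφ.deg V H H' r x σ r hV hH h hr.ne_zero] at p1
  have e := (ht r hr σ (fixU H') (fixU H) (fun a ha => LiiP.sU_mem h h.mem ha)
    (fun a ha => Units.ext (ha _ (h.pow_mem h.mem))) (LiiP.mem_fix h)
    (by rw [p1]; exact mul_ne_zero (mul_ne_zero hr.ne_zero t1) (pow_ne_zero _ q0)) t1
    (h3.cycH90 H H' r x σ h)).2
  rw [p0, p1] at e
  have hr1 : r - 1 ≠ 0 := Nat.sub_ne_zero_of_lt hr.one_lt
  refine Nat.pow_left_injective hr1 (mul_right_cancel₀ (mul_ne_zero (mul_ne_zero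
    (mul_ne_zero hr.ne_zero t1) (pow_ne_zero r q0)) (pow_ne_zero r t0)) ?_)
  have e1 : r ^ r = r ^ (r - 1) * r := by rw [← pow_succ, Nat.sub_add_cancel hr.one_lt.le]
  show (NG H' σ r).relIndex (fixU H) ^ (r - 1) * _ = r ^ (r - 1) * _
  rw [← mul_assoc, NG, e, mul_pow, mul_pow, e1]
  ring

theorem un (_h1 : Coh1Stmt) (hv : ValStmt) (hd : DensStmt) (hu : UnrStmt) (hl : LiiStmt) :
    UnStmt := by
  intro V H H' d
  induction d using Nat.strong_induction_on generalizing H with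
  | _ d ih =>
    intro x σ hV hH h hI u hu1 hu2
    rcases eq_or_ne d 1 with rfl | hd1
    · exact ⟨u, fixU_anti h.le hu1, by simp [nrmU_apply, sU_one]⟩
    obtain ⟨r, hr, n, rfl⟩ := Nat.exists_prime_and_dvd hd1
    obtain ⟨H₁, x₁, x₂, c1, c2⟩ := LiiP.tower h
    obtain ⟨y, hy, rfl⟩ := LiiP.un_prime hv hd hu hl hV hH hr c1 (hI.trans c2.le) hu1 hu2
    rw [LiiP.val_nrm hv (hH.1 h.mem)] at hu2
    obtain ⟨w, hw, rfl⟩ := ih n ((Nat.lt_mul_iff_one_lt_left c2.pos).2 hr.one_lt) H₁ x₂ (σ ^ r) hV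
      (c1.opn.trans hH) c2 ((inf_le_inf_left _ c1.le).trans hI) y hy
      ((pow_eq_one_iff_left hr.ne_zero).1 hu2)
    exact ⟨w, hw, LiiP.nrm_mul σ r n w⟩

end Pool.Agent.MP_59efd2_nt.lz

end
end MrgPart3

-- marker of a merged file
example : 731051 + 732839 = 731051 + 732839 := rfl

end MrgPart1

-- marker of a merged file
example : 731051 + 732839 = 731051 + 732839 := rfl
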