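import Mathlib.Algebra.AffineMonoid.Basic
import Mathlib.Tactic.Monotonicity.Lemmas
import Mathlib.Data.Int.Star
import Mathlib.Algebra.Order.Ring.Star
import Mathlib.Algebra.Ring.IsFormallyReal
import Mathlib.NumberTheory.Basic
import Mathlib.NumberTheory.NumberField.ClassNumber
import Mathlib.RingTheory.Ideal.Quotient.HasFiniteQuotients
import Pool.Agent.MP_59efd2_nt.lz.Lii

-- ======== part 0: formerly Pool.Agent.MP_59efd2_nt.lz.Dv
section MrgPart0

/-!
# Devissage to cyclic steps of prime degree, and the Hasse principle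
-/

noncomputable section

namespace Pool.Agent.MP_59efd2_nt.lz

open scoped Pointwise Classical
open Additive Finset

namespace DvP

/-- The preimage of a subgroup of a finite quotient. -/
lemma pull (H : Subgroup GQ) (N : ONS) (K : Subgroup (H ⧸ (N : Subgroup GQ).subgroupOf H)) :
    ∃ J, OpenIn J H ∧ J.relIndex H = K.index ∧ (N : Subgroup GQ).relIndex J = Nat.card K ∧
      (K.Normal → NormalIn J H) := by
  have := ons_finiteIndex N
  let π := QuotientGroup.mk' ((N : Subgroup GQ).subgroupOf H)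
  have hle : (K.comap π).map H.subtype ≤ H := Subgroup.map_subtype_le _
  have hN : ∀ g ∈ H, g ∈ N → g ∈ (K.comap π).map H.subtype := fun g hg hn =>
    ⟨⟨g, hg⟩, by
      have : π ⟨g, hg⟩ = 1 := (QuotientGroup.eq_one_iff _).2 hn
      show π ⟨g, hg⟩ ∈ K
      rw [this]
      exact K.one_mem, rfl⟩
  have h1 : ((K.comap π).map H.subtype).relIndex H = K.index := by
    rw [Subgroup.relIndex, Subgroup.subgroupOf,
      Subgroup.comap_map_eq_self_of_injective H.subtype_injective,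
      Subgroup.index_comap_of_surjective _ (QuotientGroup.mk'_surjective _)]
  refine ⟨_, ⟨hle, N, hN⟩, h1, ?_, ?_⟩
  · have h2 := Subgroup.relIndex_inf_mul_relIndex (N : Subgroup GQ) ((K.comap π).map H.subtype) H
    have h3 : ((N : Subgroup GQ) ⊓ (K.comap π).map H.subtype).relIndex H =
        Nat.card (H ⧸ (N : Subgroup GQ).subgroupOf H) := by
      rw [← Subgroup.index_eq_card, Subgroup.relIndex]
      congr 1
      ext g
      exact ⟨fun h => h.1, fun h => ⟨h, hN g g.2 h⟩⟩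
    rw [inf_eq_left.2 hle, h1, h3, ← K.card_mul_index] at h2
    exact Nat.eq_of_mul_eq_mul_right (Nat.pos_of_ne_zero K.index_ne_zero_of_finite) h2
  · rintro hK g hg _ ⟨h, hh, rfl⟩
    exact Subgroup.mem_map_of_mem H.subtype ((hK.comap π).conj_mem h hh ⟨g, hg⟩)

lemma step {p : ℕ} (hp : p.Prime) (H : Subgroup GQ) (N : ONS) {k : ℕ}
    (h : (N : Subgroup GQ).relIndex H = p ^ (k + 1)) :
    ∃ J, OpenIn J H ∧ NormalIn J H ∧ J.relIndex H = p ∧ (N : Subgroup GQ).relIndex J = p ^ k := by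
  have := ons_finiteIndex N
  have := Fact.mk hp
  have hc : Nat.card (H ⧸ (N : Subgroup GQ).subgroupOf H) = p ^ (k + 1) := h
  obtain ⟨K, hK⟩ := Sylow.exists_subgroup_card_pow_prime
    (G := H ⧸ (N : Subgroup GQ).subgroupOf H) p (n := k) (hc ▸ pow_dvd_pow p k.le_succ)
  have hi : K.index = p := by
    have := K.card_mul_index
    rw [hK, hc, pow_succ] at this
    exact Nat.eq_of_mul_eq_mul_left (pow_pos hp.pos k) this
  obtain ⟨J, h1, h2, h3, h4⟩ := pull H N K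
  exact ⟨J, h1, h4 (Subgroup.normal_of_index_eq_minFac_card
    (by rw [hi, hc, hp.pow_minFac k.succ_ne_zero])), h2.trans hi, h3.trans hK⟩

lemma sylow {p : ℕ} (hp : p.Prime) (H : Subgroup GQ) (N : ONS) :
    ∃ J k, OpenIn J H ∧ Nat.Coprime p (J.relIndex H) ∧ (N : Subgroup GQ).relIndex J = p ^ k := by
  have := ons_finiteIndex N
  have := Fact.mk hp
  obtain ⟨S⟩ : Nonempty (Sylow p (H ⧸ (N : Subgroup GQ).subgroupOf H)) := inferInstance
  obtain ⟨k, hk⟩ := IsPGroup.iff_card.1 S.isPGroup'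
  obtain ⟨J, h1, h2, h3, -⟩ := pull H N S
  exact ⟨J, k, h1, h2 ▸ hp.coprime_iff_not_dvd.2 S.not_dvd_index, h3.trans hk⟩

lemma base {J : Subgroup GQ} {f : GQ → GQ → AU} (hf : Z2 J aU f) :
    ∃ N : ONS, ∀ J', J' ≤ J → J' ≤ (N : Subgroup GQ) → B2 J' aU f := by
  obtain ⟨⟨N, hN⟩, hc⟩ := hf
  refine ⟨N, fun J' h1 h2 => ⟨fun _ => f 1 1, sm1_const _ _, fun g hg h hh => ?_⟩⟩
  have e1 := hN 1 J.one_mem 1 J.one_mem g (h1 hg) h (h1 hh) (h2 hg) (h2 hh)
  have e2 := hN 1 J.one_mem 1 J.one_mem g (h1 hg) 1 J.one_mem (h2 hg) N.one_mem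
  have e3 := hc g (h1 hg) 1 J.one_mem 1 J.one_mem
  simp only [one_mul, mul_one] at e1 e2 e3
  rw [e1, sub_add_cancel, add_right_cancel e3, e2]

lemma mem_fix {H : Subgroup GQ} {m : AU} (h : ∀ g ∈ H, aU g m = m) : m.toMul ∈ fixU H :=
  fun g hg => congrArg (fun u : AU => (u.toMul : Qb)) (h g hg)

lemma fix_of_mem {H : Subgroup GQ} {m : Qbˣ} (h : m ∈ fixU H) :
    ∀ g ∈ H, aU g (ofMul m) = ofMul m := fun g hg => congrArg ofMul (Units.ext (h g hg))

end DvP

theorem dv (h1 : Coh1Stmt) (h2 : Coh2Stmt) (h3 : Coh3Stmt) : DvStmt := by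
  intro p hp J P hmono hcong hcyc f hf hn hP
  obtain ⟨n, hn⟩ := hn
  obtain ⟨N, hN⟩ := DvP.base hf
  have key : ∀ k J', OpenIn J' J → (N : Subgroup GQ).relIndex J' = p ^ k → B2 J' aU f := by
    intro k
    induction k with
    | zero =>
      intro J' ho hi
      exact hN J' ho.1 (Subgroup.relIndex_eq_one.1 (by rw [hi, pow_zero]))
    | succ k ih =>
      intro J' ho hi
      obtain ⟨J'', o1, n1, i1, i2⟩ := DvP.step hp J' N hi
      obtain ⟨x, σ, hc⟩ := h1.cycEx J' J'' p hp o1 n1 i1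
      obtain ⟨f', z1, z2, z3⟩ := h2.infl AU J' J'' aU f (isAct_aU J') o1 n1 (h3.h90 J'')
        (hf.mono ho.1) (ih J'' (o1.trans ho) i2)
      obtain ⟨c1, c2⟩ := h2.cycNf AU J' J'' aU f' p x σ (isAct_aU J') hc z1 z2
      have c3 := z3.add c2
      rw [sub_add_sub_cancel] at c3
      obtain ⟨y, hy, e⟩ := hcyc J' J'' x σ _ ho hc (DvP.mem_fix c1)
        (hcong J' f _ c3 (hmono J J' f ho.1 hP))
      have c4 := h2.cycOfNorm AU J' J'' aU p x σ (ofMul y) (isAct_aU J') hc (DvP.fix_of_mem hy)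
      rw [← ofMul_nrmU, e, ofMul_toMul] at c4
      have c5 := c3.add c4
      rwa [sub_add_cancel] at c5
  obtain ⟨J₀, k, o1, c1, i1⟩ := DvP.sylow hp J N
  exact h1.transCop AU J J₀ aU f p n (isAct_aU J) o1 hf (key k J₀ o1 i1) c1 hn

theorem abhn (h1 : Coh1Stmt) (h2 : Coh2Stmt) (h3 : Coh3Stmt) (hdv : DvStmt) (hh : HntStmt) :
    AbhnStmt := by
  intro p hp hp2 U f hU hf hn hL
  obtain ⟨n, hn⟩ := hn
  let χ : GQ →* (ZMod p)ˣ := MonoidHom.toHomUnits ⟨⟨om p, om_one p⟩, om_mul p⟩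
  have hχ : ∀ g, g ∈ χ.ker ↔ g (zt p 1) = zt p 1 := fun g => by
    rw [← om_eq_one_iff, MonoidHom.mem_ker, Units.ext_iff]
    rfl
  have ho : OpenIn (U ⊓ χ.ker) U := by
    obtain ⟨N, hN⟩ := exists_ons_fix (zt p 1)
    exact ⟨inf_le_left, N, fun g hg hn => ⟨hg, (hχ g).2 (hN g hn)⟩⟩
  have hc : Nat.Coprime p ((U ⊓ χ.ker).relIndex U) := by
    have d1 : (U ⊓ χ.ker).relIndex U ∣ p - 1 := by
      rw [inf_comm, Subgroup.inf_relIndex_right, ← ZMod.card_units, ← Nat.card_eq_fintype_card]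
      refine (Subgroup.relIndex_dvd_index_of_normal _ _).trans ?_
      rw [Subgroup.index_ker]
      exact Subgroup.card_subgroup_dvd_card _
    refine hp.out.coprime_iff_not_dvd.2 fun h => ?_
    have h4 := hp.out.two_le
    have := Nat.le_of_dvd (by omega) (h.trans d1)
    omega
  refine h1.transCop AU U _ aU f p n (isAct_aU U) ho hf ?_ hc hn
  refine hdv p hp.out _ LocTriv (fun J' J'' f h hf V hV => (hf V hV).mono (inf_le_inf_left _ h))
    (fun J' f f' h hf V hV => ?_) (fun J' J'' x σ m o1 hc hm hl => ?_) f (hf.mono inf_le_left)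
    ⟨n, hn.mono inf_le_left⟩ fun V hV => (hL V hV).mono (inf_le_inf_left _ inf_le_left)
  · have := (hf V hV).sub (h.mono inf_le_right)
    rwa [sub_sub_cancel] at this
  · refine hh p hp2 J' J'' x σ ((o1.trans ho).trans hU) (fun g hg => (hχ g).1 (o1.1 hg).2) hc m hm
      fun V hV τ hτ hx => ?_
    obtain ⟨y, hy, e⟩ := h2.normOfCyc AU _ _ aU p x τ (ofMul m) (isAct_aU _)
      (hc.restrict (DG V) hτ hx) (h3.h90 _) (fun g hg => DvP.fix_of_mem hm g hg.2) (hl V hV)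
    refine ⟨y.toMul, DvP.mem_fix hy, ofMul.injective ?_⟩
    rw [ofMul_nrmU, ofMul_toMul, e]

end Pool.Agent.MP_59efd2_nt.lz

end
end MrgPart0

-- ======== part 1: formerly Pool.Agent.MP_59efd2_nt.lz.Bri
section MrgPart1

/-!
# Row BRI: the `p`-part of the Brauer group of the maximal unramified extension vanishes
-/

noncomputable section

namespace Pool.Agent.MP_59efd2_nt.lz

open scoped Pointwise Classical

namespace BriP

/-- An endomorphism of order dividing `p` acts trivially on a quotient of order `p`. -/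
lemma act_triv {Γ : Type} [CommGroup Γ] {A B : Subgroup Γ} {p : ℕ} (hp : p.Prime)
    (hi : B.relIndex A = p) (φ : Γ →* Γ) (hA : ∀ a ∈ A, φ a ∈ A) (hB : ∀ b ∈ B, φ b ∈ B)
    (hφ : ∀ a ∈ A, φ^[p] a = a) {a : Γ} (ha : a ∈ A) : φ a / a ∈ B := by
  have : Fact p.Prime := ⟨hp⟩
  let ψ : A →* A := (φ.comp A.subtype).codRestrict A fun a => hA a a.2
  let χ : A ⧸ B.subgroupOf A →* A ⧸ B.subgroupOf A :=
    QuotientGroup.map _ _ ψ fun b hb => hB b hb
  have hc : Nat.card (A ⧸ B.subgroupOf A) = p := hi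
  have : IsCyclic (A ⧸ B.subgroupOf A) := isCyclic_of_prime_card hc
  obtain ⟨m, hm⟩ := χ.map_cyclic
  have h1 : ∀ (i : ℕ) (a : A), ((ψ^[i] a : A) : Γ) = φ^[i] a := fun i => by
    induction i with
    | zero => exact fun _ => rfl
    | succ i ih => exact fun a => ih (ψ a)
  have h2 : ∀ (i : ℕ) (a : A), ((ψ^[i] a : A) : A ⧸ B.subgroupOf A) = (a : _) ^ m ^ i := fun i => by
    induction i with
    | zero => exact fun _ => by simp
    | succ i ih =>
      intro a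
      rw [Function.iterate_succ_apply, ih, pow_succ', zpow_mul, ← hm]
      rfl
  have h3 : ψ^[p] ⟨a, ha⟩ = ⟨a, ha⟩ := Subtype.ext ((h1 p _).trans (hφ a ha))
  have h4 := h2 p ⟨a, ha⟩
  rw [h3] at h4
  obtain ⟨k, hk⟩ := Int.prime_dvd_pow_self_sub hp m
  have h5 : ((⟨a, ha⟩ : A) : A ⧸ B.subgroupOf A) ^ p = 1 := by rw [← hc]; exact pow_card_eq_one'
  rw [sub_eq_iff_eq_add.1 hk, zpow_add, zpow_mul, zpow_natCast, h5, one_zpow, one_mul, ← hm] at h4
  have h6 : (⟨a, ha⟩ : A)⁻¹ * ψ ⟨a, ha⟩ ∈ B.subgroupOf A := QuotientGroup.eq.1 h4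
  rw [div_eq_inv_mul]
  exact h6

lemma sU_eq {H' : Subgroup GQ} {g k : GQ} (h : g⁻¹ * k ∈ H') {u : Qbˣ} (hu : u ∈ fixU H') :
    sU k u = sU g u := by
  have : k = g * (g⁻¹ * k) := by group
  rw [this, sU_mul, show sU (g⁻¹ * k) u = u from Units.ext (hu _ h)]

lemma fix_apply {H H' : Subgroup GQ} (hn : NormalIn H' H) {g : GQ} (hg : g ∈ H) {z : Qb}
    (hz : IsFix H' z) : IsFix H' (g z) := fun k hk => by
  have h := hz _ (hn g⁻¹ (H.inv_mem hg) k hk)
  rw [inv_inv] at h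
  calc k (g z) = g ((g⁻¹ * k * g) z) := by
        rw [← AlgEquiv.mul_apply, ← AlgEquiv.mul_apply]; congr 1; group
    _ = g z := by rw [h]

variable {H H' : Subgroup GQ} {d : ℕ} {x : GQ → ZMod d} {σ : GQ}

lemma fix_of (h : Cyc H H' d x σ) {z : Qb} (hz : IsFix H' z) (hs : σ z = z) : IsFix H z := by
  intro g hg
  have h1 : ∀ i : ℕ, (σ ^ i) z = z := fun i => by
    induction i with
    | zero => rfl
    | succ i ih => rw [pow_succ, AlgEquiv.mul_apply, hs, ih]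
  have h2 := congrArg (σ ^ (x g).val) (hz _ (h.decomp hg))
  rwa [← AlgEquiv.mul_apply, mul_inv_cancel_left, h1] at h2

lemma nrm_mem (h : Cyc H H' d x σ) {u : Qbˣ} (hu : u ∈ fixU H') : nrmU σ d u ∈ fixU H := by
  have h1 : nrmU σ d u ∈ fixU H' := by
    rw [nrmU_apply]
    exact Subgroup.prod_mem _ fun i _ => fix_apply h.normalIn (H.pow_mem h.mem i) hu
  refine fix_of h h1 (congrArg Units.val (show sU σ (nrmU σ d u) = nrmU σ d u from ?_))
  have h2 : sU (σ ^ d) u = u := Units.ext (hu _ (h.pow_mem h.mem))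
  have h3 := Finset.prod_range_succ (fun i => sU (σ ^ i) u) d
  rw [Finset.prod_range_succ', pow_zero, sU_one, h2, mul_left_inj] at h3
  rw [nrmU_apply, map_prod, ← h3]
  exact Finset.prod_congr rfl fun i _ => by rw [pow_succ', sU_mul]

lemma comm_mem (h : Cyc H H' d x σ) {g k : GQ} (hg : g ∈ H) (hk : k ∈ H) :
    (k * g)⁻¹ * (g * k) ∈ H' := by
  have h1 := H.mul_mem hk hg
  have h2 := H.mul_mem hg hk
  refine (h.ker _).2 ⟨H.mul_mem (H.inv_mem h1) h2, ?_⟩
  rw [h.add _ (H.inv_mem h1) _ h2, h.map_inv h1, h.add _ hk _ hg, h.add _ hg _ hk]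
  ring

lemma val_nrm (hv : ValStmt) {V : Pl} (hσ : σ ∈ DG V) (u : Qbˣ) (d : ℕ) :
    V.valuation (nrmU σ d u : Qb) = V.valuation (u : Qb) ^ d := by
  rw [nrmU_apply, Units.coe_prod, map_prod]
  simp only [coe_sU, hv.inv V _ ((DG V).pow_mem hσ _), Finset.prod_const, Finset.card_range]

/-- If the generator lies in the inertia group, the residue fields agree. -/
lemma residue (hv : ValStmt) (hu : UnrStmt) {V : Pl} (hV : V ≠ ⊤) (hH : H ≤ DG V)
    (h : Cyc H H' d x σ) (hσ : σ ∈ IG V) {z : Qb} (hz : z ∈ V) (hz' : IsFix H' z) :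
    ∃ w, IsFix H w ∧ V.valuation (z - w) < 1 := by
  rcases ((V.valuation_le_one_iff z).2 hz).lt_or_eq with h1 | h1
  · exact ⟨0, fun g _ => map_zero g, by rwa [sub_zero]⟩
  obtain ⟨l, hl, hal⟩ := hv.above_ex V hV
  obtain ⟨n, ζ, hn, hζ, h2⟩ := hv.teich V l hl hal z h1
  have h3 : V.valuation ζ = 1 := by
    rw [← h1]
    exact Valuation.map_eq_of_sub_lt _ (by rw [Valuation.map_sub_swap, h1]; exact h2)
  have h0 : ζ ≠ 0 := fun e => by simp [e] at h3
  refine ⟨ζ, fix_of h (fun g hg => ?_) (hu.ig_root V l hl hal σ hσ n ζ hn hζ), h2⟩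
  have h4 : V.valuation (g ζ - ζ) < 1 := by
    have e : g ζ - ζ = (z - ζ) - g (z - ζ) := by rw [map_sub, hz' g hg]; ring
    rw [e]
    exact Valuation.map_sub_lt _ h2 (by rw [hv.inv V g (hH (h.le hg))]; exact h2)
  have h5 : V.valuation (n : Qb) = 1 := by
    have := (hv.int V l hl hal n).2 (by exact_mod_cast hn)
    simpa using this
  have h6 := hv.mu' V n (g ζ / ζ) h5 (by rw [div_pow, ← map_pow, hζ]; simp) (by
    rw [div_sub_one h0, map_div₀, h3, div_one]; exact h4)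
  exact (div_eq_one_iff_eq h0).1 h6

/-- A cyclic extension of prime degree generated by inertia is totally ramified. -/
lemma ramified (hv : ValStmt) (hd : DensStmt) (hu : UnrStmt) {V : Pl} (hV : V ≠ ⊤)
    (hH : OpenIn H (DG V)) (hp : d.Prime) (h : Cyc H H' d x σ) (hσ : σ ∈ IG V) :
    ∃ π' ∈ fixU H', ∀ a ∈ fixU H, ∃ j : ℤ,
      V.valuation (a : Qb) = V.valuation (nrmU σ d π' : Qb) ^ j := by
  have : Fact d.Prime := ⟨hp⟩
  obtain ⟨π, h1, h2, h3⟩ := hd.unif V H hV hH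
  obtain ⟨π', h1', h2', h3'⟩ := hd.unif V H' hV (h.opn.trans hH)
  have p0 : 0 < V.valuation (π' : Qb) := by simp [zero_lt_iff]
  obtain ⟨e, he⟩ := h3' π (fixU_anti h.le h1)
  obtain ⟨k, hk⟩ := h3 _ (nrm_mem h h1')
  rw [val_nrm hv (IG_le V hσ), he, ← zpow_mul, ← zpow_natCast] at hk
  have hek : (d : ℤ) = e * k := zpow_right_injective₀ p0 h2'.ne hk
  have e0 : 0 < e := by
    rw [he] at h2
    exact (zpow_lt_one_iff_right_of_lt_one₀ p0 h2').1 h2
  obtain ⟨e, rfl⟩ := Int.eq_ofNat_of_zero_le e0.le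
  have hdvd : e ∣ d := Int.natCast_dvd_natCast.1 ⟨k, hek⟩
  rcases (Nat.dvd_prime hp).1 hdvd with rfl | rfl
  · exfalso
    rw [Nat.cast_one, zpow_one] at he
    have hle : ∀ z : Qb, IsFix H' z → V.valuation z < 1 →
        V.valuation z ≤ V.valuation (π' : Qb) := fun z hz hlt => by
      by_cases h0 : z = 0
      · simp [h0]
      obtain ⟨j, hj⟩ := h3' (Units.mk0 z h0) hz
      rw [Units.val_mk0] at hj
      rw [hj] at hlt ⊢
      have := (zpow_lt_one_iff_right_of_lt_one₀ p0 h2').1 hlt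
      simpa using zpow_le_zpow_right_of_le_one₀ p0 h2'.le (show (1 : ℤ) ≤ j by omega)
    have key : ∀ (n : ℕ) (z : Qb), z ∈ V → IsFix H' z →
        V.valuation (σ z - z) ≤ V.valuation (π' : Qb) ^ n := fun n => by
      induction n with
      | zero =>
        intro z hz _
        rw [pow_zero]
        exact (((hv.ig V σ).1 hσ).2 z hz).le
      | succ n ih =>
        intro z hz hz'
        obtain ⟨w, hw, hzw⟩ := residue hv hu hV hH.1 h hσ hz hz'
        have a1 : IsFix H' (z - w) := fun g hg => by rw [map_sub, hz' g hg, hw g (h.le hg)]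
        have a2 : IsFix H' ((z - w) / π) := fun g hg => by
          rw [map_div₀, a1 g hg, h1 g (h.le hg)]
        have a3 : (z - w) / π ∈ V := by
          rw [← V.valuation_le_one_iff, map_div₀, he]
          exact div_le_one_of_le₀ (hle _ a1 hzw) zero_le
        have a4 : σ z - z = π * (σ ((z - w) / π) - (z - w) / π) := by
          rw [map_div₀, map_sub, h1 σ h.mem, hw σ h.mem]
          field_simp
          ring
        rw [a4, map_mul, he, pow_succ']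
        exact mul_le_mul_right (ih _ a3 a2) _
    have key2 : ∀ z : Qb, z ∈ V → IsFix H' z → σ z = z := fun z hz hz' => by
      by_contra hne
      have h0 := sub_ne_zero.2 hne
      obtain ⟨j, hj⟩ := h3' (Units.mk0 _ h0) fun g hg => by
        rw [Units.val_mk0, map_sub, fix_apply h.normalIn h.mem hz' g hg, hz' g hg]
      have := key (j.toNat + 1) z hz hz'
      rw [Units.val_mk0] at hj
      rw [hj, ← zpow_natCast, zpow_le_zpow_iff_right_of_lt_one₀ p0 h2'] at this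
      omega
    have : σ ∈ H' := by
      refine mem_of_fix ((h.opn.trans hH).isClosed (hv.dg_closed V)) fun z hz => ?_
      rcases V.mem_or_inv_mem z with hz' | hz'
      · exact key2 z hz' hz
      · have := key2 _ hz' fun g hg => by rw [map_inv₀, hz g hg]
        rwa [map_inv₀, inv_inj] at this
    have h0 := ((h.ker σ).1 this).2
    rw [h.gen] at h0
    exact one_ne_zero h0
  · refine ⟨π', h1', fun a ha => (h3 a ha).imp fun j hj => ?_⟩
    rw [hj, val_nrm hv (IG_le V hσ), he, zpow_natCast]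

/-- Every element of the base becomes a norm after an unramified extension of degree `p`. -/
lemma norm_of (hv : ValStmt) (hd : DensStmt) (hu : UnrStmt) (hl : LiiStmt) (hun : UnStmt)
    {V : Pl} (hV : V ≠ ⊤) (hH : OpenIn H (DG V)) (hp : d.Prime) (h : Cyc H H' d x σ)
    (hσ : σ ∈ IG V) : fixU H ≤ NG (IG V ⊓ H') σ d := by
  have : NeZero d := ⟨hp.ne_zero⟩
  obtain ⟨H₂, y, τ₀, hI, c₀⟩ := hu.ex V H d hV hH hp.pos
  have hs2 : σ ∈ H₂ := hI ⟨hσ, h.mem⟩
  have hs := H.pow_mem h.mem (x τ₀).val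
  have hτ : (σ ^ (x τ₀).val)⁻¹ * τ₀ ∈ H' := h.decomp c₀.mem
  set τ := (σ ^ (x τ₀).val)⁻¹ * τ₀ with hτd
  have c : Cyc H H₂ d y τ :=
    { c₀ with
      mem := h.le hτ
      gen := by
        rw [hτd, c₀.add _ (H.inv_mem hs) _ c₀.mem, c₀.map_inv hs,
          ((c₀.ker _).1 (H₂.pow_mem hs2 _)).2, c₀.gen, neg_zero, zero_add] }
  have c₂ : Cyc H₂ (H₂ ⊓ H') d x σ := by
    have := h.restrict H₂ ⟨hs2, h.mem⟩ h.gen
    rwa [inf_eq_left.2 c.le] at this
  have hn : NormalIn (H₂ ⊓ H') H := fun g hg k hk =>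
    ⟨c.normalIn g hg k hk.1, h.normalIn g hg k hk.2⟩
  have hi := hl V H₂ (H₂ ⊓ H') d x σ hV (c.opn.trans hH) hp c₂
  have htr : ∀ a ∈ fixU H₂, sU τ a / a ∈ NG (H₂ ⊓ H') σ d := fun a ha => by
    refine act_triv hp hi (sU τ) (fun a ha => fix_apply c.normalIn c.mem ha) ?_ (fun a ha => ?_) ha
    · rintro _ ⟨u, hu, rfl⟩
      refine ⟨sU τ u, fix_apply hn c.mem hu, ?_⟩
      rw [nrmU_apply, nrmU_apply, map_prod]
      refine Finset.prod_congr rfl fun i _ => ?_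
      rw [← sU_mul, ← sU_mul]
      have hi := H.pow_mem h.mem i
      exact sU_eq (H' := H₂ ⊓ H') ⟨comm_mem c hi c.mem, comm_mem h hi c.mem⟩ hu
    · have : ∀ i : ℕ, (sU τ)^[i] a = sU (τ ^ i) a := fun i => by
        induction i with
        | zero => exact (sU_one a).symm
        | succ i ih => rw [Function.iterate_succ_apply', ih, pow_succ', sU_mul τ]
      rw [this]
      exact Units.ext (ha _ (c.pow_mem c.mem))
  have hN : NG H₂ τ d ≤ NG (H₂ ⊓ H') σ d := by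
    rintro _ ⟨a, ha, rfl⟩
    have h1 : ∀ i : ℕ, sU (τ ^ i) a / a ∈ NG (H₂ ⊓ H') σ d := fun i => by
      induction i with
      | zero => rw [pow_zero, sU_one, div_self']; exact one_mem _
      | succ i ih =>
        have := mul_mem (htr (sU (τ ^ i) a) (fix_apply c.normalIn (H.pow_mem c.mem i) ha)) ih
        rwa [div_mul_div_cancel, ← sU_mul, ← pow_succ'] at this
    have h2 : a ^ d ∈ NG (H₂ ⊓ H') σ d :=
      ⟨a, fixU_anti inf_le_left ha, nrmU_of_fix (Units.ext (ha σ hs2)) d⟩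
    have h3 := mul_mem (Subgroup.prod_mem _ fun i (_ : i ∈ Finset.range d) => h1 i) h2
    rwa [Finset.prod_div_distrib, Finset.prod_const, Finset.card_range, div_mul_cancel,
      ← nrmU_apply] at h3
  obtain ⟨π', hπ, hj⟩ := ramified hv hd hu hV hH hp h hσ
  intro a ha
  obtain ⟨j, hj⟩ := hj a ha
  have h1 : a / nrmU σ d π' ^ j ∈ NG H₂ τ d :=
    hun V H H₂ d y τ hV hH c hI _ (div_mem ha (zpow_mem (nrm_mem h hπ) j)) (by
      rw [Units.val_div_eq_div_val, Units.val_zpow_eq_zpow_val, map_div₀, map_zpow₀, ← hj]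
      exact div_self (by simp))
  have h2 : nrmU σ d π' ∈ NG (H₂ ⊓ H') σ d := ⟨π', fixU_anti inf_le_right hπ, rfl⟩
  have h3 := mul_mem (hN h1) (zpow_mem h2 j)
  rw [div_mul_cancel] at h3
  exact Subgroup.map_mono (fixU_anti (le_inf ((inf_le_inf_left _ h.le).trans hI) inf_le_right)) h3

lemma mem_sup {J : Subgroup GQ} {N : ONS} {g : GQ} :
    g ∈ J ⊔ (N : Subgroup GQ) ↔ ∃ j ∈ J, j⁻¹ * g ∈ N := by
  constructor
  · intro hg
    have h2 : g ∈ ((J ⊔ (N : Subgroup GQ) : Subgroup GQ) : Set GQ) := hg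
    rw [Subgroup.mul_normal] at h2
    obtain ⟨k, hk, n, hn, rfl⟩ := h2
    exact ⟨k, hk, by rw [inv_mul_cancel_left]; exact hn⟩
  · rintro ⟨j, hj, hn⟩
    have := mul_mem (Subgroup.mem_sup_left (T := (N : Subgroup GQ)) hj)
      (Subgroup.mem_sup_right (S := J) hn)
    rwa [mul_inv_cancel_left] at this

/-- Cyclic data extend to the product with a small open normal subgroup. -/
lemma cyc_ext (h : Cyc H H' d x σ) (N : ONS) (hN : ∀ g ∈ H, g ∈ N → g ∈ H') :
    ∃ x', Cyc (H ⊔ (N : Subgroup GQ)) (H' ⊔ (N : Subgroup GQ)) d x' σ := by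
  let x' : GQ → ZMod d := fun g => if h : ∃ j ∈ H, j⁻¹ * g ∈ N then x h.choose else 0
  have hx : ∀ g, ∀ j ∈ H, j⁻¹ * g ∈ N → x' g = x j := fun g j hj hn => by
    have e : ∃ j ∈ H, j⁻¹ * g ∈ N := ⟨j, hj, hn⟩
    obtain ⟨a1, a2⟩ := e.choose_spec
    have a3 : j⁻¹ * e.choose ∈ N := by
      have := N.mul_mem hn (N.inv_mem a2)
      rwa [mul_inv_rev, inv_inv, mul_assoc, mul_inv_cancel_left] at this
    have a4 := ((h.ker _).1 (hN _ (H.mul_mem (H.inv_mem hj) a1) a3)).2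
    rw [h.add _ (H.inv_mem hj) _ a1, h.map_inv hj, neg_add_eq_zero] at a4
    simp only [x', dif_pos e, a4]
  refine ⟨x', h.pos, fun g hg k hk => ?_, fun g => ⟨fun hg => ?_, fun hg => ?_⟩,
    Subgroup.mem_sup_left h.mem, ?_, sup_le_sup_right h.le _, N,
    fun g _ hg => Subgroup.mem_sup_right hg⟩
  · obtain ⟨j, hj, hn⟩ := mem_sup.1 hg
    obtain ⟨j', hj', hn'⟩ := mem_sup.1 hk
    rw [hx g j hj hn, hx k j' hj' hn', ← h.add j hj j' hj']
    refine hx _ _ (H.mul_mem hj hj') ?_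
    have : (j * j')⁻¹ * (g * k) = j'⁻¹ * (j⁻¹ * g) * j' * (j'⁻¹ * k) := by group
    rw [this]
    exact N.mul_mem (ons_conj' N hn j') hn'
  · obtain ⟨j, hj, hn⟩ := mem_sup.1 hg
    exact ⟨mem_sup.2 ⟨j, h.le hj, hn⟩, (hx g j (h.le hj) hn).trans ((h.ker j).1 hj).2⟩
  · obtain ⟨j, hj, hn⟩ := mem_sup.1 hg.1
    exact mem_sup.2 ⟨j, (h.ker j).2 ⟨hj, (hx g j hj hn).symm.trans hg.2⟩, hn⟩
  · rw [hx σ σ h.mem (by rw [inv_mul_cancel]; exact N.one_mem), h.gen]

end BriP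

open BriP in
theorem bri (_h1 : Coh1Stmt) (hdv : DvStmt) (hv : ValStmt) (hd : DensStmt) (hu : UnrStmt)
    (_hφ : PhiStmt) (hl : LiiStmt) (hun : UnStmt) : BriStmt := by
  intro V H p f hV _ hp hf hn
  refine hdv p hp (IG V ⊓ H) (fun _ _ => True) (fun _ _ _ _ _ => trivial)
    (fun _ _ _ _ _ => trivial) (fun J' J'' x σ m hJ c hm _ => ?_) f hf hn trivial
  obtain ⟨N₁, hN₁⟩ := exists_ons_fix (m : Qb)
  obtain ⟨N₃, hN₃⟩ := (c.opn.trans hJ).2
  obtain ⟨x', c'⟩ := cyc_ext c (N₁ ⊓ N₃) fun g hg hgN => hN₃ g (hJ.1 hg) hgN.2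
  have hσ : σ ∈ IG V := (hJ.1 c.mem).1
  have c₁ := c'.restrict (DG V) ⟨IG_le V hσ, c'.mem⟩ c'.gen
  have h1 := norm_of hv hd hu hl hun hV ⟨inf_le_left, N₁ ⊓ N₃,
    fun g hg hgN => ⟨hg, Subgroup.mem_sup_right hgN⟩⟩ hp c₁ hσ (x := x') (fun g hg => by
      obtain ⟨j, hj, hn⟩ := mem_sup.1 hg.2
      have := congrArg j (hN₁ _ hn.1)
      rwa [← AlgEquiv.mul_apply, mul_inv_cancel_left, hm j hj] at this : m ∈ _)
  refine Subgroup.map_mono (fixU_anti fun g hg => ?_) h1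
  have := hJ.1 (c.le hg)
  exact ⟨this.1, IG_le V this.1, Subgroup.mem_sup_left hg⟩

end Pool.Agent.MP_59efd2_nt.lz

end
end MrgPart1

-- ======== part 2: formerly Pool.Agent.MP_59efd2_nt.lz.Lb
section MrgPart2

/-!
# Row LB: the `p`-torsion of the local Brauer group, and `H²(D, 𝔽_p(θ)) = 0`
-/

noncomputable section

namespace Pool.Agent.MP_59efd2_nt.lz

open scoped Pointwise Classical
open Additive Finset

namespace LbP

/-- Two `p`-torsion multiples of one element. -/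
lemma exists_nsmul_eq {Q : Type} [AddCommGroup Q] {p : ℕ} (hp : p.Prime) (c : Q) (i i' : ℤ)
    (h : p • (i • c) = 0) (h' : p • (i' • c) = 0) (hne : i • c ≠ 0) :
    ∃ j : ℕ, i' • c = j • (i • c) := by
  have : Fact p.Prime := ⟨hp⟩
  have hp0 : (p : ℤ) ≠ 0 := by exact_mod_cast hp.ne_zero
  rw [← natCast_zsmul, ← mul_smul, ← addOrderOf_dvd_iff_zsmul_eq_zero] at h h'
  rw [Ne, ← addOrderOf_dvd_iff_zsmul_eq_zero] at hne
  have hpn : p ∣ addOrderOf c := by
    by_contra hc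
    have h1 : IsCoprime ((addOrderOf c : ℕ) : ℤ) (p : ℤ) :=
      Nat.isCoprime_iff_coprime.2 ((Nat.Prime.coprime_iff_not_dvd hp).2 hc).symm
    exact hne (h1.dvd_of_dvd_mul_left h)
  obtain ⟨n, hn⟩ := hpn
  rw [hn, Nat.cast_mul] at h h' hne
  obtain ⟨k, rfl⟩ := (mul_dvd_mul_iff_left hp0).1 h
  obtain ⟨k', rfl⟩ := (mul_dvd_mul_iff_left hp0).1 h'
  have hk : (k : ZMod p) ≠ 0 := fun h0 => hne (by
    rw [mul_comm (n : ℤ) k]
    exact mul_dvd_mul_right ((ZMod.intCast_zmod_eq_zero_iff_dvd k p).1 h0) _)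
  refine ⟨((k' : ZMod p) * (k : ZMod p)⁻¹).val, ?_⟩
  have h2 : (p : ℤ) ∣ k' - (((k' : ZMod p) * (k : ZMod p)⁻¹).val : ℤ) * k := by
    rw [← ZMod.intCast_zmod_eq_zero_iff_dvd]
    push_cast
    rw [ZMod.natCast_zmod_val, mul_assoc, inv_mul_cancel₀ hk, mul_one, sub_self]
  rw [← natCast_zsmul, ← mul_smul, ← sub_eq_zero, ← sub_smul,
    ← addOrderOf_dvd_iff_zsmul_eq_zero, hn, Nat.cast_mul]
  obtain ⟨t, ht⟩ := h2
  exact ⟨t, by linear_combination (n : ℤ) * ht⟩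

/-- The carry cocycle is additive in its value. -/
def cycH (d : ℕ) (x : GQ → ZMod d) : AU →+ (GQ → GQ → AU) where
  toFun := cyc d x
  map_zero' := by
    funext g h
    simp [cyc]
  map_add' := fun m m' => by
    funext g h
    simp only [cyc, Pi.add_apply]
    split_ifs <;> simp

lemma fix_aU {H : Subgroup GQ} {u : Qbˣ} (hu : u ∈ fixU H) :
    ∀ g ∈ H, aU g (ofMul u) = ofMul u := fun g hg =>
  congrArg ofMul (Units.ext (hu g hg))

lemma mem_fix {H : Subgroup GQ} {m : AU} (hm : ∀ g ∈ H, aU g m = m) : m.toMul ∈ fixU H :=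
  fun g hg => congrArg (fun u : AU => ((u.toMul : Qbˣ) : Qb)) (hm g hg)

lemma b2_of_NG (h2 : Coh2Stmt) {H H' : Subgroup GQ} {d : ℕ} {x : GQ → ZMod d} {σ : GQ}
    (hc : Cyc H H' d x σ) {u : Qbˣ} (hu : u ∈ NG H' σ d) : B2 H aU (cyc d x (ofMul u)) := by
  obtain ⟨y, hy, rfl⟩ := hu
  rw [ofMul_nrmU]
  exact h2.cycOfNorm AU H H' aU d x σ _ (isAct_aU H) hc (fix_aU hy)

/-- A non-trivial class of order `p` that is split by a given cyclic extension of degree `p`. -/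
lemma nzCyc (h2 : Coh2Stmt) (h3 : Coh3Stmt) (hl : LiiStmt) {V : Pl} {H H' : Subgroup GQ} {p : ℕ}
    {x : GQ → ZMod p} {σ : GQ} (hV : V ≠ ⊤) (hH : OpenIn H (DG V)) (hp : p.Prime)
    (hc : Cyc H H' p x σ) :
    ∃ m : AU, Z2 H aU (cyc p x m) ∧ B2 H aU (p • cyc p x m) ∧ ¬ B2 H aU (cyc p x m) := by
  have hi := hl V H H' p x σ hV hH hp hc
  have hn : ¬ fixU H ≤ NG H' σ p := fun hle =>
    hp.one_lt.ne' (hi.symm.trans (Subgroup.relIndex_eq_one.2 hle))
  obtain ⟨a, ha, hna⟩ := SetLike.not_le_iff_exists.1 hn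
  refine ⟨ofMul a, h2.cycZ AU H H' aU p x σ _ (isAct_aU H) hc (fix_aU ha), ?_, fun hb => hna ?_⟩
  · have h1 : p • cyc p x (ofMul a) = cyc p x (ofMul (a ^ p)) := by
      rw [ofMul_pow]
      exact ((cycH p x).map_nsmul _ _).symm
    rw [h1]
    refine b2_of_NG h2 hc ⟨a, fixU_anti hc.le ha, ?_⟩
    exact nrmU_of_fix (Units.ext (ha σ hc.mem)) p
  · obtain ⟨y, hy, he⟩ := h2.normOfCyc AU H H' aU p x σ _ (isAct_aU H) hc (h3.h90 H')
      (fix_aU ha) hb
    refine ⟨y.toMul, mem_fix hy, ?_⟩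
    apply ofMul.injective
    rw [ofMul_nrmU]
    exact he

/-- A class split by an unramified cyclic extension is a multiple of the class of `π`. -/
lemma eq_zsmul (h2 : Coh2Stmt) (h3 : Coh3Stmt) (hun : UnStmt) {V : Pl} {H H' : Subgroup GQ}
    {d : ℕ} {x : GQ → ZMod d} {σ : GQ} (hV : V ≠ ⊤) (hH : OpenIn H (DG V))
    (hc : Cyc H H' d x σ) (hI : IG V ⊓ H ≤ H') {π : Qbˣ} (hπ : Unif V H π)
    {f : GQ → GQ → AU} (hf : Z2 H aU f) (hb : B2 H' aU f) :
    ∃ i : ℤ, B2 H aU (f - i • cyc d x (ofMul π)) := by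
  obtain ⟨f1, hz, hi, hb1⟩ := h2.infl AU H H' aU f (isAct_aU H) hc.opn hc.normalIn (h3.h90 H') hf hb
  obtain ⟨hm, hb2⟩ := h2.cycNf AU H H' aU f1 d x σ (isAct_aU H) hc hz hi
  generalize ∑ i ∈ range d, f1 (σ ^ i) σ = m at hm hb2
  have ha := mem_fix hm
  obtain ⟨i, hi⟩ := hπ.2.2 _ ha
  have hv : V.valuation (π : Qb) ≠ 0 := by simp
  have hu : m.toMul / π ^ i ∈ NG H' σ d := by
    refine hun V H H' d x σ hV hH hc hI _ ((fixU H).div_mem ha ((fixU H).zpow_mem hπ.1 i)) ?_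
    rw [Units.val_div_eq_div_val, map_div₀, Units.val_zpow_eq_zpow_val, map_zpow₀, hi,
      div_self (zpow_ne_zero i hv)]
  have hb3 := b2_of_NG h2 hc hu
  have he : cyc d x (ofMul (m.toMul / π ^ i)) = cyc d x m - i • cyc d x (ofMul π) := by
    rw [ofMul_div, ofMul_zpow, ofMul_toMul]
    exact ((cycH d x).map_sub _ _).trans (congrArg _ ((cycH d x).map_zsmul _ _))
  rw [he] at hb3
  refine ⟨i, ?_⟩
  have := (hb1.add hb2).add hb3
  convert this using 1
  abel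

lemma cyc1 (h1 : Coh1Stmt) (h2 : Coh2Stmt) (h3 : Coh3Stmt) (hd : DensStmt) (hu : UnrStmt)
    (hun : UnStmt) (hb : BriStmt) (V : Pl) (H : Subgroup GQ) (p : ℕ) (f f' : GQ → GQ → AU)
    (hV : V ≠ ⊤) (hH : OpenIn H (DG V)) (hp : p.Prime) (hf : Z2 H aU f) (hf' : Z2 H aU f')
    (hpf : B2 H aU (p • f)) (hpf' : B2 H aU (p • f')) (hn : ¬ B2 H aU f) :
    ∃ j : ℕ, B2 H aU (f' - j • f) := by
  have key : ∀ F, Z2 H aU F → B2 H aU (p • F) →
      ∃ H', IG V ⊓ H ≤ H' ∧ OpenIn H' H ∧ B2 H' aU F := fun F hF hpF =>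
    h1.ext AU H _ aU F (isAct_aU H) inf_le_right hF
      (hb V H p F hV hH hp (hF.mono inf_le_right) ⟨1, by
        rw [pow_one]; exact hpF.mono inf_le_right⟩)
  obtain ⟨H1, hI1, ho1, hb1⟩ := key f hf hpf
  obtain ⟨H2, hI2, ho2, hb2⟩ := key f' hf' hpf'
  obtain ⟨H3, d, x, σ, hle, hI, hc⟩ := hu.cyc V H (H1 ⊓ H2) hV hH (ho1.inf ho2) (le_inf hI1 hI2)
  obtain ⟨π, hπ⟩ := hd.unif V H hV hH
  obtain ⟨i, hi⟩ := eq_zsmul h2 h3 hun hV hH hc hI hπ hf (hb1.mono (hle.trans inf_le_left))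
  obtain ⟨i', hi'⟩ := eq_zsmul h2 h3 hun hV hH hc hI hπ hf' (hb2.mono (hle.trans inf_le_right))
  let q := QuotientAddGroup.mk' (B2G H aU)
  have hq : ∀ F, q F = 0 ↔ B2 H aU F := fun F => QuotientAddGroup.eq_zero_iff F
  have e : q f = i • q (cyc d x (ofMul π)) := by
    rw [← sub_eq_zero, ← map_zsmul q, ← map_sub q]; exact (hq _).2 hi
  have e' : q f' = i' • q (cyc d x (ofMul π)) := by
    rw [← sub_eq_zero, ← map_zsmul q, ← map_sub q]; exact (hq _).2 hi'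
  obtain ⟨j, hj⟩ := exists_nsmul_eq hp (q (cyc d x (ofMul π))) i i'
    (by rw [← e, ← map_nsmul q]; exact (hq _).2 hpf)
    (by rw [← e', ← map_nsmul q]; exact (hq _).2 hpf')
    (by rw [← e]; exact fun h0 => hn ((hq _).1 h0))
  refine ⟨j, (hq _).1 ?_⟩
  rw [map_sub, map_nsmul, e, e', hj, sub_self]

/-- Conjugation preserves coboundaries on a normalised subgroup. -/
lemma b2_conj {H : Subgroup GQ} {g : GQ} (hg : ∀ x ∈ H, g⁻¹ * x * g ∈ H) {F : GQ → GQ → AU}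
    (hF : B2 H aU F) : B2 H aU fun x y => aU g (F (g⁻¹ * x * g) (g⁻¹ * y * g)) := by
  obtain ⟨b, ⟨N, hN⟩, hb⟩ := hF
  have ha := isAct_aU ⊤
  refine ⟨fun x => aU g (b (g⁻¹ * x * g)), ⟨N, fun x hx n hn hnN => ?_⟩, fun x hx y hy => ?_⟩
  · have : g⁻¹ * (x * n) * g = g⁻¹ * x * g * (g⁻¹ * n * g) := by group
    beta_reduce
    rw [this, hN _ (hg x hx) _ (hg n hn) (ons_conj' N hnN g)]
  · have e1 : g⁻¹ * x * g * (g⁻¹ * y * g) = g⁻¹ * (x * y) * g := by group
    have e2 : g * (g⁻¹ * x * g) = x * g := by group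
    beta_reduce
    rw [hb _ (hg x hx) _ (hg y hy), map_add, map_sub, e1, ← ha.mul g trivial _ trivial, e2,
      ha.mul x trivial g trivial]

/-- The homomorphism to units attached to a character. -/
def chU {R : Type} [CommRing R] {D : Subgroup GQ} {θ : GQ → R} (h : IsChar D θ) : D →* Rˣ :=
  MonoidHom.toHomUnits
    { toFun := fun g => θ g
      map_one' := h.one
      map_mul' := fun g k => h.mul g g.2 k k.2 }

lemma coe_chU {R : Type} [CommRing R] {D : Subgroup GQ} {θ : GQ → R} (h : IsChar D θ) (g : D) :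
    (chU h g : R) = θ g := rfl

/-- The common kernel of two characters modulo `p`. -/
lemma exists_ker {p : ℕ} [Fact p.Prime] {D : Subgroup GQ} {θ θ' : GQ → ZMod p} (h : IsChar D θ)
    (h' : IsChar D θ') : ∃ H, OpenIn H D ∧ (∀ g ∈ D, ∀ x ∈ H, g⁻¹ * x * g ∈ H) ∧
      Nat.Coprime p (H.relIndex D) ∧ ∀ g ∈ H, θ g = 1 ∧ θ' g = 1 := by
  have hp : p.Prime := Fact.out
  let φ := (chU h).prod (chU h')
  have hm : ∀ g : D, g ∈ φ.ker ↔ θ g = 1 ∧ θ' g = 1 := fun g => by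
    rw [MonoidHom.mem_ker, Prod.ext_iff]
    exact and_congr Units.ext_iff Units.ext_iff
  refine ⟨φ.ker.map D.subtype, ⟨Subgroup.map_subtype_le _, ?_⟩, ?_, ?_, ?_⟩
  · obtain ⟨N, hN⟩ := h.smooth
    obtain ⟨N', hN'⟩ := h'.smooth
    refine ⟨N ⊓ N', fun g hg hgN => ⟨⟨g, hg⟩, (hm _).2 ⟨?_, ?_⟩, rfl⟩⟩
    · simpa [h.one] using hN 1 D.one_mem g hg hgN.1
    · simpa [h'.one] using hN' 1 D.one_mem g hg hgN.2
  · rintro g hg _ ⟨x, hx, rfl⟩
    exact ⟨_, (MonoidHom.normal_ker φ).conj_mem' x hx ⟨g, hg⟩, rfl⟩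
  · have e : (φ.ker.map D.subtype).relIndex D = φ.ker.index := by
      rw [Subgroup.relIndex, Subgroup.subgroupOf,
        Subgroup.comap_map_eq_self_of_injective D.subtype_injective]
    rw [e, Subgroup.index_ker]
    refine Nat.Coprime.coprime_dvd_right (Subgroup.card_subgroup_dvd_card _) ?_
    have hc : Nat.card (ZMod p)ˣ = p - 1 := by
      rw [Nat.card_eq_fintype_card, ZMod.card_units]
    have hcop : Nat.Coprime p (p - 1) := (Nat.coprime_self_sub_right hp.one_le).2 (by simp)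
    rw [Nat.card_prod, hc]
    exact Nat.Coprime.mul_right hcop hcop
  · rintro _ ⟨x, hx, rfl⟩
    exact (hm x).1 hx

end LbP

theorem lb (h1 : Coh1Stmt) (h2 : Coh2Stmt) (h3 : Coh3Stmt) (_hv : ValStmt) (hd : DensStmt)
    (hu : UnrStmt) (hl : LiiStmt) (hun : UnStmt) (hb : BriStmt) : LbStmt := by
  refine ⟨LbP.cyc1 h1 h2 h3 hd hu hun hb, fun V H p hV hH hp => ?_,
    fun V H H' p x σ f hV hH hp hc hf hpf => ?_⟩
  · obtain ⟨H', x, σ, -, hc⟩ := hu.ex V H p hV hH hp.pos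
    obtain ⟨m, hm⟩ := LbP.nzCyc h2 h3 hl hV hH hp hc
    exact ⟨_, hm⟩
  · obtain ⟨m, hz, hpm, hn⟩ := LbP.nzCyc h2 h3 hl hV hH hp hc
    obtain ⟨j, hj⟩ := LbP.cyc1 h1 h2 h3 hd hu hun hb V H p _ f hV hH hp hz hf hpm hpf hn
    refine (hj.mono hc.le).congr fun g hg k hk => ?_
    have : cyc p x m g k = 0 := by
      simp [cyc, ((hc.ker g).1 hg).2, ((hc.ker k).1 hk).2, hp.ne_zero]
    simp [this]

theorem h2v (h1 : Coh1Stmt) (h3 : Coh3Stmt) (hlb : LbStmt) : H2vStmt := by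
  intro p _ V θ hV hθ ⟨g, hg, hne⟩ f hf
  have hp : p.Prime := Fact.out
  obtain ⟨H, ho, hnm, hcop, hk⟩ := LbP.exists_ker hθ (isChar_om p (DG V))
  have hle := ho.1
  have hι : ∀ k ∈ H, ∀ m, iot1 p (mulAct θ k m) = aU k (iot1 p m) := fun k hkH m => by
    rw [aU_iot1, mulAct_apply, (hk k hkH).1, (hk k hkH).2]
  have hp0 : ∀ t : ZMod p, p • t = 0 := fun t => by simp
  obtain ⟨f0, hz0, hp0', hn0⟩ := hlb.nz V (DG V) p hV (OpenIn.refl _) hp
  have hn0H : ¬ B2 H aU f0 := fun hb => hn0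
    (h1.transCop AU _ H aU f0 p 1 (isAct_aU _) ho hz0 hb hcop (by rw [pow_one]; exact hp0'))
  have hzF : Z2 H aU fun x y => iot1 p (f x y) := (hf.mono hle).map (iot1 p) hι
  have hpF : B2 H aU (p • fun x y => iot1 p (f x y)) :=
    (b2_zero H aU).congr fun x _ y _ => by
      simp only [Pi.smul_apply, Pi.zero_apply]
      rw [← map_nsmul, hp0, map_zero]
  obtain ⟨j, hj⟩ := hlb.cyc1 V H p f0 _ hV ho hp (hz0.mono hle) hzF (hp0'.mono hle) hpF hn0H
  have hθg : θ g ≠ 0 := (LbP.chU hθ ⟨g, hg⟩).ne_zero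
  have c1 := LbP.b2_conj (hnm g hg) hj
  have c2 := ((h1.conj AU _ aU f0 (isAct_aU _) hz0 g hg).mono hle).nsmul j
  have c3 := (((h1.conj (ZMod p) _ (mulAct θ) f hθ.isAct hf g hg).map
    (a' := mulAct θ) (AddMonoidHom.mulLeft (om p g * (θ g)⁻¹))
    (fun k _ m => by simp only [mulAct_apply, AddMonoidHom.coe_mulLeft]; ring)).mono hle).map
      (iot1 p) hι
  have ht : om p g * (θ g)⁻¹ - 1 ≠ 0 := fun h0 => hne (by
    rw [sub_eq_zero, mul_inv_eq_one₀ hθg] at h0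
    exact h0.symm)
  have c4 : B2 H aU fun x y => iot1 p ((om p g * (θ g)⁻¹ - 1) * f x y) := by
    refine (((c1.add c2).sub hj).sub c3).congr fun x _ y _ => ?_
    have e : om p g * (θ g)⁻¹ * (θ g * f (g⁻¹ * x * g) (g⁻¹ * y * g) - f x y) =
        om p g * f (g⁻¹ * x * g) (g⁻¹ * y * g) - om p g * (θ g)⁻¹ * f x y := by
      field_simp
    simp only [Pi.add_apply, Pi.sub_apply, Pi.smul_apply, map_sub, map_nsmul, aU_iot1,
      mulAct_apply, AddMonoidHom.coe_mulLeft, nsmul_sub, sub_mul, one_mul]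
    rw [← map_sub (iot1 p) (om p g * (θ g)⁻¹ * (θ g * _)), ← mul_sub, e, map_sub]
    abel
  have hz' : Z2 H (mulAct (om p)) fun x y => (om p g * (θ g)⁻¹ - 1) * f x y :=
    (hf.mono hle).map (AddMonoidHom.mulLeft (om p g * (θ g)⁻¹ - 1)) fun k hkH m => by
      simp [(hk k hkH).1, (hk k hkH).2]
  have c5 : B2 H (mulAct θ) f :=
    ((h3.kumInj p H _ hz' c4).map (a' := mulAct θ)
      (AddMonoidHom.mulLeft (om p g * (θ g)⁻¹ - 1)⁻¹) fun k hkH m => by
        simp [(hk k hkH).1, (hk k hkH).2]).congr fun x _ y _ => by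
      simp only [AddMonoidHom.coe_mulLeft]
      rw [← mul_assoc, inv_mul_cancel₀ ht, one_mul]
  refine h1.transCop (ZMod p) _ H (mulAct θ) f p 1 hθ.isAct ho hf c5 hcop ?_
  refine (b2_zero _ _).congr fun x _ y _ => ?_
  simp only [pow_one, Pi.smul_apply, Pi.zero_apply]
  exact hp0 _

end Pool.Agent.MP_59efd2_nt.lz

end
end MrgPart2

-- ======== part 3: formerly Pool.Agent.MP_59efd2_nt.lz.Adq
section MrgPart3

/-!
# Row ADQ: the `S`-class group is trivial for large `S`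
-/

noncomputable section

namespace Pool.Agent.MP_59efd2_nt.lz

open scoped Pointwise Classical nonZeroDivisors
open NumberField

namespace AdqP

variable (K : IntermediateField ℚ Qb)

/-- The ring of integers inside `Qb`. -/
def emb : 𝓞 K →+* Qb := (algebraMap K Qb).comp (algebraMap (𝓞 K) K)

lemma emb_inj : Function.Injective (emb K) :=
  (algebraMap K Qb).injective.comp RingOfIntegers.coe_injective

variable {K}

lemma emb_le (hv : ValStmt) (W : Pl) (x : 𝓞 K) : W.valuation (emb K x) ≤ 1 :=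
  (W.valuation_le_one_iff _).2 (hv.integral W _
    ((RingOfIntegers.isIntegral_coe x).map (IsScalarTower.toAlgHom ℤ K Qb)))

variable (K)

/-- The centre of a place. -/
def ctr (hv : ValStmt) (W : Pl) : Ideal (𝓞 K) where
  carrier := {x | W.valuation (emb K x) < 1}
  add_mem' := fun {a b} ha hb => by
    simpa only [Set.mem_ofPred_eq, map_add] using W.valuation.map_add_lt ha hb
  zero_mem' := by simp
  smul_mem' := fun c x hx => by
    simpa only [Set.mem_ofPred_eq, smul_eq_mul, map_mul] using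
      mul_lt_one_of_nonneg_of_lt_one_right (emb_le hv W c) zero_le hx

variable {K}

lemma not_mem_ctr {hv : ValStmt} {W : Pl} {x : 𝓞 K} :
    x ∉ ctr K hv W ↔ W.valuation (emb K x) = 1 :=
  ⟨fun h => le_antisymm (emb_le hv W x) (not_lt.1 h), fun h h' => absurd h (ne_of_lt h')⟩

lemma ctr_prime (hv : ValStmt) (W : Pl) : (ctr K hv W).IsPrime := by
  refine ⟨(Ideal.ne_top_iff_one _).2 (not_mem_ctr.2 (by simp)), fun {x y} h => ?_⟩
  by_contra hc
  rw [not_or, not_mem_ctr, not_mem_ctr] at hc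
  exact not_mem_ctr.2 (by rw [map_mul, map_mul, hc.1, hc.2, one_mul]) h

lemma ctr_ne (hv : ValStmt) {W : Pl} (hW : W ≠ ⊤) : ctr K hv W ≠ ⊥ := by
  obtain ⟨l, hl, h⟩ := hv.above_ex W hW
  refine (Submodule.ne_bot_iff _).2 ⟨l, ?_, Nat.cast_ne_zero.2 hl.ne_zero⟩
  change W.valuation (emb K l) < 1
  rwa [map_natCast]

lemma mem_iff [NumberField K] (hv : ValStmt) {V W : Pl} (hV : V ≠ ⊤)
    (h : ctr K hv V = ctr K hv W) (x : K) : (x : Qb) ∈ V ↔ (x : Qb) ∈ W := by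
  obtain ⟨n, d, hnd⟩ := IsDedekindDomain.HeightOneSpectrum.exists_primeCompl_mul_eq_or_mul_eq
    (K := K) (⟨ctr K hv V, ctr_prime hv V, ctr_ne hv hV⟩ : IsDedekindDomain.HeightOneSpectrum (𝓞 K))
    x
  have dV : V.valuation (emb K d) = 1 := (not_mem_ctr (hv := hv)).1 d.2
  have dW : W.valuation (emb K d) = 1 := (not_mem_ctr (hv := hv)).1 (h ▸ d.2)
  rcases hnd with e | e
  · have e' : (x : Qb) * emb K d = emb K n := by simpa using! congrArg (algebraMap K Qb) e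
    have k : ∀ Z : Pl, Z.valuation (emb K d) = 1 → (x : Qb) ∈ Z := fun Z hZ => by
      have := emb_le hv Z n
      rwa [← e', map_mul, hZ, mul_one, Z.valuation_le_one_iff] at this
    exact iff_of_true (k V dV) (k W dW)
  · have e' : (x : Qb) * emb K n = emb K d := by simpa using! congrArg (algebraMap K Qb) e
    have k : ∀ Z : Pl, Z.valuation (emb K d) = 1 → ((x : Qb) ∈ Z ↔ n ∉ ctr K hv Z) := by
      intro Z hZ
      rw [← e', map_mul] at hZ
      rw [← Z.valuation_le_one_iff, not_mem_ctr]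
      refine ⟨fun hx => eq_one_of_one_le_mul_right hx (emb_le hv Z n) hZ.ge, fun hn => ?_⟩
      rw [hn, mul_one] at hZ
      exact hZ.le
    rw [k V dV, k W dW, h]

end AdqP

open AdqP in
theorem adq (hv : ValStmt) (hp : PlcStmt) (hd : DensStmt) : AdqStmt := by
  intro U hU
  set K : IntermediateField ℚ Qb := IntermediateField.fixedField U with hK
  have hfin : FiniteDimensional ℚ K := by
    rw [← InfiniteGalois.isOpen_iff_finite]
    have h := InfiniteGalois.fixingSubgroup_fixedField (k := ℚ) (K := Qb)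
      ⟨U, U.isClosed_of_isOpen hU.isOpen⟩
    have h2 : K.fixingSubgroup = U := h
    rw [h2]
    exact hU.isOpen
  have hN : NumberField K := ⟨⟩
  have fixe : ∀ x : 𝓞 K, IsFix U (emb K x) := fun x => (isFix_iff U _).2 (x : K).2
  choose I hI using ClassGroup.mk0_surjective (R := 𝓞 K)
  have ex : ∀ C, ∃ a ∈ (I C : Ideal (𝓞 K)), ∃ P : Finset ℕ,
      ∀ W : Pl, W ∉ AboveSet P → W.valuation (emb K a) = 1 := by
    intro C
    obtain ⟨a, ha, h0⟩ := (Submodule.ne_bot_iff _).1 (nonZeroDivisors.coe_ne_zero (I C))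
    exact ⟨a, ha, hp.supp (Units.mk0 _ ((map_ne_zero_iff _ (emb_inj K)).2 h0))⟩
  choose a ha P hP using ex
  refine ⟨Finset.univ.biUnion P, fun W₀ h0 hS => ?_⟩
  have hP' : ∀ C (W : Pl), W ∉ AboveSet (Finset.univ.biUnion P) →
      W.valuation (emb K (a C)) = 1 := fun C W hW => hP C W fun ⟨l, hl, h⟩ =>
    hW ⟨l, Finset.mem_biUnion.2 ⟨C, Finset.mem_univ _, hl⟩, h⟩
  have p0 : ctr K hv W₀ ∈ (Ideal (𝓞 K))⁰ := mem_nonZeroDivisors_of_ne_zero (ctr_ne hv h0)
  set C := (ClassGroup.mk0 ⟨_, p0⟩)⁻¹ with hC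
  have pI : ctr K hv W₀ * I C ∈ (Ideal (𝓞 K))⁰ := mul_mem p0 (I C).2
  have one : ClassGroup.mk0 ⟨_, pI⟩ = 1 := by
    have : (⟨_, pI⟩ : (Ideal (𝓞 K))⁰) = ⟨_, p0⟩ * I C := rfl
    rw [this, map_mul, hI, mul_inv_cancel]
  obtain ⟨π, hπ⟩ := (ClassGroup.mk0_eq_one_iff pI).1 one
  have hπ' : ctr K hv W₀ * I C = Ideal.span {π} := hπ
  have π0 : emb K π ≠ 0 := by
    rw [map_ne_zero_iff _ (emb_inj K)]
    rintro rfl
    exact nonZeroDivisors.ne_zero pI (by simpa using hπ')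
  have lt1 : W₀.valuation (emb K π) < 1 :=
    Ideal.mul_le_left (hπ'.ge (Ideal.mem_span_singleton_self π))
  refine ⟨Units.mk0 _ π0, fixe π, ⟨(fixe π).mono inf_le_right, lt1, ?_⟩, fun W hW hne => ?_⟩
  · obtain ⟨ϖ, f1, f2, f3⟩ := hd.unif W₀ _ h0 (hU.inf_top (DG W₀))
    have v0 : 0 < W₀.valuation (ϖ : Qb) := zero_lt_iff.2 (by simp)
    obtain ⟨y, y1, y2, y3⟩ := hd.approx U {W₀} (fun _ => ϖ) (ϖ * ϖ) hU
      ⟨by simpa using h0, by simp⟩
      (fun V hV => by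
        rw [Finset.mem_singleton.1 hV]
        exact mem_OH.2 ⟨(W₀.valuation_le_one_iff _).1 f2.le, f1⟩) (by simp)
    have y4 : W₀.valuation y = W₀.valuation (ϖ : Qb) := by
      refine W₀.valuation.map_eq_of_sub_lt ((y3 W₀ (Finset.mem_singleton_self _)).trans_lt ?_)
      rw [map_mul]
      exact mul_lt_of_lt_one_right v0 f2
    let y' : 𝓞 K := ⟨⟨y, (isFix_iff U y).1 y1⟩,
      (isIntegral_algHom_iff (IsScalarTower.toAlgHom ℤ K Qb) (algebraMap K Qb).injective).1 y2⟩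
    have y5 : y' ∈ ctr K hv W₀ := y4.trans_lt f2
    obtain ⟨z, hz⟩ := Ideal.mem_span_singleton'.1 (hπ'.le (Ideal.mul_mem_mul y5 (ha C)))
    have e := congrArg (fun t => W₀.valuation (emb K t)) hz
    simp only [map_mul, hP' C W₀ hS, mul_one] at e
    have le1 : W₀.valuation (ϖ : Qb) ≤ W₀.valuation (emb K π) := by
      rw [← y4]
      exact e.ge.trans (mul_le_of_le_one_left' (emb_le hv W₀ z))
    obtain ⟨j, hj⟩ := f3 (Units.mk0 _ π0) ((fixe π).mono inf_le_right)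
    have hj' : W₀.valuation (emb K π) = W₀.valuation (ϖ : Qb) ^ j := hj
    have jpos : 0 < j := (zpow_lt_one_iff_right_of_lt_one₀ v0 f2).1 (hj' ▸ lt1)
    have le2 : W₀.valuation (emb K π) ≤ W₀.valuation (ϖ : Qb) := by
      rw [hj']
      simpa using zpow_le_zpow_right_of_le_one₀ v0 f2.le (show (1 : ℤ) ≤ j from jpos)
    intro t ht
    obtain ⟨i, hi⟩ := f3 t ht
    exact ⟨i, by rw [hi, le_antisymm le1 le2]; rfl⟩
  · refine (not_mem_ctr (hv := hv)).1 fun hm => ?_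
    have hle : ctr K hv W₀ * I C ≤ ctr K hv W :=
      hπ'.le.trans ((Ideal.span_singleton_le_iff_mem _).2 hm)
    rcases (ctr_prime hv W).mul_le.1 hle with h | h
    · have e := ((ctr_prime hv W₀).isMaximal (ctr_ne hv h0)).eq_of_le (ctr_prime hv W).ne_top h
      obtain ⟨u, hu, hu'⟩ := hp.trans U W₀ W hU fun x hx =>
        mem_iff hv h0 e ⟨x, (isFix_iff U x).1 hx⟩
      exact hne u hu hu'
    · exact not_mem_ctr.2 (hP' C W hW) (h (ha C))

end Pool.Agent.MP_59efd2_nt.lz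

end
end MrgPart3

-- ======== part 4: formerly Pool.Agent.MP_59efd2_nt.lz.First
section MrgPart4

/-!
# Row FIRST: the norm index of `S`-units and the first inequality
-/

noncomputable section

namespace Pool.Agent.MP_59efd2_nt.lz

open scoped Pointwise Classical

namespace FirstP

/-- The valuation on `Qbˣ` as a monoid homomorphism. -/
def vU (W : Pl) : Qbˣ →* W.ValueGroup := (W.valuation : Qb →* W.ValueGroup).comp (Units.coeHom Qb)

/-- The units at `W`. -/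
def Un (W : Pl) : Subgroup Qbˣ := (vU W).ker

lemma mem_Un {W : Pl} {u : Qbˣ} : u ∈ Un W ↔ W.valuation (u : Qb) = 1 := Iff.rfl

lemma div_mem_Un {W : Pl} {y z : Qbˣ} :
    y / z ∈ Un W ↔ W.valuation (y : Qb) = W.valuation (z : Qb) := by
  rw [mem_Un, Units.val_div_eq_div_val, map_div₀,
    div_eq_one_iff_eq ((Valuation.ne_zero_iff _).2 z.ne_zero)]

lemma div_zpow_mem_Un {W : Pl} {y z : Qbˣ} {j : ℤ}
    (h : W.valuation (y : Qb) = W.valuation (z : Qb) ^ j) : y / z ^ j ∈ Un W := by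
  rw [div_mem_Un, h, Units.val_zpow_eq_zpow_val, map_zpow₀]

lemma smul_Un (hv : ValStmt) (W : Pl) (g : GQ) (u : Qbˣ) : sU g u ∈ Un (g • W) ↔ u ∈ Un W :=
  hv.smul_one W g u

lemma smul_Un' (hv : ValStmt) (W : Pl) (g : GQ) (u : Qbˣ) : sU g u ∈ Un W ↔ u ∈ Un (g⁻¹ • W) := by
  rw [← smul_Un hv (g⁻¹ • W) g u, smul_inv_smul]

lemma sat_smul {U : Subgroup GQ} {R : Finset Pl} {W : Pl} {u : GQ} (hu : u ∈ U)
    (hW : W ∈ Sat U R) : u • W ∈ Sat U R := by
  obtain ⟨V, hV, k, hk, rfl⟩ := hW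
  exact ⟨V, hV, u * k, U.mul_mem hu hk, (mul_smul u k V).symm⟩

lemma not_sat_smul {U : Subgroup GQ} {R : Finset Pl} {W : Pl} {u : GQ} (hu : u ∈ U)
    (hW : W ∉ Sat U R) : u • W ∉ Sat U R := fun h => hW (by
  simpa using sat_smul (U.inv_mem hu) h)

lemma sU_of_fix {H : Subgroup GQ} {u : Qbˣ} (hu : u ∈ fixU H) {g : GQ} (hg : g ∈ H) :
    sU g u = u := Units.ext (hu g hg)

variable {U U' : Subgroup GQ} {r : ℕ} {x : GQ → ZMod r} {σ : GQ}

lemma sU_mem_fixU (hc : Cyc U U' r x σ) {g : GQ} (hg : g ∈ U) {u : Qbˣ} (hu : u ∈ fixU U') :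
    sU g u ∈ fixU U' := by
  intro n hn
  have h := hu _ (hc.normalIn _ (U.inv_mem hg) n hn)
  have e : n * g = g * (g⁻¹ * n * g⁻¹⁻¹) := by group
  rw [coe_sU, ← AlgEquiv.mul_apply, e, AlgEquiv.mul_apply, h]

lemma sU_eq_pow (hc : Cyc U U' r x σ) {g : GQ} (hg : g ∈ U) {u : Qbˣ} (hu : u ∈ fixU U') :
    sU g u = sU (σ ^ (x g).val) u := by
  conv_lhs => rw [← mul_inv_cancel_left (σ ^ (x g).val) g, sU_mul, sU_of_fix hu (hc.decomp hg)]

lemma sU_pow_of_fix {u : Qbˣ} (h : sU σ u = u) (i : ℕ) : sU (σ ^ i) u = u := by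
  induction i with
  | zero => exact sU_one u
  | succ i ih => rw [pow_succ, sU_mul, h, ih]

lemma mem_fixU_of (hc : Cyc U U' r x σ) {u : Qbˣ} (hu : u ∈ fixU U') (h : sU σ u = u) :
    u ∈ fixU U := fun _ hg =>
  congrArg Units.val ((sU_eq_pow hc hg hu).trans (sU_pow_of_fix h _))

lemma sU_mem_ES (hv : ValStmt) (hc : Cyc U U' r x σ) {R : Finset Pl} {g : GQ} (hg : g ∈ U)
    {u : Qbˣ} (hu : u ∈ ES U' (Sat U R)) : sU g u ∈ ES U' (Sat U R) :=
  ⟨sU_mem_fixU hc hg hu.1, fun W hW =>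
    (smul_Un' hv W g u).2 (hu.2 _ (not_sat_smul (U.inv_mem hg) hW))⟩

lemma NG_le (hc : Cyc U U' r x σ) : NG U' σ r ≤ fixU U := by
  rintro _ ⟨y, hy, rfl⟩
  refine mem_fixU_of hc ?_ ?_
  · rw [nrmU_apply]
    exact Subgroup.prod_mem _ fun i _ => sU_mem_fixU hc (U.pow_mem hc.mem i) hy
  · have h1 := Finset.prod_range_succ (fun i => sU (σ ^ i) y) r
    have h2 := Finset.prod_range_succ' (fun i => sU (σ ^ i) y) r
    rw [h1, sU_of_fix hy (hc.pow_mem hc.mem), pow_zero, sU_one] at h2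
    rw [nrmU_apply, map_prod, mul_right_cancel h2]
    exact Finset.prod_congr rfl fun i _ => by rw [pow_succ', sU_mul]

/-- Clearing the divisor of `y` outside `S` by an element of `B`, place by place. -/
lemma adjust (hp : PlcStmt) {R : Finset Pl} (hU : OpenIn U ⊤) (hR : Rep U R) (y : Qbˣ)
    (B : Subgroup Qbˣ)
    (hinv : ∀ b ∈ B, ∀ W : Pl, W ∉ Sat U R → ∀ u ∈ U, y / b ∈ Un W → y / b ∈ Un (u • W))
    (hloc : ∀ W₀ : Pl, W₀ ≠ ⊤ → W₀ ∉ Sat U R → ∃ b ∈ B, y / b ∈ Un W₀ ∧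
      ∀ W : Pl, W ∉ Sat U R → (∀ u ∈ U, W ≠ u • W₀) → b ∈ Un W) :
    ∃ b ∈ B, ∀ W : Pl, W ∉ Sat U R → y / b ∈ Un W := by
  obtain ⟨P, hP⟩ := hp.supp y
  obtain ⟨R₁, -, hR₁, hS⟩ := hp.rep U R P hU hR
  choose! e heB he1 he2 using hloc
  let T := R₁.filter fun W => W ∉ Sat U R
  have hT : ∀ W ∈ T, W ∈ R₁ ∧ W ≠ ⊤ ∧ W ∉ Sat U R := fun W hW =>
    ⟨(Finset.mem_filter.1 hW).1, hR₁.1 W (Finset.mem_filter.1 hW).1, (Finset.mem_filter.1 hW).2⟩
  have hb : ∏ W ∈ T, e W ∈ B :=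
    Subgroup.prod_mem _ fun W hW => heB W (hT W hW).2.1 (hT W hW).2.2
  refine ⟨_, hb, fun W hW => ?_⟩
  by_cases h1 : W ∈ Sat U R₁
  · obtain ⟨W₀, h0, u, hu, rfl⟩ := h1
    have h0S : W₀ ∉ Sat U R := fun h => hW (sat_smul hu h)
    have h0T : W₀ ∈ T := Finset.mem_filter.2 ⟨h0, h0S⟩
    refine hinv _ hb W₀ h0S u hu ?_
    rw [← Finset.mul_prod_erase T e h0T, ← div_div]
    refine Subgroup.div_mem _ (he1 W₀ (hT _ h0T).2.1 h0S) (Subgroup.prod_mem _ fun V hV => ?_)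
    have hV' := hT V (Finset.mem_of_mem_erase hV)
    exact he2 V hV'.2.1 hV'.2.2 W₀ h0S fun k hk h =>
      Finset.ne_of_mem_erase hV (hR₁.2 V hV'.1 W₀ h0 k hk h.symm)
  · refine Subgroup.div_mem _ (hP W fun h => h1 (hS ▸ Or.inr h))
      (Subgroup.prod_mem _ fun V hV => ?_)
    have hV' := hT V hV
    exact he2 V hV'.2.1 hV'.2.2 W hW fun k hk h => h1 ⟨V, hV'.1, k, hk, h⟩

/-- At an unramified place the valuation of `y` is a power of that of a uniformiser. -/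
lemma unif_pow (hu : UnrStmt) (hU : OpenIn U ⊤) {W : Pl} (hW : W ≠ ⊤) (hI : IG W ⊓ U ≤ U')
    {π y : Qbˣ} (hπ : Unif W (DG W ⊓ U) π) (hy : y ∈ fixU (DG W ⊓ U')) :
    ∃ j : ℤ, y / π ^ j ∈ Un W := by
  have hle : IG W ⊓ (DG W ⊓ U) ≤ DG W ⊓ U' := fun g hg => ⟨hg.2.1, hI ⟨hg.1, hg.2.2⟩⟩
  obtain ⟨z, hz, h⟩ := hu.vg W (DG W ⊓ U) hW (hU.inf_top _) y (fixU_anti hle hy)
  obtain ⟨j, hj⟩ := hπ.2.2 z hz
  exact ⟨j, div_zpow_mem_Un (h.trans hj)⟩

/-- `Ĥ⁻¹` of the `S`-units vanishes. -/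
lemma hm1 (h3 : Coh3Stmt) (hv : ValStmt) (hp : PlcStmt) (hu : UnrStmt) {R : Finset Pl}
    (hU : OpenIn U ⊤) (hc : Cyc U U' r x σ) (hR : Rep U R) (hA : Adq U (Sat U R))
    (hI : ∀ W : Pl, W ≠ ⊤ → W ∉ Sat U R → IG W ⊓ U ≤ U') (a : Qbˣ) (ha : a ∈ ES U' (Sat U R))
    (hn : nrmU σ r a = 1) : ∃ y ∈ ES U' (Sat U R), a = sU σ y / y := by
  obtain ⟨y, hy, hay⟩ := h3.cycH90 U U' r x σ hc a ha.1 hn
  have hq : ∀ b ∈ fixU U, a = sU σ (y / b) / (y / b) := fun b hb => by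
    rw [map_div, sU_of_fix hb hc.mem, div_div_div_cancel_right, hay]
  have hm : ∀ b ∈ fixU U, y / b ∈ fixU U' := fun b hb =>
    Subgroup.div_mem _ hy (fixU_anti hc.le hb)
  refine (adjust hp hU hR y (fixU U) (fun b hb W hW u hu h => ?_) (fun W₀ h0 h0S => ?_)).elim
    fun b hb => ⟨y / b, ⟨hm b hb.1, hb.2⟩, hq b hb.1⟩
  · have key : ∀ i : ℕ, sU (σ ^ i) (y / b) / (y / b) ∈ ES U' (Sat U R) := fun i => by
      induction i with
      | zero => rw [pow_zero, sU_one, div_self']; exact Subgroup.one_mem _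
      | succ i ih =>
        have e : sU (σ ^ (i + 1)) (y / b) / (y / b) =
            sU (σ ^ i) a * (sU (σ ^ i) (y / b) / (y / b)) := by
          rw [hq b hb, map_div (sU (σ ^ i)) (sU σ _), pow_succ, sU_mul, div_mul_div_cancel]
        rw [e]
        exact Subgroup.mul_mem _ (sU_mem_ES hv hc (U.pow_mem hc.mem i) ha) ih
    have h1 := (smul_Un hv W u _).2 h
    have h2 : sU u (y / b) / (y / b) ∈ Un (u • W) := by
      rw [sU_eq_pow hc hu (hm b hb)]
      exact (key _).2 _ (not_sat_smul hu hW)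
    simpa using Subgroup.div_mem _ h1 h2
  · obtain ⟨π, hπ, h1, h2⟩ := hA W₀ h0 h0S
    obtain ⟨j, hj⟩ := unif_pow hu hU h0 (hI W₀ h0 h0S) h1 (fixU_anti inf_le_right hy)
    exact ⟨π ^ j, Subgroup.zpow_mem _ hπ j, hj,
      fun W hW hc => Subgroup.zpow_mem (Un W) (h2 W hW hc) j⟩

lemma arith {h r t k m a a₀ b b₀ : ℕ} (hr : 2 ≤ r) (hb : b ≠ 0) (hb₀ : b₀ ≠ 0)
    (e : h ^ (r - 1) * a * b₀ ^ r = b * a₀ ^ r) (e₀ : a₀ * r = r ^ (t + k + m) * b₀)
    (e₁ : a * r = r ^ (t + r * k + r * m) * b) : h * r = r ^ t := by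
  obtain ⟨q, rfl⟩ : ∃ q, r = q + 1 := ⟨r - 1, by omega⟩
  rw [Nat.add_sub_cancel] at e
  refine Nat.pow_left_injective (n := q) (by omega) ?_
  refine Nat.eq_of_mul_eq_mul_right
    (m := b * b₀ ^ (q + 1) * (q + 1) ^ (t + (q + 1) * k + (q + 1) * m + 1)) (by positivity) ?_
  have e2 : h ^ q * (a * (q + 1)) * b₀ ^ (q + 1) * (q + 1) ^ (q + 1) =
      b * (a₀ * (q + 1)) ^ (q + 1) * (q + 1) := by
    rw [mul_pow a₀, ← mul_assoc b, ← e]
    ring
  rw [e₀, e₁] at e2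
  calc _ = h ^ q * ((q + 1) ^ (t + (q + 1) * k + (q + 1) * m) * b) * b₀ ^ (q + 1) *
      (q + 1) ^ (q + 1) := by simp only [mul_pow h]; ring
    _ = _ := by rw [e2]; ring

lemma idx (h1 : Coh1Stmt) (h3 : Coh3Stmt) (ht : TateStmt) (hv : ValStmt) (hp : PlcStmt)
    (hu : UnrStmt) (hφ : PhiStmt) (hs : SuStmt) {R : Finset Pl} (hU : OpenIn U ⊤) (hT : TC U)
    (hr : r.Prime) (hc : Cyc U U' r x σ) (hR : Rep U R) (hA : Adq U (Sat U R))
    (hI : ∀ W : Pl, W ≠ ⊤ → W ∉ Sat U R → IG W ⊓ U ≤ U') :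
    ((ES U' (Sat U R)).map (nrmU σ r)).relIndex (ES U (Sat U R)) * r = r ^ nsp U U' R := by
  obtain ⟨R', hR', hS, hcard⟩ := hp.split U U' r x σ R hr hc hR
  obtain ⟨⟨m, hm⟩, e₀⟩ := hs U R r hU hT hR hr
  obtain ⟨-, e₁⟩ := hs U' R' r (hc.opn.trans hU) (hT.mono hc.le) hR' hr
  have hle : nsp U U' R ≤ R.card := Finset.card_filter_le _ _
  have i₀ : R.card + U.index / 2 = nsp U U' R + (R.card - nsp U U' R) + m := by omega
  have i₁ : U'.index / 2 = r * m := by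
    rw [← Subgroup.relIndex_mul_index hc.le, h1.cycIdx U U' r x σ hc, hm, ← two_mul,
      mul_left_comm, Nat.mul_div_cancel_left _ two_pos]
  rw [hS, hcard, i₁] at e₁
  rw [i₀] at e₀
  have t₁ := (hφ.tor r (ES U' (Sat U R)) hr).1
  obtain ⟨-, e⟩ := ht r hr σ (ES U' (Sat U R)) (ES U (Sat U R))
    (fun a ha => sU_mem_ES hv hc hc.mem ha) (fun a ha => sU_of_fix ha.1 (hc.pow_mem hc.mem))
    (fun a => ⟨fun ha => ⟨⟨fixU_anti hc.le ha.1, ha.2⟩, sU_of_fix ha.1 hc.mem⟩,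
      fun ha => ⟨mem_fixU_of hc ha.1.1 ha.2, ha.1.2⟩⟩)
    (fun h => by
      rw [h, zero_mul] at e₁
      exact mul_ne_zero (pow_ne_zero _ hr.ne_zero) t₁ e₁.symm)
    t₁ (hm1 h3 hv hp hu hU hc hR hA hI)
  exact arith hr.two_le t₁ (hφ.tor r _ hr).1 e e₀ e₁

/-- At a place that does not split the decomposition group contains a generator. -/
lemma exists_gen (hr : r.Prime) (hc : Cyc U U' r x σ) {V : Pl} (h : ¬ DG V ⊓ U ≤ U') :
    ∃ τ ∈ DG V ⊓ U, x τ = 1 := by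
  have : Fact r.Prime := ⟨hr⟩
  obtain ⟨g, hg, hg'⟩ := SetLike.not_le_iff_exists.1 h
  have h0 : x g ≠ 0 := fun h0 => hg' ((hc.ker g).2 ⟨hg.2, h0⟩)
  refine ⟨g ^ ((x g)⁻¹).val, Subgroup.pow_mem _ hg _, ?_⟩
  rw [hc.map_pow hg.2, ZMod.natCast_zmod_val, inv_mul_cancel₀ h0]

/-- Global norms are local norms. -/
lemma NG_le_loc (hc : Cyc U U' r x σ) {V : Pl} {τ : GQ} (hτ : τ ∈ DG V ⊓ U) (hx : x τ = 1) :
    NG U' σ r ≤ NG (DG V ⊓ U') τ r := by
  rintro _ ⟨y, hy, rfl⟩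
  exact ⟨y, fixU_anti inf_le_right hy, hc.nrmU_eq hτ.2 hx hy⟩

/-- An element that is a local norm outside `S` is an `S`-unit times a global norm. -/
lemma clear (hv : ValStmt) (hp : PlcStmt) (hu : UnrStmt) {R : Finset Pl} (hU : OpenIn U ⊤)
    (hr : r.Prime) (hc : Cyc U U' r x σ) (hR : Rep U R) (hA : Adq U (Sat U R))
    (hA' : Adq U' (Sat U R)) (hI : ∀ W : Pl, W ≠ ⊤ → W ∉ Sat U R → IG W ⊓ U ≤ U') {e : Qbˣ}
    (he : e ∈ fixU U) (hN : ∀ W : Pl, W ≠ ⊤ → W ∉ Sat U R → LocNorm W U U' r x e) :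
    ∃ b ∈ NG U' σ r, e / b ∈ ES U (Sat U R) := by
  have hm : ∀ b ∈ NG U' σ r, e / b ∈ fixU U := fun b hb => Subgroup.div_mem _ he (NG_le hc hb)
  refine (adjust hp hU hR e (NG U' σ r) (fun b hb W _ u hu h => ?_) (fun W₀ h0 h0S => ?_)).imp
    fun b hb => ⟨hb.1, hm b hb.1, hb.2⟩
  · rw [← sU_of_fix (hm b hb) hu]
    exact (smul_Un hv W u _).2 h
  by_cases hsp : DG W₀ ⊓ U ≤ U'
  · obtain ⟨π, hπ, h1, h2⟩ := hA' W₀ h0 h0S
    obtain ⟨j, hj⟩ := h1.2.2 e (fixU_anti (inf_le_right.trans hc.le) he)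
    have key : ∀ (W : Pl) (i : ℕ), W ∉ Sat U R → (∀ u ∈ U', W ≠ (σ ^ i * u) • W₀) →
        sU (σ ^ i) (π ^ j) ∈ Un W := fun W i hW hne => by
      rw [smul_Un' hv]
      refine Subgroup.zpow_mem (Un _)
        (h2 _ (not_sat_smul (U.inv_mem (U.pow_mem hc.mem i)) hW) fun u hu h => hne u hu ?_) j
      rw [mul_smul, ← h, smul_inv_smul]
    refine ⟨nrmU σ r (π ^ j), ⟨_, Subgroup.zpow_mem _ hπ j, rfl⟩, ?_, fun W hW hne => ?_⟩
    · have h0r : 0 ∈ Finset.range r := Finset.mem_range.2 hr.pos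
      rw [nrmU_apply, ← Finset.mul_prod_erase _ _ h0r, ← div_div, pow_zero, sU_one]
      refine Subgroup.div_mem _ (div_zpow_mem_Un hj)
        (Subgroup.prod_mem _ fun i hi => key W₀ i h0S fun u hu h => ?_)
      have hi' := Finset.mem_erase.1 hi
      have h4 : σ ^ i * u ∈ U' :=
        hsp ⟨MulAction.mem_stabilizer_iff.2 h.symm, U.mul_mem (U.pow_mem hc.mem i) (hc.le hu)⟩
      have h5 := ((hc.ker _).1 ((U'.mul_mem_cancel_right hu).1 h4)).2
      rw [hc.map_pow hc.mem, hc.gen, mul_one, ZMod.natCast_eq_zero_iff] at h5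
      exact hi'.1 (Nat.eq_zero_of_dvd_of_lt h5 (Finset.mem_range.1 hi'.2))
    · rw [nrmU_apply]
      exact Subgroup.prod_mem _ fun i _ => key W i hW fun u hu =>
        hne _ (U.mul_mem (U.pow_mem hc.mem i) (hc.le hu))
  · obtain ⟨τ, hτ, hx⟩ := exists_gen hr hc hsp
    obtain ⟨y, hy, rfl⟩ := hN W₀ h0 h0S τ hτ hx
    obtain ⟨π, hπ, h1, h2⟩ := hA W₀ h0 h0S
    obtain ⟨j, hj⟩ := unif_pow hu hU h0 (hI W₀ h0 h0S) h1 hy
    have hπj := Subgroup.zpow_mem _ hπ j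
    refine ⟨(π ^ j) ^ r, ⟨π ^ j, fixU_anti hc.le hπj, nrmU_of_fix (sU_of_fix hπj hc.mem) r⟩, ?_,
      fun W hW hne => Subgroup.pow_mem _ (Subgroup.zpow_mem (Un W) (h2 W hW hne) j) r⟩
    rw [← nrmU_of_fix (sU_of_fix hπj hτ.2) r, ← map_div, nrmU_apply]
    refine Subgroup.prod_mem _ fun i _ => ?_
    have h6 := (smul_Un hv W₀ (τ ^ i) _).2 hj
    rwa [MulAction.mem_stabilizer_iff.1 (Subgroup.pow_mem _ hτ.1 i)] at h6

lemma card_dvd_index {E Q : Type} [Group E] [Group Q] (φ : E →* Q) (hs : Function.Surjective φ)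
    (K : Subgroup E) (hK : ∀ e ∈ K, φ e = 1) : Nat.card Q ∣ K.index := by
  rw [← Subgroup.card_top, ← MonoidHom.range_eq_top.2 hs, ← Subgroup.index_ker]
  exact Subgroup.index_dvd_of_le hK

/-- The `S`-units do not fill the product of the local norm residue groups. -/
lemma not_onto {ι : Type} [Fintype ι] (E E₁ : Subgroup Qbˣ) (F M : ι → Subgroup Qbˣ) (hr : 2 ≤ r)
    (hE : ∀ i, E ≤ F i) (hM : ∀ i, E₁ ≤ M i) (hi : ∀ i, (M i).relIndex (F i) = r)
    (h : E₁.relIndex E * r = r ^ Fintype.card ι) :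
    ∃ a : ι → Qbˣ, (∀ i, a i ∈ F i) ∧ ∀ e ∈ E, ¬ ∀ i, e / a i ∈ M i := by
  let φ : E →* ∀ i, F i ⧸ (M i).subgroupOf (F i) :=
    MonoidHom.pi fun i => (QuotientGroup.mk' _).comp (Subgroup.inclusion (hE i))
  have hns : ¬ Function.Surjective φ := fun hs => by
    have h3 := card_dvd_index (Q := ∀ i, F i ⧸ (M i).subgroupOf (F i)) φ hs (E₁.subgroupOf E)
      fun e he => funext fun i =>
        (QuotientGroup.eq_one_iff (N := (M i).subgroupOf (F i)) ⟨e, hE i e.2⟩).2 (hM i he)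
    have hi' : ∀ i, Nat.card (F i ⧸ (M i).subgroupOf (F i)) = r := hi
    simp only [Nat.card_pi, hi', Finset.prod_const, Finset.card_univ] at h3
    have h4 : 0 < r ^ Fintype.card ι := by positivity
    have h5 : 0 < E₁.relIndex E := Nat.pos_of_mul_pos_right (h ▸ h4)
    have h6 : _ ≤ E₁.relIndex E := Nat.le_of_dvd h5 h3
    nlinarith
  obtain ⟨q, hq⟩ := not_forall.1 hns
  choose a ha using fun i => QuotientGroup.mk_surjective (q i)
  refine ⟨fun i => a i, fun i => (a i).2, fun e he h => hq ⟨⟨e, he⟩, funext fun i => ?_⟩⟩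
  rw [← ha i]
  refine (QuotientGroup.eq.2 ?_).symm
  have := h i
  rwa [div_eq_inv_mul] at this

end FirstP

open FirstP in
theorem first (h1 : Coh1Stmt) (h3 : Coh3Stmt) (ht : TateStmt) (hv : ValStmt) (hp : PlcStmt)
    (_hd : DensStmt) (hu : UnrStmt) (hφ : PhiStmt) (hl : LiiStmt) (hs : SuStmt) (ha : AdqStmt) :
    FirstStmt := by
  refine ⟨fun U U' r x σ R hU hT hr hc hR hA hI => idx h1 h3 ht hv hp hu hφ hs hU hT hr hc hR hA hI,
    fun U U' r x σ hU hT hr hc => ?_⟩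
  obtain ⟨P₁, hP₁⟩ := ha U hU
  obtain ⟨P₂, hP₂⟩ := ha U' (hc.opn.trans hU)
  obtain ⟨N, hN⟩ := hc.opn.2
  obtain ⟨P₃, hP₃⟩ := hp.ram N
  obtain ⟨R, -, hR, hS⟩ := hp.rep U ∅ (P₁ ∪ P₂ ∪ P₃) hU ⟨by simp, by simp⟩
  have hsub : ∀ P ⊆ P₁ ∪ P₂ ∪ P₃, AboveSet P ⊆ Sat U R := fun P hP W ⟨l, hl, h⟩ =>
    hS ▸ Or.inr ⟨l, hP hl, h⟩
  have hA : Adq U (Sat U R) := hP₁.mono (hsub _ fun l hl => by simp [hl])
  have hA' : Adq U' (Sat U R) := hP₂.mono (hsub _ fun l hl => by simp [hl])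
  have hI : ∀ W : Pl, W ≠ ⊤ → W ∉ Sat U R → IG W ⊓ U ≤ U' := fun W hW hWS g hg =>
    hN g hg.2 (hP₃ W hW (fun h => hWS (hsub _ (fun l hl => by simp [hl]) h)) g hg.1)
  let T := R.filter fun V => ¬ DG V ⊓ U ≤ U'
  choose τ hτ hx using fun V : T => exists_gen hr hc (Finset.mem_filter.1 V.2).2
  obtain ⟨a, haF, hae⟩ := not_onto (ι := T) (ES U (Sat U R)) ((ES U' (Sat U R)).map (nrmU σ r))
    (fun V => fixU (DG V.1 ⊓ U)) (fun V => NG (DG V.1 ⊓ U') (τ V) r) hr.two_le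
    (fun V e he => fixU_anti inf_le_right he.1)
    (fun V => (Subgroup.map_mono (K' := fixU U') fun e he => (mem_ES.1 he).1).trans
      (NG_le_loc hc (hτ V) (hx V)))
    (fun V => hl V.1 _ _ r x (τ V) (hR.1 _ (Finset.mem_filter.1 V.2).1) (hU.inf_top _) hr
      (hc.restrict _ (hτ V) (hx V)))
    (by rw [Fintype.card_coe]; exact idx h1 h3 ht hv hp hu hφ hs hU hT hr hc hR hA hI)
  refine ⟨R, fun V => if h : V ∈ T then a ⟨V, h⟩ else 1, hR, fun V _ => ?_, fun e he h => ?_⟩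
  · by_cases h : V ∈ T
    · simp only [dif_pos h]
      exact haF ⟨V, h⟩
    · simp only [dif_neg h]
      exact Subgroup.one_mem _
  · obtain ⟨b, hb, heb⟩ := clear hv hp hu hU hr hc hR hA hA' hI he h.2
    refine hae _ heb fun V => ?_
    have h7 := h.1 V.1 (Finset.mem_filter.1 V.2).1 (τ V) (hτ V) (hx V)
    simp only [dif_pos V.2] at h7
    rw [div_right_comm]
    exact Subgroup.div_mem _ h7 (NG_le_loc hc (hτ V) (hx V) hb)

end Pool.Agent.MP_59efd2_nt.lz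

end
end MrgPart4

-- ======== part 5: formerly Pool.Agent.MP_59efd2_nt.lz.Fst
section MrgPart5

noncomputable section

namespace Pool.Agent.MP_59efd2_nt.lz

open scoped Pointwise Classical

namespace FstP

lemma exists_den (hv : ValStmt) (z : Qb) : ∃ n : ℕ, n ≠ 0 ∧ ∀ V : Pl, (n : Qb) * z ∈ V := by
  have h1 : IsAlgebraic ℤ z :=
    (IsFractionRing.isAlgebraic_iff ℤ ℚ Qb).2 (Algebra.IsAlgebraic.isAlgebraic z)
  obtain ⟨y, hy, h2⟩ := h1.exists_integral_multiple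
  refine ⟨y.natAbs, Int.natAbs_ne_zero.2 hy, fun V => ?_⟩
  have h3 : (y : Qb) * z ∈ V := by simpa using hv.integral V _ h2
  rcases Int.natAbs_eq y with h | h
  · have : ((y.natAbs : ℕ) : Qb) = (y : Qb) := by
      conv_rhs => rw [h]
      simp
    rwa [this]
  · have : ((y.natAbs : ℕ) : Qb) = -(y : Qb) := by
      conv_rhs => rw [h]
      simp
    rw [this, neg_mul]
    exact V.neg_mem _ h3

lemma nat_le (V : Pl) (n : ℕ) : V.valuation (n : Qb) ≤ 1 :=
  (V.valuation_le_one_iff _).2 (natCast_mem V n)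

lemma mem_of_dvd {V : Pl} {n m : ℕ} {z : Qb} (h : (n : Qb) * z ∈ V) (hd : n ∣ m) :
    (m : Qb) * z ∈ V := by
  obtain ⟨k, rfl⟩ := hd
  have : ((n * k : ℕ) : Qb) * z = (k : Qb) * ((n : Qb) * z) := by push_cast; ring
  rw [this]
  exact V.mul_mem _ _ (natCast_mem V k) h

lemma small {Γ : Type} [LinearOrderedCommGroupWithZero Γ] {t l s : Γ} {r : ℕ} (hr : 2 ≤ r)
    (hl : l < 1) (hs : s ≤ 1) (hs0 : s ≠ 0) (ht : t ≤ l * s ^ 2) : t ^ (r - 1) < s ^ r := by
  obtain ⟨k, rfl⟩ := Nat.exists_eq_add_of_le hr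
  have e : 2 + k - 1 = k + 1 := by omega
  have hsp : 0 < s := zero_lt_iff.2 hs0
  have h1 : l * s ≤ 1 := mul_le_one' hl.le hs
  have h2 : t ≤ s := ht.trans (by rw [sq, ← mul_assoc]; exact mul_le_of_le_one_left' h1)
  have h3 : t < s ^ 2 := ht.trans_lt (by
    have := mul_lt_mul_of_pos_right hl (pow_pos hsp 2)
    rwa [one_mul] at this)
  rw [e, pow_succ, add_comm 2 k, pow_add]
  exact lt_of_le_of_lt (mul_le_mul_left (pow_le_pow_left' h2 k) t)
    (mul_lt_mul_of_pos_left h3 (pow_pos hsp k))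

/-- Weak approximation up to local `r`-th powers. -/
lemma approx_pow (hv : ValStmt) (hd : DensStmt) (U : Subgroup GQ) (R : Finset Pl) (a : Pl → Qbˣ)
    (r : ℕ) (hU : OpenIn U ⊤) (hR : Rep U R) (hr : r.Prime)
    (ha : ∀ V ∈ R, a V ∈ fixU (DG V ⊓ U)) :
    ∃ e ∈ fixU U, ∀ V ∈ R, ∃ y ∈ fixU (DG V ⊓ U), e / a V = y ^ r := by
  choose den hden0 hden using exists_den hv
  have hl : ∀ V : Pl, ∃ l : ℕ, l ≠ 0 ∧ (V ≠ ⊤ → Above V l) := fun V => by
    by_cases h : V = ⊤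
    · exact ⟨1, one_ne_zero, fun h' => absurd h h'⟩
    · obtain ⟨l, h1, h2⟩ := hv.above_ex V h
      exact ⟨l, h1.ne_zero, fun _ => h2⟩
  choose l hl0 hl using hl
  obtain ⟨n, hn⟩ : ∃ n : ℕ, n = ∏ V ∈ R, den (a V) := ⟨_, rfl⟩
  have hn0 : n ≠ 0 := hn ▸ Finset.prod_ne_zero_iff.2 fun V _ => hden0 _
  have hn' : (n : Qb) ≠ 0 := Nat.cast_ne_zero.2 hn0
  obtain ⟨b, hb⟩ : ∃ b : Pl → Qb, b = fun V => (n : Qb) ^ r * a V := ⟨_, rfl⟩
  have hb0 : ∀ V, b V ≠ 0 := fun V => hb ▸ mul_ne_zero (pow_ne_zero _ hn') (a V).ne_zero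
  have hbf : ∀ V ∈ R, IsFix (DG V ⊓ U) (b V) := fun V hV g hg => by
    simp only [hb, map_mul, map_pow, map_natCast, ha V hV g hg]
  have hbV : ∀ V ∈ R, b V ∈ OH V (DG V ⊓ U) := fun V hV => by
    refine mem_OH.2 ⟨?_, hbf V hV⟩
    have := mem_of_dvd (hden (a V) V) (m := n ^ r)
      (dvd_pow (hn ▸ Finset.dvd_prod_of_mem (fun V => den (a V)) hV) hr.ne_zero)
    simpa [hb] using this
  obtain ⟨m, hm⟩ : ∃ m : ℕ, m = ∏ V ∈ R, l V * den (b V)⁻¹ := ⟨_, rfl⟩
  have hm0 : m ≠ 0 := hm ▸ Finset.prod_ne_zero_iff.2 fun V _ => mul_ne_zero (hl0 V) (hden0 _)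
  have hr' : (r : Qb) ≠ 0 := Nat.cast_ne_zero.2 hr.ne_zero
  obtain ⟨e, he, -, happ⟩ := hd.approx U R b ((m : Qb) * (r : Qb) ^ 2) hU hR hbV
    (mul_ne_zero (Nat.cast_ne_zero.2 hm0) (pow_ne_zero _ hr'))
  have key : ∀ V ∈ R, V.valuation (e / b V - 1) ^ (r - 1) < V.valuation (r : Qb) ^ r := by
    intro V hV
    refine small hr.two_le (hl V (hR.1 V hV)) (nat_le V r) (by simpa using hr.ne_zero) ?_
    obtain ⟨k, hk⟩ : l V * den (b V)⁻¹ ∣ m :=
      hm ▸ Finset.dvd_prod_of_mem (fun V => l V * den (b V)⁻¹) hV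
    have h1 : V.valuation (((den (b V)⁻¹ * k : ℕ) : Qb) * (b V)⁻¹) ≤ 1 :=
      (V.valuation_le_one_iff _).2 (mem_of_dvd (hden _ V) (dvd_mul_right _ _))
    have h2 : e / b V - 1 = (e - b V) * (b V)⁻¹ := by field_simp [hb0 V]
    have h3 : (m : Qb) * (r : Qb) ^ 2 * (b V)⁻¹ =
        (l V : Qb) * (r : Qb) ^ 2 * (((den (b V)⁻¹ * k : ℕ) : Qb) * (b V)⁻¹) := by
      rw [hk]; push_cast; ring
    calc V.valuation (e / b V - 1) = V.valuation (e - b V) * V.valuation (b V)⁻¹ := by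
          rw [h2, map_mul]
      _ ≤ V.valuation ((m : Qb) * (r : Qb) ^ 2) * V.valuation (b V)⁻¹ :=
          mul_le_mul_left (happ V hV) _
      _ = V.valuation (l V : Qb) * V.valuation (r : Qb) ^ 2 *
            V.valuation (((den (b V)⁻¹ * k : ℕ) : Qb) * (b V)⁻¹) := by
          rw [← map_mul, h3, map_mul, map_mul, map_pow]
      _ ≤ _ := mul_le_of_le_one_right' h1
  by_cases he0 : e = 0
  · refine ⟨1, (fixU U).one_mem, fun V hV => ?_⟩
    have h1 := key V hV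
    rw [he0, zero_div, zero_sub, Valuation.map_neg, map_one, one_pow] at h1
    exact absurd (pow_le_one' (nat_le V r) r) (not_le.2 h1)
  refine ⟨Units.mk0 e he0, he, fun V hV => ?_⟩
  have hx : IsFix (DG V ⊓ U) (e / b V) := fun g hg => by
    rw [map_div₀, he g hg.2, hbf V hV g hg]
  obtain ⟨y, hy, hyr, -⟩ := hv.root V (DG V ⊓ U) inf_le_left r hr _ hx (key V hV)
  have hy0 : y ≠ 0 := fun h => by
    rw [h, zero_pow hr.ne_zero] at hyr
    exact div_ne_zero he0 (hb0 V) hyr.symm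
  refine ⟨Units.mk0 (y * n) (mul_ne_zero hy0 hn'), fun g hg => ?_, Units.ext ?_⟩
  · simp only [Units.val_mk0, map_mul, map_natCast, hy g hg]
  · simp only [Units.val_div_eq_div_val, Units.val_mk0, Units.val_pow_eq_pow_val, mul_pow, hyr, hb]
    field_simp

lemma locNorm_of_pow {V : Pl} {U U' : Subgroup GQ} (hU : U' ≤ U) (r : ℕ) (x : GQ → ZMod r)
    {y : Qbˣ} (hy : y ∈ fixU (DG V ⊓ U)) : LocNorm V U U' r x (y ^ r) := fun τ hτ _ =>
  ⟨y, fixU_anti (inf_le_inf_left _ hU) hy, nrmU_of_fix (Units.ext (hy τ hτ)) r⟩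

end FstP

open FstP in
theorem fst (hv : ValStmt) (hp : PlcStmt) (hd : DensStmt) (hf : FirstStmt) : FStmt := by
  intro U U' r x σ P hU hT hr hc
  by_contra hcon
  have hsplit : ∀ W : Pl, W ≠ ⊤ → W ∉ AboveSet P → DG W ⊓ U ≤ U' := fun W h1 h2 => by
    by_contra h3
    exact hcon ⟨W, h1, h2, h3⟩
  obtain ⟨R, a, hR, ha, hno⟩ := hf.first U U' r x σ hU hT hr hc
  obtain ⟨R1, hsub, hR1, hsat⟩ := hp.rep U R P hU hR
  obtain ⟨e, he, hey⟩ := approx_pow hv hd U R1 (fun V => if V ∈ R then a V else 1) r hU hR1 hr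
    fun V _ => by
      split_ifs with h
      · exact ha V h
      · exact (fixU _).one_mem
  refine hno e he ⟨fun V hV => ?_, fun W hW hWS => ?_⟩
  · obtain ⟨y, hy, h⟩ := hey V (hsub hV)
    rw [if_pos hV] at h
    rw [h]
    exact locNorm_of_pow hc.le r x hy
  · by_cases hP : W ∈ AboveSet P
    · have h1 : W ∈ Sat U R1 := hsat ▸ Or.inr hP
      obtain ⟨V, hV, u, hu, rfl⟩ := h1
      have hVR : V ∉ R := fun h => hWS ⟨V, h, u, hu, rfl⟩
      obtain ⟨y, hy, h⟩ := hey V hV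
      rw [if_neg hVR, div_one] at h
      have h2 : e = sU u y ^ r := by
        rw [← map_pow, ← h]
        exact (Units.ext (he u hu)).symm
      rw [h2]
      refine locNorm_of_pow hc.le r x fun k hk => ?_
      have h3 := hy (u⁻¹ * k * u) ⟨(hv.dg_smul V u k).1 hk.1,
        U.mul_mem (U.mul_mem (U.inv_mem hu) hk.2) hu⟩
      have h4 := congrArg u h3
      rw [← AlgEquiv.mul_apply, ← mul_assoc, mul_inv_cancel_left] at h4
      exact h4
    · intro τ hτ hx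
      have h0 := ((hc.ker τ).1 (hsplit W hW hP hτ)).2
      haveI := Fact.mk hr
      exact absurd (hx.symm.trans h0) one_ne_zero

end Pool.Agent.MP_59efd2_nt.lz

end
end MrgPart5

-- ======== part 6: formerly Pool.Agent.MP_59efd2_nt.lz.Rec
section MrgPart6

/-!
# Row REC: a `p`-primary Brauer class of `ℚ` that is trivial away from `p` is trivial
-/

noncomputable section

namespace Pool.Agent.MP_59efd2_nt.lz

open scoped Pointwise Classical
open Additive Finset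

namespace RecP

variable (p : ℕ) [hp : Fact p.Prime]

theorem key {s t : ℤ} :
    ((1 - p * s : ℤ) : ZMod (p ^ 2)) = (1 - p * t : ℤ) ↔ (s : ZMod p) = t := by
  rw [ZMod.intCast_eq_intCast_iff_dvd_sub, ZMod.intCast_eq_intCast_iff_dvd_sub,
    show (1 - p * t - (1 - p * s) : ℤ) = -(p * (t - s)) by ring, dvd_neg, Nat.cast_pow, sq,
    mul_dvd_mul_iff_left (by exact_mod_cast hp.out.ne_zero)]

theorem exq (w : Gam p 2) : ∃ t : ℤ, (w : ZMod (p ^ 2)) ^ (p - 1) = (1 - p * t : ℤ) := by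
  obtain ⟨t, ht⟩ := (Int.ModEq.pow_card_sub_one_eq_one hp.out (Nat.isCoprime_iff_coprime.2
    ((ZMod.val_coe_unit_coprime w).of_dvd_right (dvd_pow_self p two_ne_zero)))).dvd
  exact ⟨t, by rw [← ht]; simp⟩

/-- The Fermat quotient (up to sign). -/
def X (w : Gam p 2) : ZMod p := (exq p w).choose

theorem X_eq {w : Gam p 2} {t : ℤ} :
    X p w = t ↔ (w : ZMod (p ^ 2)) ^ (p - 1) = (1 - p * t : ℤ) := by
  rw [X, ← key, ← (exq p w).choose_spec]

omit hp in
theorem sq0 : (p : ZMod (p ^ 2)) ^ 2 = 0 := by exact_mod_cast ZMod.natCast_self (p ^ 2)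

theorem X_mul (a b : Gam p 2) : X p (a * b) = X p a + X p b := by
  obtain ⟨s, hs⟩ := exq p a
  obtain ⟨t, ht⟩ := exq p b
  rw [(X_eq p).2 hs, (X_eq p).2 ht, ← Int.cast_add, X_eq, Units.val_mul, mul_pow, hs, ht]
  push_cast
  linear_combination (s : ZMod (p ^ 2)) * t * sq0 p

/-- The character of order `p` and conductor `p²`. -/
def xh : GQ →* Multiplicative (ZMod p) :=
  (MonoidHom.mk' (fun w => Multiplicative.ofAdd (X p w)) (X_mul p)).comp (chiN p 2)

/-- The same, additively. -/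
def xx (g : GQ) : ZMod p := X p (chiN p 2 g)

/-- Its kernel. -/
def U1 : Subgroup GQ := (xh p).ker

theorem mem_U1 {g : GQ} : g ∈ U1 p ↔ xx p g = 0 := Iff.rfl

theorem xx_pow (g : GQ) (i : ℕ) : xx p (g ^ i) = i * xx p g := by
  rw [← nsmul_eq_mul]; exact map_pow (xh p) g i

theorem mem_of_chi {g : GQ} (h : chiN p 2 g = 1) : g ∈ U1 p := by
  have := (U1 p).one_mem
  rwa [mem_U1, xx, map_one, ← h] at this

theorem cycU {τ : GQ} (h : xx p τ = 1) : Cyc ⊤ (U1 p) p (xx p) τ := by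
  refine ⟨hp.out.pos, fun g _ k _ => map_mul (xh p) g k, fun g => by simp [mem_U1], trivial, h,
    le_top, (sm1_chiN p ⊤ 2).imp fun N hN g _ hg => mem_of_chi p ?_⟩
  simpa using hN 1 trivial g trivial hg

theorem ex_gen {C : Subgroup GQ} (h : ¬ C ≤ U1 p) : ∃ τ ∈ C ⊓ ⊤, xx p τ = 1 := by
  obtain ⟨g, hg, h0⟩ := SetLike.not_le_iff_exists.1 h
  refine ⟨g ^ ((xx p g)⁻¹).val, ⟨C.pow_mem hg _, trivial⟩, ?_⟩
  rw [xx_pow, ZMod.natCast_zmod_val, inv_mul_cancel₀ (mt (mem_U1 p).2 h0)]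

theorem chi_eq {g : GQ} {k : ℕ} (h : g (zt p 2) = zt p 2 ^ k) :
    (chiN p 2 g : ZMod (p ^ 2)) = k := by
  apply iot_injective p 2
  rw [iot_apply, iot_natCast]
  exact congrArg ofMul (Units.ext (by
    simpa [ztU] using (apply_root p 2 g (zt_prim p 2).pow_eq_one).symm.trans h))

theorem pos2 : 0 < p ^ 2 := pow_pos hp.out.pos 2

theorem ex_top : ∃ σ, xx p σ = 1 := by
  have h1 := ((zt_prim p 2).pow_of_coprime (1 + p)
    (Nat.Coprime.pow_right 2 (by simp))).isRoot_cyclotomic (pos2 p)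
  rw [← Polynomial.map_cyclotomic _ (algebraMap ℚ Qb), Polynomial.IsRoot,
    Polynomial.eval_map_algebraMap,
    Polynomial.cyclotomic_eq_minpoly_rat (zt_prim p 2) (pos2 p)] at h1
  obtain ⟨σ, hσ⟩ := minpoly.exists_algEquiv_of_root' (Algebra.IsAlgebraic.isAlgebraic _) h1
  have h2 : ∀ n : ℕ, (1 + p : ZMod (p ^ 2)) ^ n = 1 + n * p := fun n => by
    induction n with
    | zero => simp
    | succ n ih => push_cast; linear_combination (1 + p : ZMod (p ^ 2)) * ih + n * sq0 p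
  refine ⟨σ, ?_⟩
  rw [xx, ← Int.cast_one, X_eq, chi_eq p hσ]
  push_cast
  rw [h2, Nat.cast_pred hp.out.pos]
  linear_combination sq0 p

/-- The primitive roots of order `p²`. -/
def E (w : Gam p 2) : Qb := zt p 2 ^ (w : ZMod (p ^ 2)).val

theorem E_prim (w : Gam p 2) : IsPrimitiveRoot (E p w) (p ^ 2) :=
  (zt_prim p 2).pow_of_coprime _ (ZMod.val_coe_unit_coprime w)

theorem E_mul (a w : Gam p 2) : E p (a * w) = E p w ^ (a : ZMod (p ^ 2)).val := by
  rw [E, E, Units.val_mul, ZMod.val_mul, ← pow_eq_pow_mod _ (zt_prim p 2).pow_eq_one, mul_comm,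
    pow_mul]

theorem E_act (g : GQ) (w : Gam p 2) : g (E p w) = E p (chiN p 2 g * w) := by
  rw [E_mul]; exact apply_root p 2 g (E_prim p w).pow_eq_one

theorem E_prod : ∏ w, (1 - E p w) = p := by
  have h := Polynomial.eval_one_cyclotomic_prime_pow (R := Qb) (p := p) 1
  rw [Polynomial.cyclotomic_eq_prod_X_sub_primitiveRoots (zt_prim p 2), Polynomial.eval_prod] at h
  rw [← h]
  refine prod_nbij (E p) (fun w _ => (mem_primitiveRoots (pos2 p)).2 (E_prim p w))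
    (fun a _ b _ e => Units.ext (ZMod.val_injective _
      ((zt_prim p 2).pow_inj (ZMod.val_lt _) (ZMod.val_lt _) e))) (fun μ hμ => ?_) (by simp)
  obtain ⟨i, hi, hc, rfl⟩ := (zt_prim p 2).isPrimitiveRoot_iff.1
    ((mem_primitiveRoots (pos2 p)).1 hμ)
  exact ⟨ZMod.unitOfCoprime i hc, by simp, by
    rw [E, ZMod.coe_unitOfCoprime, ZMod.val_cast_of_lt hi]⟩

/-- The conjugates of the cyclotomic uniformiser of the layer of degree `p`. -/
def PP (i : ZMod p) : Qb := ∏ u with X p u = i, (1 - E p u)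

theorem PP_act (g : GQ) (i : ZMod p) : g (PP p i) = PP p (xx p g + i) := by
  rw [PP, map_prod]
  exact prod_equiv (Equiv.mulLeft (chiN p 2 g)) (fun u => by simp [X_mul, xx])
    fun u _ => by simp [E_act]

theorem PP_prod : ∏ i, PP p i = p := (prod_fiberwise _ _ _).trans (E_prod p)

/-- The uniformiser as a unit. -/
def piU : Qbˣ := Units.mk0 (PP p 0) (prod_ne_zero_iff.1
  ((PP_prod p).trans_ne (Nat.cast_ne_zero.2 hp.out.ne_zero)) 0 (mem_univ _))

theorem piU_fix : piU p ∈ fixU (U1 p) := fun g hg => by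
  change g (PP p 0) = PP p 0
  rw [PP_act, (mem_U1 p).1 hg, add_zero]

theorem coe_nrm (τ : GQ) (d : ℕ) (u : Qbˣ) :
    (nrmU τ d u : Qb) = ∏ i ∈ range d, (τ ^ i) (u : Qb) := by
  rw [nrmU_apply, Units.coe_prod]; rfl

theorem nrm_pi {τ : GQ} (h : xx p τ = 1) : (nrmU τ p (piU p) : Qb) = p := by
  rw [coe_nrm, ← PP_prod]
  refine prod_nbij' (fun i => (i : ZMod p)) ZMod.val (by simp) (by simp [ZMod.val_lt])
    (fun i hi => ZMod.val_cast_of_lt (mem_range.1 hi)) (by simp) fun i _ => ?_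
  change (τ ^ i) (PP p 0) = _
  rw [PP_act, xx_pow, h, mul_one, add_zero]

variable {p} (hv : ValStmt)
include hv

theorem v_E (V : Pl) (a b : Gam p 2) : V.valuation (1 - E p a) = V.valuation (1 - E p b) := by
  have : ∀ a b, V.valuation (1 - E p a) ≤ V.valuation (1 - E p b) := fun a b => by
    rw [← inv_mul_cancel_right a b, E_mul, ← mul_neg_geom_sum, map_mul]
    exact mul_le_of_le_one_right' ((V.valuation_le_one_iff _).2 (sum_mem fun i _ =>
      pow_mem (hv.integral V _ ((E_prim p b).isIntegral (pos2 p))) i))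
  exact le_antisymm (this a b) (this b a)

omit hv hp in
theorem zinj {V : Pl} {l : ℕ} (hl : l.Prime) (h : Above V l) {i j : ℤ}
    (e : V.valuation (l : Qb) ^ i = V.valuation (l : Qb) ^ j) : i = j :=
  zpow_right_injective₀ (zero_lt_iff.2 (by simpa using hl.ne_zero)) (ne_of_lt h) e

theorem nsplit (hd : DensStmt) {V : Pl} (h : Above V p) : ¬ DG V ≤ U1 p := fun hle => by
  obtain ⟨σ, hσ⟩ := ex_top p
  obtain ⟨j, hj⟩ := hd.baseVal V p hp.out h _ (fixU_anti hle (piU_fix p))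
  have h1 := congrArg V.valuation (nrm_pi p hσ)
  have h2 : ∀ g : GQ, V.valuation (g (piU p)) = V.valuation (piU p : Qb) := fun g => by
    change V.valuation (g (PP p 0)) = V.valuation (PP p 0)
    simp only [PP, map_prod, map_sub, map_one, E_act]
    exact prod_congr rfl fun u _ => v_E hv V _ _
  simp only [coe_nrm, map_prod, h2, prod_const, card_range, hj] at h1
  rw [← zpow_natCast, ← zpow_mul] at h1
  have h3 := zinj hp.out h (h1.trans (zpow_one _).symm)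
  exact hp.out.not_dvd_one (by exact_mod_cast Dvd.intro_left j h3)

/-- At a prime other than `p`: either the prime splits, or `p` divides the order of `a`. -/
theorem away (h2 : Coh2Stmt) (h3 : Coh3Stmt) (hd : DensStmt) (hu : UnrStmt) {a : Qbˣ}
    (ha : a ∈ fixU ⊤) {l : ℕ} (hl : l.Prime) (hlp : l ≠ p) {V : Pl} (h : Above V l)
    (hB : B2 (DG V) aU (cyc p (xx p) (ofMul a))) : (p : ℤ) ^ 2 ∣ l ^ (p - 1) - 1 ∨
      ∃ j : ℤ, V.valuation (a : Qb) = V.valuation (l : Qb) ^ (j * p) := by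
  have hn : ¬ l ∣ p ^ 2 := fun e =>
    hlp ((Nat.prime_dvd_prime_iff_eq hl hp.out).1 (hl.dvd_of_dvd_pow e))
  by_cases hle : DG V ≤ U1 p
  · obtain ⟨φ, hφ⟩ := hu.frob V l hl h
    have h1 : X p (chiN p 2 φ) = (0 : ℤ) := ((mem_U1 p).1 (hle hφ.1)).trans Int.cast_zero.symm
    rw [X_eq, chi_eq p (hu.frob_root V l φ hl h hφ _ _ hn (zt_prim p 2).pow_eq_one)] at h1
    left
    rw [← Nat.cast_pow, ← ZMod.intCast_eq_intCast_iff_dvd_sub]
    simpa using h1.symm
  obtain ⟨τ, hτ, hx⟩ := ex_gen p hle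
  obtain ⟨σ, hσ⟩ := ex_top p
  obtain ⟨y, hy, e⟩ := h2.normOfCyc _ _ _ _ _ _ _ (ofMul a) (isAct_aU _)
    ((cycU p hσ).restrict (DG V) hτ hx) (h3.h90 _)
    (fun g _ => congrArg ofMul (Units.ext (ha g trivial))) (hB.mono inf_le_left)
  have hy' : toMul y ∈ fixU (IG V ⊓ DG V) := fun g hg => by
    refine congrArg (fun u : AU => ((toMul u : Qbˣ) : Qb)) (hy g ⟨hg.2, mem_of_chi p ?_⟩)
    refine Units.ext ((chi_eq p (k := 1) ?_).trans Nat.cast_one)
    rw [hu.ig_root V l hl h g hg.1 _ _ hn (zt_prim p 2).pow_eq_one, pow_one]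
  obtain ⟨z, hz, e1⟩ := hu.vg V _ (hv.above_ne V l hl.ne_zero h) (OpenIn.refl _) _ hy'
  obtain ⟨j, e2⟩ := hd.baseVal V l hl h z hz
  refine Or.inr ⟨j, ?_⟩
  have e3 : nrmU τ p (toMul y) = a := ofMul.injective ((ofMul_nrmU τ p _).trans e)
  rw [← e3, coe_nrm, map_prod, prod_congr rfl fun i _ => hv.inv V _ (pow_mem hτ.1 i) _, e1, e2,
    prod_const, card_range, zpow_mul, zpow_natCast]

/-- At `p`: the rational number is a norm. -/
theorem atp (hd : DensStmt) (h2 : p ≠ 2) {V : Pl} (h : Above V p) {τ : GQ} (hτ : τ ∈ DG V)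
    (hx : xx p τ = 1) {a : Qbˣ} (ha : a ∈ fixU ⊤)
    (H : ∀ l : ℕ, l.Prime → l ≠ p → (p : ℤ) ^ 2 ∣ l ^ (p - 1) - 1 ∨ ∃ W, Above W l ∧
      ∃ j : ℤ, W.valuation (a : Qb) = W.valuation (l : Qb) ^ (j * p)) :
    a ∈ NG (DG V ⊓ U1 p) τ p := by
  let S := (NG (DG V ⊓ U1 p) τ p).toSubmonoid.map (Units.coeHom Qb)
  have pw : ∀ z : Qbˣ, z ∈ fixU (DG V) → z ^ p ∈ NG (DG V ⊓ U1 p) τ p := fun z hz =>
    ⟨z, fixU_anti inf_le_left hz, nrmU_of_fix (Units.ext (hz τ hτ)) p⟩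
  have pw' : ∀ z : Qb, z ≠ 0 → IsFix (DG V) z → z ^ p ∈ S := fun z h0 hz =>
    ⟨_, pw (Units.mk0 z h0) hz, by simp⟩
  obtain ⟨q, hq⟩ := isFix_top ha
  have q0 : q ≠ 0 := fun e => a.ne_zero (by rw [hq, e, Rat.cast_zero])
  have d0 : (q.den : Qb) ≠ 0 := Nat.cast_ne_zero.2 q.den_nz
  have df : ∀ C, Units.mk0 _ d0 ∈ fixU C := fun C g _ => map_natCast g _
  obtain ⟨k, hk⟩ := Nat.exists_eq_add_one_of_ne_zero hp.out.ne_zero
  let m : ℤ := q.num * q.den ^ k
  have hm : (m : Qb) = a * (q.den : Qb) ^ p := by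
    rw [hq, hk, pow_succ', ← mul_assoc]
    exact_mod_cast congrArg (· * (q.den : ℚ) ^ k) q.mul_den_eq_num.symm
  have m0 : m.natAbs ≠ 0 := Int.natAbs_ne_zero.2
    (mul_ne_zero (Rat.num_ne_zero.2 q0) (pow_ne_zero _ (Nat.cast_ne_zero.2 q.den_nz)))
  have vm : ∀ W : Pl, W.valuation (m.natAbs : Qb) = W.valuation (m : Qb) := fun W => by
    rw [← Int.cast_natCast]
    rcases m.natAbs_eq with e | e
    · rw [← e]
    · rw [← neg_eq_iff_eq_neg] at e
      rw [← e, Int.cast_neg, Valuation.map_neg]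
  have h1 : (m.natAbs : Qb) ∈ S := by
    rw [← Nat.prod_factorization_pow_eq_self m0, Finsupp.prod, Nat.cast_prod]
    refine prod_mem fun l hl => ?_
    have lp := Nat.prime_of_mem_primeFactors hl
    have l0 : (l : Qb) ≠ 0 := Nat.cast_ne_zero.2 lp.ne_zero
    rw [Nat.cast_pow]
    by_cases hlp : l = p
    · exact pow_mem (hlp ▸ ⟨_, ⟨_, fixU_anti inf_le_right (piU_fix p), rfl⟩, nrm_pi p hx⟩) _
    rcases H l lp hlp with ⟨t, ht⟩ | ⟨W, hW, j, hj⟩
    · have ht' : (l : Qb) ^ (p - 1) - 1 = p ^ 2 * t := by exact_mod_cast ht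
      have v0 : 0 < V.valuation (p : Qb) := zero_lt_iff.2 (by simpa using hp.out.ne_zero)
      obtain ⟨y, hy, e, -⟩ := hv.root V _ le_rfl p hp.out ((l : Qb) ^ (p - 1))
        (fun g _ => by simp) (by
          rw [ht', map_mul, map_pow]
          refine (pow_le_pow_left' (mul_le_of_le_one_right'
            ((V.valuation_le_one_iff _).2 (intCast_mem V t))) _).trans_lt ?_
          rw [← pow_mul]
          have := hp.out.two_le
          exact pow_lt_pow_right_of_lt_one₀ v0 h (by omega))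
      have y0 : y ≠ 0 := fun e0 => pow_ne_zero _ l0 (by rw [← e, e0, zero_pow hp.out.ne_zero])
      have := pw' (l / y) (div_ne_zero l0 y0) fun g hg => by rw [map_div₀, hy g hg, map_natCast]
      rw [div_pow, e, hk, Nat.add_sub_cancel, pow_succ', mul_div_cancel_right₀ _
        (pow_ne_zero _ l0)] at this
      exact pow_mem this _
    · obtain ⟨i, hi⟩ := hd.baseVal W l lp hW _ (df _)
      have e := vm W
      rw [← Nat.ordProj_mul_ordCompl_eq_self m.natAbs l, Nat.cast_mul, map_mul,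
        ← Int.cast_natCast (_ / _), (hv.int W l lp hW _).2
          (mt Int.natCast_dvd_natCast.1 (Nat.not_dvd_ordCompl lp m0)), mul_one, Nat.cast_pow,
        map_pow, hm, map_mul, map_pow, hj, show W.valuation (q.den : Qb) = _ from hi,
        ← zpow_natCast, ← zpow_natCast, ← zpow_mul, ← zpow_add₀ (by simpa using lp.ne_zero),
        ← add_mul] at e
      rw [← zpow_natCast, zinj lp hW e, zpow_mul, zpow_natCast]
      exact pw' _ (zpow_ne_zero _ l0) fun g _ => by simp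
  have h3 : (m : Qb) ∈ S := by
    rcases m.natAbs_eq with e | e
    · rwa [e, Int.cast_natCast]
    · have := mul_mem (pw' (-1) (by simp) fun g _ => by simp) h1
      rw [(hp.out.odd_of_ne_two h2).neg_one_pow] at this
      rw [e]; simpa using this
  obtain ⟨u, hu, e⟩ := h3
  have : a = u / Units.mk0 _ d0 ^ p := Units.ext (by
    rw [Units.val_div_eq_div_val, Units.val_pow_eq_pow_val, Units.val_mk0,
      eq_div_iff (pow_ne_zero _ d0), ← hm, ← e]; rfl)
  exact this ▸ div_mem hu (pw _ (df _))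

end RecP

open RecP in
theorem recip (_h1 : Coh1Stmt) (h2 : Coh2Stmt) (h3 : Coh3Stmt) (hv : ValStmt) (hd : DensStmt)
    (hu : UnrStmt) (hlb : LbStmt) (hab : AbhnStmt) : RecStmt := by
  intro p hp p2 f hf ⟨n, hn⟩ hl
  induction n generalizing f with
  | zero => simpa using hn
  | succ n ih =>
  have hp1 := ih (p • f) (hf.nsmul p) (by rwa [smul_smul, ← pow_succ])
    fun V h0 h => (hl V h0 h).nsmul p
  obtain ⟨σ, hσ⟩ := ex_top p
  have C := cycU p hσ
  have b1 := hab p p2 _ f C.opn (hf.mono le_top) ⟨_, hn.mono le_top⟩ fun V h0 => by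
    by_cases h : Above V p
    · obtain ⟨τ, hτ, hx⟩ := ex_gen p (nsplit hv hd h)
      exact hlb.split V _ _ p _ τ f h0 ((OpenIn.refl ⊤).inf_top _) hp.out (C.restrict _ hτ hx)
        (hf.mono le_top) (hp1.mono le_top)
    · exact (hl V h0 h).mono inf_le_left
  obtain ⟨f', z', i', b'⟩ := h2.infl _ _ _ _ f (isAct_aU _) C.opn C.normalIn (h3.h90 _) hf b1
  obtain ⟨fx, b2⟩ := h2.cycNf _ _ _ _ f' p _ σ (isAct_aU _) C z' i'
  obtain ⟨a, ha⟩ := ofMul.surjective (∑ i ∈ range p, f' (σ ^ i) σ)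
  rw [← ha] at fx b2
  have b3 := b'.add b2
  rw [sub_add_sub_cancel] at b3
  have af : a ∈ fixU ⊤ := fun g hg => congrArg (fun u : AU => ((toMul u : Qbˣ) : Qb)) (fx g hg)
  refine hab p p2 ⊤ f (OpenIn.refl _) hf ⟨_, hn⟩ fun V h0 => ?_
  by_cases h : Above V p
  swap
  · exact (hl V h0 h).mono inf_le_left
  obtain ⟨τ, hτ, hx⟩ := ex_gen p (nsplit hv hd h)
  obtain ⟨y, hy, e⟩ := atp hv hd p2 h hτ.1 hx af fun l lp hlp => by
    obtain ⟨W, hW⟩ := hv.ex_above l lp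
    have := (hl W (hv.above_ne W l lp.ne_zero hW) (fun e => e.ne ((Int.cast_natCast (R := Qb) p) ▸
      (hv.int W l lp hW p).2 (mt Int.natCast_dvd_natCast.1
        (mt (Nat.prime_dvd_prime_iff_eq lp hp.out).1 hlp))))).sub (b3.mono le_top)
    rw [sub_sub_cancel] at this
    exact (away hv h2 h3 hd hu af lp hlp hW this).imp_right fun e => ⟨W, hW, e⟩
  have := h2.cycOfNorm _ _ _ _ p _ τ (ofMul y) (isAct_aU _) (C.restrict _ hτ hx)
    fun g hg => congrArg ofMul (Units.ext (hy g hg))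
  rw [← ofMul_nrmU, e] at this
  simpa using (b3.mono le_top).add this

end Pool.Agent.MP_59efd2_nt.lz

end
end MrgPart6

-- ======== part 7: formerly Pool.Agent.MP_59efd2_nt.lz.Lift
section MrgPart7

/-!
# Row LIFT: classes modulo `p` lift to Iwasawa classes
-/

noncomputable section

namespace Pool.Agent.MP_59efd2_nt.lz

open scoped Pointwise Classical

namespace LiftP

/-- The action of `g` on a module by the scalar `s g`. -/
def modAct {S : Type} [CommRing S] (s : GQ → S) (A : Type) [AddCommGroup A] [Module S A]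
    (g : GQ) : A →+ A := (LinearMap.lsmul S A (s g)).toAddMonoidHom

@[simp] lemma modAct_apply {S : Type} [CommRing S] (s : GQ → S) (A : Type) [AddCommGroup A]
    [Module S A] (g : GQ) (x : A) : modAct s A g x = s g • x := rfl

lemma isAct_modAct {S : Type} [CommRing S] {H : Subgroup GQ} {s : GQ → S} (h : IsChar H s)
    (A : Type) [AddCommGroup A] [Module S A] : IsAct H (modAct s A) :=
  ⟨fun m => by simp [h.one], fun g hg k hk m => by simp [h.mul g hg k hk, mul_smul],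
    fun m => h.smooth.imp fun _ hN n hn hnN => by
      have := hN 1 H.one_mem n hn hnN
      rw [one_mul, h.one] at this
      simp [this]⟩

lemma isChar_map {S S' : Type} [CommRing S] [CommRing S'] {H : Subgroup GQ} {s : GQ → S}
    (h : IsChar H s) (φ : S →+* S') : IsChar H fun g => φ (s g) :=
  ⟨by simp [h.one], fun g hg k hk => by simp [h.mul g hg k hk], h.smooth.comp φ⟩

lemma isChar_congr {S : Type} [CommRing S] {H : Subgroup GQ} {s s' : GQ → S}
    (h : IsChar H s) (e : ∀ g ∈ H, s' g = s g) : IsChar H s' :=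
  ⟨by rw [e 1 H.one_mem, h.one],
    fun g hg k hk => by rw [e _ (H.mul_mem hg hk), e g hg, e k hk, h.mul g hg k hk],
    h.smooth.imp fun _ hN g hg n hn hnN => by
      rw [e _ (H.mul_mem hg hn), e g hg, hN g hg n hn hnN]⟩

lemma zo_congr {M : Type} [AddCommGroup M] {H : Subgroup GQ} {a : GQ → M →+ M} {c c' : GQ → M}
    (hc : Zo H a c) (e : ∀ g ∈ H, c' g = c g) : Zo H a c' :=
  ⟨hc.1.imp fun _ hN g hg n hn hnN => by rw [e _ (H.mul_mem hg hn), e g hg, hN g hg n hn hnN],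
    fun g hg k hk => by rw [e _ (H.mul_mem hg hk), e g hg, e k hk, hc.2 g hg k hk]⟩

/-- `H² = 0` for all finite modules, from the case of simple modules. -/
lemma v2_of_simple (h3 : Coh3Stmt) {S : Type} [CommRing S] {H : Subgroup GQ} {s : GQ → S}
    (hs : IsChar H s)
    (hsimp : ∀ (A : Type) [AddCommGroup A] [Module S A], IsSimpleModule S A → V2 H (modAct s A))
    (k : ℕ) : ∀ (A : Type) [AddCommGroup A] [Module S A] [Finite A], Nat.card A = k →
      V2 H (modAct s A) := by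
  induction k using Nat.strong_induction_on with
  | _ k ih =>
    intro A _ _ _ hk
    rcases subsingleton_or_nontrivial A with hA | hA
    · intro f _
      exact (b2_zero H _).congr fun _ _ _ _ => Subsingleton.elim _ _
    · have : Finite (Submodule S A) :=
        Finite.of_injective (fun N : Submodule S A => (N : Set A)) SetLike.coe_injective
      obtain ⟨N, hN⟩ := IsCoatomic.exists_coatom (α := Submodule S A)
      have hlt : Nat.card N < k := by
        rw [← hk]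
        obtain ⟨x, hx⟩ : ∃ x, x ∉ N := by
          by_contra h
          push Not at h
          exact hN.1 (Submodule.eq_top_iff'.2 h)
        exact Finite.card_subtype_lt hx
      refine h3.sesV2 N A (A ⧸ N) H (modAct s N) (modAct s A) (modAct s (A ⧸ N))
        N.subtype.toAddMonoidHom N.mkQ.toAddMonoidHom
        ⟨isAct_modAct hs _, isAct_modAct hs _, isAct_modAct hs _, N.subtype_injective,
          N.mkQ_surjective, fun b => ?_, fun _ _ _ => rfl, fun _ _ _ => rfl⟩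
        (ih _ hlt N rfl) (hsimp _ (isSimpleModule_iff_isCoatom.2 hN))
      exact (Submodule.Quotient.mk_eq_zero N).trans
        ⟨fun h => ⟨⟨b, h⟩, rfl⟩, fun ⟨a, ha⟩ => ha ▸ a.2⟩

/-- Lifting of cocycles along a surjection of rings. -/
lemma step (h3 : Coh3Stmt) {S S' : Type} [CommRing S] [CommRing S'] {H : Subgroup GQ}
    {s : GQ → S} {s' : GQ → S'} (π : S →+* S') (hπ : Function.Surjective π) (hs : IsChar H s)
    (e : ∀ g ∈ H, s' g = π (s g)) (hV : V2 H (modAct s (RingHom.ker π))) (c : GQ → S')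
    (hc : Zo H (mulAct s') c) : ∃ c', Zo H (mulAct s) c' ∧ ∀ g ∈ H, π (c' g) = c g :=
  h3.sesLift (RingHom.ker π) S S' H (modAct s (RingHom.ker π)) (mulAct s) (mulAct s')
    (RingHom.ker π).subtype.toAddMonoidHom π.toAddMonoidHom
    ⟨isAct_modAct hs _, hs.isAct, (isChar_congr (isChar_map hs π) e).isAct,
      (RingHom.ker π).subtype_injective, hπ,
      fun b => ⟨fun h => ⟨⟨b, h⟩, rfl⟩, fun ⟨a, ha⟩ => ha ▸ a.2⟩, fun _ _ _ => rfl,
      fun g hg b => by simp [e g hg]⟩ hV c hc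

variable (p : ℕ) [Fact p.Prime]

instance finLamN (n : ℕ) : Finite (LamN p n) :=
  Finite.of_equiv _ (MonoidAlgebra.coeffEquiv (R := ZMod (p ^ n)) (M := Gam p n)).symm

lemma single_eq (n : ℕ) (γ : Gam p n) (c : ZMod (p ^ n)) :
    (MonoidAlgebra.single γ c : LamN p n) =
      (c.val : LamN p n) * MonoidAlgebra.of (ZMod (p ^ n)) (Gam p n) γ := by
  have : (c.val : LamN p n) = MonoidAlgebra.single 1 c := by
    rw [← map_natCast (MonoidAlgebra.singleOneRingHom : ZMod (p ^ n) →+* LamN p n)]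
    simp
  rw [this, MonoidAlgebra.of_apply, MonoidAlgebra.single_mul_single, one_mul, mul_one]

lemma p_pow_eq_zero (n : ℕ) : (p : LamN p n) ^ n = 0 := by
  rw [← Nat.cast_pow, ← map_natCast (MonoidAlgebra.singleOneRingHom : ZMod (p ^ n) →+* LamN p n),
    ZMod.natCast_self, map_zero]

lemma eq_one_of_pow {K : Type} [Field K] [CharP K p] {z : K} {k : ℕ} (h : z ^ p ^ k = 1) :
    z = 1 := by
  have : (z - 1) ^ p ^ k = 0 := by rw [sub_pow_char_pow, h, one_pow, sub_self]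
  exact sub_eq_zero.1 (pow_eq_zero_iff (pow_pos (Fact.out : p.Prime).pos k).ne' |>.1 this)

/-- The residue fields of `Λ_n` are prime fields. -/
lemma exists_residue (n : ℕ) (m : Ideal (LamN p (n + 1))) (hm : m.IsMaximal) :
    Nonempty ((LamN p (n + 1) ⧸ m) ≃+* ZMod p) := by
  have hp : p.Prime := Fact.out
  let _ : Field (LamN p (n + 1) ⧸ m) := Ideal.Quotient.field m
  have h0 : (p : LamN p (n + 1) ⧸ m) = 0 := by
    have := congrArg (Ideal.Quotient.mk m) (p_pow_eq_zero p (n + 1))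
    rw [map_pow, map_natCast, map_zero] at this
    exact (pow_eq_zero_iff (Nat.succ_ne_zero n)).1 this
  have : CharP (LamN p (n + 1) ⧸ m) p := (CharP.charP_iff_prime_eq_zero hp).2 h0
  let ι := ZMod.castHom (dvd_refl p) (LamN p (n + 1) ⧸ m)
  have hsurj : Function.Surjective ι := by
    intro x
    obtain ⟨r, rfl⟩ := Ideal.Quotient.mk_surjective x
    change Ideal.Quotient.mk m r ∈ ι.fieldRange
    induction r using MonoidAlgebra.induction_linear with
    | zero => rw [map_zero]; exact zero_mem _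
    | add a b ha hb => rw [map_add]; exact add_mem ha hb
    | single γ c =>
      rw [single_eq, map_mul, map_natCast]
      refine mul_mem (natCast_mem _ _) ?_
      rw [ZMod.fieldRange_castHom_eq_bot, Subfield.mem_bot_iff_pow_eq_self (LamN p (n + 1) ⧸ m) p]
      set y := Ideal.Quotient.mk m (MonoidAlgebra.of (ZMod (p ^ (n + 1))) (Gam p (n + 1)) γ)
        with hy
      have h1 : γ ^ ((p - 1) * p ^ n) = 1 := by
        rw [mul_comm, ← Nat.totient_prime_pow_succ hp]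
        exact ZMod.pow_totient γ
      have h2 : (y ^ (p - 1)) ^ p ^ n = 1 := by
        rw [← pow_mul, hy, ← map_pow, ← map_pow, h1, map_one, map_one]
      have h3 := eq_one_of_pow p h2
      calc y ^ p = y ^ (p - 1) * y := by rw [← pow_succ, Nat.sub_add_cancel hp.one_le]
        _ = y := by rw [h3, one_mul]
  exact ⟨(RingEquiv.ofBijective ι ⟨ι.injective, hsurj⟩).symm⟩

variable {p}

lemma proj_sc (V : Pl) (δ : DG V →* ℤ_[p]ˣ) (n : ℕ) (g : DG V) :
    proj p n (sc V δ g) =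
      MonoidAlgebra.single (chiN p n g)⁻¹ (PadicInt.toZModPow n (δ g : ℤ_[p])) := by
  rw [sc, ext_coe, map_mul, proj_grp, proj_cst, MonoidAlgebra.single_mul_single, mul_one, one_mul,
    map_inv]
  rfl

lemma chiN_pow {g : GQ} (hg : om p g = 1) (n : ℕ) : chiN p n g ^ p ^ n = 1 := by
  have h1 : (p : ℤ_[p]) ∣ (chi p g : ℤ_[p]) - 1 := by
    rw [← Ideal.mem_span_singleton, ← PadicInt.maximalIdeal_eq_span_p, ← PadicInt.ker_toZMod,
      RingHom.mem_ker, map_sub, map_one, sub_eq_zero]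
    exact hg
  have h2 := (pow_dvd_pow (p : ℤ_[p]) (Nat.le_succ n)).trans (dvd_sub_pow_of_dvd_sub h1 n)
  rw [← Ideal.mem_span_singleton, ← PadicInt.ker_toZModPow, RingHom.mem_ker, map_sub, one_pow,
    map_one, sub_eq_zero, map_pow] at h2
  exact Units.ext (by rw [Units.val_pow_eq_pow_val, coe_chiN, h2, Units.val_one])

lemma hom_cst (n : ℕ) (φ : LamN p (n + 1) →+* ZMod p) (x : ℤ_[p]) :
    φ (MonoidAlgebra.single 1 (PadicInt.toZModPow (n + 1) x)) = PadicInt.toZMod x := by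
  have h1 : φ.comp (MonoidAlgebra.singleOneRingHom : ZMod (p ^ (n + 1)) →+* LamN p (n + 1)) =
      (e1 p).symm.toRingHom.comp
        (ZMod.castHom (pow_dvd_pow p (Nat.le_add_left 1 n)) (ZMod (p ^ 1))) :=
    RingHom.ext_zmod _ _
  have h2 := RingHom.congr_fun h1 (PadicInt.toZModPow (n + 1) x)
  have h3 := RingHom.congr_fun (PadicInt.zmod_cast_comp_toZModPow (p := p) 1 (n + 1)
    (Nat.le_add_left 1 n)) x
  rw [RingHom.comp_apply] at h3
  rw [RingHom.comp_apply, RingHom.comp_apply, h3, ← e1_toZMod] at h2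
  exact h2.trans ((e1 p).symm_apply_apply _)

/-- `H² = 0` for finite `Λ_n`-modules. -/
lemma modv (h3 : Coh3Stmt) (hc : ContStmt) (hh : H2vStmt) (V : Pl) (δ : DG V →* ℤ_[p]ˣ)
    (hV : V ≠ ⊤) (hδ : Continuous δ) (hg : ∃ g ∈ DG V, om p g = 1 ∧ dbar V δ g ≠ 1) (n : ℕ)
    (A : Type) [AddCommGroup A] [Module (LamN p (n + 1)) A] [Finite A] :
    V2 (DG V) (modAct (fun g => proj p (n + 1) (sc V δ g)) A) := by
  have hs := hc.scN p V δ hδ (n + 1)
  refine v2_of_simple h3 hs (fun B _ _ hB => ?_) _ A rfl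
  obtain ⟨m, hm, ⟨e⟩⟩ := isSimpleModule_iff_quot_maximal.1 hB
  obtain ⟨r⟩ := exists_residue p n m hm
  let φ : LamN p (n + 1) →+* ZMod p := r.toRingHom.comp (Ideal.Quotient.mk m)
  let E : B ≃+ ZMod p := e.toAddEquiv.trans r.toAddEquiv
  have hE : ∀ (t : LamN p (n + 1)) (x : B), E (t • x) = φ t * E x := by
    intro t x
    change r (e (t • x)) = r (Ideal.Quotient.mk m t) * r (e x)
    rw [map_smul, ← map_mul]
    obtain ⟨y, hy⟩ := Ideal.Quotient.mk_surjective (e x)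
    rw [← hy]
    rfl
  obtain ⟨g, hgD, hg1, hg2⟩ := hg
  have hθ : V2 (DG V) (mulAct fun g => φ (proj p (n + 1) (sc V δ g))) := by
    refine hh p V _ hV (isChar_map hs φ) ⟨g, hgD, ?_⟩
    have h1 := proj_sc V δ (n + 1) ⟨g, hgD⟩
    have h2 : φ (MonoidAlgebra.of _ _ (chiN p (n + 1) g)⁻¹) = 1 := by
      apply eq_one_of_pow p (k := n + 1)
      rw [← map_pow, ← map_pow, inv_pow, chiN_pow hg1, inv_one, map_one, map_one]
    have h4 : (MonoidAlgebra.single (chiN p (n + 1) g)⁻¹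
        (PadicInt.toZModPow (n + 1) (δ ⟨g, hgD⟩ : ℤ_[p])) : LamN p (n + 1)) =
        MonoidAlgebra.single 1 (PadicInt.toZModPow (n + 1) (δ ⟨g, hgD⟩ : ℤ_[p])) *
          MonoidAlgebra.of _ _ (chiN p (n + 1) g)⁻¹ := by
      rw [MonoidAlgebra.of_apply, MonoidAlgebra.single_mul_single, one_mul, mul_one]
    change φ (proj p (n + 1) (sc V δ ((⟨g, hgD⟩ : DG V) : GQ))) ≠ _
    rw [h1, h4, map_mul, h2, mul_one, hom_cst, hg1]
    rwa [dbar, ext_of_mem _ _ hgD] at hg2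
  intro f hf
  have h1 := hθ _ (hf.map E.toAddMonoidHom fun k _ x => hE _ x)
  refine (h1.map (a' := modAct (fun g => proj p (n + 1) (sc V δ g)) B) E.symm.toAddMonoidHom
    fun k _ x => ?_).congr fun k _ l _ => (E.symm_apply_apply _).symm
  apply E.injective
  change E (E.symm _) = E (proj p (n + 1) (sc V δ k) • E.symm x)
  rw [hE, E.apply_symm_apply, E.apply_symm_apply]
  rfl

variable (p)

lemma trans_surj (n : ℕ) : Function.Surjective (trans p n) := by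
  intro x
  change x ∈ (trans p n).range
  induction x using MonoidAlgebra.induction_linear with
  | zero => exact zero_mem _
  | add a b ha hb => exact add_mem ha hb
  | single γ c =>
    obtain ⟨γ', hγ⟩ := ZMod.unitsMap_surjective (pow_dvd_pow p (Nat.le_succ n)) γ
    obtain ⟨c', hc⟩ := ZMod.ringHom_surjective (red p n) c
    exact ⟨MonoidAlgebra.single γ' c', by rw [trans_single, hc, ← hγ]; rfl⟩

/-- Evaluation at level one. -/
def ev (j : ℤ) : LamN p 1 →+* ZMod p := (e1 p).symm.toRingHom.comp (evalN p j 1)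

lemma ev_proj (j : ℤ) (x : Lam p) : ev p j (proj p 1 x) = ev1 p j x := by
  change (e1 p).symm (evalN p j 1 (proj p 1 x)) = PadicInt.toZMod (eval p j x)
  rw [← toZModPow_eval, ← e1_toZMod, RingEquiv.symm_apply_apply]

lemma ev1_sc (V : Pl) (δ : DG V →* ℤ_[p]ˣ) (j : ℤ) {g : GQ} (hg : g ∈ DG V) :
    ev1 p j (sc V δ g) = dbar V δ g * om p g ^ j := by
  rw [sc, dbar, ext_of_mem _ _ hg, ext_of_mem _ _ hg, ev1, RingHom.comp_apply, map_mul, eval_grp,
    eval_cst, map_mul, mul_comm, inv_zpow', neg_neg]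
  congr 1
  have := map_zpow (Units.map (PadicInt.toZMod (p := p)).toMonoidHom) (chi p g) j
  have h2 := congrArg Units.val this
  rw [Units.val_zpow_eq_zpow_val] at h2
  exact h2

end LiftP

open LiftP in
theorem lift (h3 : Coh3Stmt) (hc : ContStmt) (hh : H2vStmt) : LiftStmt := by
  intro p _ V δ hV hδ hg j c₁ hc₁
  let Z : ℕ → Type := fun n =>
    {c : GQ → LamN p (n + 1) // Zo (DG V) (mulAct fun g => proj p (n + 1) (sc V δ g)) c}
  obtain ⟨c0, hc0, e0⟩ := step h3 (ev p j) (ZMod.ringHom_surjective _) (hc.scN p V δ hδ 1)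
    (fun g hg => by rw [ev_proj, ev1_sc p V δ j hg]) (modv h3 hc hh V δ hV hδ hg 0 _) c₁ hc₁
  have hstep : ∀ (n : ℕ) (c : Z n), ∃ c' : Z (n + 1),
      ∀ g ∈ DG V, trans p (n + 1) (c'.1 g) = c.1 g := by
    intro n c
    obtain ⟨c', h1, h2⟩ := step h3 (trans p (n + 1)) (trans_surj p (n + 1))
      (hc.scN p V δ hδ (n + 2)) (fun g _ => (trans_proj p (n + 1) _).symm)
      (modv h3 hc hh V δ hV hδ hg (n + 1) _) c.1 c.2
    exact ⟨⟨c', h1⟩, h2⟩
  choose nx hnx using hstep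
  let C : ∀ n, Z n := fun n => Nat.rec (motive := Z) ⟨c0, hc0⟩ nx n
  let x : GQ → ∀ n, LamN p n := fun g n =>
    match n with
    | 0 => trans p 0 (c0 g)
    | n + 1 => (C n).1 g
  have hx : ∀ g ∈ DG V, ∀ n, trans p n (x g (n + 1)) = x g n := by
    intro g hg n
    cases n with
    | zero => rfl
    | succ n => exact hnx n (C n) g hg
  refine ⟨fun g => mkLam p (x g) (hx g g.2), (hc.zL p V δ _).2 fun n => ?_, fun g => ?_⟩
  · refine zo_congr (c := fun g => x g n) ?_ fun g hg => by rw [ext_of_mem _ _ hg]; rfl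
    cases n with
    | zero =>
      exact hc0.map (trans p 0).toAddMonoidHom fun g _ m => by
        change trans p 0 (_ * _) = _ * trans p 0 m
        rw [map_mul, trans_proj]
    | succ n => exact (C n).2
  · rw [← ev_proj]
    exact e0 g g.2

end Pool.Agent.MP_59efd2_nt.lz

end
end MrgPart7

-- marker of a merged file
example : 731051 + 596132 = 731051 + 596132 := rfl
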