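import Mathlib.Algebra.AffineMonoid.Basic
import Mathlib.Topology.Sheaves.Presheaf
import Mathlib.Tactic.Monotonicity.Lemmas
import Mathlib.Data.Int.Star
import Mathlib.Algebra.Order.Ring.Star
import Mathlib.RingTheory.Valuation.LocalSubring
import Mathlib.GroupTheory.FiniteAbelian.Basic
import Mathlib.GroupTheory.IndexNSmul
import Mathlib.RingTheory.PiTensorProduct
import Mathlib.NumberTheory.Basic
import Mathlib.NumberTheory.NumberField.ClassNumber
import Mathlib.NumberTheory.NumberField.Units.DirichletTheorem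
import Mathlib.RingTheory.DedekindDomain.SInteger
import Mathlib.RingTheory.DedekindDomain.SelmerGroup
import Pool.Agent.MP_59efd2_nt.lz.Lii

-- ======== part 0: formerly Pool.Agent.MP_59efd2_nt.lz.Coh1
section MrgPart0

/-!
# Row COH1: transfer, conjugation, extension, cyclic quotients
-/

noncomputable section

namespace Pool.Agent.MP_59efd2_nt.lz

open scoped Pointwise Classical
open Finset

namespace Coh1P

variable {M : Type} [AddCommGroup M] {H H' : Subgroup GQ} {a : GQ → M →+ M}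

theorem transv (h : OpenIn H' H) : ∃ Rr : Finset GQ, (∀ r ∈ Rr, r ∈ H) ∧
    Rr.card = H'.relIndex H ∧ ∀ g ∈ H, ∃! r, r ∈ Rr ∧ r⁻¹ * g ∈ H' := by
  have h0 : (H'.subgroupOf H).index ≠ 0 := h.relIndex_ne_zero
  have hfin : Finite (H ⧸ H'.subgroupOf H) := Nat.finite_of_card_ne_zero h0
  have := Fintype.ofFinite (H ⧸ H'.subgroupOf H)
  let o : H ⧸ H'.subgroupOf H → GQ := fun q => (q.out : H)
  have ho : Function.Injective o := fun q q' e => Quotient.out_injective (Subtype.ext e)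
  refine ⟨univ.image o, fun r hr => ?_, ?_, fun g hg => ⟨o (QuotientGroup.mk ⟨g, hg⟩), ⟨?_, ?_⟩, ?_⟩⟩
  · obtain ⟨q, -, rfl⟩ := mem_image.1 hr
    exact q.out.2
  · rw [card_image_of_injective _ ho, card_univ, ← Nat.card_eq_fintype_card]
    rfl
  · exact mem_image_of_mem _ (mem_univ _)
  · have := QuotientGroup.eq.1
      (QuotientGroup.out_eq' (QuotientGroup.mk ⟨g, hg⟩ : H ⧸ H'.subgroupOf H))
    exact this
  · rintro r ⟨hr, hr'⟩
    obtain ⟨q, -, rfl⟩ := mem_image.1 hr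
    congr 1
    rw [← QuotientGroup.out_eq' q]
    exact QuotientGroup.eq.2 hr'

/-- a choice of coset representatives -/
structure Sec (H H' : Subgroup GQ) (Rr : Finset GQ) (ρ : GQ → GQ) : Prop where
  le : H' ≤ H
  sub : ∀ r ∈ Rr, r ∈ H
  mem : ∀ g ∈ H, ρ g ∈ Rr
  cos : ∀ g ∈ H, (ρ g)⁻¹ * g ∈ H'
  uniq : ∀ g ∈ H, ∀ r ∈ Rr, r⁻¹ * g ∈ H' → ρ g = r

theorem exists_sec {Rr : Finset GQ} (hle : H' ≤ H) (h1 : ∀ r ∈ Rr, r ∈ H)
    (h2 : ∀ g ∈ H, ∃! r, r ∈ Rr ∧ r⁻¹ * g ∈ H') : ∃ ρ, Sec H H' Rr ρ := by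
  choose! ρ h3 h4 using h2
  exact ⟨ρ, hle, h1, fun g hg => (h3 g hg).1, fun g hg => (h3 g hg).2,
    fun g hg r hr h => (h4 g hg r ⟨hr, h⟩).symm⟩

namespace Sec

variable {Rr : Finset GQ} {ρ : GQ → GQ} (S : Sec H H' Rr ρ)
include S

theorem memH {g : GQ} (hg : g ∈ H) : ρ g ∈ H := S.sub _ (S.mem g hg)

theorem mul {g h : GQ} (hg : g ∈ H) (hh : h ∈ H') : ρ (g * h) = ρ g :=
  S.uniq _ (H.mul_mem hg (S.le hh)) _ (S.mem g hg) (by
    rw [← mul_assoc]; exact H'.mul_mem (S.cos g hg) hh)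

theorem mul_rho {g k : GQ} (hg : g ∈ H) (hk : k ∈ H) : ρ (g * ρ k) = ρ (g * k) := by
  rw [← S.mul (H.mul_mem hg (S.memH hk)) (S.cos k hk)]
  congr 1
  group

theorem self {r : GQ} (hr : r ∈ Rr) : ρ r = r :=
  S.uniq r (S.sub r hr) r hr (by simp)

theorem sum_perm {g : GQ} (hg : g ∈ H) (F : GQ → M) :
    ∑ r ∈ Rr, F (ρ (g * r)) = ∑ r ∈ Rr, F r := by
  refine sum_nbij' (fun r => ρ (g * r)) (fun r => ρ (g⁻¹ * r)) ?_ ?_ ?_ ?_ ?_
  · exact fun r hr => S.mem _ (H.mul_mem hg (S.sub r hr))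
  · exact fun r hr => S.mem _ (H.mul_mem (H.inv_mem hg) (S.sub r hr))
  · intro r hr
    rw [S.mul_rho (H.inv_mem hg) (H.mul_mem hg (S.sub r hr)), inv_mul_cancel_left, S.self hr]
  · intro r hr
    rw [S.mul_rho hg (H.mul_mem (H.inv_mem hg) (S.sub r hr)), mul_inv_cancel_left, S.self hr]
  · exact fun _ _ => rfl

end Sec

theorem trans {f : GQ → GQ → M} (ha : IsAct H a) (ho : OpenIn H' H) (hf : Z2 H a f)
    (hb : B2 H' a f) : B2 H a (H'.relIndex H • f) := by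
  obtain ⟨Rr, h1, h2, h3⟩ := transv ho
  obtain ⟨ρ, S⟩ := exists_sec ho.1 h1 h3
  obtain ⟨b, hb1, hb2⟩ := hb
  let c : GQ → M := fun k => a (ρ k) (b ((ρ k)⁻¹ * k)) - f (ρ k) ((ρ k)⁻¹ * k)
  have hc : ∀ k ∈ H, ∀ h ∈ H', c (k * h) = c k + a k (b h) - f k h := by
    intro k hk h hh
    have e1 := hb2 _ (S.cos k hk) h hh
    have e2 := hf.2 _ (S.memH hk) _ (S.le (S.cos k hk)) h (S.le hh)
    have e3 := ha.mul _ (S.memH hk) _ (S.le (S.cos k hk)) (b h)
    rw [mul_inv_cancel_left] at e2 e3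
    rw [e1, map_add, map_sub, ← e3] at e2
    simp only [c, S.mul hk hh, ← mul_assoc]
    linear_combination (norm := abel1) -e2
  have hcs : Sm1 H c := by
    obtain ⟨N₁, hN₁⟩ := hb1
    obtain ⟨N₂, hN₂⟩ := hf.1
    obtain ⟨-, N₃, hN₃⟩ := ho
    refine ⟨N₁ ⊓ N₂ ⊓ N₃, fun k hk n hn hN => ?_⟩
    have hn' := hN₃ n hn hN.2
    have e1 := hN₁ 1 H'.one_mem n hn' hN.1.1
    have e2 := hN₂ k hk 1 H.one_mem 1 H.one_mem n hn N₂.one_mem hN.1.2
    have e3 := hc k hk 1 H'.one_mem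
    rw [one_mul] at e1
    rw [mul_one, one_mul] at e2
    rw [mul_one] at e3
    rw [hc k hk n hn', e1, e2, ← e3]
  let ψ : GQ → GQ → M := fun g k => f g k - a g (c k) + c (g * k)
  have hψs : Sm2 H ψ := (hf.1.comp₂ (hcs.act ha) (· - ·)).comp₂ hcs.mul (· + ·)
  have hψ : ∀ g ∈ H, ∀ k ∈ H, ∀ h ∈ H', ψ g (k * h) = ψ g k := by
    intro g hg k hk h hh
    have e1 := hf.2 g hg k hk h (S.le hh)
    simp only [ψ, ← mul_assoc, hc k hk h hh, hc _ (H.mul_mem hg hk) h hh, map_add, map_sub,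
      ha.mul g hg k hk]
    linear_combination (norm := abel1) e1
  refine ⟨fun g => ∑ r ∈ Rr, ψ g r, ?_, fun g hg k hk => ?_⟩
  · refine hψs.imp fun N hN g hg n hn hnN => sum_congr rfl fun r hr => ?_
    have := hN g hg r (h1 r hr) n hn 1 H.one_mem hnN N.one_mem
    rwa [mul_one] at this
  · have e1 : ∑ r ∈ Rr, ψ g r = ∑ r ∈ Rr, ψ g (k * r) := by
      rw [← S.sum_perm hk (ψ g)]
      refine sum_congr rfl fun r hr => ?_
      have hkr := H.mul_mem hk (h1 r hr)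
      rw [← hψ g hg _ (S.memH hkr) _ (S.cos _ hkr), mul_inv_cancel_left]
    beta_reduce
    rw [e1, map_sum, ← sum_sub_distrib, ← sum_add_distrib, ← h2, Pi.smul_apply, Pi.smul_apply,
      ← sum_const]
    refine sum_congr rfl fun r hr => ?_
    have e2 := hf.2 g hg k hk r (h1 r hr)
    simp only [ψ, map_add, map_sub, ha.mul g hg k hk, mul_assoc]
    linear_combination (norm := abel1) -e2

theorem transCop {f : GQ → GQ → M} {p n : ℕ} (ha : IsAct H a) (ho : OpenIn H' H) (hf : Z2 H a f)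
    (hb : B2 H' a f) (hc : Nat.Coprime p (H'.relIndex H)) (hp : B2 H a (p ^ n • f)) :
    B2 H a f := by
  obtain ⟨u, v, h⟩ := Nat.isCoprime_iff_coprime.2 (hc.pow_left n)
  have := (hp.zsmul u).add ((trans ha ho hf hb).zsmul v)
  rwa [← natCast_zsmul, ← natCast_zsmul, smul_smul, smul_smul, ← add_smul, h, one_smul] at this

theorem conj {f : GQ → GQ → M} (hf : Z2 H a f) {g : GQ} (hg : g ∈ H) :
    B2 H a fun x y => a g (f (g⁻¹ * x * g) (g⁻¹ * y * g)) - f x y := by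
  have hm : ∀ x ∈ H, g⁻¹ * x * g ∈ H := fun x hx => H.mul_mem (H.mul_mem (H.inv_mem hg) hx) hg
  refine ⟨fun x => f g (g⁻¹ * x * g) - f x g, ?_, fun x hx y hy => ?_⟩
  · refine hf.1.imp fun N hN x hx n hn hnN => ?_
    have e1 := hN g hg _ (hm x hx) 1 H.one_mem _ (hm n hn) N.one_mem (ons_conj' N hnN g)
    have e2 := hN x hx g hg n hn 1 H.one_mem hnN N.one_mem
    have e3 : g⁻¹ * x * g * (g⁻¹ * n * g) = g⁻¹ * (x * n) * g := by group
    rw [mul_one, e3] at e1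
    rw [mul_one] at e2
    beta_reduce
    rw [e1, e2]
  · have e1 := hf.2 g hg _ (hm x hx) _ (hm y hy)
    have e2 := hf.2 x hx g hg _ (hm y hy)
    have e3 := hf.2 x hx y hy g hg
    have e4 : g⁻¹ * x * g * (g⁻¹ * y * g) = g⁻¹ * (x * y) * g := by group
    have e5 : ∀ z, g * (g⁻¹ * z * g) = z * g := fun z => by group
    rw [e4, e5] at e1
    rw [e5] at e2
    simp only [map_sub]
    linear_combination (norm := abel1) e1 - e2 + e3

theorem ext {J : Subgroup GQ} {f : GQ → GQ → M} (ha : IsAct H a) (hJ : J ≤ H) (hf : Z2 H a f)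
    (hb : B2 J a f) : ∃ H', J ≤ H' ∧ OpenIn H' H ∧ B2 H' a f := by
  obtain ⟨b, hb1, hb2⟩ := hb
  obtain ⟨N₃, hN₃⟩ := ha.exists_fix hb1.finite
  obtain ⟨N₁, hN₁⟩ := hb1
  obtain ⟨N₂, hN₂⟩ := hf.1
  obtain ⟨N, hN⟩ : ∃ N : ONS, ∀ g ∈ N, g ∈ N₁ ∧ g ∈ N₂ ∧ g ∈ N₃ :=
    ⟨N₁ ⊓ (N₂ ⊓ N₃), fun _ h => h⟩
  have hmul : ∀ g g' j j' : GQ, j⁻¹ * g ∈ N → j'⁻¹ * g' ∈ N → (j * j')⁻¹ * (g * g') ∈ N := by
    intro g g' j j' h h'
    have e : (j * j')⁻¹ * (g * g') = j'⁻¹ * (j⁻¹ * g) * j' * (j'⁻¹ * g') := by group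
    rw [e]
    exact N.mul_mem (ons_conj' N h j') h'
  let K : Subgroup GQ :=
    { carrier := {g | g ∈ H ∧ ∃ j ∈ J, j⁻¹ * g ∈ N}
      mul_mem' := fun {g g'} ⟨hg, j, hj, h⟩ ⟨hg', j', hj', h'⟩ =>
        ⟨H.mul_mem hg hg', j * j', J.mul_mem hj hj', hmul g g' j j' h h'⟩
      one_mem' := ⟨H.one_mem, 1, J.one_mem, by simp⟩
      inv_mem' := fun {g} ⟨hg, j, hj, h⟩ => ⟨H.inv_mem hg, j⁻¹, J.inv_mem hj, by
        have e : j⁻¹⁻¹ * g⁻¹ = j * (j⁻¹ * g)⁻¹ * j⁻¹ := by group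
        rw [e]
        exact ons_conj N (N.inv_mem h) j⟩ }
  have hK : ∀ g ∈ K, ∃ j ∈ J, j⁻¹ * g ∈ N := fun g hg => hg.2
  choose! ρ hρ1 hρ2 using hK
  have hw : ∀ g ∈ K, ∀ j ∈ J, j⁻¹ * g ∈ N → b (ρ g) = b j := by
    intro g hg j hj h
    have e : j⁻¹ * ρ g = j⁻¹ * g * ((ρ g)⁻¹ * g)⁻¹ := by group
    have := hN₁ j hj _ (J.mul_mem (J.inv_mem hj) (hρ1 g hg))
      (hN _ (e ▸ N.mul_mem h (N.inv_mem (hρ2 g hg)))).1
    rwa [mul_inv_cancel_left] at this
  refine ⟨K, fun j hj => ⟨hJ hj, j, hj, by simp⟩,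
    ⟨fun g hg => hg.1, N, fun g hg hgN => ⟨hg, 1, J.one_mem, by simpa using hgN⟩⟩,
    fun g => b (ρ g), ⟨N, fun g hg n hn hnN => ?_⟩, fun g hg k hk => ?_⟩
  · refine hw _ (K.mul_mem hg hn) _ (hρ1 g hg) ?_
    rw [← mul_assoc]
    exact N.mul_mem (hρ2 g hg) hnN
  · have mg : (ρ g)⁻¹ * g ∈ H := H.mul_mem (H.inv_mem (hJ (hρ1 g hg))) hg.1
    have mk : (ρ k)⁻¹ * k ∈ H := H.mul_mem (H.inv_mem (hJ (hρ1 k hk))) hk.1
    have e1 := hN₂ _ (hJ (hρ1 g hg)) _ (hJ (hρ1 k hk)) _ mg _ mk (hN _ (hρ2 g hg)).2.1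
      (hN _ (hρ2 k hk)).2.1
    have e2 := ha.mul _ (hJ (hρ1 g hg)) _ mg (b (ρ k))
    rw [hN₃ _ ⟨_, hρ1 k hk, rfl⟩ _ mg (hN _ (hρ2 g hg)).2.2, mul_inv_cancel_left] at e2
    rw [mul_inv_cancel_left, mul_inv_cancel_left] at e1
    beta_reduce
    rw [e1, e2, hw _ (K.mul_mem hg hk) _ (J.mul_mem (hρ1 g hg) (hρ1 k hk))
      (hmul _ _ _ _ (hρ2 g hg) (hρ2 k hk))]
    exact hb2 _ (hρ1 g hg) _ (hρ1 k hk)

theorem cycEx {r : ℕ} (hr : r.Prime) (ho : OpenIn H' H) (hn : NormalIn H' H)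
    (hi : H'.relIndex H = r) : ∃ x σ, Cyc H H' r x σ := by
  have : Fact r.Prime := ⟨hr⟩
  have : (H'.subgroupOf H).Normal := ⟨fun n h g => hn g g.2 n h⟩
  have hc : Nat.card (H ⧸ H'.subgroupOf H) = r := hi
  let e : (H ⧸ H'.subgroupOf H) ≃* Multiplicative (ZMod r) :=
    mulEquivOfPrimeCardEq hc (by simp)
  let φ : H →* Multiplicative (ZMod r) := e.toMonoidHom.comp (QuotientGroup.mk' _)
  have hφ : ∀ g : H, φ g = 1 ↔ (g : GQ) ∈ H' := fun g => by
    show e (QuotientGroup.mk g) = 1 ↔ _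
    rw [map_eq_one_iff e e.injective, QuotientGroup.eq_one_iff]
    rfl
  obtain ⟨σ, hσ⟩ : ∃ σ : H, φ σ = Multiplicative.ofAdd 1 :=
    (e.surjective.comp (QuotientGroup.mk'_surjective _)) _
  refine ⟨lz.ext H 0 fun g => (φ g).toAdd, σ, hr.pos, fun g hg h hh => ?_, fun g => ?_, σ.2, ?_, ho⟩
  · rw [ext_of_mem _ _ hg, ext_of_mem _ _ hh, ext_of_mem _ _ (H.mul_mem hg hh), ← toAdd_mul,
      ← map_mul]
    rfl
  · constructor
    · intro hg
      refine ⟨ho.1 hg, ?_⟩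
      rw [ext_of_mem _ _ (ho.1 hg), (hφ ⟨g, ho.1 hg⟩).2 hg]
      rfl
    · rintro ⟨hg, h⟩
      rw [ext_of_mem _ _ hg] at h
      exact (hφ ⟨g, hg⟩).1 h
  · rw [ext_coe, hσ]
    rfl

theorem cycIdx {d : ℕ} {x : GQ → ZMod d} {σ : GQ} (h : Cyc H H' d x σ) : H'.relIndex H = d := by
  have : NeZero d := ⟨h.pos.ne'⟩
  let φ : H →* Multiplicative (ZMod d) :=
    { toFun := fun g => Multiplicative.ofAdd (x g)
      map_one' := congrArg Multiplicative.ofAdd h.map_one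
      map_mul' := fun g k => congrArg Multiplicative.ofAdd (h.add g g.2 k k.2) }
  have h1 : H'.subgroupOf H = φ.ker := by
    ext g
    exact (h.ker g).trans ⟨fun h => h.2, fun h => ⟨g.2, h⟩⟩
  have h2 : φ.range = ⊤ := by
    rw [MonoidHom.range_eq_top]
    intro t
    refine ⟨⟨σ ^ t.toAdd.val, H.pow_mem h.mem _⟩, ?_⟩
    show Multiplicative.ofAdd (x (σ ^ t.toAdd.val)) = t
    rw [h.map_pow h.mem, h.gen]
    simp
  rw [Subgroup.relIndex, h1, Subgroup.index_ker, h2]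
  simp

theorem cores {c : GQ → M} {Rr : Finset GQ} (ha : IsAct H a) (ho : OpenIn H' H)
    (hn : NormalIn H' H) (h1 : ∀ r ∈ Rr, r ∈ H) (h3 : ∀ g ∈ H, ∃! r, r ∈ Rr ∧ r⁻¹ * g ∈ H')
    (hc : Zo H' a c) : ∃ c', Zo H a c' ∧ ∀ h ∈ H', c' h = ∑ r ∈ Rr, a r (c (r⁻¹ * h * r)) := by
  obtain ⟨ρ, S⟩ := exists_sec ho.1 h1 h3
  have hn' : ∀ r ∈ H, ∀ h ∈ H', r⁻¹ * h * r ∈ H' := fun r hr h hh => by
    simpa using hn _ (H.inv_mem hr) h hh
  refine ⟨fun g => ∑ r ∈ Rr, a (ρ (g * r)) (c ((ρ (g * r))⁻¹ * (g * r))), ⟨?_, ?_⟩, ?_⟩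
  · obtain ⟨N₁, hN₁⟩ := hc.1
    obtain ⟨-, N₃, hN₃⟩ := ho
    refine ⟨N₁ ⊓ N₃, fun g hg n hn hN => sum_congr rfl fun r hr => ?_⟩
    have m1 := hn' r (h1 r hr) n (hN₃ n hn hN.2)
    have m2 := H.mul_mem hg (h1 r hr)
    have e : g * n * r = g * r * (r⁻¹ * n * r) := by group
    rw [e, S.mul m2 m1, ← mul_assoc, hN₁ _ (S.cos _ m2) _ m1 (ons_conj' N₁ hN.1 r)]
  · intro g hg k hk
    beta_reduce
    rw [← S.sum_perm hk fun r => a (ρ (g * r)) (c ((ρ (g * r))⁻¹ * (g * r))), map_sum,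
      ← sum_add_distrib]
    refine sum_congr rfl fun r hr => ?_
    have m1 := H.mul_mem hk (h1 r hr)
    have m2 := H.mul_mem hg (S.memH m1)
    have e1 : ρ (g * k * r) = ρ (g * ρ (k * r)) := by rw [S.mul_rho hg m1, mul_assoc]
    have e2 : (ρ (g * ρ (k * r)))⁻¹ * (g * k * r) =
        (ρ (g * ρ (k * r)))⁻¹ * (g * ρ (k * r)) * ((ρ (k * r))⁻¹ * (k * r)) := by group
    rw [e1, e2, hc.2 _ (S.cos _ m2) _ (S.cos _ m1), map_add,
      ← ha.mul _ (S.memH m2) _ (S.le (S.cos _ m2)), mul_inv_cancel_left, ha.mul g hg _ (S.memH m1)]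
  · intro h hh
    refine sum_congr rfl fun r hr => ?_
    have m1 := hn' r (h1 r hr) h hh
    rw [S.uniq _ (H.mul_mem (ho.1 hh) (h1 r hr)) r hr (by rwa [← mul_assoc]), mul_assoc]

end Coh1P

theorem coh1 : Coh1Stmt where
  trans := fun _ _ _ _ _ _ => Coh1P.trans
  transCop := fun _ _ _ _ _ _ _ _ => Coh1P.transCop
  conj := fun _ _ _ _ _ _ hf _ hg => Coh1P.conj hf hg
  ext := fun _ _ _ _ _ _ => Coh1P.ext
  cycEx := fun _ _ _ => Coh1P.cycEx
  cycIdx := fun _ _ _ _ _ => Coh1P.cycIdx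
  transv := fun _ _ => Coh1P.transv
  cores := fun _ _ _ _ _ _ _ => Coh1P.cores

end Pool.Agent.MP_59efd2_nt.lz

end
end MrgPart0

-- ======== part 1: formerly Pool.Agent.MP_59efd2_nt.lz.Cont
section MrgPart1

/-!
# Row CONT: continuity versus uniform smoothness
-/

noncomputable section

namespace Pool.Agent.MP_59efd2_nt.lz

open scoped Pointwise Classical

set_option linter.unusedSectionVars false

namespace ContP

lemma unif {X : Type} {H : Subgroup GQ} (hH : IsClosed (H : Set GQ)) (c : GQ → X)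
    (h : ∀ g ∈ H, ∃ N : ONS, ∀ k ∈ H, g⁻¹ * k ∈ N → c k = c g) : Sm1 H c := by
  have : Nonempty ONS := ⟨onsTop⟩
  choose! F hF using h
  have hc : IsCompact (H : Set GQ) := hH.isCompact
  obtain ⟨t, ht, hcov⟩ := hc.elim_nhds_subcover (fun g => {k | g⁻¹ * k ∈ F g}) (fun g _ => by
    have : IsOpen {k | g⁻¹ * k ∈ F g} :=
      (F g).toOpenSubgroup.isOpen.preimage (continuous_const_mul g⁻¹)
    exact this.mem_nhds (by simp))
  obtain ⟨N, hN⟩ := exists_ons_forall (fun (i : t) g => g ∈ F i) fun i => ⟨F i, fun _ h => h⟩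
  refine ⟨N, fun g hg n hn hnN => ?_⟩
  obtain ⟨i, hi, hgi⟩ := Set.mem_iUnion₂.1 (hcov hg)
  have h1 : i⁻¹ * g ∈ F i := hgi
  have h2 : i⁻¹ * (g * n) ∈ F i := by
    rw [← mul_assoc]; exact (F i).mul_mem h1 (hN ⟨i, hi⟩ n hnN)
  rw [hF i (ht i hi) _ (H.mul_mem hg hn) h2, hF i (ht i hi) g hg h1]

lemma lc {X : Type} (H : Subgroup GQ) (c : H → X) (x₀ : X) (hH : IsClosed (H : Set GQ))
    (hc : IsLocallyConstant c) : Sm1 H (ext H x₀ c) := by
  refine unif hH _ fun g hg => ?_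
  obtain ⟨U, hU, hUe⟩ := isOpen_induced_iff.1 (hc.isOpen_fiber (c ⟨g, hg⟩))
  have hgU : g ∈ U := by
    have : (⟨g, hg⟩ : H) ∈ Subtype.val ⁻¹' U := by rw [hUe]; rfl
    exact this
  obtain ⟨N, hN⟩ := exists_ons_of_isOpen (hU.preimage (continuous_const_mul g)) (by simpa using hgU)
  refine ⟨N, fun k hk hkN => ?_⟩
  have h1 : k ∈ U := by simpa using hN _ hkN
  have h2 : (⟨k, hk⟩ : H) ∈ Subtype.val ⁻¹' U := h1
  rw [hUe] at h2
  rw [ext_of_mem _ _ hk, ext_of_mem _ _ hg]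
  exact h2

lemma lc' {X : Type} (H : Subgroup GQ) (c : GQ → X) (hc : Sm1 H c) :
    IsLocallyConstant fun g : H => c g := by
  obtain ⟨N, hN⟩ := hc
  rw [IsLocallyConstant.iff_exists_open]
  intro g
  refine ⟨{k : H | (g : GQ)⁻¹ * k ∈ N}, N.toOpenSubgroup.isOpen.preimage
    ((continuous_const_mul _).comp continuous_subtype_val), by simp, fun k hk => ?_⟩
  have := hN g g.2 _ (H.mul_mem (H.inv_mem g.2) k.2) hk
  rwa [mul_inv_cancel_left] at this

lemma lcG {X : Type} (c : GQ → X) (hc : IsLocallyConstant c) : Sm1 ⊤ c := by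
  refine unif (by simp) _ fun g _ => ?_
  obtain ⟨N, hN⟩ := exists_ons_of_isOpen
    ((hc.isOpen_fiber (c g)).preimage (continuous_const_mul g)) (by simp)
  exact ⟨N, fun k _ hk => by simpa using hN _ hk⟩

variable (p : ℕ) [Fact p.Prime]

lemma lam (Y : Type) [TopologicalSpace Y] (c : Y → Lam p) :
    Continuous c ↔ ∀ n, IsLocallyConstant fun y => proj p n (c y) := by
  refine continuous_iInf_rng.trans (forall_congr' fun n => ?_)
  refine (continuous_induced_rng (t₂ := ⊥)).trans ?_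
  let _ : TopologicalSpace (LamN p n) := ⊥
  have _ : DiscreteTopology (LamN p n) := ⟨rfl⟩
  exact (IsLocallyConstant.iff_continuous fun y => proj p n (c y)).symm

lemma zp (Y : Type) [TopologicalSpace Y] (c : Y → ℤ_[p]) (hc : Continuous c) (n : ℕ) :
    IsLocallyConstant fun y => PadicInt.toZModPow n (c y) := by
  rw [IsLocallyConstant.iff_exists_open]
  intro y
  have hp : (0 : ℝ) < (p : ℝ) ^ (-n : ℤ) :=
    zpow_pos (Nat.cast_pos.2 (Fact.out : p.Prime).pos) _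
  refine ⟨c ⁻¹' Metric.ball (c y) ((p : ℝ) ^ (-n : ℤ)), Metric.isOpen_ball.preimage hc,
    Metric.mem_ball_self hp, fun k hk => ?_⟩
  have h1 : ‖c k - c y‖ ≤ (p : ℝ) ^ (-n : ℤ) := by
    have : dist (c k) (c y) < _ := hk
    rw [dist_eq_norm] at this
    exact this.le
  rw [PadicInt.norm_le_pow_iff_mem_span_pow, ← PadicInt.ker_toZModPow, RingHom.mem_ker, map_sub,
    sub_eq_zero] at h1
  exact h1

variable {p}

lemma rho (ρ : GQ →* GL (Fin 2) ℤ_[p]) (hρ : Continuous ρ) (n : ℕ) :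
    Sm1 ⊤ fun g => (ρ g : Matrix (Fin 2) (Fin 2) ℤ_[p]).map (PadicInt.toZModPow n) := by
  have h : ∀ ij : Fin 2 × Fin 2, Sm1 ⊤ fun g =>
      PadicInt.toZModPow n ((ρ g : Matrix (Fin 2) (Fin 2) ℤ_[p]) ij.1 ij.2) := fun ij =>
    lcG _ (zp p GQ _ ((Units.continuous_val.comp hρ).matrix_elem ij.1 ij.2) n)
  obtain ⟨N, hN⟩ := exists_ons_forall (fun (ij : Fin 2 × Fin 2) k => ∀ g,
      PadicInt.toZModPow n ((ρ (g * k) : Matrix (Fin 2) (Fin 2) ℤ_[p]) ij.1 ij.2) =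
      PadicInt.toZModPow n ((ρ g : Matrix (Fin 2) (Fin 2) ℤ_[p]) ij.1 ij.2))
    fun ij => (h ij).imp fun _ hN k hk g => hN g trivial k trivial hk
  refine ⟨N, fun g _ k _ hk => ?_⟩
  ext i j
  exact hN (i, j) k hk g

lemma proj_grp_chi (n : ℕ) (g : GQ) :
    proj p n (grp p (chi p g)⁻¹) = MonoidAlgebra.single (chiN p n g)⁻¹ 1 := by
  rw [proj_grp, map_inv]; rfl

lemma actN_apply (ρ : GQ →* GL (Fin 2) ℤ_[p]) (n : ℕ) (g : GQ) (v : Fin 2 → LamN p n) :
    actN ρ n g v = proj p n (grp p (chi p g)⁻¹) •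
      ((ρ g : Matrix (Fin 2) (Fin 2) ℤ_[p]).map ((proj p n).comp (cst p))).mulVec v := rfl

lemma isAct_actN (ρ : GQ →* GL (Fin 2) ℤ_[p]) (hρ : Continuous ρ) (n : ℕ) :
    IsAct ⊤ (actN ρ n) := by
  have h1 : ∀ m, actN ρ n 1 m = m := fun m => by
    rw [actN_apply]
    simp
  refine ⟨h1, fun g _ h _ m => ?_, fun m => ?_⟩
  · rw [actN_apply, actN_apply, actN_apply, map_mul ρ, Units.val_mul, Matrix.map_mul,
      Matrix.mulVec_smul, Matrix.mulVec_mulVec, smul_smul, map_mul, mul_inv, map_mul, map_mul]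
  · obtain ⟨N, hN⟩ := (rho ρ hρ n).comp₂ (sm1_chiN p ⊤ n) Prod.mk
    refine ⟨N, fun k _ hk => ?_⟩
    have h2 := hN 1 trivial k trivial hk
    rw [one_mul, Prod.mk.injEq] at h2
    have h3 : ∀ g : GQ, (ρ g : Matrix (Fin 2) (Fin 2) ℤ_[p]).map ((proj p n).comp (cst p)) =
        ((ρ g : Matrix (Fin 2) (Fin 2) ℤ_[p]).map (PadicInt.toZModPow n)).map
          (MonoidAlgebra.single 1) := fun g => rfl
    conv_rhs => rw [← h1 m]
    rw [actN_apply, actN_apply, h3, h3, h2.1, proj_grp_chi, proj_grp_chi, h2.2]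

lemma zG (ρ : GQ →* GL (Fin 2) ℤ_[p]) (c : GQ → Fin 2 → Lam p) (hc : c ∈ Z1 (actG ρ)) (n : ℕ) :
    Zo ⊤ (actN ρ n) fun g i => proj p n (c g i) := by
  refine ⟨?_, fun g _ h _ => ?_⟩
  · have h : ∀ i, Sm1 ⊤ fun g => proj p n (c g i) := fun i =>
      lcG _ ((lam p GQ _).1 ((continuous_apply i).comp hc.1) n)
    refine ((h 0).comp₂ (h 1) Prod.mk).imp fun N hN g hg k hk hkN => ?_
    have h2 := hN g hg k hk hkN
    rw [Prod.mk.injEq] at h2
    funext i
    fin_cases i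
    · exact h2.1
    · exact h2.2
  · beta_reduce
    rw [← proj_actG, hc.2 g h]
    funext i
    simp

lemma sc_of_mem (V : Pl) (δ : DG V →* ℤ_[p]ˣ) {g : GQ} (hg : g ∈ DG V) :
    sc V δ g = grp p (chi p g)⁻¹ * cst p (δ ⟨g, hg⟩) := ext_of_mem _ _ hg

lemma sc_one (V : Pl) (δ : DG V →* ℤ_[p]ˣ) : sc V δ 1 = 1 := by
  rw [sc_of_mem V δ (DG V).one_mem]
  have : δ ⟨1, (DG V).one_mem⟩ = 1 := map_one δ
  simp [this]

lemma sc_mul (V : Pl) (δ : DG V →* ℤ_[p]ˣ) {g h : GQ} (hg : g ∈ DG V) (hh : h ∈ DG V) :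
    sc V δ (g * h) = sc V δ g * sc V δ h := by
  rw [sc_of_mem V δ hg, sc_of_mem V δ hh, sc_of_mem V δ ((DG V).mul_mem hg hh)]
  have : δ ⟨g * h, (DG V).mul_mem hg hh⟩ = δ ⟨g, hg⟩ * δ ⟨h, hh⟩ := map_mul δ ⟨g, hg⟩ ⟨h, hh⟩
  rw [this, map_mul (chi p), mul_inv, map_mul, Units.val_mul, map_mul]
  ring

lemma sm1_delta (hv : ValStmt) (V : Pl) (δ : DG V →* ℤ_[p]ˣ) (hδ : Continuous δ) (n : ℕ) :
    Sm1 (DG V) (ext (DG V) 1 fun g => PadicInt.toZModPow n (δ g : ℤ_[p])) :=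
  lc _ _ _ (hv.dg_closed V) (zp p _ _ (Units.continuous_val.comp hδ) n)

lemma scN (hv : ValStmt) (V : Pl) (δ : DG V →* ℤ_[p]ˣ) (hδ : Continuous δ) (n : ℕ) :
    IsChar (DG V) fun g => proj p n (sc V δ g) := by
  refine ⟨by rw [sc_one, map_one], fun g hg h hh => by rw [sc_mul V δ hg hh, map_mul], ?_⟩
  refine ((sm1_delta hv V δ hδ n).comp₂ (sm1_chiN p _ n) Prod.mk).imp
    fun N hN g hg k hk hkN => ?_
  have h2 := hN g hg k hk hkN
  rw [Prod.mk.injEq, ext_of_mem _ _ hg, ext_of_mem _ _ ((DG V).mul_mem hg hk)] at h2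
  beta_reduce
  rw [sc_of_mem V δ hg, sc_of_mem V δ ((DG V).mul_mem hg hk), map_mul (proj p n),
    map_mul (proj p n), proj_grp_chi, proj_grp_chi, proj_cst, proj_cst, h2.1, h2.2]

lemma isChar_dbar (hv : ValStmt) (V : Pl) (δ : DG V →* ℤ_[p]ˣ) (hδ : Continuous δ) :
    IsChar (DG V) (dbar V δ) := by
  refine ⟨?_, fun g hg h hh => ?_, ?_⟩
  · rw [dbar, ext_of_mem _ _ (DG V).one_mem]
    have : δ ⟨1, (DG V).one_mem⟩ = 1 := map_one δ
    simp [this]
  · rw [dbar, ext_of_mem _ _ hg, ext_of_mem _ _ hh, ext_of_mem _ _ ((DG V).mul_mem hg hh)]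
    have : δ ⟨g * h, (DG V).mul_mem hg hh⟩ = δ ⟨g, hg⟩ * δ ⟨h, hh⟩ := map_mul δ ⟨g, hg⟩ ⟨h, hh⟩
    rw [this, Units.val_mul, map_mul]
  · refine (sm1_delta hv V δ hδ 1).imp fun N hN g hg k hk hkN => ?_
    have h2 := hN g hg k hk hkN
    rw [ext_of_mem _ _ hg, ext_of_mem _ _ ((DG V).mul_mem hg hk), ← e1_toZMod, ← e1_toZMod] at h2
    rw [dbar, ext_of_mem _ _ hg, ext_of_mem _ _ ((DG V).mul_mem hg hk)]
    exact (e1 p).injective h2

lemma zL (hv : ValStmt) (V : Pl) (δ : DG V →* ℤ_[p]ˣ) (c : DG V → Lam p) :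
    c ∈ Z1 (actL V δ) ↔ ∀ n, Zo (DG V) (mulAct fun g => proj p n (sc V δ g))
      fun g => proj p n (ext (DG V) 0 c g) := by
  constructor
  · intro hc n
    refine ⟨?_, fun g hg h hh => ?_⟩
    · refine (lc _ _ 0 (hv.dg_closed V) ((lam p _ _).1 hc.1 n)).imp fun N hN g hg k hk hkN => ?_
      have h2 := hN g hg k hk hkN
      rw [ext_of_mem _ _ hg, ext_of_mem _ _ ((DG V).mul_mem hg hk)] at h2
      beta_reduce
      rw [ext_of_mem _ _ hg, ext_of_mem _ _ ((DG V).mul_mem hg hk), h2]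
    · have := hc.2 ⟨g, hg⟩ ⟨h, hh⟩
      rw [actL_apply] at this
      beta_reduce
      rw [ext_of_mem _ _ hg, ext_of_mem _ _ hh, ext_of_mem _ _ ((DG V).mul_mem hg hh), mulAct_apply,
        ← map_mul, ← map_add]
      exact congrArg (proj p n) this
  · intro h
    refine ⟨(lam p _ _).2 fun n => ?_, fun g k => lam_ext p fun n => ?_⟩
    · simpa using lc' _ _ (h n).1
    · have := (h n).2 g g.2 k k.2
      beta_reduce at this
      rw [← Subgroup.coe_mul, ext_coe, ext_coe, ext_coe, mulAct_apply] at this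
      rw [this, actL_apply, map_add, map_mul]

lemma isAct_chiAct (H : Subgroup GQ) (n : ℕ) : IsAct H (chiAct p n) := by
  refine IsChar.isAct ⟨by simp [MonoidAlgebra.one_def], fun g _ h _ => ?_,
    (sm1_chiN p H n).comp fun u => MonoidAlgebra.single 1 (u : ZMod (p ^ n))⟩
  rw [MonoidAlgebra.single_mul_single, map_mul, Units.val_mul, mul_one]

end ContP

theorem cont (hv : ValStmt) : ContStmt where
  lc _ H c x₀ hH hc := ContP.lc H c x₀ hH hc
  lc' _ H c hc := ContP.lc' H c hc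
  lcG _ c hc := ContP.lcG c hc
  lam p _ Y _ c := ContP.lam p Y c
  zp p _ Y _ c hc n := ContP.zp p Y c hc n
  rho _ _ ρ hρ n := ContP.rho ρ hρ n
  actN _ _ ρ hρ n := ContP.isAct_actN ρ hρ n
  zG _ _ ρ c hc n := ContP.zG ρ c hc n
  scN _ _ V δ hδ n := ContP.scN hv V δ hδ n
  dbar _ _ V δ hδ := ContP.isChar_dbar hv V δ hδ
  zL _ _ V δ c := ContP.zL hv V δ c
  chiAct _ _ H n := ContP.isAct_chiAct H n

end Pool.Agent.MP_59efd2_nt.lz

end
end MrgPart1

-- ======== part 2: formerly Pool.Agent.MP_59efd2_nt.lz.Su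
section MrgPart2

/-!
# Row SU: Dirichlet's theorem for `S`-units, modulo `r`-th powers
-/

noncomputable section

namespace Pool.Agent.MP_59efd2_nt.lz

open scoped Pointwise Classical nonZeroDivisors
open NumberField IsDedekindDomain

namespace SuP

/-- `|M / n M| = n ^ rank * |M[n]|` for a finitely generated abelian group. -/
lemma index_nsmul (M : Type) [AddCommGroup M] [Module.Finite ℤ M] (n : ℕ) (hn : n ≠ 0) :
    (nsmulAddMonoidHom (α := M) n).range.index =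
      n ^ Module.finrank ℤ M * Nat.card (nsmulAddMonoidHom (α := M) n).ker := by
  set T : Submodule ℤ M := Submodule.torsion ℤ M with hT
  have hfin : Finite T := Module.finite_of_fg_torsion T (Submodule.torsion_isTorsion)
  set A : AddSubgroup M := (nsmulAddMonoidHom (α := M) n).range with hA
  let π : M →+ M ⧸ T := T.mkQ.toAddMonoidHom
  have hπ : Function.Surjective π := T.mkQ_surjective
  have hker : π.ker = T.toAddSubgroup := by
    ext x
    simp [π]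
  have h1 : A.map π = (nsmulAddMonoidHom (α := M ⧸ T) n).range := by
    ext y
    constructor
    · rintro ⟨_, ⟨x, rfl⟩, rfl⟩
      exact ⟨π x, by simp⟩
    · rintro ⟨y, rfl⟩
      obtain ⟨x, rfl⟩ := hπ y
      exact ⟨n • x, ⟨x, rfl⟩, by simp⟩
  have h2 : (A ⊔ T.toAddSubgroup).index = n ^ Module.finrank ℤ M := by
    have := AddSubgroup.index_map A π
    rw [h1, AddSubgroup.index_range_nsmul, hker, AddMonoidHom.range_eq_top.2 hπ,
      AddSubgroup.index_top, mul_one, finrank_quotient_eq_of_le_torsion le_rfl] at this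
    exact this.symm
  have h3 : A.addSubgroupOf T.toAddSubgroup =
      (nsmulAddMonoidHom (α := T.toAddSubgroup) n).range := by
    ext y
    constructor
    · rintro ⟨x, hx⟩
      have hx' : n • x = (y : M) := hx
      obtain ⟨a, ha⟩ := y.2
      have hxT : x ∈ T := ⟨a * ⟨n, mem_nonZeroDivisors_of_ne_zero (Int.natCast_ne_zero.2 hn)⟩, by
        rw [mul_smul]
        change a • ((n : ℤ) • x) = 0
        rw [natCast_zsmul, hx']
        exact ha⟩
      exact ⟨⟨x, hxT⟩, Subtype.ext hx'⟩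
    · rintro ⟨x, rfl⟩
      exact ⟨x, rfl⟩
  have h4 : Nat.card (nsmulAddMonoidHom (α := T.toAddSubgroup) n).ker =
      Nat.card (nsmulAddMonoidHom (α := M) n).ker := by
    refine Nat.card_congr ⟨fun x => ⟨x.1.1, congrArg Subtype.val x.2⟩,
      fun x => ⟨⟨x.1, ⟨⟨n, mem_nonZeroDivisors_of_ne_zero (Int.natCast_ne_zero.2 hn)⟩, ?_⟩⟩,
        Subtype.ext x.2⟩, fun _ => rfl, fun _ => rfl⟩
    change (n : ℤ) • (x.1 : M) = 0
    rw [natCast_zsmul]
    exact x.2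
  have hfin' : Finite T.toAddSubgroup := hfin
  rw [← AddSubgroup.relIndex_mul_index (le_sup_left : A ≤ A ⊔ T.toAddSubgroup), h2,
    AddSubgroup.relIndex_sup_left, AddSubgroup.relIndex, h3, AddSubgroup.index_range, h4, mul_comm]

lemma pw_eq {Γ : Type} [CommGroup Γ] (B : Subgroup Γ) [Module.Finite ℤ (Additive B)] (r : ℕ)
    (hr : r ≠ 0) : pw r B = r ^ Module.finrank ℤ (Additive B) * tor r B := by
  have h := index_nsmul (Additive B) r hr
  have h1 : (nsmulAddMonoidHom (α := Additive B) r).range =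
      Subgroup.toAddSubgroup (powMonoidHom r : B →* B).range := by
    ext y
    exact ⟨fun ⟨x, hx⟩ => ⟨x.toMul, hx⟩, fun ⟨x, hx⟩ => ⟨Additive.ofMul x, hx⟩⟩
  have h2 : Nat.card (nsmulAddMonoidHom (α := Additive B) r).ker = tor r B :=
    Nat.card_congr ⟨fun x => ⟨x.1.toMul.1, x.1.toMul.2, congrArg Subtype.val x.2⟩,
      fun x => ⟨Additive.ofMul ⟨x.1, x.2.1⟩, Subtype.ext x.2.2⟩, fun _ => rfl, fun _ => rfl⟩
  rw [h1, Subgroup.index_toAddSubgroup, h2] at h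
  rw [pw, Subgroup.relIndex, Subgroup.subgroupOf_map_powMonoidHom_eq_range, h]

section SUnits

variable {K : Type} [Field K] [NumberField K] (S : Finset (HeightOneSpectrum (𝓞 K)))

/-- The valuations at the places of `S`. -/
def lg : Additive ((S : Set (HeightOneSpectrum (𝓞 K))).unit K) →ₗ[ℤ] (S → ℤ) :=
  AddMonoidHom.toIntLinearMap
    { toFun := fun x v => (v.1.valuationOfNeZero (K := K) (x.toMul : Kˣ)).toAdd
      map_zero' := funext fun v => by simp
      map_add' := fun x y => funext fun v => by simp }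

lemma lg_eq_zero (x : Additive ((S : Set (HeightOneSpectrum (𝓞 K))).unit K)) (v : S) :
    lg S x v = 0 ↔ v.1.valuation K ((x.toMul : Kˣ) : K) = 1 := by
  rw [← HeightOneSpectrum.valuationOfNeZero_eq, ← WithZero.coe_one, WithZero.coe_inj]
  exact toAdd_eq_zero

/-- Units are `S`-units. -/
def un : Additive (𝓞 K)ˣ →ₗ[ℤ] Additive ((S : Set (HeightOneSpectrum (𝓞 K))).unit K) :=
  AddMonoidHom.toIntLinearMap (MonoidHom.toAdditive
    (MonoidHom.codRestrict (Units.map (algebraMap (𝓞 K) K : 𝓞 K →* K))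
      ((S : Set (HeightOneSpectrum (𝓞 K))).unit K) fun x v _ => by
        rw [← HeightOneSpectrum.valuationOfNeZero_eq, HeightOneSpectrum.valuation_of_unit_eq]
        rfl))

lemma un_coe (x : Additive (𝓞 K)ˣ) :
    (((un S x).toMul : Kˣ) : K) = algebraMap (𝓞 K) K (x.toMul : (𝓞 K)ˣ) := rfl

lemma un_inj : Function.Injective (un S) := fun x y h => by
  have h1 := un_coe S x
  rw [h, un_coe] at h1
  exact Additive.toMul.injective (Units.ext (RingOfIntegers.coe_injective h1).symm)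

lemma range_un : LinearMap.range (un S) = LinearMap.ker (lg S) := by
  ext x
  constructor
  · rintro ⟨y, rfl⟩
    refine funext fun v => (lg_eq_zero S _ v).2 ?_
    have := v.1.valuation_of_unit_eq (K := K) y.toMul
    rw [← WithZero.coe_inj, HeightOneSpectrum.valuationOfNeZero_eq] at this
    exact this
  · intro hx
    have h1 : ∀ v : HeightOneSpectrum (𝓞 K), v.valuation K ((x.toMul : Kˣ) : K) = 1 := fun v => by
      by_cases hv : v ∈ S
      · exact (lg_eq_zero S x ⟨v, hv⟩).1 (congrFun hx _)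
      · exact x.toMul.2 v hv
    obtain ⟨a, ha⟩ := HeightOneSpectrum.mem_integers_of_valuation_le_one K _ fun v => (h1 v).le
    obtain ⟨b, hb⟩ := HeightOneSpectrum.mem_integers_of_valuation_le_one (R := 𝓞 K) K
      (((x.toMul : Kˣ) : K)⁻¹) fun v => by rw [map_inv₀, h1 v, inv_one]
    have hab : a * b = 1 := RingOfIntegers.coe_injective (by
      rw [map_mul, ha, hb, map_one, mul_inv_cancel₀ (Units.ne_zero _)])
    refine ⟨Additive.ofMul (Units.mkOfMulEqOne a b hab), ?_⟩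
    exact Additive.toMul.injective (Subtype.ext (Units.ext ha))

lemma exists_gen (v : S) : ∃ (c : ℤ) (x : Additive ((S : Set (HeightOneSpectrum (𝓞 K))).unit K)),
    c ≠ 0 ∧ lg S x = Pi.single v c := by
  have p0 : v.1.asIdeal ∈ (Ideal (𝓞 K))⁰ := mem_nonZeroDivisors_of_ne_zero v.1.ne_bot
  set h := Nat.card (ClassGroup (𝓞 K)) with hh
  have h0 : h ≠ 0 := Nat.card_pos.ne'
  have pI : v.1.asIdeal ^ h ∈ (Ideal (𝓞 K))⁰ := pow_mem p0 h
  have one : ClassGroup.mk0 ⟨_, pI⟩ = 1 := by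
    have : (⟨_, pI⟩ : (Ideal (𝓞 K))⁰) = ⟨_, p0⟩ ^ h := rfl
    rw [this, map_pow, pow_card_eq_one']
  obtain ⟨π, hπ⟩ := (ClassGroup.mk0_eq_one_iff pI).1 one
  have hπ' : v.1.asIdeal ^ h = Ideal.span {π} := hπ
  have π0 : algebraMap (𝓞 K) K π ≠ 0 := by
    rw [map_ne_zero_iff _ RingOfIntegers.coe_injective]
    rintro rfl
    exact nonZeroDivisors.ne_zero pI (by simpa using hπ')
  have hw : ∀ w : HeightOneSpectrum (𝓞 K), w ≠ v.1 → w.valuation K (algebraMap (𝓞 K) K π) = 1 := by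
    intro w hw
    rw [HeightOneSpectrum.valuation_eq_one_iff_notMem]
    intro hm
    have hle : v.1.asIdeal ^ h ≤ w.asIdeal :=
      hπ'.le.trans ((Ideal.span_singleton_le_iff_mem _).2 hm)
    have h2 := (Ideal.IsPrime.pow_le_iff (hP := w.isPrime) h0).1 hle
    exact hw (HeightOneSpectrum.ext (v.1.isMaximal.eq_of_le w.isPrime.ne_top h2).symm)
  let x : Additive ((S : Set (HeightOneSpectrum (𝓞 K))).unit K) :=
    Additive.ofMul ⟨Units.mk0 _ π0, fun w hwS => hw w fun e => hwS (e ▸ v.2)⟩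
  refine ⟨lg S x v, x, fun e => ?_, funext fun w => ?_⟩
  · have h1 : v.1.valuation K (algebraMap (𝓞 K) K π) = 1 := (lg_eq_zero S x v).1 e
    rw [HeightOneSpectrum.valuation_eq_one_iff_notMem] at h1
    exact h1 (Ideal.pow_le_self h0 (hπ'.ge (Ideal.mem_span_singleton_self π)))
  · by_cases e : w = v
    · rw [e, Pi.single_eq_same]
    · rw [Pi.single_eq_of_ne e]
      exact (lg_eq_zero S x w).2 (hw w.1 fun e' => e (Subtype.ext e'))

lemma finite_unit : Module.Finite ℤ (Additive ((S : Set (HeightOneSpectrum (𝓞 K))).unit K)) := by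
  rw [Module.finite_def]
  refine Submodule.fg_of_fg_map_of_fg_inf_ker (lg S) (IsNoetherian.noetherian _) ?_
  rw [top_inf_eq, ← range_un, LinearMap.range_eq_map]
  exact Submodule.FG.map _ Module.Finite.fg_top

lemma finrank_unit : Module.finrank ℤ (Additive ((S : Set (HeightOneSpectrum (𝓞 K))).unit K)) =
    S.card + Units.rank K := by
  have := finite_unit S
  have h1 := (LinearMap.ker (lg S)).finrank_quotient_add_finrank
  rw [(lg S).quotKerEquivRange.finrank_eq, ← range_un, LinearMap.finrank_range_of_inj (un_inj S),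
    Units.finrank_eq] at h1
  have h2 : Module.finrank ℤ (LinearMap.range (lg S)) = S.card := by
    refine le_antisymm ((Submodule.finrank_le _).trans (by simp)) ?_
    choose c x hc hx using exists_gen S
    have li : LinearIndependent ℤ fun v : S =>
        (⟨lg S (x v), x v, rfl⟩ : LinearMap.range (lg S)) := by
      refine LinearIndependent.of_comp (LinearMap.range (lg S)).subtype ?_
      have : ((LinearMap.range (lg S)).subtype ∘ fun v : S =>
          (⟨lg S (x v), x v, rfl⟩ : LinearMap.range (lg S))) =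
          fun v : S => (Pi.single v (c v) : S → ℤ) := funext hx
      rw [this]
      exact Pi.linearIndependent_single_of_ne_zero hc
    simpa using li.fintype_card_le_finrank
  rw [← h1, h2]

end SUnits

variable (K : IntermediateField ℚ Qb)

/-- The ring of integers inside `Qb`. -/
def emb : 𝓞 K →+* Qb := (algebraMap K Qb).comp (algebraMap (𝓞 K) K)

lemma emb_inj : Function.Injective (emb K) :=
  (algebraMap K Qb).injective.comp RingOfIntegers.coe_injective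

variable {K}

lemma emb_le (hv : ValStmt) (W : Pl) (x : 𝓞 K) : W.valuation (emb K x) ≤ 1 :=
  (W.valuation_le_one_iff _).2 (hv.integral W _
    ((RingOfIntegers.isIntegral_coe x).map (IsScalarTower.toAlgHom ℤ K Qb)))

variable (K)

/-- The centre of a place. -/
def ctr (hv : ValStmt) (W : Pl) : Ideal (𝓞 K) where
  carrier := {x | W.valuation (emb K x) < 1}
  add_mem' := fun {a b} ha hb => by
    simpa only [Set.mem_ofPred_eq, map_add] using W.valuation.map_add_lt ha hb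
  zero_mem' := by simp
  smul_mem' := fun c x hx => by
    simpa only [Set.mem_ofPred_eq, smul_eq_mul, map_mul] using
      mul_lt_one_of_nonneg_of_lt_one_right (emb_le hv W c) zero_le hx

variable {K}

lemma not_mem_ctr {hv : ValStmt} {W : Pl} {x : 𝓞 K} :
    x ∉ ctr K hv W ↔ W.valuation (emb K x) = 1 :=
  ⟨fun h => le_antisymm (emb_le hv W x) (not_lt.1 h), fun h h' => absurd h (ne_of_lt h')⟩

lemma ctr_prime (hv : ValStmt) (W : Pl) : (ctr K hv W).IsPrime := by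
  refine ⟨(Ideal.ne_top_iff_one _).2 (not_mem_ctr.2 (by simp)), fun {x y} h => ?_⟩
  by_contra hc
  rw [not_or, not_mem_ctr, not_mem_ctr] at hc
  exact not_mem_ctr.2 (by rw [map_mul, map_mul, hc.1, hc.2, one_mul]) h

lemma ctr_ne (hv : ValStmt) {W : Pl} (hW : W ≠ ⊤) : ctr K hv W ≠ ⊥ := by
  obtain ⟨l, hl, h⟩ := hv.above_ex W hW
  refine (Submodule.ne_bot_iff _).2 ⟨l, ?_, Nat.cast_ne_zero.2 hl.ne_zero⟩
  change W.valuation (emb K l) < 1
  rwa [map_natCast]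

variable [NumberField K]

lemma mem_iff (hv : ValStmt) {W : Pl} {v : HeightOneSpectrum (𝓞 K)}
    (h : v.asIdeal = ctr K hv W) (x : K) : (x : Qb) ∈ W ↔ v.valuation K x ≤ 1 := by
  obtain ⟨n, d, hnd⟩ := v.exists_primeCompl_mul_eq_or_mul_eq (K := K) x
  have dW : W.valuation (emb K d) = 1 := (not_mem_ctr (hv := hv)).1 (h ▸ d.2)
  have dv : v.valuation K (algebraMap (𝓞 K) K d) = 1 :=
    (v.valuation_eq_one_iff_notMem (K := K)).2 d.2
  rcases hnd with e | e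
  · have e' : (x : Qb) * emb K d = emb K n := by simpa using! congrArg (algebraMap K Qb) e
    have k1 := emb_le hv W n
    rw [← e', map_mul, dW, mul_one, W.valuation_le_one_iff] at k1
    have k2 : v.valuation K (algebraMap (𝓞 K) K n) ≤ 1 := v.valuation_le_one (K := K) n
    rw [← e, map_mul, dv, mul_one] at k2
    exact iff_of_true k1 k2
  · have e' : (x : Qb) * emb K n = emb K d := by simpa using! congrArg (algebraMap K Qb) e
    rw [← e', map_mul] at dW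
    rw [← e, map_mul] at dv
    have k1 : (x : Qb) ∈ W ↔ n ∉ ctr K hv W := by
      rw [← W.valuation_le_one_iff, not_mem_ctr]
      refine ⟨fun hx => eq_one_of_one_le_mul_right hx (emb_le hv W n) dW.ge, fun hn => ?_⟩
      rw [hn, mul_one] at dW
      exact dW.le
    have k2 : v.valuation K x ≤ 1 ↔ n ∉ v.asIdeal := by
      rw [← v.valuation_eq_one_iff_notMem (K := K)]
      refine ⟨fun hx => eq_one_of_one_le_mul_right hx (v.valuation_le_one n) dv.ge, fun hn => ?_⟩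
      rw [hn, mul_one] at dv
      exact dv.le
    rw [k1, k2, h]

lemma one_iff (hv : ValStmt) {W : Pl} {v : HeightOneSpectrum (𝓞 K)}
    (h : v.asIdeal = ctr K hv W) (x : K) (hx : x ≠ 0) :
    W.valuation (x : Qb) = 1 ↔ v.valuation K x = 1 := by
  have h1 := mem_iff hv h x
  have h2 := mem_iff hv h x⁻¹
  have x0 : (x : Qb) ≠ 0 := by simpa using hx
  rw [← W.valuation_le_one_iff] at h1 h2
  rw [IntermediateField.coe_inv, map_inv₀, map_inv₀,
    inv_le_one₀ (zero_lt_iff.2 ((map_ne_zero _).2 x0)),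
    inv_le_one₀ (zero_lt_iff.2 ((map_ne_zero _).2 hx))] at h2
  rw [le_antisymm_iff, le_antisymm_iff, h1, h2]

lemma exists_place (hv : ValStmt) (v : HeightOneSpectrum (𝓞 K)) :
    ∃ W : Pl, W ≠ ⊤ ∧ v.asIdeal = ctr K hv W := by
  let f := (emb K).rangeRestrict
  have hf : Function.Bijective f :=
    ⟨fun a b h => emb_inj K (congrArg (fun t : (emb K).range => (t : Qb)) h),
      (emb K).rangeRestrict_surjective⟩
  have hI : v.asIdeal.map f ≠ ⊤ := fun h =>
    v.isPrime.ne_top ((Ideal.map_eq_top_of_bijective f hf).1 h)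
  obtain ⟨W, -, hW⟩ := Ideal.image_subset_nonunits_valuationSubring _ hI
  have hle : v.asIdeal ≤ ctr K hv W := fun x hx =>
    W.mem_nonunits_iff.1 (hW ⟨f x, Ideal.mem_map_of_mem f hx, rfl⟩)
  refine ⟨W, ?_, v.isMaximal.eq_of_le (ctr_prime hv W).ne_top hle⟩
  rintro rfl
  obtain ⟨a, ha, h0⟩ := (Submodule.ne_bot_iff _).1 v.ne_bot
  exact not_mem_ctr.2 (hv.top_one _ ((map_ne_zero_iff _ (emb_inj K)).2 h0)) (hle ha)

end SuP

open SuP in
theorem su (hv : ValStmt) (hp : PlcStmt) (_hd : DensStmt) : SuStmt := by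
  intro U R r hU hTC hR hr
  set K : IntermediateField ℚ Qb := IntermediateField.fixedField U with hK
  have h2 : K.fixingSubgroup = U := InfiniteGalois.fixingSubgroup_fixedField (k := ℚ) (K := Qb)
      ⟨U, U.isClosed_of_isOpen hU.isOpen⟩
  have hfin : FiniteDimensional ℚ K := by
    rw [← InfiniteGalois.isOpen_iff_finite, h2]
    exact hU.isOpen
  have hN : NumberField K := ⟨⟩
  have hdeg : Module.finrank ℚ K = U.index := by
    rw [IntermediateField.finrank_eq_fixingSubgroup_index, h2]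
  have hreal : InfinitePlace.nrRealPlaces K = 0 := by
    obtain ⟨n, ζ, hn, hζ, hfix⟩ := hTC
    have : IsPrimitiveRoot (⟨ζ, (isFix_iff U ζ).1 hfix⟩ : K) n :=
      IsPrimitiveRoot.of_map_of_injective (f := algebraMap K Qb) hζ (algebraMap K Qb).injective
    exact InfinitePlace.IsPrimitiveRoot.nrRealPlaces_eq_zero_of_two_lt hn this
  have hidx : U.index = 2 * InfinitePlace.nrComplexPlaces K := by
    rw [← hdeg, ← InfinitePlace.card_add_two_mul_card_eq_rank, hreal, zero_add]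
  have hrank : Units.rank K + 1 = U.index / 2 := by
    have h1 := InfinitePlace.card_eq_nrRealPlaces_add_nrComplexPlaces K
    have h3 : 0 < Fintype.card (InfinitePlace K) := Fintype.card_pos
    rw [Units.rank]
    omega
  refine ⟨⟨_, hidx.trans (two_mul _)⟩, ?_⟩
  have fixe : ∀ x : 𝓞 K, IsFix U (emb K x) := fun x => (isFix_iff U _).2 (x : K).2
  let c : R → HeightOneSpectrum (𝓞 K) := fun V =>
    ⟨ctr K hv V.1, ctr_prime hv V.1, ctr_ne hv (hR.1 V.1 V.2)⟩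
  have conj : ∀ (V W : Pl) (v : HeightOneSpectrum (𝓞 K)), v.asIdeal = ctr K hv V →
      v.asIdeal = ctr K hv W → ∃ u ∈ U, W = u • V := fun V W v h1 h3 =>
    hp.trans U V W hU fun x hx =>
      (mem_iff hv h1 ⟨x, (isFix_iff U x).1 hx⟩).trans
        (mem_iff hv h3 ⟨x, (isFix_iff U x).1 hx⟩).symm
  have cinj : Function.Injective c := fun V W h => by
    obtain ⟨u, hu, e⟩ := conj V.1 W.1 (c V) rfl (congrArg HeightOneSpectrum.asIdeal h)
    exact Subtype.ext (hR.2 V.1 V.2 W.1 W.2 u hu e.symm)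
  set S : Finset (HeightOneSpectrum (𝓞 K)) := Finset.univ.image c with hS
  have hcard : S.card = R.card := by
    rw [hS, Finset.card_image_of_injective _ cinj]
    simp
  have sat : ∀ (W : Pl) (v : HeightOneSpectrum (𝓞 K)), v.asIdeal = ctr K hv W →
      (W ∈ Sat U R ↔ v ∈ S) := by
    intro W v h
    constructor
    · rintro ⟨V, hV, u, hu, rfl⟩
      refine Finset.mem_image.2 ⟨⟨V, hV⟩, Finset.mem_univ _, HeightOneSpectrum.ext ?_⟩
      rw [h]
      ext x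
      have := hv.smul_lt V u (emb K x)
      rw [fixe x u hu] at this
      exact this.symm
    · intro hm
      obtain ⟨V, -, e⟩ := Finset.mem_image.1 hm
      obtain ⟨u, hu, e'⟩ := conj V.1 W v (e ▸ rfl) h
      exact ⟨V.1, V.2, u, hu, e'⟩
  let j : Kˣ →* Qbˣ := Units.map (algebraMap K Qb : K →* Qb)
  have jinj : Function.Injective j := Units.map_injective (algebraMap K Qb).injective
  have hE : ES U (Sat U R) = ((S : Set (HeightOneSpectrum (𝓞 K))).unit K).map j := by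
    ext e
    constructor
    · rintro ⟨e1, e2⟩
      let x : K := ⟨e, (isFix_iff U _).1 e1⟩
      have x0 : x ≠ 0 := fun h => e.ne_zero (congrArg Subtype.val h)
      refine ⟨Units.mk0 x x0, fun v hvS => ?_, Units.ext rfl⟩
      obtain ⟨W, -, hW⟩ := exists_place hv v
      exact (one_iff hv hW x x0).1 (e2 W fun h => hvS ((sat W v hW).1 h))
    · rintro ⟨x, hx, rfl⟩
      refine ⟨(isFix_iff U _).2 (x : K).2, fun W hW => ?_⟩
      by_cases hT : W = ⊤
      · rw [hT]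
        exact hv.top_one _ (Units.ne_zero _)
      · let v : HeightOneSpectrum (𝓞 K) := ⟨ctr K hv W, ctr_prime hv W, ctr_ne hv hT⟩
        exact (one_iff hv (v := v) rfl x x.ne_zero).2 (hx v fun h => hW ((sat W v rfl).2 h))
  have e : Additive ((S : Set (HeightOneSpectrum (𝓞 K))).unit K) ≃ₗ[ℤ]
      Additive (((S : Set (HeightOneSpectrum (𝓞 K))).unit K).map j) :=
    (MulEquiv.toAdditive (Subgroup.equivMapOfInjective
      ((S : Set (HeightOneSpectrum (𝓞 K))).unit K) j jinj)).toIntLinearEquiv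
  have := finite_unit S
  have hF := Module.Finite.equiv e
  rw [hE, pw_eq _ r hr.ne_zero, ← e.finrank_eq, finrank_unit, hcard, ← hrank, ← add_assoc,
    pow_succ]
  ring

end Pool.Agent.MP_59efd2_nt.lz

end
end MrgPart2

-- ======== part 3: formerly Pool.Agent.MP_59efd2_nt.lz.Tset
section MrgPart3

/-!
# Row TSET: Chevalley's auxiliary set of primes
-/

noncomputable section

namespace Pool.Agent.MP_59efd2_nt.lz

open scoped Pointwise Classical
open Additive Finset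

namespace TsetP

variable (p : ℕ) [Fact p.Prime]

lemma exists_rt (e : Qbˣ) : ∃ w : Qbˣ, w ^ p = e := by
  have hp : p.Prime := Fact.out
  obtain ⟨z, hz⟩ := IsAlgClosed.exists_pow_nat_eq (e : Qb) hp.pos
  have h0 : z ≠ 0 := by
    rintro rfl
    rw [zero_pow hp.ne_zero] at hz
    exact e.ne_zero hz.symm
  exact ⟨Units.mk0 z h0, Units.ext (by simpa using hz)⟩

/-- a chosen `p`-th root -/
def rt (e : Qbˣ) : Qbˣ := (exists_rt p e).choose

lemma rt_pow (e : Qbˣ) : rt p e ^ p = e := (exists_rt p e).choose_spec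

/-- the Kummer character -/
def kap (e : Qbˣ) (g : GQ) : ZMod p :=
  Function.invFun (iot1 p) (ofMul (sU g (rt p e) / rt p e))

variable {p} {H : Subgroup GQ} {e e' : Qbˣ} {g h : GQ}

lemma fix_root (hz : IsFix H (zt p 1)) (hg : g ∈ H) {u : Qbˣ} (hu : u ^ p = 1) : sU g u = u := by
  obtain ⟨t, ht⟩ := exists_iot1 p hu
  have := aU_iot1 p g t
  rw [(om_eq_one_iff p g).2 (hz g hg), one_mul, ht] at this
  exact this

omit [Fact p.Prime] in
lemma quot_pow (he : e ∈ fixU H) (hg : g ∈ H) {w : Qbˣ} (hw : w ^ p = e) :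
    (sU g w / w) ^ p = 1 := by
  rw [div_pow, ← map_pow, hw, (Units.ext (he g hg) : sU g e = e), div_self']

lemma kap_spec (hz : IsFix H (zt p 1)) (he : e ∈ fixU H) (hg : g ∈ H) {w : Qbˣ}
    (hw : w ^ p = e) : iot1 p (kap p e g) = ofMul (sU g w / w) := by
  have h2 : iot1 p (kap p e g) = ofMul (sU g (rt p e) / rt p e) :=
    Function.invFun_eq (exists_iot1 p (quot_pow he hg (rt_pow p e)))
  have h3 : sU g (w / rt p e) = w / rt p e :=
    fix_root hz hg (by rw [div_pow, hw, rt_pow, div_self'])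
  rw [map_div, div_eq_div_iff_mul_eq_mul] at h3
  rw [h2]
  congr 1
  rw [div_eq_div_iff_mul_eq_mul, h3, mul_comm]

lemma kap_mul (hz : IsFix H (zt p 1)) (he : e ∈ fixU H) (he' : e' ∈ fixU H) (hg : g ∈ H) :
    kap p (e * e') g = kap p e g + kap p e' g := by
  apply iot1_injective p
  rw [map_add, kap_spec hz he hg (rt_pow p e), kap_spec hz he' hg (rt_pow p e'),
    kap_spec hz ((fixU H).mul_mem he he') hg (w := rt p e * rt p e')
      (by rw [mul_pow, rt_pow, rt_pow]), ← ofMul_mul, map_mul, mul_div_mul_comm]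

lemma kap_add (hz : IsFix H (zt p 1)) (he : e ∈ fixU H) (hg : g ∈ H) (hh : h ∈ H) :
    kap p e (g * h) = kap p e g + kap p e h := by
  apply iot1_injective p
  have h1 := fix_root hz hg (quot_pow he hh (rt_pow p e))
  rw [map_div] at h1
  rw [map_add, kap_spec hz he hg (rt_pow p e), kap_spec hz he hh (rt_pow p e),
    kap_spec hz he (H.mul_mem hg hh) (rt_pow p e), ← ofMul_mul, sU_mul, ← h1, mul_comm,
    div_mul_div_cancel]

lemma kap_eq_zero (hz : IsFix H (zt p 1)) (he : e ∈ fixU H) (hg : g ∈ H) :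
    kap p e g = 0 ↔ g (rt p e : Qb) = rt p e := by
  rw [← (iot1_injective p).eq_iff, map_zero, kap_spec hz he hg (rt_pow p e), ← ofMul_one,
    ofMul.injective.eq_iff, div_eq_one, ← Units.val_inj, coe_sU]

lemma kap_one_right (hz : IsFix H (zt p 1)) (he : e ∈ fixU H) : kap p e 1 = 0 :=
  (kap_eq_zero hz he H.one_mem).2 rfl

lemma kap_one_left (hz : IsFix H (zt p 1)) (hg : g ∈ H) : kap p 1 g = 0 := by
  have := kap_mul hz (fixU H).one_mem (fixU H).one_mem hg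
  rw [mul_one] at this
  exact left_eq_add.1 this

lemma kap_pow_right (hz : IsFix H (zt p 1)) (he : e ∈ fixU H) (hg : g ∈ H) (i : ℕ) :
    kap p e (g ^ i) = i * kap p e g := by
  induction i with
  | zero => simp [kap_one_right hz he]
  | succ i ih => rw [pow_succ, kap_add hz he (H.pow_mem hg i) hg, ih]; push_cast; ring

lemma kap_pow_left (hz : IsFix H (zt p 1)) (he : e ∈ fixU H) (hg : g ∈ H) (i : ℕ) :
    kap p (e ^ i) g = i * kap p e g := by
  induction i with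
  | zero => simp [kap_one_left hz hg]
  | succ i ih => rw [pow_succ, kap_mul hz ((fixU H).pow_mem he i) he hg, ih]; push_cast; ring

lemma kap_conj (hz : IsFix H (zt p 1)) (he : e ∈ fixU H) (hg : g ∈ H) (hh : h ∈ H) :
    kap p e (h⁻¹ * g * h) = kap p e g := by
  have h1 := kap_add hz he (H.inv_mem hh) hh
  rw [inv_mul_cancel, kap_one_right hz he] at h1
  rw [kap_add hz he (H.mul_mem (H.inv_mem hh) hg) hh, kap_add hz he (H.inv_mem hh) hg]
  linear_combination -h1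

lemma kap_div (hz : IsFix H (zt p 1)) (he : e ∈ fixU H) (he' : e' ∈ fixU H) (hg : g ∈ H) :
    kap p (e / e') g = kap p e g - kap p e' g := by
  have := kap_mul hz ((fixU H).div_mem he he') he' hg
  rw [div_mul_cancel] at this
  rw [this, add_sub_cancel_right]

/-- values along a cyclic decomposition -/
lemma kap_decomp (hz : IsFix H (zt p 1)) (he : e ∈ fixU H) {H' : Subgroup GQ} {d : ℕ}
    {x : GQ → ZMod d} {σ : GQ} (hc : Cyc H H' d x σ) (h0 : ∀ n ∈ H', kap p e n = 0)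
    (hg : g ∈ H) : kap p e g = ((x g).val : ℕ) * kap p e σ := by
  have h1 := hc.decomp hg
  have h2 := kap_add hz he (H.pow_mem hc.mem (x g).val) (hc.le h1)
  rwa [mul_inv_cancel_left, h0 _ h1, add_zero, kap_pow_right hz he hc.mem] at h2

lemma open_stab (H : Subgroup GQ) (w : Qb) : OpenIn (H ⊓ MulAction.stabilizer GQ w) H := by
  obtain ⟨N, hN⟩ := exists_ons_fix w
  exact ⟨inf_le_left, N, fun g hg hn => ⟨hg, hN g hn⟩⟩

lemma val_root {W : Pl} {y : Qbˣ} (hy : W.valuation ((y ^ p : Qbˣ) : Qb) = 1) :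
    W.valuation (y : Qb) = 1 := by
  rw [Units.val_pow_eq_pow_val, map_pow] at hy
  exact (pow_eq_one_iff.1 hy).resolve_right (Fact.out : p.Prime).ne_zero

/-- Kummer characters of units are unramified away from `p` -/
lemma kap_inertia (hv : ValStmt) (hz : IsFix H (zt p 1)) (he : e ∈ fixU H) {W : Pl}
    (hW : ¬ Above W p) (h1 : W.valuation (e : Qb) = 1) (hg : g ∈ IG W ⊓ H) : kap p e g = 0 := by
  have hw : W.valuation (rt p e : Qb) = 1 := val_root (p := p) (by rw [rt_pow, h1])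
  have hp : W.valuation (p : Qb) = 1 :=
    le_antisymm ((W.valuation_le_one_iff _).2 (natCast_mem W p)) (not_lt.1 hW)
  have h2 := ((hv.ig W g).1 hg.1).2 _ ((W.valuation_le_one_iff _).1 hw.le)
  have h3 := congrArg Units.val (quot_pow he hg.2 (rt_pow p e))
  rw [Units.val_pow_eq_pow_val, Units.val_div_eq_div_val, coe_sU, Units.val_one] at h3
  have h4 := hv.mu' W p _ hp h3 (by
    rw [div_sub_one (rt p e).ne_zero, map_div₀, hw, div_one]
    exact h2)
  exact (kap_eq_zero hz he hg.2).2 ((div_eq_one_iff_eq (rt p e).ne_zero).1 h4)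

/-- two unramified Kummer characters are proportional -/
lemma kap_prop (hv : ValStmt) (hu : UnrStmt) (hz : IsFix H (zt p 1)) (he : e ∈ fixU H)
    (he' : e' ∈ fixU H) {W : Pl} (hW0 : W ≠ ⊤) (hH : OpenIn H (DG W)) (hW : ¬ Above W p)
    (h1 : W.valuation (e : Qb) = 1) (h1' : W.valuation (e' : Qb) = 1) (hg : g ∈ H) (hh : h ∈ H) :
    kap p e h * kap p e' g = kap p e' h * kap p e g := by
  obtain ⟨H'', d, x, σ, hle, -, hc⟩ := hu.cyc W H _ hW0 hH
    ((open_stab H (rt p e)).inf (open_stab H (rt p e'))) fun n hn =>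
      ⟨⟨hn.2, (kap_eq_zero hz he hn.2).1 (kap_inertia hv hz he hW h1 hn)⟩,
        ⟨hn.2, (kap_eq_zero hz he' hn.2).1 (kap_inertia hv hz he' hW h1' hn)⟩⟩
  have a : ∀ n ∈ H'', kap p e n = 0 := fun n hn => (kap_eq_zero hz he (hle hn).1.1).2 (hle hn).1.2
  have b : ∀ n ∈ H'', kap p e' n = 0 :=
    fun n hn => (kap_eq_zero hz he' (hle hn).2.1).2 (hle hn).2.2
  rw [kap_decomp hz he hc a hg, kap_decomp hz he hc a hh, kap_decomp hz he' hc b hg,
    kap_decomp hz he' hc b hh]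
  ring

lemma tor_eq (hφ : PhiStmt) {B : Subgroup Qbˣ} (hB : ztU p 1 ∈ B) : tor p B = p := by
  have hp : p.Prime := Fact.out
  obtain ⟨h0, h1⟩ := hφ.tor p B hp
  refine le_antisymm h1 ?_
  have hz : IsPrimitiveRoot (ztU p 1) p := by simpa using ztU_prim p 1
  have hle : Subgroup.zpowers (ztU p 1) ≤ B ⊓ (powMonoidHom p).ker := by
    rw [Subgroup.zpowers_le]
    exact ⟨hB, hz.pow_eq_one⟩
  have := Nat.le_of_dvd (Nat.pos_of_ne_zero h0) (Subgroup.card_dvd_of_le hle)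
  rwa [Nat.card_zpowers, ← hz.eq_orderOf] at this

/-- an element of `E` with a non trivial character on `U'` and trivial at given elements -/
lemma exists_new {U U' : Subgroup GQ} {x : GQ → ZMod p} {σ : GQ} (hz : IsFix U (zt p 1))
    (hc : Cyc U U' p x σ) {S : Set Pl} {s : ℕ} (hs : pw p (ES U S) = p ^ s) (T : Finset Pl)
    (γ : Pl → GQ) (hγ : ∀ W ∈ T, γ W ∈ U) (hT : T.card + 1 < s) :
    ∃ e ∈ ES U S, (∀ W ∈ T, kap p e (γ W) = 0) ∧ ∃ τ ∈ U', kap p e τ ≠ 0 := by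
  have hp : p.Prime := Fact.out
  by_contra hn
  push Not at hn
  let Φ : ES U S →* Multiplicative ((T → ZMod p) × ZMod p) := MonoidHom.mk'
    (fun e => Multiplicative.ofAdd (fun W => kap p e (γ W), kap p e σ)) fun a b => by
      rw [← ofAdd_add]
      congr 1
      refine Prod.ext (funext fun W => ?_) ?_
      · exact kap_mul hz a.2.1 b.2.1 (hγ W W.2)
      · exact kap_mul hz a.2.1 b.2.1 hc.mem
  have hk : Φ.ker ≤ ((ES U S).map (powMonoidHom p)).subgroupOf (ES U S) := by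
    intro e he
    have h0 : (fun W : T => kap p e (γ W), kap p e σ) = 0 := congrArg Multiplicative.toAdd he
    have h1 := hn e e.2 fun W hW => congrFun (congrArg Prod.fst h0) ⟨W, hW⟩
    have h2 : kap p e σ = 0 := congrArg Prod.snd h0
    refine ⟨rt p e, ⟨fun g hg => (kap_eq_zero hz e.2.1 hg).1 ?_, fun W hW => ?_⟩, rt_pow p e⟩
    · rw [kap_decomp hz e.2.1 hc h1 hg, h2, mul_zero]
    · exact val_root (p := p) (by rw [rt_pow]; exact e.2.2 W hW)
  have h1 : pw p (ES U S) ∣ Φ.ker.index := Subgroup.index_dvd_of_le hk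
  have h2 : Φ.ker.index ∣ p ^ (T.card + 1) := by
    rw [Subgroup.index_ker]
    have := Subgroup.card_subgroup_dvd_card Φ.range
    rwa [Nat.card_congr Multiplicative.toAdd, Nat.card_prod, Nat.card_fun, Nat.card_zmod,
      Nat.card_eq_finsetCard, ← pow_succ] at this
  have h3 := h1.trans h2
  rw [hs, Nat.pow_dvd_pow_iff_le_right hp.one_lt] at h3
  omega

/-- the data that is built by induction -/
structure Good (p : ℕ) [Fact p.Prime] (U U' : Subgroup GQ) (S : Set Pl) (T : Finset Pl)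
    (γ : Pl → GQ) : Prop where
  ne : ∀ W ∈ T, W ≠ ⊤
  out : ∀ W ∈ T, W ∉ S
  mem : ∀ W ∈ T, γ W ∈ DG W ⊓ U
  spl : ∀ W ∈ T, DG W ⊓ U ≤ U'
  onto : ∀ t : Pl → ZMod p, ∃ e ∈ ES U S, ∀ W ∈ T, kap p e (γ W) = t W

lemma Good.van (hv : ValStmt) (hu : UnrStmt) {U U' : Subgroup GQ} {S : Set Pl} {T : Finset Pl}
    {γ : Pl → GQ} (hG : Good p U U' S T γ) (hU : OpenIn U ⊤) (hz : IsFix U (zt p 1))
    (hS : ∀ W, W ∉ S → ¬ Above W p) {W : Pl} (hW : W ∈ T) (he : e ∈ fixU (DG W ⊓ U))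
    (h1 : W.valuation (e : Qb) = 1) (h0 : kap p e (γ W) = 0) (hh : h ∈ DG W ⊓ U) :
    kap p e h = 0 := by
  obtain ⟨e', he', h2⟩ := hG.onto fun _ => 1
  have := kap_prop hv hu (hz.mono inf_le_right) he (fixU_anti inf_le_right he'.1) (hG.ne W hW)
    (hU.inf_top _) (hS W (hG.out W hW)) h1 (he'.2 W (hG.out W hW)) (hG.mem W hW) hh
  rwa [h2 W hW, h0, mul_one, mul_zero] at this

lemma Good.step (hv : ValStmt) (hu : UnrStmt) (hF : FStmt) (hp2 : p ≠ 2) {U U' : Subgroup GQ}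
    {x : GQ → ZMod p} {σ : GQ} {S : Set Pl} {T : Finset Pl} {γ : Pl → GQ} {s : ℕ} {P : Finset ℕ}
    {a : Qbˣ} (hG : Good p U U' S T γ) (hU : OpenIn U ⊤) (hz : IsFix U (zt p 1))
    (hc : Cyc U U' p x σ) (hS : ∀ W, W ∉ S → ¬ Above W p) (hP : S ⊆ AboveSet P)
    (hs : pw p (ES U S) = p ^ s) (ha : a ∈ ES U S) (hx : ∀ g ∈ U, x g = kap p a g)
    (hT : T.card + 1 < s) : ∃ T' γ', Good p U U' S T' γ' ∧ T'.card = T.card + 1 := by
  have hp : p.Prime := Fact.out
  obtain ⟨e, he, h0, τ, hτ, hτ0⟩ := exists_new hz hc hs T γ (fun W hW => (hG.mem W hW).2) hT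
  have hz' : IsFix U' (zt p 1) := hz.mono hc.le
  have he' : e ∈ fixU U' := fixU_anti hc.le he.1
  have hc' : Cyc U' (U' ⊓ MulAction.stabilizer GQ (rt p e : Qb)) p
      (fun g => (kap p e τ)⁻¹ * kap p e g) τ :=
    { pos := hp.pos
      add := fun g hg h hh => by rw [kap_add hz' he' hg hh, mul_add]
      ker := fun g => and_congr_right fun hg => by
        rw [mul_eq_zero, inv_eq_zero, or_iff_right hτ0, kap_eq_zero hz' he' hg]
        rfl
      mem := hτ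
      gen := inv_mul_cancel₀ hτ0
      opn := open_stab _ _ }
  obtain ⟨W, hW0, hWP, hW⟩ := hF _ _ p _ τ P (hc.opn.trans hU) (tc_of_fix p hp2 hz') hp hc'
  have hWS : W ∉ S := fun h => hWP (hP h)
  obtain ⟨g, hg, hg'⟩ := SetLike.not_le_iff_exists.1 hW
  have hgU : g ∈ DG W ⊓ U := ⟨hg.1, hc.le hg.2⟩
  have hg0 : kap p e g ≠ 0 := fun h => hg' ⟨hg.2, (kap_eq_zero hz' he' hg.2).1 h⟩
  have hWT : W ∉ T := fun h => hg0 (hG.van hv hu hU hz hS h (fixU_anti inf_le_right he.1)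
    (he.2 W hWS) (h0 W h) hgU)
  have hup : ∀ V ∈ T, Function.update γ W g V = γ V := fun V hV =>
    Function.update_of_ne (fun h : V = W => hWT (h ▸ hV)) _ _
  refine ⟨insert W T, Function.update γ W g, ⟨?_, ?_, ?_, ?_, fun t => ?_⟩,
    card_insert_of_notMem hWT⟩
  · exact forall_mem_insert _ _ _ |>.2 ⟨hW0, hG.ne⟩
  · exact forall_mem_insert _ _ _ |>.2 ⟨hWS, hG.out⟩
  · refine forall_mem_insert _ _ _ |>.2 ⟨by rwa [Function.update_self], fun V hV => ?_⟩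
    rw [hup V hV]
    exact hG.mem V hV
  · refine forall_mem_insert _ _ _ |>.2 ⟨fun h hh => (hc.ker h).2 ⟨hh.2, ?_⟩, hG.spl⟩
    have := kap_prop hv hu (hz.mono inf_le_right) (fixU_anti inf_le_right ha.1)
      (fixU_anti inf_le_right he.1) hW0 (hU.inf_top _) (hS W hWS) (ha.2 W hWS) (he.2 W hWS) hgU hh
    rw [← hx g hgU.2, ((hc.ker g).1 hg.2).2, mul_zero, mul_eq_zero, or_iff_left hg0] at this
    rw [hx h hh.2, this]
  · obtain ⟨e₁, he₁, h1⟩ := hG.onto t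
    have hm := (ES U S).pow_mem he ((t W - kap p e₁ g) / kap p e g).val
    refine ⟨_, (ES U S).mul_mem he₁ hm, forall_mem_insert _ _ _ |>.2 ⟨?_, fun V hV => ?_⟩⟩
    · rw [Function.update_self, kap_mul hz he₁.1 hm.1 hgU.2, kap_pow_left hz he.1 hgU.2,
        ZMod.natCast_zmod_val, div_mul_cancel₀ _ hg0, add_sub_cancel]
    · rw [hup V hV, kap_mul hz he₁.1 hm.1 (hG.mem V hV).2, kap_pow_left hz he.1 (hG.mem V hV).2,
        h0 V hV, mul_zero, add_zero, h1 V hV]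

end TsetP

open TsetP

theorem tset (_h1 : Coh1Stmt) (_h3 : Coh3Stmt) (hv : ValStmt) (hp : PlcStmt) (hu : UnrStmt)
    (hφ : PhiStmt) (hs : SuStmt) (hF : FStmt) : TsetStmt := by
  intro p _ hp2 U U' x σ R hU hz hc hR hpS ⟨w, ha, hw⟩
  have hpp : p.Prime := Fact.out
  have hS : ∀ W, W ∉ Sat U R → ¬ Above W p := fun W hW h =>
    hW (hpS ⟨p, mem_singleton_self p, hpp, h⟩)
  obtain ⟨P, hP⟩ := hp.primes R hR.1
  have hx : ∀ g ∈ U, x g = kap p (w ^ p) g := fun g hg =>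
    iot1_injective p ((hw g hg).trans (kap_spec hz ha.1 hg rfl).symm)
  obtain ⟨hev, hpw⟩ := hs U R p hU (tc_of_fix p hp2 hz) hR hpp
  have hzE : ztU p 1 ∈ ES U (Sat U R) := ⟨hz, fun W _ => val_root (p := p) (by
    have : ztU p 1 ^ p = 1 := by simpa using ztU_pow p 1
    rw [this, Units.val_one, map_one])⟩
  rw [tor_eq hφ hzE] at hpw
  have hpw' := Nat.eq_of_mul_eq_mul_right hpp.pos hpw
  have hi : U.index ≠ 0 := by simpa using hU.relIndex_ne_zero
  have hs1 : 1 ≤ R.card + U.index / 2 := by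
    obtain ⟨k, hk⟩ := hev
    omega
  have key : ∀ j, j + 1 ≤ R.card + U.index / 2 →
      ∃ T γ, Good p U U' (Sat U R) T γ ∧ T.card = j := by
    intro j
    induction j with
    | zero =>
      exact fun _ => ⟨∅, fun _ => 1, ⟨by simp, by simp, by simp, by simp,
        fun _ => ⟨1, Subgroup.one_mem _, by simp⟩⟩, rfl⟩
    | succ j ih =>
      intro hj
      obtain ⟨T, γ, hG, rfl⟩ := ih (by omega)
      exact hG.step hv hu hF hp2 hU hz hc hS (hP U) hpw' ha hx (by omega)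
  obtain ⟨T, γ, hG, hT⟩ := key (R.card + U.index / 2 - 1) (by omega)
  refine ⟨T, ?_, ⟨fun V hV => ?_, fun V hV W hW u hu' e => ?_⟩, by omega, hG.spl, fun u hu' => ?_⟩
  · exact disjoint_left.2 fun V hV hV' => hG.out V hV' ⟨V, hV, 1, U.one_mem, (one_smul _ _).symm⟩
  · exact (mem_union.1 hV).elim (hR.1 V) (hG.ne V)
  · rcases mem_union.1 hV with h1 | h1 <;> rcases mem_union.1 hW with h2 | h2
    · exact hR.2 V h1 W h2 u hu' e
    · exact absurd ⟨V, h1, u, hu', e.symm⟩ (hG.out W h2)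
    · exact absurd ⟨W, h2, u⁻¹, U.inv_mem hu', by rw [← e, inv_smul_smul]⟩ (hG.out V h1)
    · by_contra hne
      obtain ⟨k, hk, h3⟩ := hG.onto fun V' => if V' = W then 1 else 0
      have h4 := hG.mem W h2
      have h5 : u⁻¹ * γ W * u ∈ DG V ⊓ U :=
        ⟨(hv.dg_smul V u _).1 (e ▸ h4.1), U.mul_mem (U.mul_mem (U.inv_mem hu') h4.2) hu'⟩
      have h6 := hG.van hv hu hU hz hS h1 (fixU_anti inf_le_right hk.1) (hk.2 V (hG.out V h1))
        (by rw [h3 V h1, if_neg hne]) h5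
      rw [kap_conj hz hk.1 h4.2 hu', h3 W h2, if_pos rfl] at h6
      exact one_ne_zero h6
  · obtain ⟨e, he, h3⟩ := hG.onto fun W => kap p (u W) (γ W)
    refine ⟨e, he, fun W hW => ?_⟩
    have hz' : IsFix (DG W ⊓ U) (zt p 1) := hz.mono inf_le_right
    have he' : e ∈ fixU (DG W ⊓ U) := fixU_anti inf_le_right he.1
    have hq := (fixU _).div_mem (hu' W hW).1 he'
    refine ⟨rt p (u W / e), fun g hg => (kap_eq_zero hz' hq hg).1
      (hG.van hv hu hU hz hS hW hq ?_ ?_ hg), by rw [rt_pow, mul_div_cancel]⟩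
    · rw [Units.val_div_eq_div_val, map_div₀, (hu' W hW).2, he.2 W (hG.out W hW), div_one]
    · rw [kap_div hz' (hu' W hW).1 he' (hG.mem W hW), h3 W hW, sub_self]

end Pool.Agent.MP_59efd2_nt.lz

end
end MrgPart3

-- ======== part 4: formerly Pool.Agent.MP_59efd2_nt.lz.Hnt
section MrgPart4

/-! Row HNT: the Hasse norm theorem for Kummer extensions of prime degree (Chevalley). -/

noncomputable section

namespace Pool.Agent.MP_59efd2_nt.lz

open scoped Pointwise Classical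
open Additive

namespace HntP

lemma index_pi' {ι : Type} [Fintype ι] {G : ι → Type} [∀ i, Group (G i)]
    (H : ∀ i, Subgroup (G i)) : (Subgroup.pi Set.univ H).index = ∏ i, (H i).index := by
  simp_rw [Subgroup.index, ← Nat.card_pi]
  refine Nat.card_congr
    ((Quotient.congrRight (fun x y => ?_)).trans (Setoid.piQuotientEquiv _).symm)
  rw [QuotientGroup.leftRel_pi]

/-- The counting lemma. -/
lemma count {ι Γ : Type} [Fintype ι] [CommGroup Γ] (E : Subgroup Γ) (F B C : ι → Subgroup Γ)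
    (hE : ∀ i, E ≤ F i) (hBC : ∀ i, B i ≤ C i) (n : ℕ) (h0 : ∀ i, (B i).relIndex (F i) ≠ 0)
    (hle : ∏ i, (B i).relIndex (F i) ≤ n * (⨅ i, B i).relIndex E) :
    ∏ i, (C i).relIndex (F i) ≤ n * (⨅ i, C i).relIndex E := by
  let Δ : E →* ∀ i, F i := MonoidHom.pi fun i => Subgroup.inclusion (hE i)
  have key : ∀ A : ι → Subgroup Γ, (⨅ i, A i).relIndex E =
      (Subgroup.pi Set.univ fun i => (A i).subgroupOf (F i)).relIndex Δ.range := fun A => by
    rw [← Subgroup.index_comap, Subgroup.relIndex]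
    congr 1
    ext e
    simp [Δ, Subgroup.mem_subgroupOf, Subgroup.mem_pi, Subgroup.mem_iInf]
  have idx : ∀ A : ι → Subgroup Γ, ∏ i, (A i).relIndex (F i) =
      (Subgroup.pi Set.univ fun i => (A i).subgroupOf (F i)).index := fun A =>
    (index_pi' _).symm
  have hne : ∏ i, (B i).relIndex (F i) ≠ 0 := Finset.prod_ne_zero_iff.2 fun i _ => h0 i
  rw [key, idx] at hle ⊢
  rw [idx] at hne
  have hbc : (Subgroup.pi Set.univ fun i => (B i).subgroupOf (F i)) ≤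
      Subgroup.pi Set.univ fun i => (C i).subgroupOf (F i) := fun y hy i hi => hBC i (hy i hi)
  generalize (Subgroup.pi Set.univ fun i => (B i).subgroupOf (F i)) = B' at *
  generalize (Subgroup.pi Set.univ fun i => (C i).subgroupOf (F i)) = C' at *
  generalize Δ.range = D at *
  have h1 := Subgroup.relIndex_mul_index (le_sup_left : B' ≤ B' ⊔ D)
  have h2 := Subgroup.relIndex_mul_index (le_sup_left : C' ≤ C' ⊔ D)
  rw [Subgroup.relIndex_sup_left] at h1 h2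
  rw [← h1] at hle hne
  have h3 : (B' ⊔ D).index ≤ n := by
    rw [mul_comm] at hle
    exact Nat.le_of_mul_le_mul_right hle (Nat.pos_of_ne_zero (left_ne_zero_of_mul hne))
  have h4 : (C' ⊔ D).index ≤ (B' ⊔ D).index :=
    Nat.le_of_dvd (Nat.pos_of_ne_zero (right_ne_zero_of_mul hne))
      (Subgroup.index_dvd_of_le (sup_le_sup_right hbc D))
  rw [← h2, mul_comm]
  exact Nat.mul_le_mul_right _ (h4.trans h3)

lemma sU_fix {H : Subgroup GQ} {u : Qbˣ} (hu : u ∈ fixU H) {g : GQ} (hg : g ∈ H) : sU g u = u :=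
  Units.ext (hu g hg)

lemma val_one_of_pow (V : Pl) {y : Qbˣ} {n : ℕ} (hn : n ≠ 0)
    (h : V.valuation ((y ^ n : Qbˣ) : Qb) = 1) : V.valuation (y : Qb) = 1 := by
  rw [Units.val_pow_eq_pow_val, map_pow] at h
  exact (pow_eq_one_iff_of_nonneg zero_le hn).1 h

lemma val_ne (V : Pl) (y : Qbˣ) : V.valuation (y : Qb) ≠ 0 :=
  (Valuation.ne_zero_iff _).2 y.ne_zero

lemma sat_smul {U : Subgroup GQ} {R : Finset Pl} {W : Pl} {u : GQ} (hu : u ∈ U)
    (h : W ∈ Sat U R) : u • W ∈ Sat U R := by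
  obtain ⟨V, hV, u', hu', rfl⟩ := h
  exact ⟨V, hV, u * u', U.mul_mem hu hu', (mul_smul u u' V).symm⟩

lemma mem_sat {U : Subgroup GQ} {R : Finset Pl} {V : Pl} (hV : V ∈ R) : V ∈ Sat U R :=
  ⟨V, hV, 1, U.one_mem, (one_smul _ V).symm⟩

lemma sat_union {U : Subgroup GQ} {R T : Finset Pl} {W : Pl} :
    W ∈ Sat U (R ∪ T) ↔ W ∈ Sat U R ∨ W ∈ Sat U T := by
  constructor
  · rintro ⟨V, hV, h⟩
    rcases Finset.mem_union.1 hV with h1 | h1
    · exact Or.inl ⟨V, h1, h⟩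
    · exact Or.inr ⟨V, h1, h⟩
  · rintro (⟨V, hV, h⟩ | ⟨V, hV, h⟩)
    · exact ⟨V, Finset.mem_union_left _ hV, h⟩
    · exact ⟨V, Finset.mem_union_right _ hV, h⟩

lemma fix_smul (hv : ValStmt) {U : Subgroup GQ} {V : Pl} {u : GQ} (hu : u ∈ U) {y : Qbˣ}
    (hy : y ∈ fixU (DG V ⊓ U)) : sU u y ∈ fixU (DG (u • V) ⊓ U) := by
  intro g hg
  have h1 : u⁻¹ * g * u ∈ DG V ⊓ U :=
    ⟨(hv.dg_smul V u g).1 hg.1, U.mul_mem (U.mul_mem (U.inv_mem hu) hg.2) hu⟩
  have h2 := congrArg u (hy _ h1)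
  rw [← AlgEquiv.mul_apply, ← mul_assoc, mul_inv_cancel_left] at h2
  exact h2

lemma locNorm_pow {V : Pl} {U U' : Subgroup GQ} {r : ℕ} {x : GQ → ZMod r} (hle : U' ≤ U)
    {z : Qbˣ} (hz : z ∈ fixU (DG V ⊓ U)) : LocNorm V U U' r x (z ^ r) := fun _ hτ _ =>
  ⟨z, fixU_anti (inf_le_inf_left _ hle) hz, nrmU_of_fix (sU_fix hz hτ) r⟩

lemma locNorm_unit (hun : UnStmt) {V : Pl} {U U' : Subgroup GQ} {r : ℕ} {x : GQ → ZMod r} {σ : GQ}
    (hU : OpenIn U ⊤) (hc : Cyc U U' r x σ) (hV : V ≠ ⊤) (hI : IG V ⊓ U ≤ U') {z : Qbˣ}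
    (hz : z ∈ fixU (DG V ⊓ U)) (h1 : V.valuation (z : Qb) = 1) : LocNorm V U U' r x z :=
  fun τ hτ hx => hun V _ _ r x τ hV (hU.inf_top _) (hc.restrict (DG V) hτ hx)
    (fun _ hg => ⟨hg.2.1, hI ⟨hg.1, hg.2.2⟩⟩) z hz h1

variable {p : ℕ} [Fact p.Prime]

lemma locNorm_split {V : Pl} {U U' : Subgroup GQ} {x : GQ → ZMod p} {σ : GQ}
    (hc : Cyc U U' p x σ) (h : DG V ⊓ U ≤ U') (z : Qbˣ) : LocNorm V U U' p x z := fun τ hτ hx =>
  absurd (hx.symm.trans ((hc.ker τ).1 (h hτ)).2) one_ne_zero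

omit [Fact p.Prime] in
lemma split_smul (hv : ValStmt) {V : Pl} {U U' : Subgroup GQ} {x : GQ → ZMod p} {σ u : GQ}
    (hc : Cyc U U' p x σ) (hu : u ∈ U) (h : DG V ⊓ U ≤ U') : DG (u • V) ⊓ U ≤ U' := by
  intro g hg
  have h1 : u⁻¹ * g * u ∈ U' :=
    h ⟨(hv.dg_smul V u g).1 hg.1, U.mul_mem (U.mul_mem (U.inv_mem hu) hg.2) hu⟩
  have h2 := hc.normalIn u hu _ h1
  rwa [show u * (u⁻¹ * g * u) * u⁻¹ = g by group] at h2

lemma add_pow {H : Subgroup GQ} {κ : GQ → ZMod p} (hκ : ∀ g ∈ H, ∀ h ∈ H, κ (g * h) = κ g + κ h)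
    {g : GQ} (hg : g ∈ H) (i : ℕ) : κ (g ^ i) = i * κ g := by
  induction i with
  | zero =>
    have := hκ 1 H.one_mem 1 H.one_mem
    rw [mul_one] at this
    simpa using this
  | succ i ih => rw [pow_succ, hκ _ (H.pow_mem hg i) _ hg, ih]; push_cast; ring

lemma exists_gen {H : Subgroup GQ} {κ : GQ → ZMod p}
    (hκ : ∀ g ∈ H, ∀ h ∈ H, κ (g * h) = κ g + κ h) {g : GQ} (hg : g ∈ H) (h0 : κ g ≠ 0) :
    ∃ τ ∈ H, κ τ = 1 :=
  ⟨g ^ (κ g)⁻¹.val, H.pow_mem hg _, by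
    rw [add_pow hκ hg, ZMod.natCast_zmod_val, inv_mul_cancel₀ h0]⟩

lemma exists_cyc {H : Subgroup GQ} {κ : GQ → ZMod p} (hs : Sm1 H κ)
    (hκ : ∀ g ∈ H, ∀ h ∈ H, κ (g * h) = κ g + κ h) {g : GQ} (hg : g ∈ H) (h0 : κ g ≠ 0) :
    ∃ H' σ, Cyc H H' p κ σ := by
  obtain ⟨τ, hτ, h1⟩ := exists_gen hκ hg h0
  have hone : κ 1 = 0 := by simpa using add_pow hκ hg 0
  let H' : Subgroup GQ :=
    { carrier := {g | g ∈ H ∧ κ g = 0}
      mul_mem' := fun {a b} ha hb =>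
        ⟨H.mul_mem ha.1 hb.1, by rw [hκ a ha.1 b hb.1, ha.2, hb.2, add_zero]⟩
      one_mem' := ⟨H.one_mem, hone⟩
      inv_mem' := fun {a} ha => ⟨H.inv_mem ha.1, by
        have := hκ _ (H.inv_mem ha.1) a ha.1
        rw [inv_mul_cancel, hone, ha.2, add_zero] at this
        exact this.symm⟩ }
  refine ⟨H', τ, (Fact.out : p.Prime).pos, hκ, fun _ => Iff.rfl, hτ, h1, fun _ h => h.1, ?_⟩
  obtain ⟨N, hN⟩ := hs
  refine ⟨N, fun n hn hnN => ⟨hn, ?_⟩⟩
  have := hN 1 H.one_mem n hn hnN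
  rwa [one_mul, hone] at this

lemma root_fix {U : Subgroup GQ} (hζ : IsFix U (zt p 1)) {u : Qbˣ} (hu : u ^ p = 1) :
    u ∈ fixU U := by
  obtain ⟨t, ht⟩ := exists_iot1 p hu
  rw [iot1_apply] at ht
  have h1 : ztU p 1 ∈ fixU U := hζ
  have h2 : ztU p 1 ^ t.val = u := congrArg Additive.toMul ht
  rw [← h2]
  exact (fixU U).pow_mem h1 _

lemma kum_zero_iff {κ : ZMod p} {g : GQ} {w : Qbˣ} (h : iot1 p κ = ofMul (sU g w / w)) :
    κ = 0 ↔ sU g w = w := by
  rw [← (iot1_injective p).eq_iff, h, map_zero, ofMul_eq_zero, div_eq_one]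

lemma tor_eq (hφ : PhiStmt) {U : Subgroup GQ} (hζ : IsFix U (zt p 1)) (S : Set Pl) :
    tor p (ES U S) = p := by
  have hp : p.Prime := Fact.out
  obtain ⟨h0, h1⟩ := hφ.tor p (ES U S) hp
  refine le_antisymm h1 (Nat.le_of_dvd (Nat.pos_of_ne_zero h0) ?_)
  have hz : ztU p 1 ^ p = 1 := by simpa using ztU_pow p 1
  have h2 : Subgroup.zpowers (ztU p 1) ≤ ES U S ⊓ (powMonoidHom p).ker :=
    Subgroup.zpowers_le_of_mem ⟨⟨hζ, fun W _ => val_one_of_pow W hp.ne_zero (by simp [hz])⟩, hz⟩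
  have h3 := Subgroup.card_dvd_of_le h2
  rwa [Nat.card_zpowers, ← (ztU_prim p 1).eq_orderOf, pow_one] at h3

/-- An element with prescribed valuations outside an adequate set. -/
lemma exists_val {U : Subgroup GQ} {S : Set Pl} (hA : Adq U S) {R : Finset Pl} (hR : Rep U R)
    {a : Pl → Qbˣ} (ha : ∀ V ∈ R, a V ∈ fixU (DG V ⊓ U)) :
    ∃ e ∈ fixU U, (∀ V ∈ R, V ∉ S → V.valuation (e : Qb) = V.valuation (a V : Qb)) ∧
      ∀ W : Pl, W ∉ S → W ∉ Sat U R → W.valuation (e : Qb) = 1 := by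
  have h1 : ∀ V : Pl, ∃ z ∈ fixU U, (V ∈ R → V ∉ S → V.valuation (z : Qb) = V.valuation (a V : Qb))
      ∧ ∀ W : Pl, W ∉ S → (∀ u ∈ U, W ≠ u • V) → W.valuation (z : Qb) = 1 := fun V => by
    by_cases h : V ∈ R ∧ V ∉ S
    · obtain ⟨π, hπ, hu, ho⟩ := hA V (hR.1 V h.1) h.2
      obtain ⟨j, hj⟩ := hu.2.2 _ (ha V h.1)
      refine ⟨π ^ j, (fixU U).zpow_mem hπ j, fun _ _ => ?_, fun W hW hW' => ?_⟩
      · rw [hj, Units.val_zpow_eq_zpow_val, map_zpow₀]
      · rw [Units.val_zpow_eq_zpow_val, map_zpow₀, ho W hW hW', one_zpow]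
    · exact ⟨1, (fixU U).one_mem, fun h1 h2 => absurd ⟨h1, h2⟩ h, fun W _ _ => by simp⟩
  choose z hz hz1 hz2 using h1
  refine ⟨∏ V ∈ R, z V, (fixU U).prod_mem fun V _ => hz V, fun V hV hS => ?_, fun W hS hW => ?_⟩
  · rw [Units.coe_prod, map_prod, Finset.prod_eq_single V
      (fun V' hV' hne => hz2 V' V hS fun u hu e => hne (hR.2 V' hV' V hV u hu e.symm))
      (fun h => absurd hV h), hz1 V hV hS]
  · rw [Units.coe_prod, map_prod]
    exact Finset.prod_eq_one fun V hV => hz2 V W hS fun u hu e => hW ⟨V, hV, u, hu, e⟩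

/-- The key step: local `p`-th powers at `R` in the group of `R ∪ T`-units are `p`-th powers. -/
lemma key (h3 : Coh3Stmt) (hv : ValStmt) (hun : UnStmt) (hf : FirstStmt) (hp2 : p ≠ 2)
    {U : Subgroup GQ} {R T : Finset Pl} (hU : OpenIn U ⊤) (hζ : IsFix U (zt p 1))
    (hpS : AboveSet {p} ⊆ Sat U R) (hA : Adq U (Sat U R)) (hd : Disjoint R T)
    (hRT : Rep U (R ∪ T))
    (hT : ∀ u : Pl → Qbˣ, (∀ W ∈ T, u W ∈ fixU (DG W ⊓ U) ∧ W.valuation (u W : Qb) = 1) →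
      ∃ e ∈ ES U (Sat U R), ∀ W ∈ T, ∃ y ∈ fixU (DG W ⊓ U), u W = e * y ^ p)
    {e : Qbˣ} (he : e ∈ ES U (Sat U (R ∪ T)))
    (hl : ∀ V ∈ R, ∃ y ∈ fixU (DG V ⊓ U), y ^ p = e) :
    ∃ y ∈ ES U (Sat U (R ∪ T)), y ^ p = e := by
  have hp : p.Prime := Fact.out
  obtain ⟨w0, hw0⟩ := IsAlgClosed.exists_pow_nat_eq (e : Qb) hp.pos
  have hw0' : w0 ≠ 0 := by
    rintro rfl
    rw [zero_pow hp.ne_zero] at hw0
    exact e.ne_zero hw0.symm
  obtain ⟨w, hw⟩ : ∃ w : Qbˣ, w ^ p = e := ⟨Units.mk0 w0 hw0', Units.ext (by simpa using hw0)⟩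
  have hwv : ∀ W : Pl, W ∉ Sat U (R ∪ T) → W.valuation (w : Qb) = 1 := fun W hW =>
    val_one_of_pow W hp.ne_zero (by rw [hw]; exact he.2 W hW)
  obtain ⟨κ, hκ, hκw⟩ := h3.kumOf1 p U w (by rw [hw]; exact he.1)
  have hadd : ∀ g ∈ U, ∀ h ∈ U, κ (g * h) = κ g + κ h := fun g hg h hh => by
    rw [hκ.2 g hg h hh, mulAct_apply, (om_eq_one_iff p g).2 (hζ g hg), one_mul]
  by_cases h0 : ∀ g ∈ U, κ g = 0
  · exact ⟨w, ⟨fun g hg => congrArg Units.val ((kum_zero_iff (hκw g hg)).1 (h0 g hg)), hwv⟩, hw⟩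
  exfalso
  push Not at h0
  obtain ⟨g0, hg0, h0⟩ := h0
  obtain ⟨Ue, σ, hc⟩ := exists_cyc hκ.1 hadd hg0 h0
  have hsplit : ∀ W ∈ Sat U R, DG W ⊓ U ≤ Ue := by
    rintro _ ⟨V, hV, u, hu, rfl⟩
    refine split_smul hv hc hu fun g hg => (hc.ker g).2 ⟨hg.2, (kum_zero_iff (hκw g hg.2)).2 ?_⟩
    obtain ⟨y, hy, hye⟩ := hl V hV
    have h1 : w / y ∈ fixU U := root_fix hζ (by rw [div_pow, hw, hye, div_self'])
    have h2 : w ∈ fixU (DG V ⊓ U) := by
      have := (fixU (DG V ⊓ U)).mul_mem (fixU_anti inf_le_right h1) hy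
      rwa [div_mul_cancel] at this
    exact sU_fix h2 hg
  have hunr : ∀ W : Pl, W ∉ Sat U (R ∪ T) → IG W ⊓ U ≤ Ue := fun W hW g hg => by
    refine (hc.ker g).2 ⟨hg.2, (kum_zero_iff (hκw g hg.2)).2 ?_⟩
    have h1 := hwv W hW
    have h2 := ((hv.ig W g).1 hg.1).2 w ((W.valuation_le_one_iff _).1 h1.le)
    have h4 : W.valuation (p : Qb) = 1 :=
      le_antisymm ((W.valuation_le_one_iff _).2 (natCast_mem W p)) (not_lt.1 fun h =>
        hW (sat_union.2 (Or.inl (hpS ⟨p, Finset.mem_singleton_self p, hp, h⟩))))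
    have h5 : (sU g w / w) ^ p = 1 := by
      rw [div_pow, ← map_pow, hw, sU_fix he.1 hg.2, div_self']
    have h6 := hv.mu' W p ((sU g w / w : Qbˣ) : Qb) h4
      (by rw [← Units.val_pow_eq_pow_val, h5, Units.val_one]) (by
        rw [Units.val_div_eq_div_val, coe_sU, div_sub_one w.ne_zero, map_div₀, h1, div_one]
        exact h2)
    exact div_eq_one.1 (Units.ext h6)
  have hTS : ∀ W ∈ T, W ∉ Sat U R := by
    rintro W hW ⟨V, hV, u, hu, e⟩
    have := hRT.2 V (Finset.mem_union_left _ hV) W (Finset.mem_union_right _ hW) u hu e.symm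
    exact Finset.disjoint_left.1 hd hV (this ▸ hW)
  obtain ⟨R1, a, hR1, ha, hno⟩ := hf.first U Ue p κ σ hU (tc_of_fix p hp2 hζ) hp hc
  obtain ⟨e1, he1, hv1, hv2⟩ := exists_val hA hR1 ha
  have htar : ∀ W : Pl, ∃ a' ∈ fixU (DG W ⊓ U), (W ∉ Sat U R1 → a' = 1) ∧
      (W ∉ Sat U R → W.valuation ((a' / e1 : Qbˣ) : Qb) = 1) ∧
      ∀ V ∈ R1, ∀ u ∈ U, V = u • W → ∃ u' ∈ U, V = u' • W ∧ a V = sU u' a' := fun W => by
    by_cases h : W ∈ Sat U R1
    · obtain ⟨V, hV, u, hu, rfl⟩ := h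
      refine ⟨sU u (a V), fix_smul hv hu (ha V hV), fun h => absurd ⟨V, hV, u, hu, rfl⟩ h,
        fun hS => ?_, fun V' hV' u' hu' e => ?_⟩
      · have h1 : sU u (a V) / e1 = sU u (a V / e1) := by rw [map_div, sU_fix he1 hu]
        rw [h1, coe_sU, hv.smul_one, Units.val_div_eq_div_val, map_div₀,
          hv1 V hV fun h => hS (sat_smul hu h), div_self (val_ne V _)]
      · have h1 : V = V' := hR1.2 V hV V' hV' (u' * u) (U.mul_mem hu' hu) (by rw [mul_smul, e])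
        subst h1
        exact ⟨u⁻¹, U.inv_mem hu, (inv_smul_smul u V).symm, by
          rw [← sU_mul, inv_mul_cancel, sU_one]⟩
    · refine ⟨1, (fixU _).one_mem, fun _ => rfl, fun hS => ?_, fun V hV u hu e => ?_⟩
      · rw [one_div, Units.val_inv_eq_inv_val, map_inv₀, hv2 W hS h, inv_one]
      · exact absurd ⟨V, hV, u⁻¹, U.inv_mem hu, by rw [e, inv_smul_smul]⟩ h
  choose a' ha' ha1 ha2 ha3 using htar
  obtain ⟨e2, he2, hy⟩ := hT (fun W => a' W / e1) fun W hW =>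
    ⟨(fixU _).div_mem (ha' W) (fixU_anti inf_le_right he1), ha2 W (hTS W hW)⟩
  have he' : e1 * e2 ∈ fixU U := (fixU U).mul_mem he1 he2.1
  have hpow : ∀ W ∈ T, ∀ u ∈ U, LocNorm (u • W) U Ue p κ (e1 * e2 / sU u (a' W)) := by
    intro W hW u hu
    obtain ⟨y, hy1, hy2⟩ := hy W hW
    have h1 : e1 * e2 / a' W = y⁻¹ ^ p := by
      rw [div_eq_iff_eq_mul] at hy2
      rw [hy2, inv_pow, div_eq_iff_eq_mul, mul_comm e2, mul_assoc, inv_mul_cancel_left, mul_comm]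
    have h2 : e1 * e2 / sU u (a' W) = sU u y⁻¹ ^ p := by
      rw [← map_pow, ← h1, map_div, sU_fix he' hu]
    rw [h2]
    exact locNorm_pow hc.le (fix_smul hv hu ((fixU _).inv_mem hy1))
  refine hno (e1 * e2) he' ⟨fun V hV => ?_, fun W hW0 hW => ?_⟩
  · by_cases h1 : V ∈ Sat U R
    · exact locNorm_split hc (hsplit V h1) _
    by_cases h2 : V ∈ Sat U T
    · obtain ⟨W, hW, u, hu, e⟩ := h2
      obtain ⟨u', hu', e1', e2'⟩ := ha3 W V hV u hu e
      have := hpow W hW u' hu'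
      rwa [← e1', ← e2'] at this
    refine locNorm_unit hun hU hc (hR1.1 V hV) (hunr V fun h => (sat_union.1 h).elim h1 h2)
      ((fixU _).div_mem (fixU_anti inf_le_right he') (ha V hV)) ?_
    rw [Units.val_div_eq_div_val, Units.val_mul, map_div₀, map_mul, hv1 V hV h1, he2.2 V h1,
      mul_one, div_self (val_ne V _)]
  · by_cases h1 : W ∈ Sat U R
    · exact locNorm_split hc (hsplit W h1) _
    by_cases h2 : W ∈ Sat U T
    · obtain ⟨W', hW', u, hu, rfl⟩ := h2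
      have := hpow W' hW' u hu
      rwa [ha1 W' fun h => hW (sat_smul hu h), map_one, div_one] at this
    refine locNorm_unit hun hU hc hW0 (hunr W fun h => (sat_union.1 h).elim h1 h2)
      (fixU_anti inf_le_right he') ?_
    rw [Units.val_mul, map_mul, hv2 W h1 hW, he2.2 W h1, mul_one]

/-- The subgroup of local norms. -/
def LN (V : Pl) (U U' : Subgroup GQ) (x : GQ → ZMod p) : Subgroup Qbˣ :=
  ⨅ τ : {τ : GQ // τ ∈ DG V ⊓ U ∧ x τ = 1}, NG (DG V ⊓ U') τ.1 p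

lemma mem_LN {V : Pl} {U U' : Subgroup GQ} {x : GQ → ZMod p} {b : Qbˣ} :
    b ∈ LN V U U' x ↔ LocNorm V U U' p x b := by
  rw [LN, Subgroup.mem_iInf]
  exact ⟨fun h τ h1 h2 => h ⟨τ, h1, h2⟩, fun h τ => h τ.1 τ.2.1 τ.2.2⟩

lemma LN_idx (hl : LiiStmt) {V : Pl} {U U' : Subgroup GQ} {x : GQ → ZMod p} {σ : GQ}
    (hU : OpenIn U ⊤) (hc : Cyc U U' p x σ) (hV : V ≠ ⊤) :
    (LN V U U' x).relIndex (fixU (DG V ⊓ U)) = if ¬ DG V ⊓ U ≤ U' then p else 1 := by
  by_cases h : DG V ⊓ U ≤ U'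
  · rw [if_neg (not_not.2 h), Subgroup.relIndex_eq_one]
    exact fun z _ => mem_LN.2 (locNorm_split hc h z)
  rw [if_pos h]
  obtain ⟨g, hg, hg'⟩ := SetLike.not_le_iff_exists.1 h
  obtain ⟨τ, hτ, h1⟩ := exists_gen (H := DG V ⊓ U) (fun a ha b hb => hc.add a ha.2 b hb.2) hg
    fun h0 => hg' ((hc.ker g).2 ⟨hg.2, h0⟩)
  have hc' := hc.restrict (DG V) hτ h1
  have : LN V U U' x = NG (DG V ⊓ U') τ p := by
    ext b
    rw [mem_LN]
    refine ⟨fun hb => hb τ hτ h1, ?_⟩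
    rintro ⟨y, hy, rfl⟩ τ' hτ' h1'
    exact ⟨y, hy, hc'.nrmU_eq hτ' h1' hy⟩
  rw [this]
  exact hl V _ _ p x τ hV (hU.inf_top _) Fact.out hc'

end HntP

open HntP in
theorem hnt (_h1 : Coh1Stmt) (h3 : Coh3Stmt) (hv : ValStmt) (hp : PlcStmt) (hd : DensStmt)
    (_hu : UnrStmt) (hφ : PhiStmt) (hl : LiiStmt) (hun : UnStmt) (hs : SuStmt) (ha : AdqStmt)
    (hf : FirstStmt) (hT : TsetStmt) : HntStmt := by
  intro p _ hp2 U U' x σ hU hζ hc b hb hloc
  have hpp : p.Prime := Fact.out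
  have hTC := tc_of_fix p hp2 hζ
  obtain ⟨w, hw, hxw⟩ := h3.kumTo1 p U x ⟨hc.sm1, fun g hg h hh => by
    rw [hc.add g hg h hh, mulAct_apply, (om_eq_one_iff p g).2 (hζ g hg), one_mul]⟩
  obtain ⟨N, hN⟩ := hc.opn.2
  obtain ⟨Pw, hPw⟩ := hp.supp w
  obtain ⟨Pb, hPb⟩ := hp.supp b
  obtain ⟨Pr, hPr⟩ := hp.ram N
  obtain ⟨Pa, hPa⟩ := ha U hU
  obtain ⟨R, -, hR, hS⟩ := hp.rep U ∅ ({p} ∪ Pw ∪ Pb ∪ Pr ∪ Pa) hU
    ⟨fun _ h => absurd h (Finset.notMem_empty _), fun _ h => absurd h (Finset.notMem_empty _)⟩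
  have hsub : ∀ P : Finset ℕ, P ⊆ {p} ∪ Pw ∪ Pb ∪ Pr ∪ Pa → AboveSet P ⊆ Sat U R := by
    rintro P hP W ⟨l, h1, h2⟩
    rw [hS]
    exact Or.inr ⟨l, hP h1, h2⟩
  have hpS := hsub {p} fun l h => by simp_all
  have hwS := hsub Pw fun l h => by simp [h]
  have hbS := hsub Pb fun l h => by simp [h]
  have hrS := hsub Pr fun l h => by simp [h]
  have hA : Adq U (Sat U R) := hPa.mono (hsub Pa fun l h => by simp [h])
  obtain ⟨T, hdis, hRT, hcard, hspl, hsurj⟩ := hT p hp2 U U' x σ R hU hζ hc hR hpS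
    ⟨w, ⟨hw, fun W hW => by
      rw [Units.val_pow_eq_pow_val, map_pow, hPw W fun h => hW (hwS h), one_pow]⟩, hxw⟩
  have hSS : Sat U R ⊆ Sat U (R ∪ T) := fun W h => sat_union.2 (Or.inl h)
  have hidx := hf.idx U U' p x σ (R ∪ T) hU hTC hpp hc hRT (hA.mono hSS)
    fun W hW0 hW g hg => hN g hg.2 (hPr W hW0 (fun h => hW (hSS (hrS h))) g hg.1)
  have hnsp : nsp U U' (R ∪ T) = nsp U U' R := by
    unfold nsp
    rw [Finset.filter_union, Finset.filter_eq_empty_iff.2 fun W hW => not_not.2 (hspl W hW),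
      Finset.union_empty]
  obtain ⟨hev, hsu⟩ := hs U (R ∪ T) p hU hTC hRT hpp
  rw [tor_eq hφ hζ, Finset.card_union_of_disjoint hdis] at hsu
  have hsu' := Nat.eq_of_mul_eq_mul_right hpp.pos hsu
  have hkey := fun e he hl' => key h3 hv hun hf hp2 hU hζ hpS hA hdis hRT hsurj (e := e) he hl'
  rw [hnsp] at hidx
  have hbE : b ∈ ES U (Sat U (R ∪ T)) := ⟨hb, fun W hW => hPb W fun h => hW (hSS (hbS h))⟩
  have hE : ∀ V : R, ES U (Sat U (R ∪ T)) ≤ fixU (DG V.1 ⊓ U) :=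
    fun V e he => fixU_anti inf_le_right he.1
  have hNL : ∀ V : Pl, (ES U' (Sat U (R ∪ T))).map (nrmU σ p) ≤ LN V U U' x := by
    rintro V _ ⟨y, hy, rfl⟩
    exact mem_LN.2 fun τ hτ h1 =>
      ⟨y, fixU_anti inf_le_right hy.1, hc.nrmU_eq hτ.2 h1 hy.1⟩
  have hNG : (ES U' (Sat U (R ∪ T))).map (nrmU σ p) ≤ NG U' σ p :=
    Subgroup.map_mono fun y hy => hy.1
  generalize (ES U' (Sat U (R ∪ T))).map (nrmU σ p) = NE at hidx hNL hNG
  generalize ES U (Sat U (R ∪ T)) = E at hidx hsu' hkey hbE hE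
  have hB : (⨅ V : R, (fixU (DG V.1 ⊓ U)).map (powMonoidHom p)).relIndex E = pw p E := by
    rw [pw, ← Subgroup.inf_relIndex_right]
    congr 1
    refine le_antisymm (fun e he => ?_) ?_
    · exact hkey e he.2 fun V hV => Subgroup.mem_iInf.1 he.1 ⟨V, hV⟩
    · rintro _ ⟨y, hy, rfl⟩
      exact ⟨Subgroup.mem_iInf.2 fun V => ⟨y, hE V hy, rfl⟩, E.pow_mem hy p⟩
  have hpw : ∀ V ∈ R, pw p (fixU (DG V ⊓ U)) ≠ 0 ∧
      pw p (fixU (DG V ⊓ U)) ≤ p ^ 2 * qO V (DG V ⊓ U) (p : Qb) := fun V hV => by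
    obtain ⟨h0, h1⟩ := hφ.tor p (fixU (DG V ⊓ U)) hpp
    rw [hφ.pw V _ p (hR.1 V hV) (hU.inf_top _) hpp]
    exact ⟨mul_ne_zero (mul_ne_zero hpp.ne_zero h0)
      (hd.fin V _ p (hR.1 V hV) (hU.inf_top _) hpp.ne_zero),
      Nat.mul_le_mul_right _ (by rw [sq]; exact Nat.mul_le_mul_left _ h1)⟩
  have hcount := count E (fun V : R => fixU (DG V.1 ⊓ U))
    (fun V => (fixU (DG V.1 ⊓ U)).map (powMonoidHom p)) (fun V => LN V.1 U U' x) hE
    (by rintro V _ ⟨y, hy, rfl⟩; exact mem_LN.2 (locNorm_pow hc.le hy)) p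
    (fun V => (hpw V.1 V.2).1) (by
      rw [hB, hsu']
      change ∏ V : R, pw p (fixU (DG V.1 ⊓ U)) ≤ _
      rw [Finset.prod_coe_sort R fun V => pw p (fixU (DG V ⊓ U))]
      refine (Finset.prod_le_prod' fun V hV => (hpw V hV).2).trans ?_
      rw [Finset.prod_mul_distrib, Finset.prod_const]
      refine (Nat.mul_le_mul_left _ (hd.prod U R p hU hR hpp.ne_zero)).trans (le_of_eq ?_)
      rw [← pow_mul, ← _root_.pow_add, ← pow_succ']
      congr 1
      obtain ⟨k, hk⟩ := hev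
      omega)
  have hprod : ∏ V : R, (LN V.1 U U' x).relIndex (fixU (DG V.1 ⊓ U)) = p ^ nsp U U' R := by
    rw [Finset.prod_coe_sort R fun V => (LN V U U' x).relIndex (fixU (DG V ⊓ U)),
      Finset.prod_congr rfl fun V hV => LN_idx hl hU hc (hR.1 V hV), Finset.prod_ite,
      Finset.prod_const_one, mul_one, Finset.prod_const]
    rfl
  rw [hprod, ← hidx, mul_comm] at hcount
  have h1 := Nat.le_of_mul_le_mul_left hcount hpp.pos
  have h0 : NE.relIndex E ≠ 0 := left_ne_zero_of_mul (hidx ▸ pow_ne_zero _ hpp.ne_zero)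
  have h2 := Subgroup.relIndex_mul_relIndex (NE ⊓ E) ((⨅ V : R, LN V.1 U U' x) ⊓ E) E
    (inf_le_inf_right E (le_iInf fun V => hNL V.1)) inf_le_right
  rw [Subgroup.inf_relIndex_right, Subgroup.inf_relIndex_right] at h2
  rw [← h2] at h1 h0
  have h4 : (NE ⊓ E).relIndex ((⨅ V : R, LN V.1 U U' x) ⊓ E) = 1 := by
    have h5 := Nat.pos_of_ne_zero (left_ne_zero_of_mul h0)
    have h6 := Nat.pos_of_ne_zero (right_ne_zero_of_mul h0)
    nlinarith
  exact hNG (Subgroup.relIndex_eq_one.1 h4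
    ⟨Subgroup.mem_iInf.2 fun V => mem_LN.2 (hloc V.1 (hR.1 V.1 V.2)), hbE⟩).1

end Pool.Agent.MP_59efd2_nt.lz

end
end MrgPart4

-- ======== part 5: formerly Pool.Agent.MP_59efd2_nt.lz.Iwa
section MrgPart5

/-!
# Row IWA: Iwasawa classes are unramified away from `p`
-/

noncomputable section

namespace Pool.Agent.MP_59efd2_nt.lz

open scoped Pointwise Classical
open Additive Finset

set_option linter.unusedSectionVars false

namespace IwaP

/-- A function invariant under `t` has sum zero in a group killed by a divisor of the order. -/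
lemma sum_inv_zero {G Q : Type} [Group G] [Fintype G] [AddCommGroup Q] (t : G) (f : G → Q)
    (hf : ∀ y, f (y * t) = f y) (k : ℕ) (hk : k ∣ orderOf t) (hQ : ∀ y, k • f y = 0) :
    ∑ y, f y = 0 := by
  let s : Subgroup G := Subgroup.zpowers t
  have hpow : ∀ (j : ℕ) (y : G), f (y * t ^ j) = f y := by
    intro j
    induction j with
    | zero => intro y; simp
    | succ j ih => intro y; rw [pow_succ, ← mul_assoc, hf, ih]
  have hs : ∀ (y : G) (x : s), f (y * x) = f y := by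
    intro y x
    obtain ⟨j, hj⟩ := (mem_powers_iff_mem_zpowers (x := t) (y := (x : G))).2 x.2
    rw [← hj]; exact hpow j y
  let e : (G ⧸ s) × s → G := fun z => z.1.out * z.2
  have he : Function.Bijective e := by
    constructor
    · rintro ⟨q, x⟩ ⟨q', x'⟩ h
      have h1 : q = q' := by
        have h2 := congrArg (QuotientGroup.mk : G → G ⧸ s) h
        simp only [e, QuotientGroup.mk_mul_of_mem _ x.2, QuotientGroup.mk_mul_of_mem _ x'.2,
          QuotientGroup.out_eq'] at h2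
        exact h2
      subst h1
      have h3 : (x : G) = x' := mul_left_cancel h
      rw [Subtype.ext h3]
    · intro y
      have h1 : ((QuotientGroup.mk y : G ⧸ s).out)⁻¹ * y ∈ s :=
        QuotientGroup.eq.1 (QuotientGroup.out_eq' _)
      exact ⟨(QuotientGroup.mk y, ⟨_, h1⟩), by simp [e]⟩
  rw [← he.sum_comp f, Fintype.sum_prod_type]
  refine Finset.sum_eq_zero fun q _ => ?_
  simp only [e, hs, Finset.sum_const, Finset.card_univ]
  obtain ⟨d, hd⟩ := hk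
  rw [Fintype.card_zpowers, hd, mul_comm, mul_smul, hQ, smul_zero]

variable {p : ℕ} [Fact p.Prime]

/-- Reduction from level `m` to level `n`. -/
def cs {m n : ℕ} (h : n ≤ m) : ZMod (p ^ m) →+* ZMod (p ^ n) :=
  ZMod.castHom (pow_dvd_pow p h) (ZMod (p ^ n))

/-- Reduction of group elements. -/
def pr {m n : ℕ} (h : n ≤ m) : Gam p m →* Gam p n := Units.map (cs (p := p) h).toMonoidHom

lemma cs_toZModPow {m n : ℕ} (h : n ≤ m) (x : ℤ_[p]) :
    cs h (PadicInt.toZModPow m x) = PadicInt.toZModPow n x :=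
  RingHom.congr_fun (PadicInt.zmod_cast_comp_toZModPow n m h) x

lemma pr_chiN {m n : ℕ} (h : n ≤ m) (g : GQ) : pr h (chiN p m g) = chiN p n g :=
  Units.ext (cs_toZModPow h _)

/-- The map from level `m` to level `n`, written with coefficients. -/
def Phi {m n : ℕ} (h : n ≤ m) (x : LamN p m) : LamN p n :=
  ∑ y : Gam p m, MonoidAlgebra.single (pr h y) (cs h (x.coeff y))

lemma Phi_add {m n : ℕ} (h : n ≤ m) (x x' : LamN p m) : Phi h (x + x') = Phi h x + Phi h x' := by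
  simp [Phi, Finset.sum_add_distrib, MonoidAlgebra.single_add]

lemma Phi_zero {m n : ℕ} (h : n ≤ m) : Phi h (0 : LamN p m) = 0 := by
  simp [Phi]

lemma Phi_single {m n : ℕ} (h : n ≤ m) (y : Gam p m) (c : ZMod (p ^ m)) :
    Phi h (MonoidAlgebra.single y c) = MonoidAlgebra.single (pr h y) (cs h c) := by
  unfold Phi
  rw [Finset.sum_eq_single y]
  · simp
  · intro b _ hb
    simp [Finsupp.single_eq_of_ne hb]
  · simp

lemma Phi_self (n : ℕ) (x : LamN p n) : Phi le_rfl x = x := by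
  induction x using MonoidAlgebra.induction_linear with
  | zero => exact Phi_zero _
  | add a b ha hb => rw [Phi_add, ha, hb]
  | single γ c =>
    rw [Phi_single]
    congr 1
    · ext; simp [pr, cs]
    · simp [cs]

lemma Phi_trans {m n : ℕ} (h : n ≤ m) (x : LamN p (m + 1)) :
    Phi h (trans p m x) = Phi (h.trans (Nat.le_succ m)) x := by
  induction x using MonoidAlgebra.induction_linear with
  | zero => rw [map_zero, Phi_zero, Phi_zero]
  | add a b ha hb => rw [map_add, Phi_add, Phi_add, ha, hb]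
  | single γ c =>
    have key : ∀ u : ZMod (p ^ (m + 1)), cs h (red p m u) = cs (h.trans (Nat.le_succ m)) u :=
      fun u => RingHom.congr_fun (ZMod.castHom_comp (pow_dvd_pow p h) _) u
    rw [trans_single, Phi_single, Phi_single, key]
    congr 1
    exact Units.ext (key _)

lemma Phi_proj {m n : ℕ} (h : n ≤ m) (x : Lam p) : Phi h (proj p m x) = proj p n x := by
  induction m, h using Nat.le_induction with
  | base => exact Phi_self n _
  | succ m hm ih => rw [← ih, ← trans_proj p m x, Phi_trans]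

/-- `ρ` modulo `p^n`. -/
def rn (ρ : GQ →* GL (Fin 2) ℤ_[p]) (n : ℕ) (g : GQ) : Matrix (Fin 2) (Fin 2) (ZMod (p ^ n)) :=
  (ρ g : Matrix (Fin 2) (Fin 2) ℤ_[p]).map (PadicInt.toZModPow n)

lemma rn_mul (ρ : GQ →* GL (Fin 2) ℤ_[p]) (n : ℕ) (g h : GQ) :
    rn ρ n (g * h) = rn ρ n g * rn ρ n h := by
  simp [rn, Matrix.map_mul]

lemma rn_one (ρ : GQ →* GL (Fin 2) ℤ_[p]) (n : ℕ) : rn ρ n 1 = 1 := by
  simp [rn]

lemma actN_apply (ρ : GQ →* GL (Fin 2) ℤ_[p]) (n : ℕ) (g : GQ) (w : Fin 2 → LamN p n)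
    (i : Fin 2) : actN ρ n g w i = MonoidAlgebra.single (chiN p n g)⁻¹ 1 *
      ∑ j, MonoidAlgebra.single 1 (rn ρ n g i j) * w j := by
  have h1 : proj p n (grp p (chi p g)⁻¹) = MonoidAlgebra.single (chiN p n g)⁻¹ 1 := by
    rw [proj_grp, map_inv]; rfl
  simp only [actN, h1, LinearMap.toAddMonoidHom_coe, LinearMap.smul_apply, Pi.smul_apply,
    smul_eq_mul, Matrix.mulVecLin_apply, Matrix.mulVec, dotProduct, Matrix.map_apply,
    RingHom.comp_apply, proj_cst, rn]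

/-- The coefficient functions of a cocycle. -/
def cf (c : GQ → Fin 2 → Lam p) {m n : ℕ} (h : n ≤ m) (y : Gam p m) (g : GQ) :
    Fin 2 → ZMod (p ^ n) := fun i => cs h ((proj p m (c g i)).coeff y)

lemma cf_mul {ρ : GQ →* GL (Fin 2) ℤ_[p]} {c : GQ → Fin 2 → Lam p} (hc : c ∈ Z1 (actG ρ))
    {m n : ℕ} (h : n ≤ m) (y : Gam p m) (g k : GQ) :
    cf c h y (g * k) = cf c h y g + (rn ρ n g).mulVec (cf c h (chiN p m g * y) k) := by
  funext i
  have h1 := congrFun (hc.2 g k) i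
  have h2 := congrFun (proj_actG ρ m g (c k)) i
  simp only [cf, h1, Pi.add_apply, map_add, MonoidAlgebra.coeff_add, Finsupp.add_apply]
  congr 1
  rw [h2, actN_apply, MonoidAlgebra.coeff_single_mul_apply, inv_inv, one_mul,
    MonoidAlgebra.coeff_sum, Finsupp.finsetSum_apply, map_sum]
  simp only [Matrix.mulVec, dotProduct, cf]
  refine Finset.sum_congr rfl fun j _ => ?_
  rw [MonoidAlgebra.coeff_single_mul_apply, inv_one, one_mul, map_mul]
  congr 1
  exact cs_toZModPow h _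

lemma chiN_eq_one {n : ℕ} {g : GQ} (hg : g (zt p n) = zt p n) : chiN p n g = 1 := by
  have h := (apply_root p n g (zt_prim p n).pow_eq_one).symm.trans hg
  have h2 : zt p n ^ (chiN p n g : ZMod (p ^ n)).val = zt p n ^ (1 : ZMod (p ^ n)).val := by
    rw [h]
    have := apply_root p n 1 (zt_prim p n).pow_eq_one
    simpa using this
  exact Units.ext (ZMod.val_injective _
    ((zt_prim p n).pow_inj (ZMod.val_lt _) (ZMod.val_lt _) h2))

lemma chiN_eq_nat {n l : ℕ} {g : GQ} (hg : g (zt p n) = zt p n ^ l) :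
    (chiN p n g : ZMod (p ^ n)) = l := by
  apply iot_injective p n
  have h := aU_iot p n g ((1 : ℕ) : ZMod (p ^ n))
  rw [Nat.cast_one, mul_one] at h
  rw [← h, iot_natCast, ← Nat.cast_one, iot_natCast, aU_ofMul, pow_one]
  exact congrArg Additive.ofMul (Units.ext (by simpa [ztU] using hg))

/-- Smooth homomorphisms on an open normal part of inertia are fixed by conjugation. -/
lemma hom_conj (h3 : Coh3Stmt) (hv : ValStmt) {W : Pl} (hW : W.valuation (p : Qb) = 1) (n : ℕ)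
    (J : Subgroup GQ) (hJ : J ≤ IG W) (κ : GQ → ZMod (p ^ n))
    (hκ : Zo J (mulAct fun g => (chiN p n g : ZMod (p ^ n))) κ) {ψ : GQ} (hψ : ψ ∈ DG W)
    (hχ : chiN p n ψ = 1) (hn : ∀ i ∈ J, ψ⁻¹ * i * ψ ∈ J) {i : GQ} (hi : i ∈ J) :
    κ (ψ⁻¹ * i * ψ) = κ i := by
  obtain ⟨w, hw, hw'⟩ := h3.kumTo p n J κ hκ
  set u : Qbˣ := sU ψ w / w with hu
  have hw0 : W.valuation (w : Qb) ≠ 0 := by simp
  have hvu : W.valuation (u : Qb) = 1 := by
    rw [hu, Units.val_div_eq_div_val, map_div₀, coe_sU, hv.inv W ψ hψ, div_self hw0]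
  have hfix : sU i (u ^ p ^ n) = u ^ p ^ n := by
    have a1 : sU i (w ^ p ^ n) = w ^ p ^ n := Units.ext (hw i hi)
    have a2 : sU (ψ⁻¹ * i * ψ) (w ^ p ^ n) = w ^ p ^ n := Units.ext (hw _ (hn i hi))
    have a3 : sU i (sU ψ (w ^ p ^ n)) = sU ψ (w ^ p ^ n) := by
      conv_rhs => rw [← a2, ← sU_mul]
      rw [← sU_mul]; congr 2; group
    rw [hu, div_pow, ← map_pow, map_div, a1, a3]
  have hiu : sU i u = u := by
    have hI := (hv.ig W i).1 (hJ hi)
    have huW : (u : Qb) ∈ W := by rw [← W.valuation_le_one_iff, hvu]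
    have b1 := hI.2 _ huW
    have hu0 : (u : Qb) ≠ 0 := u.ne_zero
    have b2 : ((sU i u / u : Qbˣ) : Qb) = 1 := by
      refine hv.mu' W (p ^ n) _ (by rw [Nat.cast_pow, map_pow, hW, one_pow]) ?_ ?_
      · rw [← Units.val_pow_eq_pow_val, div_pow, ← map_pow, hfix, div_self', Units.val_one]
      · rw [Units.val_div_eq_div_val, coe_sU, div_sub_one hu0, map_div₀, hvu, div_one]
        exact b1
    exact div_eq_one.1 (Units.ext b2)
  apply iot_injective p n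
  have c1 : sU (ψ⁻¹ * i * ψ) w / w = sU ψ⁻¹ (sU i w / w) := by
    have d1 : sU i (sU ψ w) / sU ψ w = sU i w / w := by
      have d2 : sU ψ w = u * w := by rw [hu, div_mul_cancel]
      rw [d2, map_mul, hiu, mul_div_mul_left_eq_div]
    rw [← d1, map_div, ← sU_mul, ← sU_mul, ← sU_mul, inv_mul_cancel, sU_one]
  rw [hw' _ (hn i hi), c1, ← aU_ofMul, ← hw' i hi, aU_iot, map_inv, hχ, inv_one, Units.val_one,
    one_mul]

/-- A power of an element of `D ∩ N` acts trivially on cocycles of inertia. -/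
lemma coc_conj (h3 : Coh3Stmt) (hv : ValStmt) {W : Pl} (hW : W.valuation (p : Qb) = 1) (n : ℕ)
    (ρ : GQ →* GL (Fin 2) ℤ_[p]) (N : ONS) (hN : ∀ g ∈ N, rn ρ n g = 1 ∧ chiN p n g = 1)
    (z : GQ → Fin 2 → ZMod (p ^ n)) (hz : Sm1 (IG W) z)
    (hz' : ∀ g ∈ IG W, ∀ k ∈ IG W, z (g * k) = z g + (rn ρ n g).mulVec (z k))
    {ψ : GQ} (hψ : ψ ∈ DG W) (hψN : ψ ∈ N) {i : GQ} (hi : i ∈ IG W) :
    z ((ψ ^ p ^ n)⁻¹ * i * ψ ^ p ^ n) = z i := by
  have hcI : ∀ {g : GQ}, g ∈ DG W → ∀ j ∈ IG W, g⁻¹ * j * g ∈ IG W := fun {g} hg j hj => by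
    simpa using hv.ig_normal W g⁻¹ ((DG W).inv_mem hg) j hj
  set J : Subgroup GQ := IG W ⊓ (N : Subgroup GQ) with hJ
  have hcJ : ∀ {g : GQ}, g ∈ DG W → ∀ j ∈ J, g⁻¹ * j * g ∈ J := fun {g} hg j hj =>
    ⟨hcI hg j hj.1, ons_conj' N hj.2 g⟩
  have h1 : ∀ j ∈ J, z (ψ⁻¹ * j * ψ) = z j := by
    intro j hj
    funext a
    refine hom_conj h3 hv hW n J inf_le_left (fun g => z g a)
      ⟨(hz.mono inf_le_left).comp fun v => v a, fun g hg k hk => ?_⟩ hψ (hN ψ hψN).2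
      (hcJ hψ) hj
    beta_reduce
    rw [hz' g hg.1 k hk.1, (hN g hg.2).1, mulAct_apply, (hN g hg.2).2]
    simp
  have h2 : ∀ (k : ℕ), ∀ j ∈ J, z ((ψ ^ k)⁻¹ * j * ψ ^ k) = z j := by
    intro k
    induction k with
    | zero => intro j _; simp
    | succ k ih =>
      intro j hj
      have e : (ψ ^ (k + 1))⁻¹ * j * ψ ^ (k + 1) = (ψ ^ k)⁻¹ * (ψ⁻¹ * j * ψ) * ψ ^ k := by
        rw [pow_succ']; group
      rw [e, ih _ (hcJ hψ j hj), h1 j hj]
  have hn : i⁻¹ * (ψ⁻¹ * i * ψ) ∈ J := by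
    refine ⟨(IG W).mul_mem ((IG W).inv_mem hi) (hcI hψ i hi), ?_⟩
    have e : i⁻¹ * (ψ⁻¹ * i * ψ) = (i⁻¹ * ψ⁻¹ * i) * ψ := by group
    rw [e]
    exact N.mul_mem (ons_conj' N (N.inv_mem hψN) i) hψN
  have h4 : ∀ k : ℕ, z ((ψ ^ k)⁻¹ * i * ψ ^ k) =
      z i + k • (rn ρ n i).mulVec (z (i⁻¹ * (ψ⁻¹ * i * ψ))) := by
    intro k
    induction k with
    | zero => simp
    | succ k ih =>
      have hk : ψ ^ k ∈ DG W := (DG W).pow_mem hψ k
      have hkN : ψ ^ k ∈ N := N.pow_mem hψN k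
      have e : (ψ ^ (k + 1))⁻¹ * i * ψ ^ (k + 1) =
          ((ψ ^ k)⁻¹ * i * ψ ^ k) * ((ψ ^ k)⁻¹ * (i⁻¹ * (ψ⁻¹ * i * ψ)) * ψ ^ k) := by
        rw [pow_succ']; group
      rw [e, hz' _ (hcI hk i hi) _ (hcJ hk _ hn).1, ih, h2 k _ hn, rn_mul, rn_mul,
        (hN _ hkN).1, (hN _ (N.inv_mem hkN)).1, one_mul, mul_one, succ_nsmul, add_assoc]
  rw [h4]
  have h5 : ∀ v : Fin 2 → ZMod (p ^ n), p ^ n • v = 0 := fun v => by
    funext a
    rw [Pi.smul_apply, nsmul_eq_mul, ZMod.natCast_self, zero_mul, Pi.zero_apply]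
  rw [h5, add_zero]

/-- The order of `L` modulo `p^m` is divisible by `p^n` for a suitable `m`. -/
lemma exists_level (n L : ℕ) (hL : 1 < L) (h1 : ((L : ℕ) : ZMod (p ^ 1)) = 1) :
    ∃ m, n ≤ m ∧ ∀ t : Gam p m, (t : ZMod (p ^ m)) = L → p ^ n ∣ orderOf t := by
  have hp : p.Prime := Fact.out
  obtain ⟨m, hm1, hm2⟩ : ∃ m, n ≤ m ∧ L ^ p ^ n ≤ m := ⟨_, le_max_left _ _, le_max_right _ _⟩
  refine ⟨m, hm1, fun t ht => ?_⟩
  have hd : (p : ℤ) ∣ (L : ℤ) - 1 := by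
    have : (((L : ℤ) - 1 : ℤ) : ZMod (p ^ 1)) = 0 := by push_cast; rw [h1, sub_self]
    simpa using (ZMod.intCast_zmod_eq_zero_iff_dvd _ _).1 this
  have h2 : t ^ p ^ m = 1 := by
    have h3 := dvd_sub_pow_of_dvd_sub hd m
    rw [one_pow] at h3
    have h4 : ((p ^ m : ℕ) : ℤ) ∣ (L : ℤ) ^ p ^ m - 1 := by
      push_cast
      exact (pow_dvd_pow _ (Nat.le_succ m)).trans h3
    have h5 := (ZMod.intCast_zmod_eq_zero_iff_dvd _ _).2 h4
    push_cast at h5
    exact Units.ext (by rw [Units.val_pow_eq_pow_val, ht, Units.val_one]; exact sub_eq_zero.1 h5)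
  obtain ⟨s, -, hs⟩ := (Nat.dvd_prime_pow hp).1 (orderOf_dvd_of_pow_eq_one h2)
  rw [hs]
  refine pow_dvd_pow p (not_lt.1 fun hlt => ?_)
  have h6 : t ^ p ^ n = 1 := orderOf_dvd_iff_pow_eq_one.1 (hs ▸ pow_dvd_pow p hlt.le)
  have h7 : ((L ^ p ^ n : ℕ) : ZMod (p ^ m)) = ((1 : ℕ) : ZMod (p ^ m)) := by
    have := congrArg Units.val h6
    rw [Units.val_pow_eq_pow_val, ht, Units.val_one] at this
    push_cast
    exact this
  have h8 : L ^ p ^ n < p ^ m :=
    lt_of_le_of_lt hm2 (Nat.lt_pow_self hp.one_lt)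
  have h9 : 1 < L ^ p ^ n := Nat.one_lt_pow (pow_pos hp.pos n).ne' hL
  have h10 := (ZMod.natCast_eq_natCast_iff' _ _ _).1 h7
  rw [Nat.mod_eq_of_lt h8, Nat.mod_eq_of_lt (h9.trans h8)] at h10
  omega

/-- The group of coboundaries. -/
def BoG {M : Type} [AddCommGroup M] (H : Subgroup GQ) (a : GQ → M →+ M) :
    AddSubgroup (GQ → M) where
  carrier := {c | Bo H a c}
  add_mem' := by
    rintro c c' ⟨m, hm⟩ ⟨m', hm'⟩
    exact ⟨m + m', fun g hg => by rw [Pi.add_apply, hm g hg, hm' g hg, map_add]; abel⟩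
  zero_mem' := ⟨0, fun g _ => by simp⟩
  neg_mem' := by
    rintro c ⟨m, hm⟩
    exact ⟨-m, fun g hg => by rw [Pi.neg_apply, hm g hg, map_neg]; abel⟩

end IwaP

open IwaP in
theorem iwa (_h1 : Coh1Stmt) (h3 : Coh3Stmt) (hc : ContStmt) (hv : ValStmt) (_hd : DensStmt)
    (hu : UnrStmt) : IwaStmt := by
  intro p _ ρ hρ c hcz W hW hWp n
  have hp : p.Prime := Fact.out
  obtain ⟨l, hl, hWl⟩ := hv.above_ex W hW
  have hlp : ∀ k, ¬ l ∣ p ^ k := fun k h => by
    have := (Nat.prime_dvd_prime_iff_eq hl hp).1 (hl.dvd_of_dvd_pow h)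
    exact hWp (this ▸ hWl)
  have hvp : W.valuation (p : Qb) = 1 := by
    have := (hv.int W l hl hWl (p : ℤ)).2 (by
      rw [Int.natCast_dvd_natCast]; simpa using hlp 1)
    simpa using this
  have hI : ∀ k, ∀ g ∈ IG W, chiN p k g = 1 := fun k g hg =>
    chiN_eq_one (hu.ig_root W l hl hWl g hg (p ^ k) _ (hlp k) (zt_prim p k).pow_eq_one)
  obtain ⟨φ, hφ⟩ := hu.frob W l hl hWl
  have hφχ : ∀ k, (chiN p k φ : ZMod (p ^ k)) = l := fun k =>
    chiN_eq_nat (hu.frob_root W l φ hl hWl hφ (p ^ k) _ (hlp k) (zt_prim p k).pow_eq_one)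
  obtain ⟨N1, hN1⟩ := hc.rho p ρ hρ n
  obtain ⟨N2, hN2⟩ := exists_ons_fix (zt p n)
  obtain ⟨N3, hN3⟩ := exists_ons_fix (zt p 1)
  set N : ONS := N1 ⊓ (N2 ⊓ N3) with hNdef
  have hN : ∀ g ∈ N, rn ρ n g = 1 ∧ chiN p n g = 1 := fun g hg => by
    refine ⟨?_, chiN_eq_one (hN2 g hg.2.1)⟩
    have := hN1 1 trivial g trivial hg.1
    rw [one_mul] at this
    exact this.trans (rn_one ρ n)
  have hfi := ons_finiteIndex N
  set r := (N : Subgroup GQ).index with hr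
  have hr0 : r ≠ 0 := hfi.index_ne_zero
  have hψN : φ ^ r ∈ N := by
    have := N.isNormal'
    exact Subgroup.pow_index_mem (N : Subgroup GQ) φ
  have hψ : φ ^ r ∈ DG W := (DG W).pow_mem hφ.1 r
  set g₀ : GQ := (φ ^ r) ^ p ^ n with hg₀
  have hg₀N : g₀ ∈ N := N.pow_mem hψN _
  have hg₀D : g₀ ∈ DG W := (DG W).pow_mem hψ _
  have hg₀χ : ∀ k, (chiN p k g₀ : ZMod (p ^ k)) = ((l ^ r) ^ p ^ n : ℕ) := fun k => by
    rw [hg₀, map_pow, map_pow, Units.val_pow_eq_pow_val, Units.val_pow_eq_pow_val, hφχ]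
    push_cast; rfl
  obtain ⟨m, hnm, hm⟩ := exists_level (p := p) n ((l ^ r) ^ p ^ n)
    (Nat.one_lt_pow (pow_pos hp.pos n).ne' (Nat.one_lt_pow hr0 hl.one_lt))
    (by rw [← hg₀χ 1, chiN_eq_one (hN3 g₀ hg₀N.2.2), Units.val_one])
  set t : Gam p m := chiN p m g₀ with ht
  have hord := hm t (hg₀χ m)
  have hprt : pr hnm t = 1 := by rw [ht, pr_chiN, (hN g₀ hg₀N).2]
  have hzI : ∀ y, ∀ g ∈ IG W, ∀ k ∈ IG W,
      cf c hnm y (g * k) = cf c hnm y g + (rn ρ n g).mulVec (cf c hnm y k) := fun y g hg k _ => by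
    rw [cf_mul hcz, hI m g hg, one_mul]
  have hsm : ∀ y, Sm1 (IG W) (cf c hnm y) := fun y =>
    (((hc.zG p ρ c hcz m).1).mono le_top).comp fun v i => cs hnm ((v i).coeff y)
  have hstep : ∀ y, ∀ i ∈ IG W, cf c hnm (y * t) i =
      cf c hnm y i + ((rn ρ n i).mulVec (cf c hnm y g₀) - cf c hnm y g₀) := by
    intro y i hi
    have e : g₀ * (g₀⁻¹ * i * g₀) = i * g₀ := by group
    have a1 := cf_mul hcz hnm y g₀ (g₀⁻¹ * i * g₀)
    have a2 := cf_mul hcz hnm y i g₀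
    rw [e, a2, hI m i hi, one_mul, (hN g₀ hg₀N).1, Matrix.one_mulVec, ← ht,
      coc_conj h3 hv hvp n ρ N hN _ (hsm _) (hzI _) hψ hψN hi, mul_comm t y] at a1
    rw [← add_sub_assoc, a1]; abel
  let E : Gam p m → GQ → Fin 2 → LamN p n := fun y g i =>
    MonoidAlgebra.single (pr hnm y) (cf c hnm y g i)
  let B := BoG (IG W) (actN ρ n)
  have hsum : (fun g i => proj p n (c g i)) = ∑ y, E y := by
    funext g i
    rw [← Phi_proj hnm, Finset.sum_apply, Finset.sum_apply]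
    rfl
  have hact : ∀ i ∈ IG W, ∀ (y₀ : Gam p n) (v : Fin 2 → ZMod (p ^ n)),
      actN ρ n i (fun a => MonoidAlgebra.single y₀ (v a)) =
        fun a => MonoidAlgebra.single y₀ ((rn ρ n i).mulVec v a) := by
    intro i hi y₀ v
    funext a
    rw [actN_apply, hI n i hi, inv_one, ← MonoidAlgebra.one_def, one_mul]
    simp [Matrix.mulVec, dotProduct, MonoidAlgebra.single_mul_single, MonoidAlgebra.single_add]
  have hinv : ∀ y, (QuotientAddGroup.mk (E (y * t)) : _ ⧸ B) = QuotientAddGroup.mk (E y) := by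
    intro y
    symm
    refine QuotientAddGroup.eq.2 ⟨fun a => MonoidAlgebra.single (pr hnm y) (cf c hnm y g₀ a),
      fun i hi => ?_⟩
    rw [hact i hi]
    funext a
    simp only [E, Pi.add_apply, Pi.neg_apply, Pi.sub_apply, map_mul, hprt, mul_one, hstep y i hi,
      MonoidAlgebra.single_add, MonoidAlgebra.single_sub]
    abel
  have hkill : ∀ y, p ^ n • (QuotientAddGroup.mk (E y) : _ ⧸ B) = 0 := by
    intro y
    have : p ^ n • E y = 0 := by
      funext g i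
      simp only [E, Pi.smul_apply, Pi.zero_apply, MonoidAlgebra.smul_single]
      rw [nsmul_eq_mul, ZMod.natCast_self, zero_mul, MonoidAlgebra.single_zero]
    rw [← QuotientAddGroup.mk_nsmul, this, QuotientAddGroup.mk_zero]
  have hz := sum_inv_zero t (fun y => (QuotientAddGroup.mk (E y) : _ ⧸ B)) hinv (p ^ n) hord hkill
  rw [← QuotientAddGroup.mk_sum, QuotientAddGroup.eq_zero_iff] at hz
  rw [hsum]
  exact hz

end Pool.Agent.MP_59efd2_nt.lz

end
end MrgPart5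

-- marker of a merged file
example : 731051 + 764644 = 731051 + 764644 := rfl
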