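import Mathlib.Algebra.AffineMonoid.Basic
import Mathlib.Tactic.Monotonicity.Lemmas
import Mathlib.Data.Int.Star
import Mathlib.Algebra.Order.Ring.Star
import Mathlib.RingTheory.PicardGroup
import Pool.Agent.MP_59efd2_nt.lz.Lii

-- ======== part 0: formerly Pool.Agent.MP_59efd2_nt.lz.Coh2
section MrgPart0

/-!
# Row COH2: inflation and cyclic 2-cocycles
-/

noncomputable section

namespace Pool.Agent.MP_59efd2_nt.lz

open scoped Pointwise Classical
open Finset

namespace Coh2P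

variable {M : Type} [AddCommGroup M] {H H' : Subgroup GQ} {a : GQ → M →+ M}

/-- representative of the coset `g H'` -/
def rep (H' : Subgroup GQ) (g : GQ) : GQ := (QuotientGroup.mk g : GQ ⧸ H').out

theorem rep_cos (g : GQ) : (rep H' g)⁻¹ * g ∈ H' :=
  QuotientGroup.eq.1 (QuotientGroup.out_eq' (QuotientGroup.mk g : GQ ⧸ H'))

theorem rep_mem (hle : H' ≤ H) {g : GQ} (hg : g ∈ H) : rep H' g ∈ H := by
  have h := H.mul_mem hg (H.inv_mem (hle (rep_cos (H' := H') g)))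
  simpa using h

theorem rep_mul (g : GQ) {h : GQ} (hh : h ∈ H') : rep H' (g * h) = rep H' g := by
  unfold rep
  rw [QuotientGroup.mk_mul_of_mem g hh]

theorem conj_mem (hn : NormalIn H' H) {g n : GQ} (hg : g ∈ H) (h : n ∈ H') : g⁻¹ * n * g ∈ H' := by
  simpa using hn g⁻¹ (H.inv_mem hg) n h

theorem one_left {f : GQ → GQ → M} (ha : IsAct H a) (hf : Z2 H a f) {k : GQ} (hk : k ∈ H) :
    f 1 k = f 1 1 := by
  have := hf.2 1 H.one_mem 1 H.one_mem k hk
  rw [ha.one, one_mul, one_mul] at this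
  exact add_left_cancel this

theorem one_right {f : GQ → GQ → M} (hf : Z2 H a f) {g : GQ} (hg : g ∈ H) :
    f g 1 = a g (f 1 1) := by
  have := hf.2 g hg 1 H.one_mem 1 H.one_mem
  rw [mul_one, mul_one] at this
  exact (add_right_cancel this).symm

/-- the coboundary of a smooth function -/
theorem b2_d {b : GQ → M} (hb : Sm1 H b) : B2 H a fun g h => a g (b h) - b (g * h) + b g :=
  ⟨b, hb, fun _ _ _ _ => rfl⟩

theorem right_inv {f : GQ → GQ → M} (hle : H' ≤ H) (hf : Z2 H a f)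
    (h0 : ∀ g ∈ H, ∀ h ∈ H', f g h = 0) {g k h : GQ} (hg : g ∈ H) (hk : k ∈ H) (hh : h ∈ H') :
    f g (k * h) = f g k := by
  have := hf.2 g hg k hk h (hle hh)
  rwa [h0 k hk h hh, h0 _ (H.mul_mem hg hk) h hh, map_zero, zero_add, zero_add] at this

theorem norm1 {f : GQ → GQ → M} (ha : IsAct H a) (ho : OpenIn H' H) (hf : Z2 H a f)
    (hb : B2 H' a f) : ∃ f', Z2 H a f' ∧ (∀ g ∈ H, ∀ h ∈ H', f' g h = 0) ∧ B2 H a (f - f') := by
  obtain ⟨b, hb1, hb2⟩ := hb
  have hle := ho.1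
  let c : GQ → M := fun k =>
    a (rep H' k) (b ((rep H' k)⁻¹ * k)) - f (rep H' k) ((rep H' k)⁻¹ * k)
  have hc : ∀ k ∈ H, ∀ h ∈ H', c (k * h) = c k + a k (b h) - f k h := by
    intro k hk h hh
    have e1 := hb2 _ (rep_cos k) h hh
    have e2 := hf.2 _ (rep_mem hle hk) _ (hle (rep_cos k)) h (hle hh)
    have e3 := ha.mul _ (rep_mem hle hk) _ (hle (rep_cos k)) (b h)
    rw [mul_inv_cancel_left] at e2 e3
    rw [e1, map_add, map_sub, ← e3] at e2
    simp only [c, rep_mul k hh, ← mul_assoc]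
    linear_combination (norm := abel1) -e2
  have hcs : Sm1 H c := by
    obtain ⟨N₁, hN₁⟩ := hb1
    obtain ⟨N₂, hN₂⟩ := hf.1
    obtain ⟨-, N₃, hN₃⟩ := ho
    refine ⟨N₁ ⊓ N₂ ⊓ N₃, fun k hk n hn hN => ?_⟩
    have hn' := hN₃ n hn hN.2
    have e1 := hN₁ 1 H'.one_mem n hn' hN.1.1
    have e2 := hN₂ k hk 1 H.one_mem 1 H.one_mem n hn N₂.one_mem hN.1.2
    have e3 := hc k hk 1 H'.one_mem
    rw [one_mul] at e1
    rw [mul_one, one_mul] at e2
    rw [mul_one] at e3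
    rw [hc k hk n hn', e1, e2, ← e3]
  let c' : GQ → M := fun k => c k + (f 1 1 - c 1)
  have hc's : Sm1 H c' := hcs.comp (· + (f 1 1 - c 1))
  have hB := b2_d (a := a) hc's
  refine ⟨f - fun g h => a g (c' h) - c' (g * h) + c' g, hf.sub (hB.z2 ha), ?_, ?_⟩
  · intro g hg h hh
    have e1 := hc g hg h hh
    have e2 := hc 1 H.one_mem h hh
    rw [one_mul, ha.one, one_left ha hf (hle hh)] at e2
    have e3 : c' h = b h := by simp only [c', e2]; abel
    simp only [Pi.sub_apply, e3]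
    simp only [c', e1]
    abel
  · rw [sub_sub_cancel]
    exact hB

theorem infl {f : GQ → GQ → M} (ha : IsAct H a) (ho : OpenIn H' H) (hn : NormalIn H' H)
    (hv : V1 H' a) (hf : Z2 H a f) (hb : B2 H' a f) :
    ∃ f', Z2 H a f' ∧ Infl H H' a f' ∧ B2 H a (f - f') := by
  obtain ⟨f₁, hf₁, h0, hB₁⟩ := norm1 ha ho hf hb
  have hle := ho.1
  have hl : ∀ g ∈ H, ∀ k ∈ H, ∀ n ∈ H', f₁ g (n * k) = f₁ g k := by
    intro g hg k hk n hn'
    have : n * k = k * (k⁻¹ * n * k) := by group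
    rw [this, right_inv hle hf₁ h0 hg hk (conj_mem hn hk hn')]
  have hz : ∀ k ∈ H, ∃ m, ∀ n ∈ H', f₁ n k = a n m - m := by
    intro k hk
    refine hv (fun n => f₁ n k) ⟨?_, fun n hn₁ n' hn₂ => ?_⟩
    · refine hf₁.1.imp fun N hN g hg n hn₁ hnN => ?_
      have := hN g (hle hg) k hk n (hle hn₁) 1 H.one_mem hnN N.one_mem
      rwa [mul_one] at this
    · have := hf₁.2 n (hle hn₁) n' (hle hn₂) k hk
      rw [hl n (hle hn₁) k hk n' hn₂, h0 n (hle hn₁) n' hn₂, add_zero] at this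
      beta_reduce
      rw [← this, add_comm]
  choose! m₀ hm₀ using hz
  let m : GQ → M := fun g => if g ∈ H' then 0 else m₀ (rep H' g)
  have hm0 : ∀ n ∈ H', m n = 0 := fun n h => if_pos h
  have hmr : ∀ g, ∀ n ∈ H', m (g * n) = m g := by
    intro g n h
    simp only [m, rep_mul g h, H'.mul_mem_cancel_right h]
  have hml : ∀ g ∈ H, ∀ n ∈ H', m (n * g) = m g := by
    intro g hg n h
    have : n * g = g * (g⁻¹ * n * g) := by group
    rw [this, hmr g _ (conj_mem hn hg h)]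
  have hmf : ∀ g ∈ H, ∀ n ∈ H', f₁ n g = a n (m g) - m g := by
    intro g hg n h
    by_cases hg' : g ∈ H'
    · rw [h0 n (hle h) g hg', hm0 g hg', map_zero, sub_zero]
    · have e := right_inv hle hf₁ h0 (hle h) (rep_mem hle hg) (rep_cos (H' := H') g)
      rw [mul_inv_cancel_left] at e
      simp only [m, if_neg hg']
      rw [e, hm₀ _ (rep_mem hle hg) n h]
  have hms : Sm1 H m := ho.2.imp fun N hN g _ n h hnN => hmr g n (hN n h hnN)
  have hB := b2_d (a := a) hms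
  set f₂ : GQ → GQ → M := f₁ - fun g h => a g (m h) - m (g * h) + m g with hf₂def
  have hf₂ : Z2 H a f₂ := hf₁.sub (hB.z2 ha)
  have z1 : ∀ g ∈ H, ∀ n ∈ H', f₂ g n = 0 := by
    intro g hg n h
    simp only [hf₂def, Pi.sub_apply, h0 g hg n h, hm0 n h, hmr g n h, map_zero]
    abel
  have z2 : ∀ g ∈ H, ∀ n ∈ H', f₂ n g = 0 := by
    intro g hg n h
    simp only [hf₂def, Pi.sub_apply, hmf g hg n h, hm0 n h, hml g hg n h]
    abel
  have i1 : ∀ g ∈ H, ∀ k ∈ H, ∀ n ∈ H', f₂ (g * n) k = f₂ g k := by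
    intro g hg k hk n h
    have e := hf₂.2 g hg n (hle h) k hk
    have e' : n * k = k * (k⁻¹ * n * k) := by group
    rw [z2 k hk n h, z1 g hg n h, map_zero, zero_add, add_zero, e',
      right_inv hle hf₂ z1 hg hk (conj_mem hn hk h)] at e
    exact e.symm
  refine ⟨f₂, hf₂, fun g hg k hk n h => ⟨i1 g hg k hk n h, right_inv hle hf₂ z1 hg hk h, ?_⟩, ?_⟩
  · have e := hf₂.2 n (hle h) g hg k hk
    have e' : n * g = g * (g⁻¹ * n * g) := by group
    rwa [z2 _ (H.mul_mem hg hk) n h, z2 g hg n h, add_zero, add_zero, e',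
      i1 g hg k hk _ (conj_mem hn hg h)] at e
  · have : f - f₂ = (f - f₁) + fun g h => a g (m h) - m (g * h) + m g := by
      rw [hf₂def]; abel
    rw [this]
    exact hB₁.add hB

theorem val_add {d : ℕ} (hd : 0 < d) (u v : ZMod d) :
    (u + v).val = if d ≤ u.val + v.val then u.val + v.val - d else u.val + v.val := by
  have : NeZero d := ⟨hd.ne'⟩
  split_ifs with h
  · exact ZMod.val_add_of_le h
  · exact ZMod.val_add_of_lt (not_le.1 h)

variable {d : ℕ} {x : GQ → ZMod d} {σ : GQ}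

theorem act_decomp (ha : IsAct H a) (hc : Cyc H H' d x σ) {g : GQ} (hg : g ∈ H) {y : M}
    (hy : ∀ n ∈ H', a n y = y) : a g y = a (σ ^ (x g).val) y := by
  have e := ha.mul _ (H.pow_mem hc.mem (x g).val) _ (hc.le (hc.decomp hg)) y
  rwa [mul_inv_cancel_left, hy _ (hc.decomp hg)] at e

/-- the carry of a quasi-periodic function -/
theorem carry (hc : Cyc H H' d x σ) {B : ℕ → M} {m : M} (hB : ∀ i, B (i + d) = B i + m)
    {g h : GQ} (hg : g ∈ H) (hh : h ∈ H) :
    cyc d x m g h = B ((x g).val + (x h).val) - B (x (g * h)).val := by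
  rw [hc.add g hg h hh, val_add hc.pos, cyc]
  split_ifs with h1
  · conv_rhs => rw [← Nat.sub_add_cancel h1, hB, Nat.sub_add_cancel h1]
    abel
  · rw [sub_self]

theorem cycNf {f : GQ → GQ → M} (ha : IsAct H a) (hc : Cyc H H' d x σ) (hf : Z2 H a f)
    (hi : Infl H H' a f) :
    (∀ g ∈ H, a g (∑ i ∈ range d, f (σ ^ i) σ) = ∑ i ∈ range d, f (σ ^ i) σ) ∧
      B2 H a (f - cyc d x (∑ i ∈ range d, f (σ ^ i) σ)) := by
  let B : ℕ → M := fun j => ∑ i ∈ range j, f (σ ^ i) σ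
  have hs : ∀ i, σ ^ i ∈ H := H.pow_mem hc.mem
  have hBs : ∀ j, B (j + 1) = B j + f (σ ^ j) σ := fun j => sum_range_succ _ j
  have hB0 : B 0 = 0 := sum_range_zero _
  have hfix : ∀ j, ∀ n ∈ H', a n (B j) = B j := by
    intro j n hn
    simp only [B, map_sum]
    exact sum_congr rfl fun i _ => (hi _ (hs i) σ hc.mem n hn).2.2
  have hform : ∀ i j, f (σ ^ i) (σ ^ j) =
      a (σ ^ i) (f 1 1) + B (i + j) - B i - a (σ ^ i) (B j) := by
    intro i j
    induction j with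
    | zero => rw [pow_zero, one_right hf (hs i), hB0, map_zero, add_zero]; abel
    | succ j ih =>
      have e := hf.2 _ (hs i) _ (hs j) σ hc.mem
      rw [← pow_succ, ← pow_add, ih] at e
      rw [← add_assoc, hBs, hBs, map_add]
      linear_combination (norm := abel1) e
  have hd : σ ^ d ∈ H' := hc.pow_mem hc.mem
  have hper : ∀ i, B (i + d) = B i + B d := by
    intro i
    induction i with
    | zero => rw [zero_add, hB0, zero_add]
    | succ i ih =>
      rw [add_right_comm, hBs, hBs, ih, pow_add, (hi _ (hs i) σ hc.mem _ hd).1]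
      abel
  refine ⟨fun g hg => ?_, fun g => f 1 1 - B (x g).val, hc.sm1.comp fun t => f 1 1 - B t.val,
    fun g hg h hh => ?_⟩
  · change a g (B d) = B d
    rw [act_decomp ha hc hg (hfix d)]
    have e1 := hform (x g).val d
    have e2 := (hi _ (hs (x g).val) 1 H.one_mem _ hd).2.1
    rw [one_mul, one_right hf (hs _), e1, hper] at e2
    linear_combination (norm := abel1) -e2
  · have e1 := (hi _ (hs (x g).val) h hh _ (hc.decomp hg)).1
    have e2 := (hi _ (hs (x g).val) _ (hs (x h).val) _ (hc.decomp hh)).2.1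
    rw [mul_inv_cancel_left] at e1 e2
    have e3 := act_decomp ha hc hg fun n hn => (hi 1 H.one_mem 1 H.one_mem n hn).2.2
    have e4 := act_decomp ha hc hg (hfix (x h).val)
    have e5 := carry hc hper hg hh
    change f g h - cyc d x (B d) g h = _
    beta_reduce
    rw [e5, e1, e2, hform, map_sub, e3, e4]
    abel

theorem cycZ {m : M} (hc : Cyc H H' d x σ) (hm : ∀ g ∈ H, a g m = m) : Z2 H a (cyc d x m) := by
  have : NeZero d := ⟨hc.pos.ne'⟩
  refine ⟨hc.sm1.left.comp₂ hc.sm1.right fun u v => if d ≤ u.val + v.val then m else 0,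
    fun g hg h hh k hk => ?_⟩
  have h1 := ZMod.val_lt (x g)
  have h2 := ZMod.val_lt (x h)
  have h3 := ZMod.val_lt (x k)
  simp only [cyc, hc.add g hg h hh, hc.add h hh k hk, val_add hc.pos, apply_ite (a g), hm g hg,
    map_zero]
  split_ifs <;> first | rfl | omega | simp

theorem cycOfNorm {y : M} (ha : IsAct H a) (hc : Cyc H H' d x σ) (hy : ∀ n ∈ H', a n y = y) :
    B2 H a (cyc d x (∑ i ∈ range d, a (σ ^ i) y)) := by
  let S : ℕ → M := fun j => ∑ i ∈ range j, a (σ ^ i) y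
  have hs : ∀ i, σ ^ i ∈ H := H.pow_mem hc.mem
  have hadd : ∀ i j, S (i + j) = S i + a (σ ^ i) (S j) := by
    intro i j
    simp only [S, sum_range_add, map_sum, pow_add, ha.mul _ (hs _) _ (hs _)]
  have hfix : ∀ j, ∀ n ∈ H', a n (S j) = S j := by
    intro j n hn
    simp only [S, map_sum]
    refine sum_congr rfl fun i _ => ?_
    have h1 := conj_mem hc.normalIn (hs i) hn
    have e : n * σ ^ i = σ ^ i * ((σ ^ i)⁻¹ * n * σ ^ i) := by group
    rw [← ha.mul _ (hc.le hn) _ (hs i), e, ha.mul _ (hs i) _ (hc.le h1), hy _ h1]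
  have hper : ∀ i, S (i + d) = S i + S d := by
    intro i
    rw [add_comm i d, hadd, hfix i _ (hc.pow_mem hc.mem), add_comm]
  refine ⟨fun g => S (x g).val, hc.sm1.comp fun t => S t.val, fun g hg h hh => ?_⟩
  change cyc d x (S d) g h = _
  rw [carry hc hper hg hh, act_decomp ha hc hg (hfix _), hadd]
  abel

theorem normOfCyc {m : M} (ha : IsAct H a) (hc : Cyc H H' d x σ) (hv : V1 H' a)
    (hm : ∀ g ∈ H, a g m = m) (hb : B2 H a (cyc d x m)) :
    ∃ y, (∀ n ∈ H', a n y = y) ∧ ∑ i ∈ range d, a (σ ^ i) y = m := by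
  have : NeZero d := ⟨hc.pos.ne'⟩
  rcases Nat.eq_or_lt_of_le (Nat.succ_le_of_lt hc.pos) with h1 | h1
  · refine ⟨m, fun n hn => hm n (hc.le hn), ?_⟩
    rw [sum_congr rfl fun i _ => hm _ (H.pow_mem hc.mem i), sum_const, card_range, ← h1]
    exact one_nsmul m
  have hs : ∀ i, σ ^ i ∈ H := H.pow_mem hc.mem
  obtain ⟨b, hb1, hb2⟩ := hb
  have c1 : ∀ g, ∀ n ∈ H', cyc d x m g n = 0 := by
    intro g n hn
    rw [cyc, ((hc.ker n).1 hn).2, ZMod.val_zero, add_zero, if_neg (not_le.2 (ZMod.val_lt _))]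
  have c2 : ∀ g, ∀ n ∈ H', cyc d x m n g = 0 := by
    intro g n hn
    rw [cyc, ((hc.ker n).1 hn).2, ZMod.val_zero, zero_add, if_neg (not_le.2 (ZMod.val_lt _))]
  obtain ⟨m₀, hm₀⟩ := hv b ⟨hb1.mono hc.le, fun n hn n' hn' => by
    have e := hb2 n (hc.le hn) n' (hc.le hn')
    rw [c1 n n' hn'] at e
    linear_combination (norm := abel1) e⟩
  let b' : GQ → M := fun g => b g - (a g m₀ - m₀)
  have h0 : ∀ n ∈ H', b' n = 0 := fun n hn => sub_eq_zero.2 (hm₀ n hn)
  have hb' : ∀ g ∈ H, ∀ h ∈ H, cyc d x m g h = a g (b' h) - b' (g * h) + b' g := by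
    intro g hg h hh
    simp only [b', hb2 g hg h hh, map_sub, ha.mul g hg h hh]
    abel
  have hx : ∀ j, j < d → (x (σ ^ j)).val = j := by
    intro j hj
    rw [hc.map_pow hc.mem, hc.gen, mul_one, ZMod.val_cast_of_lt hj]
  have hx1 : (x σ).val = 1 := by simpa using hx 1 h1
  have hsum : ∀ j, j < d → b' (σ ^ j) = ∑ i ∈ range j, a (σ ^ i) (b' σ) := by
    intro j
    induction j with
    | zero => intro _; rw [pow_zero, h0 1 H'.one_mem, sum_range_zero]
    | succ j ih =>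
      intro hj
      have e := hb' _ (hs j) σ hc.mem
      rw [cyc, hx j (by omega), hx1, if_neg (by omega), ← pow_succ, ih (by omega)] at e
      rw [sum_range_succ]
      linear_combination (norm := abel1) e
  refine ⟨b' σ, fun n hn => ?_, ?_⟩
  · have h2 := conj_mem hc.normalIn hc.mem hn
    have e1 := hb' n (hc.le hn) σ hc.mem
    have e2 := hb' σ hc.mem _ (hc.le h2)
    have e3 : σ * (σ⁻¹ * n * σ) = n * σ := by group
    rw [c2 σ n hn, h0 n hn] at e1
    rw [c1 σ _ h2, h0 _ h2, map_zero, e3] at e2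
    linear_combination (norm := abel1) e2 - e1
  · obtain ⟨j, rfl⟩ : ∃ j, d = j + 1 := ⟨d - 1, by omega⟩
    have e := hb' _ (hs j) σ hc.mem
    rw [cyc, hx j (by omega), hx1, if_pos le_rfl, ← pow_succ, h0 _ (hc.pow_mem hc.mem),
      hsum j (by omega)] at e
    rw [sum_range_succ]
    linear_combination (norm := abel1) -e

end Coh2P

theorem coh2 : Coh2Stmt where
  infl _ _ _ _ _ _ := Coh2P.infl
  cycNf _ _ _ _ _ _ _ _ _ := Coh2P.cycNf
  cycZ _ _ _ _ _ _ _ _ _ _ := Coh2P.cycZ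
  cycOfNorm _ _ _ _ _ _ _ _ _ := Coh2P.cycOfNorm
  normOfCyc _ _ _ _ _ _ _ _ _ := Coh2P.normOfCyc

end Pool.Agent.MP_59efd2_nt.lz

end
end MrgPart0

-- ======== part 1: formerly Pool.Agent.MP_59efd2_nt.lz.Coh3
section MrgPart1

/-!
# Exact sequences, cup products, Hilbert 90 and Kummer theory
-/

noncomputable section

namespace Pool.Agent.MP_59efd2_nt.lz

open scoped Pointwise Classical
open Additive Finset

namespace Coh3P

section Ses

variable {A B C : Type} [AddCommGroup A] [AddCommGroup B] [AddCommGroup C] {H : Subgroup GQ}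
  {aA : GQ → A →+ A} {aB : GQ → B →+ B} {aC : GQ → C →+ C} {ι : A →+ B} {π : B →+ C}

lemma pull1 (inj : Function.Injective ι) (eqι : ∀ g ∈ H, ∀ a, ι (aA g a) = aB g (ι a))
    {c : GQ → B} (hc : Zo H aB c) (hr : ∀ g ∈ H, ∃ a, ι a = c g) :
    ∃ c', Zo H aA c' ∧ ∀ g ∈ H, ι (c' g) = c g := by
  have e : ∀ g ∈ H, ι (Function.invFun ι (c g)) = c g := fun g hg =>
    Function.invFun_eq (hr g hg)
  refine ⟨fun g => Function.invFun ι (c g), ⟨hc.1.comp _, fun g hg k hk => inj ?_⟩, e⟩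
  beta_reduce
  rw [map_add, eqι g hg, e g hg, e k hk, e _ (H.mul_mem hg hk), hc.2 g hg k hk]

lemma pull2 (inj : Function.Injective ι) (eqι : ∀ g ∈ H, ∀ a, ι (aA g a) = aB g (ι a))
    {f : GQ → GQ → B} (hf : Z2 H aB f) (hr : ∀ g ∈ H, ∀ h ∈ H, ∃ a, ι a = f g h) :
    ∃ f', Z2 H aA f' ∧ ∀ g ∈ H, ∀ h ∈ H, ι (f' g h) = f g h := by
  have e : ∀ g ∈ H, ∀ h ∈ H, ι (Function.invFun ι (f g h)) = f g h := fun g hg h hh =>
    Function.invFun_eq (hr g hg h hh)
  refine ⟨fun g h => Function.invFun ι (f g h), ⟨hf.1.comp _, fun g hg k hk l hl => inj ?_⟩, e⟩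
  beta_reduce
  rw [map_add, map_add, eqι g hg, e k hk l hl, e g hg _ (H.mul_mem hk hl),
    e _ (H.mul_mem hg hk) l hl, e g hg k hk, hf.2 g hg k hk l hl]

lemma sesV2 (S : SES H aA aB aC ι π) (hA : V2 H aA) (hC : V2 H aC) : V2 H aB := by
  intro f hf
  obtain ⟨bC, hbC, e⟩ := hC _ (hf.map π S.eqπ)
  let b : GQ → B := fun g => Function.surjInv S.surj (bC g)
  have hb : ∀ g, π (b g) = bC g := fun g => Function.surjInv_eq S.surj _
  have hd : B2 H aB fun g h => aB g (b h) - b (g * h) + b g :=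
    ⟨b, hbC.comp _, fun _ _ _ _ => rfl⟩
  obtain ⟨f', h1, h2⟩ := pull2 S.inj S.eqι (hf.sub (hd.z2 S.actB)) fun g hg h hh =>
    (S.exa _).1 (by
      simp only [Pi.sub_apply, map_sub, map_add, S.eqπ g hg, hb]
      exact sub_eq_zero.2 (e g hg h hh))
  refine (((hA f' h1).map ι S.eqι).add hd).congr fun g hg h hh => ?_
  simp only [Pi.add_apply, h2 g hg h hh, Pi.sub_apply, sub_add_cancel]

lemma sesLift (S : SES H aA aB aC ι π) (hA : V2 H aA) (c : GQ → C) (hc : Zo H aC c) :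
    ∃ c', Zo H aB c' ∧ ∀ g ∈ H, π (c' g) = c g := by
  let b : GQ → B := fun g => Function.surjInv S.surj (c g)
  have hb : ∀ g, π (b g) = c g := fun g => Function.surjInv_eq S.surj _
  have hs : Sm1 H b := hc.1.comp _
  have hd : B2 H aB fun g h => aB g (b h) - b (g * h) + b g := ⟨b, hs, fun _ _ _ _ => rfl⟩
  obtain ⟨f', h1, h2⟩ := pull2 S.inj S.eqι (hd.z2 S.actB) fun g hg h hh =>
    (S.exa _).1 (by
      rw [map_add, map_sub, S.eqπ g hg, hb, hb, hb, hc.2 g hg h hh]; abel)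
  obtain ⟨b', hb', e⟩ := hA f' h1
  refine ⟨fun g => b g - ι (b' g), ⟨hs.comp₂ hb' fun s t => s - ι t, fun g hg h hh => ?_⟩,
    fun g _ => ?_⟩
  · have h3 := h2 g hg h hh
    rw [e g hg h hh, map_add, map_sub, S.eqι g hg] at h3
    beta_reduce
    rw [map_sub]
    have h4 : b (g * h) = aB g (b h) + b g - (aB g (ι (b' h)) - ι (b' (g * h)) + ι (b' g)) := by
      rw [h3]; abel
    rw [h4]; abel
  · beta_reduce
    rw [map_sub, hb, (S.exa _).2 ⟨_, rfl⟩, sub_zero]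

end Ses

lemma cup {A A' C : Type} [AddCommGroup A] [AddCommGroup A'] [AddCommGroup C] {H : Subgroup GQ}
    {a : GQ → A →+ A} {a' : GQ → A' →+ A'} {aC : GQ → C →+ C} {B : A →+ A' →+ C}
    {c : GQ → A} {c' : GQ → A'} (P : Pairing H a a' aC B) (hc : Zo H a c) (hc' : Zo H a' c') :
    (Z2 H aC fun g h => B (c g) (a' g (c' h))) ∧
    (Bo H a c → B2 H aC fun g h => B (c g) (a' g (c' h))) ∧
    (Bo H a' c' → B2 H aC fun g h => B (c g) (a' g (c' h))) ∧
    (B2 H aC fun g h => B (c g) (a' g (c' h)) + B (a g (c h)) (c' g)) := by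
  refine ⟨⟨hc.1.left.comp₂ (hc'.1.act P.act') fun s t => B s t, fun g hg h hh k hk => ?_⟩,
    fun ⟨m, hm⟩ => ⟨fun g => B m (c' g), hc'.1.comp _, fun g hg h hh => ?_⟩,
    fun ⟨m, hm⟩ => ⟨fun g => -B (c g) (a' g m),
      hc.1.comp₂ (P.act'.sm1 m) fun s t => -B s t, fun g hg h hh => ?_⟩,
    ⟨fun g => -B (c g) (c' g), hc.1.comp₂ hc'.1 fun s t => -B s t, fun g hg h hh => ?_⟩⟩
  · beta_reduce
    rw [← P.eqv g hg, hc.2 g hg h hh, hc'.2 h hh k hk, P.act'.mul g hg h hh]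
    simp only [map_add, AddMonoidHom.add_apply]
    abel
  · beta_reduce
    rw [← P.eqv g hg, hm g hg, hc'.2 g hg h hh]
    simp only [map_add, map_sub, AddMonoidHom.sub_apply]
    abel
  · beta_reduce
    rw [map_neg, ← P.eqv g hg, hm h hh, hc.2 g hg h hh, P.act'.mul g hg h hh]
    simp only [map_add, map_sub, AddMonoidHom.add_apply]
    abel
  · beta_reduce
    rw [map_neg, ← P.eqv g hg, hc.2 g hg h hh, hc'.2 g hg h hh]
    simp only [map_add, AddMonoidHom.add_apply]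
    abel

/-- The elements fixed by a subgroup. -/
def fixM (N : Subgroup GQ) : Submonoid Qb where
  carrier := {x | IsFix N x}
  mul_mem' := fun {a b} ha hb g hg => by rw [map_mul, ha g hg, hb g hg]
  one_mem' := fun g _ => map_one g

lemma mem_ons {N : ONS} {g : GQ} (h : g ∈ (N : Subgroup GQ)) : g ∈ N := h

lemma h90 (H : Subgroup GQ) : V1 H aU := by
  rintro c ⟨⟨N, hN⟩, hc⟩
  let K : Subgroup H := (N : Subgroup GQ).subgroupOf H
  have := ons_finiteIndex N
  have : Finite (H ⧸ K) := Subgroup.finite_quotient_of_finiteIndex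
  have := Fintype.ofFinite (H ⧸ K)
  let χ : H ⧸ K → fixM (N : Subgroup GQ) →* Qb := fun q =>
    ((q.out : GQ) : Qb →* Qb).comp (fixM (N : Subgroup GQ)).subtype
  have hχ : Function.Injective χ := fun q q' e => by
    rw [← q.out_eq', ← q'.out_eq', QuotientGroup.eq]
    refine mem_of_fix ((N : Subgroup GQ).isClosed_of_isOpen N.toOpenSubgroup.isOpen)
      fun x hx => ?_
    have h1 : (q.out : GQ) x = (q'.out : GQ) x := DFunLike.congr_fun e ⟨x, hx⟩
    change (q.out : GQ)⁻¹ ((q'.out : GQ) x) = x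
    rw [← h1, ← AlgEquiv.mul_apply, inv_mul_cancel, AlgEquiv.one_apply]
  have li := (linearIndependent_monoidHom (fixM (N : Subgroup GQ)) Qb).comp χ hχ
  let cu : GQ → Qb := fun g => ((c g).toMul : Qbˣ)
  obtain ⟨t, ht⟩ : ∃ t : fixM (N : Subgroup GQ),
      ∑ q : H ⧸ K, cu q.out * (q.out : GQ) t ≠ 0 := by
    by_contra hn
    push Not at hn
    refine Units.ne_zero _ (Fintype.linearIndependent_iff.1 li (fun q => cu q.out)
      (funext fun t => ?_) ((1 : H) : H ⧸ K))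
    rw [Finset.sum_apply]
    exact hn t
  set z := ∑ q : H ⧸ K, cu q.out * (q.out : GQ) t with hz
  refine ⟨ofMul (Units.mk0 z ht)⁻¹, fun g hg => ?_⟩
  have h1 : cu g * g z = z := by
    rw [hz, map_sum, Finset.mul_sum]
    refine Fintype.sum_equiv (MulAction.toPerm (⟨g, hg⟩ : H)) _ _ fun q => ?_
    set q' := MulAction.toPerm (⟨g, hg⟩ : H) q with hq'
    have h2 : q'.out⁻¹ * (⟨g, hg⟩ * q.out) ∈ K := by
      rw [← QuotientGroup.eq, QuotientGroup.out_eq', hq', MulAction.toPerm_apply]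
      conv_lhs => rw [← q.out_eq']
      rfl
    obtain ⟨k, hk⟩ : ∃ k : H, k = q'.out⁻¹ * (⟨g, hg⟩ * q.out) := ⟨_, rfl⟩
    rw [← hk] at h2
    have h3 : (q'.out : GQ) * (k : GQ) = g * q.out := by
      rw [← Subgroup.coe_mul, hk, mul_inv_cancel_left]; rfl
    have h2' : (k : GQ) ∈ (N : Subgroup GQ) := Subgroup.mem_subgroupOf.1 h2
    have h4 := hN _ q'.out.2 _ k.2 (mem_ons h2')
    rw [h3, hc g hg _ q.out.2] at h4
    have h5 : cu q'.out = cu g * g (cu q.out) := by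
      simp only [cu]
      rw [← h4]; rfl
    have h6 : (q'.out : GQ) t = g ((q.out : GQ) t) := by
      rw [← AlgEquiv.mul_apply, ← h3, AlgEquiv.mul_apply, t.2 _ h2']
    rw [h5, h6, map_mul, mul_assoc]
  have h7 : g z ≠ 0 := (map_ne_zero g).2 ht
  refine congrArg ofMul (Units.ext ?_ : (c g).toMul = sU g (Units.mk0 z ht)⁻¹ / (Units.mk0 z ht)⁻¹)
  rw [Units.val_div_eq_div_val, coe_sU, Units.val_inv_eq_inv_val, Units.val_mk0, map_inv₀,
    div_inv_eq_mul, eq_inv_mul_iff_mul_eq₀ h7, mul_comm]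
  exact h1

lemma cycH90 {H H' : Subgroup GQ} {d : ℕ} {x : GQ → ZMod d} {σ : GQ} (h : Cyc H H' d x σ)
    {u : Qbˣ} (hu : u ∈ fixU H') (hn : nrmU σ d u = 1) : ∃ y ∈ fixU H', u = sU σ y / y := by
  have : NeZero d := ⟨h.pos.ne'⟩
  let P : ℕ → Qbˣ := fun m => nrmU σ m u
  have hadd : ∀ i k, P (i + k) = P i * sU (σ ^ i) (P k) := fun i k => by
    simp only [P, nrmU_apply, Finset.prod_range_add, map_prod, pow_add, sU_mul]
  have hper : Function.Periodic P d := fun m => by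
    rw [hadd]; simp only [P]; rw [hn, map_one, mul_one]
  have hfix : ∀ k, P k ∈ fixU H' := fun k => by
    simp only [P, nrmU_apply]
    refine Subgroup.prod_mem _ fun j _ n hn' => ?_
    have h1 := h.normalIn _ (H.inv_mem (H.pow_mem h.mem j)) n hn'
    have h2 := congrArg (σ ^ j) (hu _ h1)
    rw [← AlgEquiv.mul_apply, inv_inv, ← mul_assoc, mul_inv_cancel_left,
      AlgEquiv.mul_apply] at h2
    exact h2
  have hz : Zo H aU fun g => ofMul (P (x g).val) := by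
    refine ⟨h.sm1.comp fun t => ofMul (P t.val), fun g hg k hk => ?_⟩
    beta_reduce
    rw [h.add g hg k hk, ZMod.val_add, hper.map_mod_nat, hadd, aU_ofMul, ofMul_mul]
    congr 2
    refine Units.ext ?_
    have h2 := congrArg (σ ^ (x g).val) (hfix (x k).val _ (h.decomp hg))
    rw [← AlgEquiv.mul_apply, mul_inv_cancel_left] at h2
    exact h2.symm
  obtain ⟨m, hm⟩ := h90 H _ hz
  refine ⟨m.toMul, fun n hn' => ?_, ?_⟩
  · have h1 := hm n (h.le hn')
    beta_reduce at h1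
    rw [((h.ker n).1 hn').2, ZMod.val_zero] at h1
    have h2 : P 0 = 1 := by simp [P, nrmU_apply]
    rw [h2, ofMul_one, eq_comm, sub_eq_zero] at h1
    exact congrArg (fun s : AU => ((s.toMul : Qbˣ) : Qb)) h1
  · have h1 := hm σ h.mem
    beta_reduce at h1
    rw [h.gen, ZMod.val_one_eq_one_mod, hper.map_mod_nat] at h1
    have h2 : P 1 = u := by simp [P, nrmU_apply, sU_one]
    rw [h2] at h1
    exact congrArg toMul h1

section Kummer

variable {R : Type} [AddCommGroup R] {H : Subgroup GQ} {a : GQ → R →+ R} {ι : R →+ AU} {N : ℕ}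

lemma kumOf (inj : Function.Injective ι) (eqι : ∀ g t, aU g (ι t) = ι (a g t))
    (ex : ∀ u : Qbˣ, u ^ N = 1 → ∃ t, ι t = ofMul u) {w : Qbˣ} (hw : w ^ N ∈ fixU H) :
    ∃ κ, Zo H a κ ∧ ∀ g ∈ H, ι (κ g) = ofMul (sU g w / w) := by
  have hb : Bo H aU fun g => ofMul (sU g w / w) := ⟨ofMul w, fun _ _ => rfl⟩
  refine pull1 inj (fun g _ t => (eqι g t).symm) (hb.zo (isAct_aU H)) fun g hg => ex _ ?_
  rw [div_pow, ← map_pow, div_eq_one]
  exact Units.ext (hw g hg)

lemma kumTo (eqι : ∀ g t, aU g (ι t) = ι (a g t)) (tor : ∀ t : R, N • t = 0) {κ : GQ → R}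
    (hκ : Zo H a κ) : ∃ w : Qbˣ, w ^ N ∈ fixU H ∧ ∀ g ∈ H, ι (κ g) = ofMul (sU g w / w) := by
  obtain ⟨m, hm⟩ := h90 H _ (hκ.map ι fun g _ t => (eqι g t).symm)
  refine ⟨m.toMul, fun g hg => ?_, hm⟩
  have h1 : N • ι (κ g) = 0 := by rw [← map_nsmul, tor, map_zero]
  have h2 := hm g hg
  beta_reduce at h2
  rw [h2, nsmul_sub, sub_eq_zero, ← map_nsmul] at h1
  exact congrArg (fun s : AU => ((s.toMul : Qbˣ) : Qb)) h1

lemma kumInj (hN : 0 < N) (inj : Function.Injective ι) (eqι : ∀ g t, aU g (ι t) = ι (a g t))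
    (ex : ∀ u : Qbˣ, u ^ N = 1 → ∃ t, ι t = ofMul u) (tor : ∀ t : R, N • t = 0)
    {f : GQ → GQ → R} (hf : B2 H aU fun g h => ι (f g h)) : B2 H a f := by
  obtain ⟨b, hb, e⟩ := hf
  have hz : Zo H aU fun g => N • b g := by
    refine ⟨hb.comp fun s => N • s, fun g hg h hh => ?_⟩
    have h1 : N • ι (f g h) = 0 := by rw [← map_nsmul, tor, map_zero]
    have h2 := e g hg h hh
    beta_reduce at h2 ⊢
    rw [h2, nsmul_add, nsmul_sub, ← map_nsmul] at h1
    rw [← sub_eq_zero, ← neg_eq_zero, ← h1]; abel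
  obtain ⟨m, hm⟩ := h90 H _ hz
  obtain ⟨y, hy⟩ := IsAlgClosed.exists_pow_nat_eq ((m.toMul : Qbˣ) : Qb) hN
  have hy0 : y ≠ 0 := fun h0 => by
    rw [h0, zero_pow hN.ne'] at hy
    exact Units.ne_zero _ hy.symm
  have hm' : N • ofMul (Units.mk0 y hy0) = m :=
    congrArg ofMul (Units.ext hy : Units.mk0 y hy0 ^ N = m.toMul)
  set m' : AU := ofMul (Units.mk0 y hy0)
  let b' : GQ → AU := fun g => b g - (aU g m' - m')
  have e1 : ∀ g ∈ H, ι (Function.invFun ι (b' g)) = b' g := fun g hg => by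
    refine Function.invFun_eq (ex (b' g).toMul ?_)
    have h1 : N • b' g = 0 := by
      have h2 := hm g hg
      beta_reduce at h2
      simp only [b']
      rw [nsmul_sub, nsmul_sub, ← map_nsmul, hm', h2, sub_self]
    exact congrArg toMul h1
  refine ⟨fun g => Function.invFun ι (b' g),
    (hb.comp₂ ((isAct_aU H).sm1 m') fun s t => s - (t - m')).comp _, fun g hg h hh => inj ?_⟩
  have h2 := e g hg h hh
  beta_reduce at h2 ⊢
  rw [map_add, map_sub, ← eqι, e1 g hg, e1 h hh, e1 _ (H.mul_mem hg hh), h2]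
  simp only [b', map_sub, (isAct_aU H).mul g hg h hh]
  abel

end Kummer

lemma tor_zmod (N : ℕ) (t : ZMod N) : N • t = 0 := by
  rw [nsmul_eq_mul, ZMod.natCast_self, zero_mul]

end Coh3P

open Coh3P

theorem coh3 : Coh3Stmt where
  sesV2 := fun _ _ _ _ _ _ _ _ _ _ _ _ S => Coh3P.sesV2 S
  sesLift := fun _ _ _ _ _ _ _ _ _ _ _ _ S => Coh3P.sesLift S
  cup := fun _ _ _ _ _ _ _ _ _ _ _ _ _ P => Coh3P.cup P
  h90 := Coh3P.h90
  cycH90 := fun _ _ _ _ _ h _ hu hn => Coh3P.cycH90 h hu hn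
  kumInj := fun p _ _ _ _ hf => Coh3P.kumInj (Fact.out : p.Prime).pos (iot1_injective p)
    (aU_iot1 p) (fun _ => exists_iot1 p) (tor_zmod p) hf
  kumOf := fun p _ n _ _ hw => Coh3P.kumOf (iot_injective p n) (aU_iot p n)
    (fun _ => exists_iot p n) hw
  kumTo := fun p _ n _ _ hκ => Coh3P.kumTo (aU_iot p n) (tor_zmod (p ^ n)) hκ
  kumOf1 := fun p _ _ _ hw => Coh3P.kumOf (iot1_injective p) (aU_iot1 p)
    (fun _ => exists_iot1 p) hw
  kumTo1 := fun p _ _ _ hκ => Coh3P.kumTo (aU_iot1 p) (tor_zmod p) hκ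

end Pool.Agent.MP_59efd2_nt.lz

end
end MrgPart1

-- ======== part 2: formerly Pool.Agent.MP_59efd2_nt.lz.Tate
section MrgPart2

/-!
# The Herbrand quotient for a group of prime order
-/

noncomputable section

namespace Pool.Agent.MP_59efd2_nt.lz

open scoped Pointwise Classical

namespace TateP

open Subgroup Polynomial

variable {Γ : Type} [CommGroup Γ]

/-- Order of the cokernel of `f` on `B`. -/
def cw (f : Γ →* Γ) (B : Subgroup Γ) : ℕ := (B.map f).relIndex B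

/-- Order of the kernel of `f` on `B`. -/
def kw (f : Γ →* Γ) (B : Subgroup Γ) : ℕ := Nat.card (B ⊓ f.ker : Subgroup Γ)

lemma card_rel (H K : Subgroup Γ) :
    Nat.card K = Nat.card (H ⊓ K : Subgroup Γ) * H.relIndex K := by
  rw [← relIndex_bot_left, ← relIndex_bot_left, relIndex_inf_mul_relIndex, bot_inf_eq]

lemma card_split (f : Γ →* Γ) (T : Subgroup Γ) :
    Nat.card T = Nat.card (T ⊓ f.ker : Subgroup Γ) * Nat.card (T.map f) := by
  rw [← relIndex_ker, inf_comm]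
  exact card_rel _ _

lemma map_rel (f : Γ →* Γ) (H K : Subgroup Γ) :
    (H.map f).relIndex (K.map f) = (H ⊔ f.ker).relIndex K := by
  rw [← relIndex_comap, comap_map_eq]

lemma rel_split {H L : Subgroup Γ} (K : Subgroup Γ) (h : H ≤ L) :
    H.relIndex L = H.relIndex (L ⊓ K) * (H ⊔ K).relIndex L := by
  rw [← relIndex_mul_relIndex H (H ⊔ (L ⊓ K)) L le_sup_left (sup_le h inf_le_left),
    relIndex_sup_left, ← inf_relIndex_right (H ⊔ K), sup_inf_assoc_of_le K h, inf_comm K]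

lemma swap_rel {A T : Subgroup Γ} (X Y : Subgroup Γ) (h : T ≤ A) :
    (A ⊓ X ⊔ Y).relIndex T = (A ⊓ Y ⊔ X).relIndex T := by
  have key : ∀ X Y : Subgroup Γ, (A ⊓ X ⊔ Y) ⊓ T ≤ (A ⊓ Y ⊔ X) ⊓ T := fun X Y x hx => by
    obtain ⟨a, ha, k, hk, rfl⟩ := mem_sup.1 hx.1
    refine ⟨mem_sup.2 ⟨k, ⟨?_, hk⟩, a, ha.2, mul_comm _ _⟩, hx.2⟩
    exact (A.mul_mem_cancel_left ha.1).1 (h hx.2)
  rw [← inf_relIndex_right, le_antisymm (key X Y) (key Y X), inf_relIndex_right]

lemma comp_ex {f g : Γ →* Γ} {B : Subgroup Γ} (hf : B.map f ≤ B) (hg : B.map g ≤ B) :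
    ∃ a b c : ℕ, cw (f.comp g) B = a * cw f B ∧ cw g B = c * a ∧ kw f B = b * c ∧
      kw (f.comp g) B = kw g B * b := by
  refine ⟨(B.map g ⊔ f.ker).relIndex B, Nat.card (B.map g ⊓ (B ⊓ f.ker) : Subgroup Γ),
    (B.map g).relIndex (B ⊓ f.ker), ?_, rel_split _ hg, card_rel _ _, ?_⟩
  · rw [cw, cw, ← Subgroup.map_map, ← map_rel]
    exact (relIndex_mul_relIndex _ _ _ (map_mono hg) hf).symm
  · have e1 : B ⊓ (f.comp g).ker ⊓ g.ker = B ⊓ g.ker := by
      ext x
      simp only [mem_inf, MonoidHom.mem_ker, MonoidHom.comp_apply]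
      exact ⟨fun h => ⟨h.1.1, h.2⟩, fun h => ⟨⟨h.1, by rw [h.2, map_one]⟩, h.2⟩⟩
    have e2 : (B ⊓ (f.comp g).ker).map g = B.map g ⊓ (B ⊓ f.ker) := by
      ext x
      constructor
      · rintro ⟨y, hy, rfl⟩
        exact ⟨⟨y, hy.1, rfl⟩, hg ⟨y, hy.1, rfl⟩, hy.2⟩
      · rintro ⟨⟨y, hy, rfl⟩, h⟩
        exact ⟨y, ⟨hy, h.2⟩, rfl⟩
    rw [kw, kw, card_split g, e1, e2]

/-- Iterates. -/
def it (D : Γ →* Γ) : ℕ → Γ →* Γ
  | 0 => MonoidHom.id Γ
  | k + 1 => D.comp (it D k)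

lemma it_le {D : Γ →* Γ} {B : Subgroup Γ} (h : B.map D ≤ B) (k : ℕ) : B.map (it D k) ≤ B := by
  induction k with
  | zero => rw [it, Subgroup.map_id]
  | succ k ih => rw [it, ← Subgroup.map_map]; exact (map_mono ih).trans h

lemma it_pow {D : Γ →* Γ} {B : Subgroup Γ} (h : B.map D ≤ B) (h0 : kw D B ≠ 0) (k : ℕ) :
    kw (it D k) B ≠ 0 ∧ cw (it D k) B * kw D B ^ k = cw D B ^ k * kw (it D k) B := by
  induction k with
  | zero => simp [it, cw, kw]
  | succ k ih =>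
    obtain ⟨a, b, c, h1, h2, h3, h4⟩ := comp_ex h (it_le h k)
    have hb : b ≠ 0 := fun e => h0 (by rw [h3, e, zero_mul])
    rw [it, h1, h4]
    refine ⟨mul_ne_zero ih.1 hb, ?_⟩
    have := ih.2
    rw [h2] at this
    calc a * cw D B * kw D B ^ (k + 1) = cw D B * b * (c * a * kw D B ^ k) := by
          rw [pow_succ, h3]; ring
      _ = _ := by rw [this]; ring

lemma ses_ex {p D : Γ →* Γ} {A : Subgroup Γ} (hp : ∀ B : Subgroup Γ, B.map p ≤ B)
    (hc : ∀ x, D (p x) = p (D x)) :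
    ∃ a b e : ℕ, cw p A = a * cw p (A.map D) ∧ cw p (A ⊓ D.ker) = e * a ∧
      kw p A = kw p (A ⊓ D.ker) * b ∧ kw p (A.map D) = b * e := by
  have e1 : (A.map D).map p = (A.map p).map D := by
    rw [Subgroup.map_map, Subgroup.map_map]
    congr 1
    ext x
    exact (hc x).symm
  have e2 : (A ⊓ (p.comp D).ker).map p = A.map p ⊓ (A ⊓ D.ker) := by
    ext x
    constructor
    · rintro ⟨y, hy, rfl⟩
      exact ⟨⟨y, hy.1, rfl⟩, hp A ⟨y, hy.1, rfl⟩, (hc y).trans hy.2⟩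
    · rintro ⟨⟨y, hy, rfl⟩, h⟩
      exact ⟨y, ⟨hy, (hc y).symm.trans h.2⟩, rfl⟩
  have e3 : (A ⊓ (p.comp D).ker).map D = A.map D ⊓ p.ker := by
    ext x
    constructor
    · rintro ⟨y, hy, rfl⟩
      exact ⟨⟨y, hy.1, rfl⟩, hy.2⟩
    · rintro ⟨⟨y, hy, rfl⟩, h⟩
      exact ⟨y, ⟨hy, h⟩, rfl⟩
  have e4 : (A ⊓ p.ker).map D ≤ A.map D ⊓ p.ker := by
    rintro _ ⟨y, hy, rfl⟩
    refine ⟨⟨y, hy.1, rfl⟩, ?_⟩
    show p (D y) = 1
    rw [← hc, show p y = 1 from hy.2, map_one]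
  refine ⟨(A.map p).relIndex (A ⊓ D.ker), Nat.card ((A ⊓ p.ker).map D),
    (A ⊓ D.ker ⊔ p.ker).relIndex (A ⊓ (p.comp D).ker), ?_, ?_, ?_, ?_⟩
  · rw [cw, cw, e1, map_rel]
    exact rel_split _ (hp A)
  · rw [cw, ← map_rel, e2, relIndex_inf_mul_relIndex, inf_eq_left.2 (map_mono inf_le_left)]
  · rw [kw, kw, card_split D, inf_right_comm]
  · rw [kw, card_rel ((A ⊓ p.ker).map D), inf_eq_left.2 e4, ← e3, map_rel,
      swap_rel _ _ inf_le_left]

lemma poly_ex {r : ℕ} (hr : r.Prime) : ∃ w v b : ℤ[X],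
    (X - 1) ^ (r - 1) + w * C (r : ℤ) = ∑ i ∈ Finset.range r, X ^ i ∧
      v * w + b * ∑ i ∈ Finset.range r, X ^ i = 1 := by
  obtain ⟨w, hw⟩ := exists_add_pow_prime_eq hr (X - 1 : ℤ[X]) 1
  have hY : (X - 1 : ℤ[X]) ≠ 0 := by simpa using X_sub_C_ne_zero (1 : ℤ)
  have h1 : (X - 1) ^ (r - 1) + w * C (r : ℤ) = ∑ i ∈ Finset.range r, X ^ i := by
    refine mul_left_cancel₀ hY ?_
    rw [mul_geom_sum, mul_add, ← pow_succ', Nat.sub_add_cancel hr.one_le]
    rw [sub_add_cancel, one_pow] at hw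
    rw [hw]
    simp only [map_natCast]
    ring
  have h2 : w.eval 1 = 1 := by
    have := congrArg (Polynomial.eval 1) h1
    simp only [eval_add, eval_pow, eval_sub, eval_X, eval_one, sub_self, eval_mul, eval_C,
      eval_finsetSum, one_pow, Finset.sum_const, Finset.card_range, nsmul_eq_mul, mul_one] at this
    rw [zero_pow (Nat.sub_ne_zero_of_lt hr.one_lt), zero_add] at this
    exact mul_right_cancel₀ (Nat.cast_ne_zero.2 hr.ne_zero) (this.trans (one_mul _).symm)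
  obtain ⟨u, hu⟩ : X - C 1 ∣ w - C (w.eval 1) := X_sub_C_dvd_sub_C_eval
  rw [h2, map_one] at hu
  have h3 : IsCoprime w (X - 1) := ⟨1, -u, by linear_combination hu⟩
  obtain ⟨a, b, h4⟩ := h3.pow_right (n := r - 1)
  exact ⟨w, a - b * C (r : ℤ), b, h1, by rw [← h1]; linear_combination h4⟩

/-- The action of an integer polynomial in `s`. -/
def ev (s : Γ →* Γ) (q : ℤ[X]) (x : Γ) : Γ :=
  (aeval (MonoidHom.toAdditive s).toIntLinearMap q (Additive.ofMul x)).toMul

lemma ev_add (s : Γ →* Γ) (p q : ℤ[X]) (x : Γ) : ev s (p + q) x = ev s p x * ev s q x := by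
  simp [ev]

lemma ev_mul (s : Γ →* Γ) (p q : ℤ[X]) (x : Γ) : ev s (p * q) x = ev s p (ev s q x) := by
  simp [ev]

lemma ev_C (s : Γ →* Γ) (n : ℤ) (x : Γ) : ev s (C n) x = x ^ n := by
  rw [ev, aeval_C]
  simp

lemma ev_one (s : Γ →* Γ) (x : Γ) : ev s 1 x = x := by simp [ev]

lemma ev_one' (s : Γ →* Γ) (q : ℤ[X]) : ev s q 1 = 1 := by simp [ev]

lemma ev_X (s : Γ →* Γ) (x : Γ) : ev s X x = s x := by simp [ev]

lemma ev_sub (s : Γ →* Γ) (x : Γ) : ev s (X - 1) x = s x / x := by simp [ev]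

lemma ev_pow (s : Γ →* Γ) (q : ℤ[X]) (n : ℕ) (x : Γ) : ev s q (x ^ n) = ev s q x ^ n := by
  simp [ev]

lemma ev_inv (s : Γ →* Γ) (q : ℤ[X]) (x : Γ) : ev s q x⁻¹ = (ev s q x)⁻¹ := by simp [ev]

lemma ev_X_pow (s : Γ →* Γ) (n : ℕ) (x : Γ) : ev s (X ^ n) x = s^[n] x := by
  induction n with
  | zero => rw [pow_zero, ev_one, Function.iterate_zero_apply]
  | succ n ih => rw [pow_succ', ev_mul, ih, ev_X, Function.iterate_succ_apply']

lemma ev_geom (s : Γ →* Γ) (n : ℕ) (x : Γ) :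
    ev s (∑ i ∈ Finset.range n, X ^ i) x = ∏ i ∈ Finset.range n, s^[i] x := by
  induction n with
  | zero => simp [ev]
  | succ n ih => rw [Finset.sum_range_succ, Finset.prod_range_succ, ev_add, ih, ev_X_pow]

lemma ev_it (s : Γ →* Γ) (n : ℕ) (x : Γ) :
    ev s ((X - 1) ^ n) x = it (s / MonoidHom.id Γ) n x := by
  induction n with
  | zero => rw [pow_zero, ev_one]; rfl
  | succ n ih => rw [pow_succ', ev_mul, ih, ev_sub]; rfl

lemma ev_mem {s : Γ →* Γ} {B : Subgroup Γ} (h : ∀ x ∈ B, s x ∈ B) (q : ℤ[X]) :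
    ∀ x ∈ B, ev s q x ∈ B := by
  induction q using Polynomial.induction_on with
  | C a => exact fun x hx => by rw [ev_C]; exact B.zpow_mem hx a
  | add p q hp hq => exact fun x hx => by rw [ev_add]; exact B.mul_mem (hp x hx) (hq x hx)
  | monomial n a ih =>
    intro x hx
    rw [pow_succ, ← mul_assoc, ev_mul, ev_X]
    exact ih _ (h x hx)

lemma on_ker {r : ℕ} (hr : r.Prime) {s : Γ →* Γ} {B : Subgroup Γ} (h : ∀ x ∈ B, s x ∈ B)
    (hN : ∀ x ∈ B, ∏ i ∈ Finset.range r, s^[i] x = 1) :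
    cw (it (s / MonoidHom.id Γ) (r - 1)) B = cw (powMonoidHom r) B ∧
      kw (it (s / MonoidHom.id Γ) (r - 1)) B = kw (powMonoidHom r) B := by
  obtain ⟨w, v, b, h1, h2⟩ := poly_ex hr
  have k1 : ∀ x ∈ B, it (s / MonoidHom.id Γ) (r - 1) x = (ev s w x ^ r)⁻¹ := fun x hx => by
    have := congrArg (fun q => ev s q x) h1
    simp only [ev_add, ev_mul, ev_C, ev_geom, ev_it, hN x hx, zpow_natCast, ev_pow] at this
    exact eq_inv_of_mul_eq_one_left this
  have k2 : ∀ x ∈ B, ev s v (ev s w x) = x := fun x hx => by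
    have := congrArg (fun q => ev s q x) h2
    simpa only [ev_add, ev_mul, ev_geom, hN x hx, ev_one, ev_one', mul_one] using this
  have k3 : ∀ x ∈ B, ev s w (ev s v x) = x := fun x hx => by
    rw [← ev_mul, mul_comm, ev_mul, k2 x hx]
  constructor
  · rw [cw, cw]
    congr 1
    ext x
    constructor
    · rintro ⟨y, hy, rfl⟩
      exact ⟨(ev s w y)⁻¹, B.inv_mem (ev_mem h w y hy), by rw [k1 y hy]; simp⟩
    · rintro ⟨y, hy, rfl⟩
      have hy' := ev_mem h v _ (B.inv_mem hy)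
      exact ⟨_, hy', by rw [k1 _ hy', k3 _ (B.inv_mem hy)]; simp⟩
  · rw [kw, kw]
    congr 2
    ext x
    simp only [mem_inf, MonoidHom.mem_ker, powMonoidHom_apply]
    refine and_congr_right fun hx => ?_
    rw [k1 x hx, inv_eq_one, ← ev_pow]
    refine ⟨fun e => ?_, fun e => by rw [e, ev_one']⟩
    rw [← k2 _ (B.pow_mem hx r), e, ev_one']

theorem core {r : ℕ} (hr : r.Prime) (s N : Γ →* Γ)
    (hN : ∀ x, N x = ∏ i ∈ Finset.range r, s^[i] x) (A A₀ : Subgroup Γ)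
    (hs : ∀ a ∈ A, s a ∈ A) (hr1 : ∀ a ∈ A, s^[r] a = a) (h0 : ∀ a, a ∈ A₀ ↔ a ∈ A ∧ s a = a)
    (hp : pw r A ≠ 0) (ht : tor r A ≠ 0) (hH : ∀ a ∈ A, N a = 1 → ∃ y ∈ A, a = s y / y) :
    pw r A₀ ≠ 0 ∧
      (A.map N).relIndex A₀ ^ (r - 1) * pw r A * tor r A₀ ^ r = tor r A * pw r A₀ ^ r := by
  set D : Γ →* Γ := s / MonoidHom.id Γ with hD
  have hDa : ∀ x, D x = s x / x := fun _ => rfl
  have hA0 : A₀ = A ⊓ D.ker := by
    ext a
    rw [h0, mem_inf, MonoidHom.mem_ker, hDa, div_eq_one]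
  have hsN : ∀ a ∈ A, s (N a) = N a ∧ N (s a) = N a := fun a ha => by
    have e : ∏ i ∈ Finset.range r, s^[i + 1] a = N a := by
      have := Finset.prod_range_succ' (fun i => s^[i] a) r
      rw [Finset.prod_range_succ, hr1 a ha, Function.iterate_zero_apply, ← hN] at this
      exact (mul_right_cancel this).symm
    constructor
    · refine Eq.trans ?_ e
      rw [hN, map_prod]
      simp only [Function.iterate_succ_apply']
    · refine Eq.trans ?_ e
      rw [hN]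
      simp only [Function.iterate_succ_apply]
  have hNA : ∀ a ∈ A, N a ∈ A := fun a ha => by
    rw [hN]
    exact A.prod_mem fun i _ => Function.Iterate.rec (· ∈ A) ha hs i
  have hB : A.map D = A ⊓ N.ker := by
    ext x
    constructor
    · rintro ⟨y, hy, rfl⟩
      refine ⟨A.div_mem (hs y hy) hy, ?_⟩
      show N (s y / y) = 1
      rw [_root_.map_div, (hsN y hy).2, div_self']
    · rintro ⟨h1, h2⟩
      obtain ⟨y, hy, rfl⟩ := hH x h1 h2
      exact ⟨y, hy, rfl⟩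
  have hN0 : ∀ a ∈ A₀, N a = a ^ r := fun a ha => by
    rw [hN]
    simp [Function.iterate_fixed ((h0 a).1 ha).2]
  have hBs : ∀ x ∈ A.map D, s x ∈ A.map D := by
    rintro _ ⟨y, hy, rfl⟩
    exact ⟨s y, hs y hy, by rw [hDa, hDa, _root_.map_div]⟩
  have hBD : (A.map D).map D ≤ A.map D := map_mono (hB ▸ inf_le_left)
  obtain ⟨a, b, e, e1, e2, e3, e4⟩ := ses_ex (p := powMonoidHom r) (D := D) (A := A)
    (fun B => by rintro _ ⟨y, hy, rfl⟩; exact B.pow_mem hy r) fun x => map_pow D x r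
  rw [← hA0] at e2 e3
  change pw r A = a * _ at e1
  change pw r A₀ = _ at e2
  change tor r A = tor r A₀ * b at e3
  have f1 : kw (powMonoidHom r) (A.map D) ≠ 0 := by
    have : Finite (A ⊓ (powMonoidHom r).ker : Subgroup Γ) := Nat.finite_of_card_ne_zero ht
    have hle : A.map D ⊓ (powMonoidHom r).ker ≤ A ⊓ (powMonoidHom r).ker :=
      inf_le_inf_right _ (hB ▸ inf_le_left)
    have : Finite (A.map D ⊓ (powMonoidHom r).ker : Subgroup Γ) :=
      Finite.of_injective _ (inclusion_injective hle)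
    exact Nat.card_pos.ne'
  have f2 : kw D (A.map D) = tor r A₀ := by
    rw [kw, tor, hB]
    congr 2
    ext x
    rw [inf_right_comm, ← hA0]
    simp only [mem_inf, MonoidHom.mem_ker, powMonoidHom_apply]
    exact and_congr_right fun hx => by rw [hN0 x hx]
  have f3 : pw r A₀ = cw D (A.map D) * (A.map N).relIndex A₀ := by
    have g1 : A₀.map (powMonoidHom r) = A₀.map N := by
      ext x
      exact exists_congr fun y => and_congr_right fun hy => by rw [hN0 y hy]; rfl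
    have g2 : cw D (A.map D) = (A₀.map N).relIndex (A.map N) := by
      rw [cw, map_rel, map_rel, hB, hA0]
      exact swap_rel _ _ le_rfl
    rw [pw, g1, g2]
    refine (relIndex_mul_relIndex _ _ _ (map_mono (hA0 ▸ inf_le_left)) ?_).symm
    rintro _ ⟨y, hy, rfl⟩
    exact (h0 _).2 ⟨hNA y hy, (hsN y hy).1⟩
  have f4 : tor r A₀ ≠ 0 := fun h => ht (by rw [e3, h, zero_mul])
  obtain ⟨k1, k2⟩ := on_ker hr hBs fun x hx => by
    rw [← hN]
    exact (hB ▸ hx : x ∈ A ⊓ N.ker).2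
  have f5 := (it_pow hBD (f2 ▸ f4) (r - 1)).2
  rw [k1, k2, f2, e4] at f5
  refine ⟨?_, ?_⟩
  · rw [e2]
    exact mul_ne_zero (fun h => f1 (by rw [e4, h, mul_zero])) fun h => hp (by rw [e1, h, zero_mul])
  · obtain ⟨k, rfl⟩ : ∃ k, r = k + 1 := ⟨r - 1, (Nat.sub_add_cancel hr.one_le).symm⟩
    rw [Nat.add_sub_cancel] at f5 ⊢
    rw [pow_succ (pw (k + 1) A₀), e1, e3]
    nth_rewrite 2 [e2]
    rw [f3]
    calc _ = (A.map N).relIndex A₀ ^ k * a * tor (k + 1) A₀ *
          (cw (powMonoidHom (k + 1)) (A.map D) * tor (k + 1) A₀ ^ k) := by ring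
      _ = _ := by rw [f5]; ring

end TateP

theorem tate : TateStmt := by
  intro r hr σ A A₀ hs hr1 h0 hp ht hH
  have hi : ∀ (i : ℕ) u, sU (σ ^ i) u = (sU σ)^[i] u := fun i u => by
    induction i with
    | zero => exact sU_one u
    | succ i ih => rw [pow_succ', sU_mul, ih, Function.iterate_succ_apply']
  exact TateP.core hr (sU σ) (nrmU σ r) (fun x => by simp only [nrmU_apply, hi]) A A₀ hs
    (fun a ha => by rw [← hi, hr1 a ha]) h0 hp ht hH

end Pool.Agent.MP_59efd2_nt.lz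

end
end MrgPart2

-- ======== part 3: formerly Pool.Agent.MP_59efd2_nt.lz.Plc
section MrgPart3

/-!
# Row PLC: places of the algebraic closure, conjugacy and splitting
-/

noncomputable section

namespace Pool.Agent.MP_59efd2_nt.lz

open scoped Pointwise Classical
open Filter

namespace PlcP

lemma vpos (V : Pl) {x : Qb} (hx : x ≠ 0) : 0 < V.valuation x :=
  zero_lt_iff.2 ((Valuation.ne_zero_iff _).2 hx)

lemma fix_nat (H : Subgroup GQ) (n : ℕ) : IsFix H (n : Qb) := fun g _ => map_natCast g n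

lemma fix_mul {H : Subgroup GQ} {x y : Qb} (hx : IsFix H x) (hy : IsFix H y) : IsFix H (x * y) :=
  fun g hg => by rw [map_mul, hx g hg, hy g hg]

lemma fix_add {H : Subgroup GQ} {x y : Qb} (hx : IsFix H x) (hy : IsFix H y) : IsFix H (x + y) :=
  fun g hg => by rw [map_add, hx g hg, hy g hg]

lemma fix_inv {H : Subgroup GQ} {x : Qb} (hx : IsFix H x) : IsFix H x⁻¹ :=
  fun g hg => by rw [map_inv₀, hx g hg]

lemma fix_pow {H : Subgroup GQ} {x : Qb} (hx : IsFix H x) (k : ℕ) : IsFix H (x ^ k) :=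
  fun g hg => by rw [map_pow, hx g hg]

lemma fix_one (H : Subgroup GQ) : IsFix H 1 := fun g _ => map_one g

lemma v_int (V : Pl) (n : ℤ) : V.valuation (n : Qb) ≤ 1 :=
  (V.valuation_le_one_iff _).2 (intCast_mem V n)

/-- The valuation of a place has rank one. -/
lemma arch (hv : ValStmt) {V : Pl} (hV : V ≠ ⊤) {x c : Qb} (hx : V.valuation x < 1) (hc : c ≠ 0) :
    ∀ᶠ k : ℕ in atTop, V.valuation x ^ k < V.valuation c := by
  by_cases hx0 : x = 0
  · filter_upwards [eventually_gt_atTop 0] with k hk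
    rw [hx0, map_zero, zero_pow hk.ne']
    exact vpos V hc
  obtain ⟨l, hl, hVl⟩ := hv.above_ex V hV
  have hl0 : 0 < V.valuation (l : Qb) := vpos V (Nat.cast_ne_zero.2 hl.ne_zero)
  have hl1 : V.valuation (l : Qb) < 1 := hVl
  obtain ⟨m, j, hm, hj⟩ := hv.arch V l hl hVl x hx0
  obtain ⟨m', j', hm', hj'⟩ := hv.arch V l hl hVl c hc
  have hjpos : 0 < j := by
    by_contra hneg
    have h1 : V.valuation x ^ m < 1 := pow_lt_one₀ zero_le hx hm.ne'
    rw [hj] at h1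
    exact absurd (one_le_zpow_of_nonpos₀ hl0 hl1.le (not_lt.1 hneg)) (not_le.2 h1)
  filter_upwards [eventually_ge_atTop (m * (j'.natAbs + 1))] with k hk
  by_contra hcon
  have h1 : V.valuation c ≤ V.valuation x ^ (m * (j'.natAbs + 1)) :=
    (not_lt.1 hcon).trans (pow_le_pow_of_le_one zero_le hx.le hk)
  have h2 : V.valuation c ^ m' ≤ (V.valuation x ^ (m * (j'.natAbs + 1))) ^ m' :=
    pow_le_pow_left₀ zero_le h1 m'
  rw [hj', pow_mul, hj, ← zpow_natCast, ← zpow_natCast, ← zpow_mul, ← zpow_mul] at h2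
  refine absurd h2 (not_le.2 (zpow_lt_zpow_right_of_lt_one₀ hl0 hl1 ?_))
  have h3 : j' < ((j'.natAbs + 1 : ℕ) : ℤ) := by push_cast; have := le_abs_self j'; omega
  have h4 : (1 : ℤ) ≤ m' := by exact_mod_cast hm'
  have h5 : (0 : ℤ) ≤ ((j'.natAbs + 1 : ℕ) : ℤ) := Int.natCast_nonneg _
  nlinarith [mul_nonneg h5 (sub_nonneg.2 h4), mul_nonneg (mul_nonneg h5 (zero_le_one.trans h4))
    (sub_nonneg.2 (show (1 : ℤ) ≤ j from hjpos))]

lemma sep_aux (hv : ValStmt) {N : Subgroup GQ} {V W : Pl} (hV : V ≠ ⊤) (hW : W ≠ ⊤) {x : Qb}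
    (hx : IsFix N x) (h1 : x ∈ W) (h2 : x ∉ V) :
    ∃ z, IsFix N z ∧ 1 < V.valuation z ∧ W.valuation z < 1 := by
  obtain ⟨l, hl, hWl⟩ := hv.above_ex W hW
  have hl0 : (l : Qb) ≠ 0 := Nat.cast_ne_zero.2 hl.ne_zero
  have h3 : 1 < V.valuation x := not_le.1 fun h => h2 ((V.valuation_le_one_iff x).1 h)
  have h4 : V.valuation x⁻¹ < 1 := by
    rw [map_inv₀]; exact inv_lt_one_of_one_lt₀ h3
  obtain ⟨k, hk⟩ := (arch hv hV h4 hl0).exists
  refine ⟨l * x ^ k, fix_mul (fix_nat N l) (fix_pow hx k), ?_, ?_⟩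
  · rw [map_inv₀, inv_pow] at hk
    rw [map_mul, map_pow]
    exact (inv_lt_iff_one_lt_mul₀ (pow_pos (zero_lt_one.trans h3) k)).1 hk
  · rw [map_mul, map_pow]
    exact mul_lt_one_of_nonneg_of_lt_one_left zero_le hWl
      (pow_le_one₀ zero_le ((W.valuation_le_one_iff x).2 h1))

/-- Two places agree on the fixed field of `N`. -/
def Ag (N : Subgroup GQ) (V W : Pl) : Prop := ∀ x, IsFix N x → (x ∈ V ↔ x ∈ W)

lemma sep2 (hv : ValStmt) {N : Subgroup GQ} {V W : Pl}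
    (hV : V ≠ ⊤) (hW : W ≠ ⊤) (h1 : ¬ Ag N V W) :
    ∃ z, IsFix N z ∧ 1 < V.valuation z ∧ W.valuation z < 1 := by
  unfold Ag at h1
  push Not at h1
  obtain ⟨x, hx, h2 | h2⟩ := h1
  · obtain ⟨z, hz, h3, h4⟩ := sep_aux hv hW hV hx h2.1 h2.2
    have hz0 : z ≠ 0 := by rintro rfl; simp at h3
    refine ⟨z⁻¹, fix_inv hz, ?_, ?_⟩
    · rw [map_inv₀]; exact (one_lt_inv₀ (vpos V hz0)).2 h4
    · rw [map_inv₀]; exact inv_lt_one_of_one_lt₀ h3
  · exact sep_aux hv hV hW hx h2.2 h2.1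

lemma v_big {V : Pl} {t : Qb} (h : 1 < V.valuation t) : V.valuation (1 + t) = V.valuation t :=
  Valuation.map_add_eq_of_lt_right _ (by rwa [map_one])

lemma v_small {V : Pl} {t : Qb} (h : V.valuation t < 1) : V.valuation (1 + t) = 1 :=
  Valuation.map_one_add_of_lt _ h

/-- Artin and Whaples: one place against finitely many others. -/
lemma sepT (hv : ValStmt) {N : Subgroup GQ} {V : Pl}
    (hV : V ≠ ⊤) (T : Finset Pl) (hT : ∀ W ∈ T, W ≠ ⊤ ∧ ¬ Ag N V W) :
    ∃ z, IsFix N z ∧ 1 < V.valuation z ∧ ∀ W ∈ T, W.valuation z < 1 := by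
  induction T using Finset.induction_on with
  | empty =>
    obtain ⟨l, hl, hVl⟩ := hv.above_ex V hV
    refine ⟨(l : Qb)⁻¹, fix_inv (fix_nat N l), ?_, fun W hW => absurd hW (Finset.notMem_empty W)⟩
    rw [map_inv₀]
    exact (one_lt_inv₀ (vpos V (Nat.cast_ne_zero.2 hl.ne_zero))).2 hVl
  | insert W₀ T _ ih =>
    obtain ⟨z, hz, hzV, hzT⟩ := ih fun W hW => hT W (Finset.mem_insert_of_mem hW)
    obtain ⟨w, hw, hwV, hwW⟩ := sep2 hv hV (hT W₀ (Finset.mem_insert_self _ _)).1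
      (hT W₀ (Finset.mem_insert_self _ _)).2
    have hw0 : w ≠ 0 := by rintro rfl; simp at hwV
    have hev : ∀ᶠ k : ℕ in atTop, ∀ W ∈ T, W.valuation z ^ k < W.valuation w⁻¹ :=
      (eventually_all_finset T).2 fun W hW =>
        arch hv (hT W (Finset.mem_insert_of_mem hW)).1 (hzT W hW) (inv_ne_zero hw0)
    obtain ⟨k, hk, hk0⟩ := (hev.and (eventually_gt_atTop 0)).exists
    have hkT : ∀ W ∈ T, W.valuation (z ^ k * w) < 1 := fun W hW => by
      have h1 := hk W hW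
      rw [map_inv₀, ← one_mul (W.valuation w)⁻¹] at h1
      rw [map_mul, map_pow]
      exact (lt_mul_inv_iff₀ (vpos W hw0)).1 h1
    have hzk : 1 < V.valuation (z ^ k) := by rw [map_pow]; exact one_lt_pow₀ hzV hk0.ne'
    by_cases hc : W₀.valuation z ≤ 1
    · refine ⟨z ^ k * w, fix_mul (fix_pow hz k) hw, ?_, fun W hW => ?_⟩
      · rw [map_mul]; exact one_lt_mul'' hzk hwV
      · rcases Finset.mem_insert.1 hW with rfl | hW
        · rw [map_mul, map_pow]
          exact mul_lt_one_of_nonneg_of_lt_one_right (pow_le_one₀ zero_le hc) zero_le hwW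
        · exact hkT W hW
    · have hzk' : 1 < W₀.valuation (z ^ k) := by
        rw [map_pow]; exact one_lt_pow₀ (not_le.1 hc) hk0.ne'
      refine ⟨z ^ k * w * (1 + z ^ k)⁻¹,
        fix_mul (fix_mul (fix_pow hz k) hw) (fix_inv (fix_add (fix_one N) (fix_pow hz k))), ?_,
        fun W hW => ?_⟩
      · rw [map_mul, map_mul, map_inv₀, v_big hzk, mul_right_comm,
          mul_inv_cancel₀ (zero_lt_one.trans hzk).ne', one_mul]
        exact hwV
      · rcases Finset.mem_insert.1 hW with rfl | hW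
        · rw [map_mul, map_mul, map_inv₀, v_big hzk', mul_right_comm,
            mul_inv_cancel₀ (zero_lt_one.trans hzk').ne', one_mul]
          exact hwW
        · have h1 : W.valuation (z ^ k) < 1 := by
            rw [map_pow]; exact pow_lt_one₀ zero_le (hzT W hW) hk0.ne'
          rw [map_mul, map_inv₀, v_small h1, inv_one, mul_one]
          exact hkT W hW

/-- Coset representatives, permuted by left multiplication. -/
lemma exists_transv {H H' : Subgroup GQ} (h : OpenIn H' H) :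
    ∃ (ι : Type) (_ : Fintype ι) (r : ι → GQ), Fintype.card ι ≠ 0 ∧ (∀ i, r i ∈ H) ∧
      ∀ g ∈ H, ∃ e : ι ≃ ι, ∀ i x, IsFix H' x → g (r i x) = r (e i) x := by
  have hfin : Finite (H ⧸ H'.subgroupOf H) := Nat.finite_of_card_ne_zero h.relIndex_ne_zero
  let _ : Fintype (H ⧸ H'.subgroupOf H) := Fintype.ofFinite _
  refine ⟨H ⧸ H'.subgroupOf H, inferInstance, fun q => (q.out : H), Fintype.card_ne_zero,
    fun q => (q.out).2, fun g hg => ⟨MulAction.toPerm (⟨g, hg⟩ : H), fun q x hx => ?_⟩⟩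
  have h1 : (QuotientGroup.mk (((⟨g, hg⟩ : H) • q).out) : H ⧸ H'.subgroupOf H) =
      QuotientGroup.mk ((⟨g, hg⟩ : H) * q.out) := by
    rw [QuotientGroup.out_eq']
    exact (MulAction.Quotient.mk_smul_out _ _ q).symm
  have h0 : ((((⟨g, hg⟩ : H) • q).out)⁻¹ * ((⟨g, hg⟩ : H) * q.out) : H) ∈ H'.subgroupOf H :=
    QuotientGroup.eq.1 h1
  have h2 := hx _ (Subgroup.mem_subgroupOf.1 h0)
  have h3 := congrArg ((((⟨g, hg⟩ : H) • q).out : H) : GQ) h2
  rw [← AlgEquiv.mul_apply, ← Subgroup.coe_mul, mul_inv_cancel_left] at h3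
  exact h3

lemma mem_smul {V : Pl} {g : GQ} {x : Qb} : x ∈ g • V ↔ g⁻¹ x ∈ V :=
  ValuationSubring.mem_pointwise_smul_iff_inv_smul_mem

/-- Conjugacy of places at a finite level, by the norm of `1 + z`. -/
lemma fin_trans (hv : ValStmt) {U : Subgroup GQ} (N : ONS) (hNU : (N : Subgroup GQ) ≤ U)
    {V W : Pl} (hV : V ≠ ⊤) (hW : W ≠ ⊤) (h : Ag U V W) :
    ∃ u ∈ U, Ag (N : Subgroup GQ) W (u • V) := by
  by_contra hcon
  push Not at hcon
  obtain ⟨ι, _, r, hι, hr, hperm⟩ := exists_transv (H := U) (H' := N) ⟨hNU, N, fun _ _ h => h⟩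
  obtain ⟨z, hz, hzW, hzT⟩ := sepT hv (N := N) hW
    ((Finset.univ.image fun i => (r i)⁻¹ • V) ∪
      (Finset.univ.image fun i => (r i)⁻¹ • W).filter fun W' => ¬ Ag (N : Subgroup GQ) W W')
    fun W' hW' => by
      rcases Finset.mem_union.1 hW' with h1 | h1
      · obtain ⟨i, -, rfl⟩ := Finset.mem_image.1 h1
        exact ⟨fun e => hV ((hv.smul_top V _).1 e), hcon _ (U.inv_mem (hr i))⟩
      · obtain ⟨i, -, rfl⟩ := Finset.mem_image.1 (Finset.mem_filter.1 h1).1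
        exact ⟨fun e => hW ((hv.smul_top W _).1 e), (Finset.mem_filter.1 h1).2⟩
  have ht : IsFix (N : Subgroup GQ) (1 + z) := fix_add (fix_one _) hz
  have hy : IsFix U (∏ i, r i (1 + z)) := fun g hg => by
    obtain ⟨e, he⟩ := hperm g hg
    rw [map_prod]
    simp only [he _ _ ht]
    exact Equiv.prod_comp e fun i => r i (1 + z)
  have h1 : ∀ i, V.valuation (r i (1 + z)) = 1 := fun i => by
    have h2 := (hv.smul_one ((r i)⁻¹ • V) (r i) (1 + z)).2 (v_small (hzT _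
      (Finset.mem_union_left _ (Finset.mem_image_of_mem _ (Finset.mem_univ i)))))
    rwa [smul_inv_smul] at h2
  have h2 : ∀ i, 1 ≤ W.valuation (r i (1 + z)) := fun i => by
    have h3 : ((r i)⁻¹ • W).valuation 1 ≤ ((r i)⁻¹ • W).valuation (1 + z) := by
      rw [map_one]
      by_cases hA : Ag (N : Subgroup GQ) W ((r i)⁻¹ • W)
      · have h4 : 1 < ((r i)⁻¹ • W).valuation z := not_le.1 fun h4 =>
          absurd ((W.valuation_le_one_iff z).2 ((hA z hz).2
            ((ValuationSubring.valuation_le_one_iff _ z).1 h4))) (not_le.2 hzW)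
        rw [v_big h4]; exact h4.le
      · exact (v_small (hzT _ (Finset.mem_union_right _ (Finset.mem_filter.2
          ⟨Finset.mem_image_of_mem _ (Finset.mem_univ i), hA⟩)))).ge
    have h4 := (hv.smul_le ((r i)⁻¹ • W) (r i) 1 (1 + z)).2 h3
    rwa [smul_inv_smul, map_one, map_one] at h4
  obtain ⟨i₀⟩ := Fintype.card_pos_iff.1 (Nat.pos_of_ne_zero hι)
  obtain ⟨e, he⟩ := hperm (r i₀)⁻¹ (U.inv_mem (hr i₀))
  have h3 : r (e i₀) (1 + z) = 1 + z := by
    rw [← he i₀ _ ht, ← AlgEquiv.mul_apply, inv_mul_cancel, AlgEquiv.one_apply]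
  have h4 : (∏ i, r i (1 + z)) ∈ V := by
    rw [← V.valuation_le_one_iff, map_prod]
    exact Finset.prod_le_one' fun i _ => (h1 i).le
  have h5 := (W.valuation_le_one_iff _).2 ((h _ hy).1 h4)
  rw [map_prod, ← Finset.mul_prod_erase _ _ (Finset.mem_univ (e i₀)), h3, v_big hzW] at h5
  exact absurd (le_trans (le_mul_of_one_le_right' (Finset.one_le_prod' fun i _ => h2 i)) h5)
    (not_le.2 hzW)

lemma top_of_ag (hv : ValStmt) {U : Subgroup GQ} {W : Pl} (h : Ag U ⊤ W) : W = ⊤ := by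
  by_contra hW
  obtain ⟨l, hl, hWl⟩ := hv.above_ex W hW
  have h1 := (W.valuation_le_one_iff _).2
    ((h _ (fix_inv (fix_nat U l))).1 (ValuationSubring.mem_top _))
  rw [map_inv₀] at h1
  exact absurd h1 (not_le.2 ((one_lt_inv₀ (vpos W (Nat.cast_ne_zero.2 hl.ne_zero))).2 hWl))

lemma isClosed_of_fix (x : Qb) (P : Qb → Prop) : IsClosed {u : GQ | P (u⁻¹ x)} := by
  obtain ⟨N, hN⟩ := exists_ons_fix x
  rw [← isOpen_compl_iff, isOpen_iff_mem_nhds]
  intro u hu
  have h1 : IsOpen ((fun g : GQ => g * u⁻¹) ⁻¹' (N : Set GQ)) :=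
    N.toOpenSubgroup.isOpen.preimage (continuous_mul_const _)
  refine mem_of_superset (h1.mem_nhds (show u * u⁻¹ ∈ N by rw [mul_inv_cancel]; exact N.one_mem))
    fun g hg h => hu ?_
  have h2 : g⁻¹ x = u⁻¹ x := by
    have h3 := hN _ (N.inv_mem hg)
    rw [mul_inv_rev, inv_inv] at h3
    conv_rhs => rw [← h3]
    rw [← AlgEquiv.mul_apply, inv_mul_cancel_left]
  change P (g⁻¹ x) at h
  change P (u⁻¹ x)
  rwa [← h2]

theorem trans (hv : ValStmt) (U : Subgroup GQ) (V W : Pl) (hU : OpenIn U ⊤) (h : Ag U V W) :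
    ∃ u ∈ U, W = u • V := by
  by_cases hV : V = ⊤
  · subst hV
    exact ⟨1, U.one_mem, by rw [one_smul]; exact top_of_ag hv h⟩
  have hW : W ≠ ⊤ := by
    rintro rfl
    exact hV (top_of_ag hv fun x hx => (h x hx).symm)
  obtain ⟨N₀, hN₀⟩ := hU.2
  obtain ⟨u, hu, hu'⟩ := (U.isClosed_of_isOpen hU.isOpen).isCompact.inter_iInter_nonempty
    (fun x : Qb => {u : GQ | x ∈ W ↔ u⁻¹ x ∈ V})
    (fun x => isClosed_of_fix x fun y => x ∈ W ↔ y ∈ V) fun s => by
      obtain ⟨N, hN⟩ := exists_ons_forall (fun (x : s) g => g (x : Qb) = x)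
        fun x => exists_ons_fix x
      obtain ⟨u, hu, hA⟩ := fin_trans hv (N ⊓ N₀) (fun g hg => hN₀ g trivial hg.2) hV hW h
      refine ⟨u, hu, Set.mem_iInter₂.2 fun x hx => ?_⟩
      exact (hA x fun g hg => hN ⟨x, hx⟩ g hg.1).trans mem_smul
  exact ⟨u, hu, ValuationSubring.ext _ _ fun x => (Set.mem_iInter.1 hu' x).trans mem_smul.symm⟩

lemma rat_mem (hv : ValStmt) {V : Pl} {l : ℕ} (hl : l.Prime) (hV : Above V l) (q : ℚ) :
    (q : Qb) ∈ V ↔ ¬ l ∣ q.den := by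
  have hd : ((q.den : ℤ) : Qb) ≠ 0 := Int.cast_ne_zero.2 (Int.natCast_ne_zero.2 q.den_nz)
  have hq : (q : Qb) * ((q.den : ℤ) : Qb) = (q.num : Qb) := by
    rw [Rat.cast_def, Int.cast_natCast]
    exact div_mul_cancel₀ _ (Nat.cast_ne_zero.2 q.den_nz)
  have h1 := congrArg V.valuation hq
  rw [map_mul] at h1
  rw [← V.valuation_le_one_iff, ← Int.natCast_dvd_natCast]
  constructor
  · intro h hdvd
    have h2 : ¬ (l : ℤ) ∣ q.num := fun h2 => hl.ne_one (Nat.eq_one_of_dvd_coprimes q.reduced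
      (Int.natCast_dvd.1 h2) (Int.natCast_dvd_natCast.1 hdvd))
    have h3 : V.valuation ((q.den : ℤ) : Qb) < 1 :=
      lt_of_le_of_ne (v_int V _) fun e => (hv.int V l hl hV _).1 e hdvd
    rw [(hv.int V l hl hV _).2 h2] at h1
    exact absurd h1 (mul_lt_one_of_nonneg_of_lt_one_right h zero_le h3).ne
  · intro h
    rw [(hv.int V l hl hV _).2 h, mul_one] at h1
    rw [h1]; exact v_int V _

lemma sat_smul {U : Subgroup GQ} {R : Finset Pl} {W : Pl} (hW : W ∈ Sat U R) {u : GQ}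
    (hu : u ∈ U) : u • W ∈ Sat U R := by
  obtain ⟨V, hV, u', hu', rfl⟩ := hW
  exact ⟨V, hV, u * u', U.mul_mem hu hu', (mul_smul _ _ _).symm⟩

/-- The places above finitely many primes form finitely many orbits. -/
lemma fin_above (hv : ValStmt) {U : Subgroup GQ} (hU : OpenIn U ⊤) (P : Finset ℕ) :
    ∃ F : Finset Pl, (∀ V ∈ F, V ≠ ⊤) ∧ Sat U F = AboveSet P := by
  have hfin : Finite (GQ ⧸ U) := Subgroup.quotient_finite_of_isOpen _ hU.isOpen
  let _ : Fintype (GQ ⧸ U) := Fintype.ofFinite _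
  have h1 : ∀ l : ℕ, ∃ V : Pl, l.Prime → Above V l := fun l => by
    by_cases hl : l.Prime
    · exact (hv.ex_above l hl).imp fun _ h _ => h
    · exact ⟨⊤, fun h => absurd h hl⟩
  choose B hB using h1
  refine ⟨((P.filter Nat.Prime) ×ˢ (Finset.univ : Finset (GQ ⧸ U))).image
    fun a => (a.2.out)⁻¹ • B a.1, fun V hV => ?_, Set.Subset.antisymm ?_ ?_⟩
  · obtain ⟨a, ha, rfl⟩ := Finset.mem_image.1 hV
    have hl := (Finset.mem_filter.1 (Finset.mem_product.1 ha).1).2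
    exact hv.above_ne _ a.1 hl.ne_zero ((hv.above_smul _ _ _).2 (hB _ hl))
  · rintro _ ⟨V, hV, u, -, rfl⟩
    obtain ⟨a, ha, rfl⟩ := Finset.mem_image.1 hV
    have hl := Finset.mem_filter.1 (Finset.mem_product.1 ha).1
    exact ⟨a.1, hl.1, hl.2, (hv.above_smul _ _ _).2 ((hv.above_smul _ _ _).2 (hB _ hl.2))⟩
  · rintro W ⟨l, hlP, hl, hW⟩
    obtain ⟨g, -, rfl⟩ := trans hv ⊤ (B l) W (OpenIn.refl ⊤) fun x hx => by
      obtain ⟨q, rfl⟩ := isFix_top hx
      rw [rat_mem hv hl (hB l hl), rat_mem hv hl hW]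
    refine ⟨(((g⁻¹ : GQ) : GQ ⧸ U).out)⁻¹ • B l, Finset.mem_image.2 ⟨(l, ((g⁻¹ : GQ) : GQ ⧸ U)),
      Finset.mem_product.2 ⟨Finset.mem_filter.2 ⟨hlP, hl⟩, Finset.mem_univ _⟩, rfl⟩,
      g * ((g⁻¹ : GQ) : GQ ⧸ U).out, ?_, ?_⟩
    · have h2 := QuotientGroup.eq.1 (QuotientGroup.out_eq' ((g⁻¹ : GQ) : GQ ⧸ U)).symm
      rwa [inv_inv] at h2
    · rw [mul_smul, smul_inv_smul]

lemma rep_add {U : Subgroup GQ} {R₀ : Finset Pl} (hR : Rep U R₀) (F : Finset Pl)
    (hF : ∀ V ∈ F, V ≠ ⊤) : ∃ R, R₀ ⊆ R ∧ Rep U R ∧ Sat U R = Sat U R₀ ∪ Sat U F := by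
  induction F using Finset.induction_on with
  | empty => exact ⟨R₀, Finset.Subset.refl _, hR, by simp [Sat]⟩
  | insert W F _ ih =>
    obtain ⟨R, h1, h2, h3⟩ := ih fun V hV => hF V (Finset.mem_insert_of_mem hV)
    have hins : ∀ S : Finset Pl, Sat U (insert W S) = Sat U S ∪ {X | ∃ u ∈ U, X = u • W} :=
      fun S => by ext X; simp [Sat, or_comm]
    by_cases hW : W ∈ Sat U R
    · refine ⟨R, h1, h2, ?_⟩
      rw [hins, ← Set.union_assoc, ← h3]
      refine (Set.union_eq_left.2 ?_).symm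
      rintro _ ⟨u, hu, rfl⟩
      exact sat_smul hW hu
    · refine ⟨insert W R, h1.trans (Finset.subset_insert _ _), ⟨fun V hV => ?_,
        fun V hV V' hV' u hu e => ?_⟩, by rw [hins, hins, h3, Set.union_assoc]⟩
      · rcases Finset.mem_insert.1 hV with rfl | hV
        · exact hF _ (Finset.mem_insert_self _ _)
        · exact h2.1 V hV
      · rcases Finset.mem_insert.1 hV with h4 | h4 <;>
          rcases Finset.mem_insert.1 hV' with h5 | h5
        · rw [h4, h5]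
        · exact absurd ⟨V', h5, u⁻¹, U.inv_mem hu, by rw [← e, inv_smul_smul, h4]⟩ hW
        · exact absurd ⟨V, h4, u, hu, by rw [e, h5]⟩ hW
        · exact h2.2 V h4 V' h5 u hu e

lemma exists_mult (y : Qb) : ∃ n : ℕ, n ≠ 0 ∧ IsIntegral ℤ ((n : Qb) * y) := by
  have h1 : IsAlgebraic ℤ y :=
    (IsFractionRing.isAlgebraic_iff ℤ ℚ Qb).2 (Algebra.IsAlgebraic.isAlgebraic y)
  obtain ⟨m, hm, h⟩ := h1.exists_integral_multiple
  refine ⟨m.natAbs, Int.natAbs_ne_zero.2 hm, ?_⟩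
  rw [zsmul_eq_mul] at h
  rcases Int.natAbs_eq m with e | e
  · rw [← Int.cast_natCast, ← e]; exact h
  · have h2 : ((m.natAbs : ℕ) : Qb) * y = -((m : Qb) * y) := by
      rw [← Int.cast_natCast, ← neg_mul, ← Int.cast_neg, ← neg_eq_iff_eq_neg.2 e]
    rw [h2]; exact h.neg

theorem supp (hv : ValStmt) (x : Qbˣ) :
    ∃ P : Finset ℕ, ∀ W : Pl, W ∉ AboveSet P → W.valuation (x : Qb) = 1 := by
  obtain ⟨n, hn, h1⟩ := exists_mult (x : Qb)
  obtain ⟨m, hm, h2⟩ := exists_mult (x : Qb)⁻¹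
  refine ⟨(n * m).primeFactors, fun W hW => ?_⟩
  by_cases hT : W = ⊤
  · rw [hT]; exact hv.top_one _ x.ne_zero
  obtain ⟨l, hl, hWl⟩ := hv.above_ex W hT
  have h3 : ∀ k : ℕ, k ∣ n * m → ∀ y : Qb, IsIntegral ℤ ((k : Qb) * y) → W.valuation y ≤ 1 :=
    fun k hk y hy => by
      have h4 : W.valuation ((k : ℤ) : Qb) = 1 := (hv.int W l hl hWl k).2 fun h =>
        hW ⟨l, Nat.mem_primeFactors.2 ⟨hl, (Int.natCast_dvd_natCast.1 h).trans hk,
          mul_ne_zero hn hm⟩, hl, hWl⟩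
      have h5 := (W.valuation_le_one_iff _).2 (hv.integral W _ hy)
      rw [Int.cast_natCast] at h4
      rwa [map_mul, h4, one_mul] at h5
  have h4 := h3 m (dvd_mul_left _ _) _ h2
  rw [map_inv₀] at h4
  exact le_antisymm (h3 n (dvd_mul_right _ _) _ h1) ((inv_le_one₀ (vpos W x.ne_zero)).1 h4)

theorem primes (hv : ValStmt) (R : Finset Pl) (hR : ∀ V ∈ R, V ≠ ⊤) :
    ∃ P : Finset ℕ, ∀ U, Sat U R ⊆ AboveSet P := by
  choose! l hl using fun V (h : V ∈ R) => hv.above_ex V (hR V h)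
  refine ⟨R.image l, ?_⟩
  rintro U _ ⟨V, hV, u, -, rfl⟩
  exact ⟨l V, Finset.mem_image_of_mem _ hV, (hl V hV).1, (hv.above_smul _ _ _).2 (hl V hV).2⟩

theorem ram (hv : ValStmt) (N : ONS) :
    ∃ P : Finset ℕ, ∀ W : Pl, W ≠ ⊤ → W ∉ AboveSet P → ∀ g ∈ IG W, g ∈ N := by
  have hfin := ons_finite N
  let _ : Fintype (GQ ⧸ (N : Subgroup GQ)) := Fintype.ofFinite _
  have h1 : ∀ q : GQ ⧸ (N : Subgroup GQ), ∃ P : Finset ℕ, ∀ W : Pl, W ∉ AboveSet P →
      ∀ g ∈ IG W, (g : GQ ⧸ (N : Subgroup GQ)) = q → g ∈ N := fun q => by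
    have h2 : ∀ g : GQ, (g : GQ ⧸ (N : Subgroup GQ)) = q → (q.out)⁻¹ * g ∈ (N : Subgroup GQ) :=
      fun g hg => QuotientGroup.eq.1 ((QuotientGroup.out_eq' q).trans hg.symm)
    by_cases hq : q.out ∈ (N : Subgroup GQ)
    · refine ⟨∅, fun W _ g _ hg => ?_⟩
      have h3 := (N : Subgroup GQ).mul_mem hq (h2 g hg)
      rwa [mul_inv_cancel_left] at h3
    have h3 : ¬ ∀ x, IsFix (N : Subgroup GQ) x → q.out x = x := fun h =>
      hq (mem_of_fix (Subgroup.isClosed_of_isOpen _ N.toOpenSubgroup.isOpen) h)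
    push Not at h3
    obtain ⟨x, hx, hne⟩ := h3
    obtain ⟨n, hn, hint⟩ := exists_mult x
    have h4 : q.out ((n : Qb) * x) - (n : Qb) * x ≠ 0 := by
      rw [map_mul, map_natCast, ← mul_sub]
      exact mul_ne_zero (Nat.cast_ne_zero.2 hn) (sub_ne_zero.2 hne)
    obtain ⟨P, hP⟩ := supp hv (Units.mk0 _ h4)
    refine ⟨P, fun W hW g hg hgq => ?_⟩
    have h5 := ((hv.ig W g).1 hg).2 _ (hv.integral W _ hint)
    have h6 := congrArg q.out (fix_mul (fix_nat _ n) hx _ (h2 g hgq))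
    rw [← AlgEquiv.mul_apply, mul_inv_cancel_left] at h6
    rw [h6] at h5
    exact absurd (hP W hW) h5.ne
  choose P hP using h1
  refine ⟨Finset.univ.biUnion P, fun W _ hW g hg => hP _ W (fun h => hW ?_) g hg rfl⟩
  obtain ⟨l, hl, h2⟩ := h
  exact ⟨l, Finset.mem_biUnion.2 ⟨_, Finset.mem_univ _, hl⟩, h2⟩

theorem split (hv : ValStmt) (U U' : Subgroup GQ) (r : ℕ) (x : GQ → ZMod r) (σ : GQ)
    (R : Finset Pl) (hr : r.Prime) (hc : Cyc U U' r x σ) (hR : Rep U R) :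
    ∃ R', Rep U' R' ∧ Sat U' R' = Sat U R ∧
      R'.card = nsp U U' R + r * (R.card - nsp U U' R) := by
  have : Fact r.Prime := ⟨hr⟩
  obtain ⟨S, hS⟩ : ∃ S : Pl → Finset ℕ,
      ∀ V, S V = if ¬ DG V ⊓ U ≤ U' then {0} else Finset.range r := ⟨_, fun _ => rfl⟩
  have hσ : ∀ i : ℕ, σ ^ i ∈ U := fun i => U.pow_mem hc.mem i
  have hxσ : ∀ i : ℕ, x (σ ^ i) = i := fun i => by rw [hc.map_pow hc.mem, hc.gen, mul_one]
  have key : ∀ V ∈ R, ∀ V' ∈ R, ∀ i ∈ S V, ∀ j ∈ S V', ∀ u ∈ U',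
      u • σ ^ i • V = σ ^ j • V' → V = V' ∧ i = j := fun V hV V' hV' i hi j hj u hu e => by
    have h1 : (σ ^ j)⁻¹ * (u * σ ^ i) ∈ U :=
      U.mul_mem (U.inv_mem (hσ j)) (U.mul_mem (hc.le hu) (hσ i))
    have h2 : ((σ ^ j)⁻¹ * (u * σ ^ i)) • V = V' := by
      rw [mul_smul, mul_smul, e, inv_smul_smul]
    obtain rfl := hR.2 V hV V' hV' _ h1 h2
    refine ⟨rfl, ?_⟩
    rw [hS] at hi hj
    by_cases hsp : DG V ⊓ U ≤ U'
    · rw [if_neg (not_not.2 hsp), Finset.mem_range] at hi hj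
      have h3 := ((hc.ker _).1 (hsp ⟨MulAction.mem_stabilizer_iff.2 h2, h1⟩)).2
      rw [hc.add _ (U.inv_mem (hσ j)) _ (U.mul_mem (hc.le hu) (hσ i)),
        hc.add _ (hc.le hu) _ (hσ i), hc.map_inv (hσ j), hxσ, hxσ, ((hc.ker u).1 hu).2,
        zero_add, neg_add_eq_zero] at h3
      exact (Nat.ModEq.eq_of_lt_of_lt ((ZMod.natCast_eq_natCast_iff _ _ _).1 h3) hj hi).symm
    · rw [if_pos hsp, Finset.mem_singleton] at hi hj
      rw [hi, hj]
  refine ⟨R.biUnion fun V => (S V).image fun i => σ ^ i • V, ⟨fun W hW => ?_,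
    fun W hW W' hW' u hu e => ?_⟩, Set.Subset.antisymm ?_ ?_, ?_⟩
  · obtain ⟨V, hV, h1⟩ := Finset.mem_biUnion.1 hW
    obtain ⟨i, -, rfl⟩ := Finset.mem_image.1 h1
    exact fun e => hR.1 V hV ((hv.smul_top _ _).1 e)
  · obtain ⟨V, hV, h1⟩ := Finset.mem_biUnion.1 hW
    obtain ⟨i, hi, rfl⟩ := Finset.mem_image.1 h1
    obtain ⟨V', hV', h2⟩ := Finset.mem_biUnion.1 hW'
    obtain ⟨j, hj, rfl⟩ := Finset.mem_image.1 h2
    obtain ⟨rfl, rfl⟩ := key V hV V' hV' i hi j hj u hu e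
    rfl
  · rintro _ ⟨W, hW, u, hu, rfl⟩
    obtain ⟨V, hV, h1⟩ := Finset.mem_biUnion.1 hW
    obtain ⟨i, -, rfl⟩ := Finset.mem_image.1 h1
    exact ⟨V, hV, u * σ ^ i, U.mul_mem (hc.le hu) (hσ i), (mul_smul _ _ _).symm⟩
  · rintro _ ⟨V, hV, u, hu, rfl⟩
    by_cases hsp : DG V ⊓ U ≤ U'
    · refine ⟨σ ^ (x u).val • V, Finset.mem_biUnion.2 ⟨V, hV, Finset.mem_image_of_mem _ ?_⟩,
        u * (σ ^ (x u).val)⁻¹, (hc.ker _).2 ⟨U.mul_mem hu (U.inv_mem (hσ _)), ?_⟩, ?_⟩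
      · rw [hS, if_neg (not_not.2 hsp), Finset.mem_range]; exact ZMod.val_lt _
      · rw [hc.add _ hu _ (U.inv_mem (hσ _)), hc.map_inv (hσ _), hxσ, ZMod.natCast_zmod_val,
          add_neg_cancel]
      · rw [mul_smul, inv_smul_smul]
    · obtain ⟨τ, hτ, hτ'⟩ := SetLike.not_le_iff_exists.1 hsp
      have h1 : x τ ≠ 0 := fun h => hτ' ((hc.ker τ).2 ⟨hτ.2, h⟩)
      have h2 := U.pow_mem hτ.2 (x u / x τ).val
      refine ⟨σ ^ 0 • V, Finset.mem_biUnion.2 ⟨V, hV, Finset.mem_image_of_mem _ ?_⟩,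
        u * (τ ^ (x u / x τ).val)⁻¹, (hc.ker _).2 ⟨U.mul_mem hu (U.inv_mem h2), ?_⟩, ?_⟩
      · rw [hS, if_pos hsp]; exact Finset.mem_singleton_self 0
      · rw [hc.add _ hu _ (U.inv_mem h2), hc.map_inv h2, hc.map_pow hτ.2, ZMod.natCast_zmod_val,
          div_mul_cancel₀ _ h1, add_neg_cancel]
      · rw [pow_zero, one_smul, mul_smul,
          MulAction.mem_stabilizer_iff.1 ((DG V).inv_mem ((DG V).pow_mem hτ.1 _))]
  · rw [Finset.card_biUnion fun V hV V' hV' hne => Finset.disjoint_left.2 fun W h1 h2 => by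
      obtain ⟨i, hi, rfl⟩ := Finset.mem_image.1 h1
      obtain ⟨j, hj, e⟩ := Finset.mem_image.1 h2
      exact hne (key V hV V' hV' i hi j hj 1 U'.one_mem (by rw [one_smul, e])).1]
    have h1 : ∀ V ∈ R, ((S V).image fun i => σ ^ i • V).card =
        if ¬ DG V ⊓ U ≤ U' then 1 else r := fun V hV => by
      rw [Finset.card_image_of_injOn fun i hi j hj e =>
        (key V hV V hV i hi j hj 1 U'.one_mem (by rw [one_smul]; exact e)).2, hS]
      split_ifs <;> simp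
    have h2 := Finset.card_filter_add_card_filter_not (s := R) fun V => ¬ DG V ⊓ U ≤ U'
    rw [Finset.sum_congr rfl h1, Finset.sum_ite, Finset.sum_const, Finset.sum_const, smul_eq_mul,
      smul_eq_mul, mul_one, nsp, ← h2, Nat.add_sub_cancel_left, mul_comm]

end PlcP

theorem plc (hv : ValStmt) : PlcStmt where
  trans := PlcP.trans hv
  rep := fun _ _ P hU hR => by
    obtain ⟨F, hF, e⟩ := PlcP.fin_above hv hU P
    rw [← e]
    exact PlcP.rep_add hR F hF
  supp := PlcP.supp hv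
  primes := PlcP.primes hv
  ram := PlcP.ram hv
  split := PlcP.split hv

end Pool.Agent.MP_59efd2_nt.lz

end
end MrgPart3

-- ======== part 4: formerly Pool.Agent.MP_59efd2_nt.lz.Phi
section MrgPart4

/-!
# Row PHI: the power index of a local field and the degree formula
-/

noncomputable section

namespace Pool.Agent.MP_59efd2_nt.lz

open scoped Pointwise Classical

namespace PhiP

lemma idx {Γ Γ' : Type} [CommGroup Γ] [CommGroup Γ'] (f : Γ →* Γ') {A B : Subgroup Γ}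
    (h : A ≤ B) : A.relIndex B = (A.map f).relIndex (B.map f) * A.relIndex (B ⊓ f.ker) := by
  rw [← Subgroup.relIndex_comap, Subgroup.comap_map_eq, mul_comm,
    ← Subgroup.relIndex_sup_left (B ⊓ f.ker) A, inf_comm B, ← sup_inf_assoc_of_le _ h,
    Subgroup.relIndex_inf_mul_relIndex, inf_sup_self]

/-- a torsion free subgroup of finite index computes the power index -/
lemma pw_of_le {Γ : Type} [CommGroup Γ] (r : ℕ) {A B : Subgroup Γ} (h : A ≤ B)
    (hf : A.relIndex B ≠ 0) (ht : ∀ a ∈ A, a ^ r = 1 → a = 1) : pw r B = tor r B * pw r A := by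
  have hp : ∀ C : Subgroup Γ, C.map (powMonoidHom r) ≤ C := by
    rintro C _ ⟨a, ha, rfl⟩
    exact C.pow_mem ha r
  have e1 := idx (powMonoidHom r) h
  have e2 : A.relIndex (B ⊓ (powMonoidHom r : Γ →* Γ).ker) = tor r B := by
    rw [← Subgroup.inf_relIndex_right, tor, ← Subgroup.relIndex_bot_left]
    congr 1
    exact eq_bot_iff.2 fun a ha => ht a ha.1 ha.2.2
  have e3 := Subgroup.relIndex_mul_relIndex _ _ _ (Subgroup.map_mono (f := powMonoidHom r) h) (hp B)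
  have e4 := Subgroup.relIndex_mul_relIndex _ _ _ (hp A) h
  rw [e2] at e1
  have h0 : (A.map (powMonoidHom r)).relIndex (B.map (powMonoidHom r)) ≠ 0 := fun h0 =>
    hf (by rw [e1, h0, zero_mul])
  refine mul_left_cancel₀ h0 ?_
  unfold pw
  rw [e3, ← e4, e1]
  ring

variable {V : Pl} {H : Subgroup GQ}

lemma mem_cO {c x : Qb} (hc : c ≠ 0) (hf : IsFix H c) :
    x ∈ (OH V H).toAddSubgroup.map (AddMonoidHom.mulLeft c) ↔
      IsFix H x ∧ V.valuation x ≤ V.valuation c := by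
  have h0 : 0 < V.valuation c := zero_lt_iff.2 ((map_ne_zero _).2 hc)
  constructor
  · rintro ⟨a, ha, rfl⟩
    obtain ⟨h1, h2⟩ := mem_OH.1 ha
    refine ⟨fun g hg => by simp [hf g hg, h2 g hg], ?_⟩
    rw [AddMonoidHom.coe_mulLeft, map_mul]
    exact mul_le_of_le_one_right' ((V.valuation_le_one_iff a).2 h1)
  · rintro ⟨h1, h2⟩
    refine ⟨x / c, mem_OH.2 ⟨(V.valuation_le_one_iff _).1 ?_,
      fun g hg => by simp [hf g hg, h1 g hg]⟩, by simp [mul_div_cancel₀ x hc]⟩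
    rw [map_div₀]
    exact (div_le_one₀ h0).2 h2

lemma fix_nat (H : Subgroup GQ) (n : ℕ) : IsFix H (n : Qb) := fun g _ => map_natCast g n

lemma val_nat (V : Pl) (n : ℕ) : V.valuation (n : Qb) ≤ 1 :=
  (V.valuation_le_one_iff _).2 (natCast_mem V n)

/-- units that are congruent to one modulo `c` -/
def Wc (V : Pl) (H : Subgroup GQ) (c : Qb) : Subgroup Qbˣ where
  carrier := {u | IsFix H u ∧ V.valuation (u : Qb) = 1 ∧
    V.valuation ((u : Qb) - 1) ≤ V.valuation c}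
  mul_mem' := fun {a b} ha hb => ⟨(fixU H).mul_mem ha.1 hb.1, by simp [ha.2.1, hb.2.1], by
    have : ((a * b : Qbˣ) : Qb) - 1 = a * (b - 1) + (a - 1) := by push_cast; ring
    rw [this]
    exact V.valuation.map_add_le (by rw [map_mul, ha.2.1, one_mul]; exact hb.2.2) ha.2.2⟩
  one_mem' := ⟨(fixU H).one_mem, by simp, by simp⟩
  inv_mem' := fun {a} ha => ⟨(fixU H).inv_mem ha.1, by simp [ha.2.1], by
    have : ((a⁻¹ : Qbˣ) : Qb) - 1 = -((a : Qb)⁻¹ * (a - 1)) := by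
      rw [mul_sub, inv_mul_cancel₀ a.ne_zero]; simp
    rw [this, Valuation.map_neg, map_mul, map_inv₀, ha.2.1, inv_one, one_mul]
    exact ha.2.2⟩

lemma mem_Wc {c : Qb} {u : Qbˣ} : u ∈ Wc V H c ↔ IsFix H u ∧ V.valuation (u : Qb) = 1 ∧
    V.valuation ((u : Qb) - 1) ≤ V.valuation c := Iff.rfl

lemma mem_Wc_one {u : Qbˣ} : u ∈ Wc V H 1 ↔ IsFix H u ∧ V.valuation (u : Qb) = 1 :=
  ⟨fun h => ⟨h.1, h.2.1⟩, fun h => ⟨h.1, h.2, V.valuation.map_sub_le (by simp [h.2]) le_rfl⟩⟩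

lemma Wc_fin {c : Qb} (hc : c ≠ 0) (hf : IsFix H c) (hq : qO V H c ≠ 0) :
    (Wc V H c).relIndex (Wc V H 1) ≠ 0 := by
  have := (AddSubgroup.finiteIndex_iff_finite_quotient.1 ⟨hq⟩)
  let φ : Wc V H 1 → (OH V H).toAddSubgroup := fun u =>
    ⟨(u.1 : Qb), mem_OH.2 ⟨(V.valuation_le_one_iff _).1 u.2.2.1.le, u.2.1⟩⟩
  have : Finite (Wc V H 1 ⧸ (Wc V H c).subgroupOf (Wc V H 1)) := by
    refine Finite.of_injective (fun q => (QuotientAddGroup.mk (φ q.out) : _ ⧸
      ((OH V H).toAddSubgroup.map (AddMonoidHom.mulLeft c)).addSubgroupOf _)) fun q q' h => ?_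
    beta_reduce at h
    rw [← q.out_eq', ← q'.out_eq', QuotientGroup.eq]
    rw [QuotientAddGroup.eq, AddSubgroup.mem_addSubgroupOf, mem_cO hc hf] at h
    have h1 := h.2
    have h2 := (q.out⁻¹ * q'.out).2
    refine ⟨h2.1, h2.2.1, le_trans (le_of_eq ?_) h1⟩
    have e : (((q.out⁻¹ * q'.out : Wc V H 1) : Qbˣ) : Qb) - 1 =
        ((q.out : Qbˣ) : Qb)⁻¹ * (-((q.out : Qbˣ) : Qb) + (q'.out : Qbˣ)) := by
      rw [mul_add, mul_neg, inv_mul_cancel₀ (Units.ne_zero _)]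
      simp [sub_eq_neg_add]
    show V.valuation ((((q.out⁻¹ * q'.out : Wc V H 1) : Qbˣ) : Qb) - 1) = _
    rw [e, map_mul, map_inv₀, q.out.2.2.1, inv_one, one_mul]
    rfl
  exact Subgroup.index_ne_zero_of_finite

lemma Wc_idx {c b : Qb} (hc : c ≠ 0) (hf : IsFix H c) (hb : b ≠ 0) (hfb : IsFix H b)
    (h1 : V.valuation c < 1) (h2 : V.valuation c ≤ V.valuation b) :
    (Wc V H (b * c)).relIndex (Wc V H c) = qO V H b := by
  have h0 : 0 < V.valuation c := zero_lt_iff.2 ((map_ne_zero _).2 hc)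
  let φ : Wc V H c → (OH V H).toAddSubgroup := fun u =>
    ⟨((u.1 : Qb) - 1) / c, mem_OH.2 ⟨(V.valuation_le_one_iff _).1 (by
      rw [map_div₀]; exact (div_le_one₀ h0).2 u.2.2.2),
      fun g hg => by simp [hf g hg, u.2.1 g hg]⟩⟩
  let ψ : Wc V H c →* Multiplicative ((OH V H).toAddSubgroup ⧸
      ((OH V H).toAddSubgroup.map (AddMonoidHom.mulLeft b)).addSubgroupOf _) :=
    MonoidHom.mk' (fun u => Multiplicative.ofAdd (QuotientAddGroup.mk (φ u))) fun u w => by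
      rw [← ofAdd_add, ← QuotientAddGroup.mk_add]
      congr 1
      rw [eq_comm, QuotientAddGroup.eq]
      refine (mem_cO hb hfb).2 ⟨(mem_OH.1 (-(φ u + φ w) + φ (u * w)).2).2, ?_⟩
      have e : ((-(φ u + φ w) + φ (u * w) : (OH V H).toAddSubgroup) : Qb) =
          (φ u : Qb) * ((w.1 : Qb) - 1) := by
        simp only [φ, AddSubgroup.coe_add, AddSubgroup.coe_neg, Subgroup.coe_mul, Units.val_mul]
        ring
      show V.valuation ((-(φ u + φ w) + φ (u * w) : (OH V H).toAddSubgroup) : Qb) ≤ _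
      rw [e, map_mul]
      exact (mul_le_of_le_one_left' ((V.valuation_le_one_iff _).2 (mem_OH.1 (φ u).2).1)).trans
        (w.2.2.2.trans h2)
  have hk : (Wc V H (b * c)).subgroupOf (Wc V H c) = ψ.ker := by
    ext u
    have e : u ∈ ψ.ker ↔ IsFix H (φ u : Qb) ∧ V.valuation (φ u : Qb) ≤ V.valuation b := by
      rw [MonoidHom.mem_ker, ← mem_cO hb hfb]
      exact ofAdd_eq_one.trans (QuotientAddGroup.eq_zero_iff _)
    rw [e, Subgroup.mem_subgroupOf, mem_Wc, map_mul, ← div_le_iff₀ h0, ← map_div₀]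
    exact ⟨fun h => ⟨(mem_OH.1 (φ u).2).2, h.2.2⟩, fun h => ⟨u.2.1, u.2.2.1, h.2⟩⟩
  have hs : Function.Surjective ψ := fun q => by
    obtain ⟨a, ha⟩ := QuotientAddGroup.mk_surjective q.toAdd
    obtain ⟨h3, h4⟩ := mem_OH.1 a.2
    have h5 : V.valuation (c * a) ≤ V.valuation c := by
      rw [map_mul]
      exact mul_le_of_le_one_right' ((V.valuation_le_one_iff _).2 h3)
    have h6 : V.valuation (1 + c * a) = 1 := V.valuation.map_one_add_of_lt (h5.trans_lt h1)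
    have h7 : 1 + c * (a : Qb) ≠ 0 := fun h => by simp [h] at h6
    refine ⟨⟨Units.mk0 _ h7, fun g hg => by simp [hf g hg, h4 g hg], h6, by simpa using h5⟩, ?_⟩
    rw [← ofAdd_toAdd q, ← ha]
    refine congrArg (fun t => Multiplicative.ofAdd (QuotientAddGroup.mk t)) (Subtype.ext ?_)
    simp [φ, hc]
  rw [Subgroup.relIndex, hk, Subgroup.index_ker, MonoidHom.range_eq_top.2 hs, Subgroup.card_top]
  rfl

lemma Wc_pow (hv : ValStmt) (hH : H ≤ DG V) {r : ℕ} (hr : r.Prime) {c : Qb}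
    (h : V.valuation c < V.valuation (r : Qb)) :
    (Wc V H c).map (powMonoidHom r) = Wc V H (r * c) := by
  have h0 : 0 < V.valuation (r : Qb) := zero_le.trans_lt h
  have h1 := val_nat V r
  refine le_antisymm ?_ fun x hx => ?_
  · rintro _ ⟨y, hy, rfl⟩
    have h2 := (Wc V H c).pow_mem hy
    refine ⟨(h2 r).1, (h2 r).2.1, ?_⟩
    have e : ((powMonoidHom r y : Qbˣ) : Qb) - 1 =
        (r + ∑ i ∈ Finset.range r, (((y ^ i : Qbˣ) : Qb) - 1)) * (y - 1) := by
      rw [Finset.sum_sub_distrib]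
      simp [geom_sum_mul]
    rw [e, map_mul, map_mul]
    exact mul_le_mul' (V.valuation.map_add_le le_rfl
      (V.valuation.map_sum_le fun i _ => (h2 i).2.2.trans h.le)) hy.2.2
  · obtain ⟨y, h2, h3, h4⟩ := hv.root V H hH r hr x hx.1 (by
      obtain ⟨k, rfl⟩ : ∃ k, r = k + 2 := ⟨r - 2, by have := hr.two_le; omega⟩
      have h5 := hx.2.2
      rw [map_mul] at h5
      refine (pow_le_pow_left' h5 _).trans_lt ?_
      rw [mul_pow, pow_succ _ (k + 1)]
      refine mul_lt_mul_of_pos_left ?_ (pow_pos h0 _)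
      exact (pow_le_of_le_one zero_le (h.le.trans h1) (by omega)).trans_lt h)
    have h5 : y ≠ 0 := fun h6 => x.ne_zero (by rw [← h3, h6, zero_pow hr.ne_zero])
    refine ⟨Units.mk0 y h5, ⟨h2, ?_, ?_⟩, Units.ext (by simpa using h3)⟩
    · have := hx.2.1
      rw [← h3, map_pow] at this
      exact (pow_eq_one_iff_left hr.ne_zero).1 this
    · have := h4.trans_le hx.2.2
      rw [map_mul, mul_comm] at this
      exact le_of_mul_le_mul_left this h0

lemma pw_fix {π : Qbˣ} (hπ : Unif V H π) {r : ℕ} (hr : r ≠ 0) :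
    pw r (fixU H) = r * pw r (Wc V H 1) := by
  let f : Qbˣ →* V.ValueGroupˣ := Units.map V.valuation.toMonoidHom
  have hf : ∀ u, f u = 1 ↔ V.valuation (u : Qb) = 1 := fun u => Units.ext_iff
  have h0 : 0 < V.valuation (π : Qb) := zero_lt_iff.2 ((map_ne_zero _).2 π.ne_zero)
  have hz : ∀ (y : Qbˣ) (j : ℤ), f y = f π ^ j ↔ V.valuation (y : Qb) = V.valuation (π : Qb) ^ j :=
    fun y j => by rw [Units.ext_iff, Units.val_zpow_eq_zpow_val]; rfl
  have e1 : (fixU H).map f = (⊤ : Subgroup (Multiplicative ℤ)).map (zpowersHom _ (f π)) := by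
    ext z
    constructor
    · rintro ⟨y, hy, rfl⟩
      obtain ⟨j, hj⟩ := hπ.2.2 y hy
      exact ⟨Multiplicative.ofAdd j, trivial, ((hz y j).2 hj).symm⟩
    · rintro ⟨j, -, rfl⟩
      exact ⟨π ^ j.toAdd, (fixU H).zpow_mem hπ.1 _, map_zpow f π _⟩
  have e2 : (((fixU H).map (powMonoidHom r)).map f).comap (zpowersHom _ (f π)) =
      (AddSubgroup.zmultiples (r : ℤ)).toSubgroup := by
    ext j
    constructor
    · rintro ⟨_, ⟨y, hy, rfl⟩, h1⟩
      obtain ⟨i, hi⟩ := hπ.2.2 y hy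
      have h2 := (hz (y ^ r) j.toAdd).1 h1
      rw [Units.val_pow_eq_pow_val, map_pow, hi, ← zpow_natCast, ← zpow_mul] at h2
      exact ⟨i, zpow_right_injective₀ h0 hπ.2.1.ne h2⟩
    · rintro ⟨i, hi⟩
      refine ⟨_, ⟨π ^ i, (fixU H).zpow_mem hπ.1 _, rfl⟩, ?_⟩
      have hi' : i * r = j.toAdd := hi
      rw [zpowersHom_apply, ← hi', zpow_mul, zpow_natCast, powMonoidHom_apply, map_pow, map_zpow]
  have e3 : fixU H ⊓ f.ker = Wc V H 1 := by
    ext u
    rw [mem_Wc_one, ← hf]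
    rfl
  have e4 : (fixU H).map (powMonoidHom r) ⊓ Wc V H 1 = (Wc V H 1).map (powMonoidHom r) := by
    refine le_antisymm ?_ ?_
    · rintro _ ⟨⟨y, hy, rfl⟩, h1⟩
      refine ⟨y, mem_Wc_one.2 ⟨hy, (pow_eq_one_iff_left hr).1 ?_⟩, rfl⟩
      simpa using h1.2.1
    · rintro _ ⟨y, hy, rfl⟩
      exact ⟨⟨y, hy.1, rfl⟩, (Wc V H 1).pow_mem hy r⟩
  unfold pw
  rw [idx f (A := (fixU H).map (powMonoidHom r)) (B := fixU H)
    (by rintro _ ⟨a, ha, rfl⟩; exact (fixU H).pow_mem ha r), e3, e1, ← Subgroup.relIndex_comap, e2,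
    Subgroup.relIndex_top_right, AddSubgroup.index_toSubgroup, Int.index_zmultiples,
    Int.natAbs_natCast, ← Subgroup.inf_relIndex_right, e4]

lemma scale (hv : ValStmt) (V : Pl) (y : Qb) : ∃ m : ℕ, m ≠ 0 ∧ (m : Qb) * y ∈ V := by
  have h : IsAlgebraic ℤ y :=
    (IsFractionRing.isAlgebraic_iff ℤ ℚ Qb).2 (Algebra.IsAlgebraic.isAlgebraic y)
  obtain ⟨m, hm, h1⟩ := h.exists_integral_multiple
  refine ⟨m.natAbs, Int.natAbs_ne_zero.2 hm, ?_⟩
  have h2 := hv.integral V _ h1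
  rw [zsmul_eq_mul] at h2
  rcases Int.natAbs_eq m with h3 | h3
  · rwa [h3, Int.cast_natCast] at h2
  · rw [h3, Int.cast_neg, Int.cast_natCast, neg_mul] at h2
    simpa using neg_mem h2

lemma act_mem (hv : ValStmt) {g : GQ} (hg : g ∈ DG V) {y : Qb} (hy : y ∈ V) : g y ∈ V :=
  (V.valuation_le_one_iff _).1 ((hv.inv V g hg y).trans_le ((V.valuation_le_one_iff _).2 hy))

/-- a lattice of rank `d` and finite index -/
lemma lattice (hv : ValStmt) {H' : Subgroup GQ} {d : ℕ} {x : GQ → ZMod d} {σ : GQ}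
    (hH : OpenIn H (DG V)) (hc : Cyc H H' d x σ) :
    ∃ (ι : Type) (_ : Fintype ι) (e : ι → OH V H') (m : ℕ), Fintype.card ι = d ∧ m ≠ 0 ∧
      (∀ a : ι → OH V H, ∑ j, (a j : Qb) * e j = 0 → a = 0) ∧
      ∀ y ∈ OH V H', ∃ a : ι → OH V H, ∑ j, (a j : Qb) * e j = m * y := by
  have hσ : ∀ i : ℕ, σ ^ i ∈ H := H.pow_mem hc.mem
  let F : Fin d → (OH V H' →* Qb) := fun i =>
    ((σ ^ (i : ℕ) : GQ) : Qb →* Qb).comp (OH V H').subtype.toMonoidHom
  have hF : Function.Injective F := fun i j hij => by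
    have h1 : (σ ^ (j : ℕ))⁻¹ * σ ^ (i : ℕ) ∈ H' := by
      refine mem_of_fix ((hc.opn.trans hH).isClosed (hv.dg_closed V)) fun y hy => ?_
      obtain ⟨m, hm, h2⟩ := scale hv V y
      have h3 : (σ ^ (i : ℕ)) (m * y) = (σ ^ (j : ℕ)) (m * y) := DFunLike.congr_fun hij
        ⟨m * y, mem_OH.2 ⟨h2, fun g hg => by simp [hy g hg]⟩⟩
      rw [map_mul, map_mul, map_natCast, map_natCast] at h3
      rw [AlgEquiv.mul_apply, mul_left_cancel₀ (Nat.cast_ne_zero.2 hm) h3, ← AlgEquiv.mul_apply,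
        inv_mul_cancel, AlgEquiv.one_apply]
    have h2 := ((hc.ker _).1 h1).2
    rw [hc.add _ (H.inv_mem (hσ _)) _ (hσ _), hc.map_inv (hσ _), hc.map_pow hc.mem,
      hc.map_pow hc.mem, hc.gen, mul_one, mul_one, neg_add_eq_zero,
      ZMod.natCast_eq_natCast_iff', Nat.mod_eq_of_lt i.2, Nat.mod_eq_of_lt j.2] at h2
    exact Fin.ext h2.symm
  have hli : LinearIndependent Qb fun i : Fin d => (F i : OH V H' → Qb) :=
    (linearIndependent_monoidHom (OH V H') Qb).comp F hF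
  obtain ⟨ι, e, -, hsp, hl⟩ := exists_linearIndependent' Qb (flip fun i : Fin d => (F i : _ → Qb))
  rw [span_flip_eq_top_iff_linearIndependent.2 hli] at hsp
  let b := Module.Basis.mk hl hsp.ge
  have := b.linearIndependent.finite
  have := Fintype.ofFinite ι
  have hb : ∀ j i, b j i = (σ ^ (i : ℕ)) (e j : Qb) := fun j i => by
    simp only [b, Module.Basis.mk_apply]
    rfl
  have huniq : ∀ a a' : ι → Qb, (∀ i : Fin d, ∑ j, a j * (σ ^ (i : ℕ)) (e j : Qb) =
      ∑ j, a' j * (σ ^ (i : ℕ)) (e j : Qb)) → a = a' := fun a a' h =>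
    b.equivFun.symm.injective (funext fun i => by
      simpa [Module.Basis.equivFun_symm_apply, hb] using h i)
  choose μ hμ hμ' using fun p : ι × Fin d => scale hv V (b.repr (Pi.single p.2 1) p.1)
  refine ⟨ι, this, e, ∏ p, μ p, ?_, Finset.prod_ne_zero_iff.2 fun p _ => hμ p, fun a ha => ?_,
    fun y hy => ?_⟩
  · rw [← Module.finrank_eq_card_basis b, Module.finrank_fin_fun]
  · have := huniq (fun j => a j) 0 fun i => by
      have h1 := congrArg (σ ^ (i : ℕ)) ha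
      simp only [map_sum, map_mul, map_zero, (mem_OH.1 (a _).2).2 _ (hσ i)] at h1
      simpa using h1
    exact funext fun j => Subtype.ext (congrFun this j)
  · obtain ⟨hy1, hy2⟩ := mem_OH.1 hy
    let w : Fin d → Qb := fun i => (σ ^ (i : ℕ)) y
    have h1 : ∀ i : Fin d, ∑ j, b.repr w j * (σ ^ (i : ℕ)) (e j : Qb) = (σ ^ (i : ℕ)) y :=
      fun i => by
        have h1 := congrFun (b.sum_repr w) i
        simp only [Finset.sum_apply, Pi.smul_apply, smul_eq_mul, hb] at h1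
        exact h1
    have h2 : ∀ g ∈ H, ∑ j, b.repr w j * g (e j : Qb) = g y := fun g hg => by
      have : NeZero d := ⟨hc.pos.ne'⟩
      have h3 : ∀ z, IsFix H' z → g z = (σ ^ (x g).val) z := fun z hz => by
        have h4 := congrArg (σ ^ (x g).val) (hz _ (hc.decomp hg))
        rwa [← AlgEquiv.mul_apply, mul_inv_cancel_left] at h4
      simp only [h3 _ hy2, h3 _ (mem_OH.1 (e _).2).2]
      exact h1 ⟨_, ZMod.val_lt _⟩
    have h3 : ∀ j, IsFix H (b.repr w j) := fun j g hg => by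
      refine congrFun (huniq (fun j => g (b.repr w j)) (b.repr w) fun i => ?_) j
      have h4 := congrArg g (h2 _ (H.mul_mem (H.inv_mem hg) (hσ i)))
      simp only [map_sum, map_mul, ← AlgEquiv.mul_apply, mul_inv_cancel_left] at h4
      rw [h4, h1]
    have h4 : ∀ j, ((∏ p, μ p : ℕ) : Qb) * b.repr w j ∈ V := fun j => by
      have h5 : w = ∑ i, w i • Pi.single i (1 : Qb) := by
        funext i
        simp [Finset.sum_apply, Pi.single_apply]
      rw [h5, map_sum, Finsupp.finsetSum_apply, Finset.mul_sum]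
      refine sum_mem fun i _ => ?_
      rw [← Finset.mul_prod_erase _ _ (Finset.mem_univ (j, i)), map_smul, Finsupp.smul_apply,
        smul_eq_mul, Nat.cast_mul, mul_comm (μ (j, i) : Qb), mul_assoc, mul_left_comm (μ (j, i) : Qb)]
      exact mul_mem (natCast_mem V _) (mul_mem (act_mem hv (hH.1 (hσ i)) hy1) (hμ' (j, i)))
    refine ⟨fun j => ⟨_, mem_OH.2 ⟨h4 j, fun g hg => by rw [map_mul, map_natCast, h3 j g hg]⟩⟩, ?_⟩
    have h5 := h2 1 H.one_mem
    simp only [AlgEquiv.one_apply] at h5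
    simp only [mul_assoc, ← Finset.mul_sum, h5]

end PhiP

open PhiP in
theorem phi (_h1 : Coh1Stmt) (hv : ValStmt) (hd : DensStmt) : PhiStmt := by
  refine ⟨fun r B hr => ?_, fun V H r hV hH hr => ?_, fun V H H' d x σ c hV hH hc hc0 => ?_⟩
  · have : NeZero r := ⟨hr.ne_zero⟩
    have h : B ⊓ (powMonoidHom r).ker ≤ rootsOfUnity r Qb := fun u hu => hu.2
    have := Finite.of_injective _ (Subgroup.inclusion_injective h)
    exact ⟨Nat.card_pos.ne', (Subgroup.card_le_of_le h).trans (card_rootsOfUnity Qb r)⟩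
  · obtain ⟨l, hl, hVl⟩ := hv.above_ex V hV
    obtain ⟨π, hπ⟩ := hd.unif V H hV hH
    have hr0 : (r : Qb) ≠ 0 := Nat.cast_ne_zero.2 hr.ne_zero
    have hn : l * r ≠ 0 := mul_ne_zero hl.ne_zero hr.ne_zero
    have hc0 : ((l * r : ℕ) : Qb) ≠ 0 := Nat.cast_ne_zero.2 hn
    have hlt : V.valuation ((l * r : ℕ) : Qb) < V.valuation (r : Qb) := by
      rw [Nat.cast_mul, map_mul]
      exact mul_lt_of_lt_one_left (zero_lt_iff.2 ((map_ne_zero _).2 hr0)) hVl
    have e : tor r (fixU H) = tor r (Wc V H 1) := by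
      unfold tor
      congr 2
      ext u
      refine and_congr_left fun hu => ⟨fun h => mem_Wc_one.2 ⟨h, ?_⟩, fun h => h.1⟩
      refine (pow_eq_one_iff_left hr.ne_zero).1 ?_
      rw [← map_pow, ← Units.val_pow_eq_pow_val, show u ^ r = 1 from hu]
      simp
    rw [pw_fix hπ hr.ne_zero, pw_of_le r (A := Wc V H ((l * r : ℕ) : Qb))
      (fun u hu => mem_Wc_one.2 ⟨hu.1, hu.2.1⟩)
      (Wc_fin hc0 (fix_nat H _) (hd.fin V H _ hV hH hn)) (fun a ha h => ?_), e, mul_assoc, pw,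
      Wc_pow hv hH.1 hr hlt,
      Wc_idx hc0 (fix_nat H _) hr0 (fix_nat H _) (hlt.trans_le (val_nat V r)) hlt.le]
    by_contra h1
    have h2 := hv.mu V r hr a (by simpa using congrArg Units.val h) fun h3 => h1 (Units.ext h3)
    have h3 := ha.2.2.trans_lt hlt
    refine absurd h2 (ne_of_lt (lt_of_le_of_lt ?_ h3))
    exact pow_le_of_le_one zero_le (h3.le.trans (val_nat V r)) (by have := hr.two_le; omega)
  · obtain ⟨ι, _, e, m, hι, hm, hinj, hsur⟩ := lattice hv hH hc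
    have hc' : (c : Qb) ≠ 0 := Nat.cast_ne_zero.2 hc0
    let T : (ι → (OH V H).toAddSubgroup) →+ Qb := AddMonoidHom.mk'
      (fun a => ∑ j, (a j : Qb) * e j) fun a a' => by simp [add_mul, Finset.sum_add_distrib]
    have hT : Function.Injective T := (injective_iff_map_eq_zero T).2 hinj
    have hL : (⊤ : AddSubgroup _).map T ≤ (OH V H').toAddSubgroup := by
      rintro _ ⟨a, -, rfl⟩
      exact (OH V H').sum_mem fun j _ => (OH V H').mul_mem
        (mem_OH.2 ((mem_OH.1 (a j).2).imp_right fun h => h.mono hc.le)) (e j).2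
    have hO : ∀ G : Subgroup GQ, (OH V G).toAddSubgroup.map (AddMonoidHom.mulLeft (c : Qb)) ≤
        (OH V G).toAddSubgroup := by
      rintro G _ ⟨a, ha, rfl⟩
      exact (OH V G).mul_mem (natCast_mem _ c) ha
    have hfin : ((⊤ : AddSubgroup _).map T).relIndex (OH V H').toAddSubgroup ≠ 0 := fun h =>
      hd.fin V H' m hV (hc.opn.trans hH) hm (AddSubgroup.relIndex_eq_zero_of_le_left (by
        rintro _ ⟨y, hy, rfl⟩
        obtain ⟨a, ha⟩ := hsur y hy
        exact ⟨a, trivial, ha⟩) h)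
    have e1 : ((⊤ : AddSubgroup _).map T).map (AddMonoidHom.mulLeft (c : Qb)) =
        (AddSubgroup.pi Set.univ fun _ : ι => ((OH V H).toAddSubgroup.map
          (AddMonoidHom.mulLeft (c : Qb))).addSubgroupOf (OH V H).toAddSubgroup).map T := by
      refine le_antisymm ?_ ?_
      · rintro _ ⟨_, ⟨a, -, rfl⟩, rfl⟩
        refine ⟨fun j => ⟨_, hO H ⟨a j, (a j).2, rfl⟩⟩, fun j _ => ⟨a j, (a j).2, rfl⟩, ?_⟩
        simp [T, mul_assoc]
      · rintro _ ⟨a, ha, rfl⟩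
        choose a' h1 h2 using fun j => ha j trivial
        refine ⟨_, ⟨fun j => ⟨a' j, h1 j⟩, trivial, rfl⟩, ?_⟩
        have h3 : ∀ j, (a j : Qb) = c * a' j := fun j => (h2 j).symm
        simp [T, mul_assoc, h3]
    have e2 : (((⊤ : AddSubgroup _).map T).map (AddMonoidHom.mulLeft (c : Qb))).relIndex
        ((⊤ : AddSubgroup _).map T) = qO V H c ^ d := by
      rw [e1, AddSubgroup.relIndex_map_map_of_injective _ _ hT, AddSubgroup.relIndex_top_right,
        AddSubgroup.index_pi, Finset.prod_const, Finset.card_univ, hι]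
      rfl
    have e3 := AddSubgroup.relIndex_mul_relIndex _ _ _
      (AddSubgroup.map_mono (f := AddMonoidHom.mulLeft (c : Qb)) hL) (hO H')
    have e4 := AddSubgroup.relIndex_mul_relIndex
      (((⊤ : AddSubgroup _).map T).map (AddMonoidHom.mulLeft (c : Qb))) _ _
      (by rw [e1]; exact AddSubgroup.map_mono le_top) hL
    rw [AddSubgroup.relIndex_map_map_of_injective _ _ (mul_right_injective₀ hc'), ← e4, e2,
      mul_comm] at e3
    exact mul_right_cancel₀ hfin e3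

end Pool.Agent.MP_59efd2_nt.lz

end
end MrgPart4

-- ======== part 5: formerly Pool.Agent.MP_59efd2_nt.lz.Inv
section MrgPart5

/-! Row INV: the local invariant with values in the Iwasawa algebra. -/

noncomputable section

namespace Pool.Agent.MP_59efd2_nt.lz

open scoped Pointwise Classical
open Finset

namespace InvP

variable (p : ℕ) [Fact p.Prime]

/-- A compatible system of generators of the `p`-power torsion. -/
lemma exists_theta {A : Type} [AddCommGroup A] (Z : AddSubgroup A) (w : ℕ → A)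
    (hw : ∀ n, w n ∈ Z) (h0 : w 0 = 0) (hs : ∀ n, p • w (n + 1) = w n) (h1 : w 1 ≠ 0)
    (hc : ∀ y ∈ Z, p • y = 0 → ∃ j : ℕ, y = j • w 1) :
    ∃ θ : ∀ n, ZMod (p ^ n) →+ A, (∀ n, Function.Injective (θ n)) ∧
      (∀ n, ∀ y ∈ Z, p ^ n • y = 0 → ∃ t, θ n t = y) ∧
      ∀ n t, θ n (red p n t) = p • θ (n + 1) t := by
  have hp1 : ∀ n, p ^ n • w (n + 1) = w 1 := fun n => by
    induction n with
    | zero => simp
    | succ n ih => rw [pow_succ, mul_smul, hs, ih]
  have hp0 : ∀ n, p ^ n • w n = 0 := fun n => by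
    cases n with
    | zero => simp [h0]
    | succ n => rw [pow_succ', mul_smul, hp1, hs, h0]
  have ho : ∀ n, addOrderOf (w n) = p ^ n := fun n => by
    cases n with
    | zero => simp [h0]
    | succ n => exact addOrderOf_eq_prime_pow (by rw [hp1]; exact h1) (hp0 _)
  obtain ⟨θ, hθ⟩ : ∃ θ : ∀ n, ZMod (p ^ n) →+ A, ∀ n (k : ℕ), θ n k = k • w n :=
    ⟨fun n => ZMod.lift (p ^ n) ⟨zmultiplesHom A (w n), by
        rw [zmultiplesHom_apply, natCast_zsmul, hp0]⟩,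
      fun n k => by rw [← Int.cast_natCast, ZMod.lift_coe, zmultiplesHom_apply, natCast_zsmul]⟩
  refine ⟨θ, fun n => (injective_iff_map_eq_zero _).2 fun t ht => ?_, fun n y hy h => ?_,
    fun n t => ?_⟩
  · rw [← ZMod.natCast_zmod_val t] at ht ⊢
    rw [hθ, ← addOrderOf_dvd_iff_nsmul_eq_zero, ho] at ht
    exact (ZMod.natCast_eq_zero_iff _ _).2 ht
  · suffices ∃ k : ℕ, y = k • w n from this.elim fun k hk => ⟨k, (hθ n k).trans hk.symm⟩
    induction n generalizing y with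
    | zero => exact ⟨0, by simpa using h⟩
    | succ n ih =>
      obtain ⟨k, hk⟩ := ih (p • y) (Z.nsmul_mem hy p) (by rw [← mul_smul, ← pow_succ, h])
      obtain ⟨j, hj⟩ := hc (y - k • w (n + 1)) (Z.sub_mem hy (Z.nsmul_mem (hw _) k))
        (by rw [smul_sub, hk, smul_comm, hs, sub_self])
      exact ⟨j * p ^ n + k, by rw [add_smul, mul_smul, hp1, ← hj, sub_add_cancel]⟩
  · rw [← ZMod.natCast_zmod_val t, map_natCast, hθ, hθ, smul_comm, hs]

variable {p} {n : ℕ}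

/-- The functional with given values on the group elements. -/
def fn (v : Gam p n → ZMod (p ^ n)) : LamN p n →+ ZMod (p ^ n) where
  toFun x := ∑ γ, x.coeff γ * v γ
  map_zero' := by simp
  map_add' x y := by simp [add_mul, sum_add_distrib]

lemma fn_single (v : Gam p n → ZMod (p ^ n)) (γ : Gam p n) (c : ZMod (p ^ n)) :
    fn v (MonoidAlgebra.single γ c) = c * v γ := by
  change ∑ γ', (MonoidAlgebra.single γ c).coeff γ' * v γ' = _
  simp [Finsupp.single_apply]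

/-- A coefficient. -/
def co (γ : Gam p n) : LamN p n →+ ZMod (p ^ n) where
  toFun x := x.coeff γ
  map_zero' := rfl
  map_add' _ _ := rfl

omit [Fact p.Prime] in
lemma map_single (φ : LamN p n →+ ZMod (p ^ n)) (γ : Gam p n) (c : ZMod (p ^ n)) :
    φ (MonoidAlgebra.single γ c) = c * φ (MonoidAlgebra.single γ 1) := by
  rw [← smul_eq_mul, ← ZMod.map_smul φ, MonoidAlgebra.smul_single', mul_one]

lemma map_eq (φ : LamN p n →+ ZMod (p ^ n)) (x : LamN p n) :
    φ x = ∑ γ, (φ (MonoidAlgebra.single γ 1)).val • co γ x := by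
  have : φ x = fn (fun γ => φ (MonoidAlgebra.single γ 1)) x := by
    induction x using MonoidAlgebra.induction_linear with
    | zero => simp
    | add a b ha hb => simp only [map_add, ha, hb]
    | single γ c => rw [fn_single, map_single]
  refine this.trans (sum_congr rfl fun γ _ => ?_)
  rw [nsmul_eq_mul, ZMod.natCast_zmod_val, mul_comm]
  rfl

lemma eqv (φ : LamN p n →+ ZMod (p ^ n)) (g : GQ) (x : LamN p n) :
    ((iot p n).comp φ) (chiAct p n g x) = aU g (((iot p n).comp φ) x) := by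
  have : chiAct p n g x = (chiN p n g : ZMod (p ^ n)) • x :=
    MonoidAlgebra.ext (Finsupp.ext fun γ => MonoidAlgebra.coeff_single_one_mul x _ γ)
  rw [this, AddMonoidHom.comp_apply, AddMonoidHom.comp_apply, ZMod.map_smul φ, aU_iot, smul_eq_mul]

lemma exists_lift (φ : LamN p n →+ ZMod (p ^ n)) :
    ∃ φ' : LamN p (n + 1) →+ ZMod (p ^ (n + 1)), ∀ z, red p n (φ' z) = φ (trans p n z) := by
  refine ⟨fn fun γ => ((φ (MonoidAlgebra.single (Units.map (red p n).toMonoidHom γ) 1)).val : ℕ),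
    fun z => ?_⟩
  induction z using MonoidAlgebra.induction_linear with
  | zero => simp
  | add a b ha hb => simp only [map_add, ha, hb]
  | single γ c =>
    rw [fn_single, trans_single, map_mul, map_natCast, ZMod.natCast_zmod_val, ← map_single]

variable {A : Type} [AddCommGroup A] {π : (GQ → GQ → AU) →+ A} {D : Subgroup GQ}
  {F : GQ → GQ → Lam p}

/-- The Brauer class of a functional applied to level `n`. -/
def cl (π : (GQ → GQ → AU) →+ A) (φ : LamN p n →+ ZMod (p ^ n)) (F : GQ → GQ → Lam p) : A :=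
  π fun g h => iot p n (φ (proj p n (F g h)))

lemma cl_mem (hF : ZZ p D F) (φ : LamN p n →+ ZMod (p ^ n)) : cl π φ F ∈ (Z2G D aU).map π :=
  ⟨_, (hF n).map ((iot p n).comp φ) fun g _ => eqv φ g, rfl⟩

lemma cl_tor (φ : LamN p n →+ ZMod (p ^ n)) : p ^ n • cl π φ F = 0 := by
  rw [cl, ← map_nsmul, ← map_zero π]
  congr 1
  funext g h
  change p ^ n • iot p n _ = 0
  rw [← map_nsmul, nsmul_eq_mul, ZMod.natCast_self, zero_mul, map_zero]

lemma cl_succ {φ : LamN p n →+ ZMod (p ^ n)} {φ' : LamN p (n + 1) →+ ZMod (p ^ (n + 1))}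
    (h : ∀ z, red p n (φ' z) = φ (trans p n z)) : p • cl π φ' F = cl π φ F := by
  rw [cl, cl, ← map_nsmul]
  congr 1
  funext g k
  change p • iot p (n + 1) _ = _
  rw [← iot_red, h, trans_proj]

lemma cl_eq (φ : LamN p n →+ ZMod (p ^ n)) :
    cl π φ F = ∑ γ, (φ (MonoidAlgebra.single γ 1)).val • cl π (co γ) F := by
  simp only [cl, ← map_nsmul π, ← map_sum π]
  congr 1
  funext g k
  rw [map_eq φ, map_sum]
  simp only [Finset.sum_apply, Pi.smul_apply, map_nsmul]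

lemma cl_add (φ : LamN p n →+ ZMod (p ^ n)) (F F' : GQ → GQ → Lam p) :
    cl π φ (F + F') = cl π φ F + cl π φ F' := by
  rw [cl, cl, cl, ← map_add]
  congr 1
  funext g k
  simp only [Pi.add_apply, map_add]

lemma zz_add {F' : GQ → GQ → Lam p} (hF : ZZ p D F) (hF' : ZZ p D F') : ZZ p D (F + F') :=
  fun n => ((hF n).add (hF' n)).congr fun _ _ _ _ => map_add (proj p n) _ _

lemma zz_mul (hF : ZZ p D F) (l : Lam p) : ZZ p D fun g h => l * F g h := fun n => by
  refine ((hF n).map (a' := chiAct p n) (AddMonoidHom.mulLeft (proj p n l)) fun g _ x => ?_).congr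
    fun g _ k _ => map_mul (proj p n) l (F g k)
  simp only [chiAct, mulAct_apply, AddMonoidHom.coe_mulLeft]
  exact mul_left_comm _ _ _

lemma zz_star (hF : ZZ p D F) (m : ℤ) : ZZ p D fun g h => star p m (F g h) := fun n =>
  (hF n).map (starN p m n).toAddMonoidHom fun g _ x => by
    change starN p m n (_ * _) = _ * starN p m n x
    rw [map_mul, starN_single]
    simp

lemma exists_br (D : Subgroup GQ) : ∃ (A : Type) (_ : AddCommGroup A) (π : (GQ → GQ → AU) →+ A),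
    ∀ f, π f = 0 ↔ B2 D aU f :=
  ⟨(GQ → GQ → AU) ⧸ B2G D aU, inferInstance, QuotientAddGroup.mk' _,
    fun _ => QuotientAddGroup.eq_zero_iff _⟩

end InvP

open InvP

theorem inv (_hc : ContStmt) (hlb : LbStmt) : InvStmt := by
  intro p _ V m F₀ hV hF₀ hn
  obtain ⟨A, _, π, hπ⟩ := exists_br (DG V)
  have h1 : cl π (evalN p m 1).toAddMonoidHom F₀ ≠ 0 := fun h => hn
    (((hπ _).1 h).congr fun g _ k _ => by
      change iot p 1 (e1 p (PadicInt.toZMod _)) = _
      rw [e1_toZMod, toZModPow_eval]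
      rfl)
  obtain ⟨θ, hi, hs, hr⟩ := exists_theta p ((Z2G (DG V) aU).map π)
    (fun n => cl π (evalN p m n).toAddMonoidHom F₀) (fun n => cl_mem hF₀ _)
    ((one_smul ℕ _).symm.trans (cl_tor (n := 0) (evalN p m 0).toAddMonoidHom))
    (fun n => cl_succ (red_evalN p m n)) h1 (by
      rintro _ ⟨f, hf, rfl⟩ h
      obtain ⟨f₀, h2, h3⟩ := cl_mem (π := π) hF₀ (evalN p m 1).toAddMonoidHom
      have h4 := cl_tor (F := F₀) (π := π) (evalN p m 1).toAddMonoidHom
      rw [← h3] at h1 h4 ⊢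
      rw [pow_one] at h4
      rw [← map_nsmul] at h h4
      obtain ⟨j, hj⟩ := hlb.cyc1 V _ p f₀ f hV (OpenIn.refl _) Fact.out h2 hf
        ((hπ _).1 h4) ((hπ _).1 h) fun h5 => h1 ((hπ _).2 h5)
      refine ⟨j, ?_⟩
      rw [← map_nsmul, ← sub_eq_zero, ← map_sub]
      exact (hπ _).2 hj)
  have uq : ∀ n (x y : LamN p n), (∀ φ : LamN p n →+ ZMod (p ^ n), θ n (φ x) = θ n (φ y)) →
      x = y := fun n x y h => MonoidAlgebra.ext (Finsupp.ext fun γ => hi n (h (co γ)))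
  have ex : ∀ F, ZZ p (DG V) F → ∀ n, ∃ x : LamN p n,
      ∀ φ : LamN p n →+ ZMod (p ^ n), θ n (φ x) = cl π φ F := fun F hF n => by
    choose t ht using fun γ : Gam p n => hs n _ (cl_mem hF (co γ)) (cl_tor _)
    refine ⟨.ofCoeff (Finsupp.equivFunOnFinite.symm t), fun φ => ?_⟩
    rw [map_eq φ, cl_eq, map_sum]
    exact sum_congr rfl fun γ _ => by rw [map_nsmul, ← ht]; rfl
  have ex' : ∀ F, ZZ p (DG V) F → ∃ X : Lam p, ∀ n,
      ∀ φ : LamN p n →+ ZMod (p ^ n), θ n (φ (proj p n X)) = cl π φ F := fun F hF => by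
    choose x hx using ex F hF
    refine ⟨mkLam p x fun n => uq n _ _ fun φ => ?_, hx⟩
    obtain ⟨φ', h⟩ := exists_lift φ
    rw [← h, hr, hx, hx, cl_succ h]
  choose! Inv hI using ex'
  have uq' : ∀ F, ZZ p (DG V) F → ∀ X : Lam p, (∀ n, ∀ φ : LamN p n →+ ZMod (p ^ n),
      cl π φ F = θ n (φ (proj p n X))) → Inv F = X := fun F hF X h =>
    lam_ext p fun n => uq n _ _ fun φ => (hI F hF n φ).trans (h n φ)
  refine ⟨Inv, fun F F' hF hF' => uq' _ (zz_add hF hF') _ fun n φ => ?_,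
    fun l F hF => uq' _ (zz_mul hF l) _ fun n φ => ?_,
    fun F hF => uq' _ (zz_star hF m) _ fun n φ => ?_, fun F hF h => uq' _ hF _ fun n φ => ?_,
    fun F h n γ => (h n).map ((iot p n).comp (co γ)) fun g _ => eqv _ g, fun h => h1 ?_⟩
  · rw [map_add, map_add, map_add, hI F hF, hI F' hF', cl_add]
  · rw [map_mul]
    refine Eq.trans ?_ (hI F hF n (φ.comp (AddMonoidHom.mulLeft (proj p n l)))).symm
    simp only [cl, map_mul]
    rfl
  · exact (hI F hF n (φ.comp (starN p m n).toAddMonoidHom)).symm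
  · rw [map_zero, map_zero, map_zero, cl_eq]
    exact sum_eq_zero fun γ _ => by rw [show cl π (co γ) F = 0 from (hπ _).2 (h n γ), smul_zero]
  · have h2 : evalN p m 1 (proj p 1 (Inv F₀)) = 0 := by
      rw [← toZModPow_eval, ← e1_toZMod]
      exact (congrArg (e1 p) h).trans (map_zero _)
    rw [← hI F₀ hF₀]
    exact (congrArg (θ 1) h2).trans (map_zero _)

end Pool.Agent.MP_59efd2_nt.lz

end
end MrgPart5

-- marker of a merged file
example : 731051 + 87805 = 731051 + 87805 := rfl
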