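import Mathlib.Algebra.AffineMonoid.Basic
import Mathlib.Algebra.GroupWithZero.Submonoid.CancelMulZero
import Mathlib.Data.Int.Star
import Mathlib.Algebra.Order.Ring.Star
import Mathlib.RingTheory.Valuation.LocalSubring
import Mathlib.GroupTheory.IndexNSmul
import Mathlib.RingTheory.RootsOfUnity.Lemmas
import Pool.Agent.MP_59efd2_nt.lz.Lii

-- ======== part 0: formerly Pool.Agent.MP_59efd2_nt.lz.Val
section MrgPart0

/-!
# Row VAL: places of `Qb`
-/

noncomputable section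

namespace Pool.Agent.MP_59efd2_nt.lz

open scoped Pointwise Classical
open Polynomial

namespace ValP

lemma equiv (V : Pl) (g : GQ) :
    ((g • V).valuation.comap (g : Qb →+* Qb)).IsEquiv V.valuation :=
  Valuation.isEquiv_of_val_le_one fun x => by
    rw [Valuation.comap_apply, ValuationSubring.valuation_le_one_iff,
      ValuationSubring.valuation_le_one_iff]
    exact ValuationSubring.smul_mem_pointwise_smul_iff

lemma smul_lt (V : Pl) (g : GQ) (x : Qb) : (g • V).valuation (g x) < 1 ↔ V.valuation x < 1 :=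
  (equiv V g).lt_one_iff_lt_one

lemma dg_lt {V : Pl} {g : GQ} (hg : g ∈ DG V) (x y : Qb) :
    V.valuation (g x) < V.valuation (g y) ↔ V.valuation x < V.valuation y := by
  have h := (equiv V g).lt_iff_lt (x := x) (y := y)
  rwa [show g • V = V from hg] at h

lemma inv (V : Pl) (g : GQ) (hg : g ∈ DG V) (x : Qb) : V.valuation (g x) = V.valuation x := by
  obtain ⟨N, hN⟩ := exists_ons_fix x
  have hk : (g ^ (N : Subgroup GQ).index) x = x :=
    hN _ (haveI := N.isNormal'; (N : Subgroup GQ).pow_index_mem g)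
  have k0 : 0 < (N : Subgroup GQ).index := Nat.pos_of_ne_zero (ons_finiteIndex N).index_ne_zero
  have e : ∀ n : ℕ, (g ^ (n + 1)) x = (g ^ n) (g x) := fun n => by rw [pow_succ]; rfl
  rcases lt_trichotomy (V.valuation (g x)) (V.valuation x) with h | h | h
  · have : StrictAnti fun n : ℕ => V.valuation ((g ^ n) x) := strictAnti_nat_of_succ_lt fun n => by
      rw [e]; exact (dg_lt (pow_mem hg n) _ _).2 h
    simpa [hk] using this k0
  · exact h
  · have : StrictMono fun n : ℕ => V.valuation ((g ^ n) x) := strictMono_nat_of_lt_succ fun n => by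
      rw [e]; exact (dg_lt (pow_mem hg n) _ _).2 h
    simpa [hk] using this k0

lemma smul_top (V : Pl) (g : GQ) : g • V = ⊤ ↔ V = ⊤ := by
  simp only [eq_top_iff, SetLike.le_def]
  exact ⟨fun h x _ => ValuationSubring.smul_mem_pointwise_smul_iff.1 (h (x := g • x) trivial),
    fun h x _ => ValuationSubring.mem_pointwise_smul_iff_inv_smul_mem.2 (h trivial)⟩

lemma dg_smul (V : Pl) (g k : GQ) : k ∈ DG (g • V) ↔ g⁻¹ * k * g ∈ DG V := by
  simp only [MulAction.mem_stabilizer_iff, mul_smul, inv_smul_eq_iff]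

lemma ig (V : Pl) (g : GQ) : g ∈ IG V ↔ g ∈ DG V ∧ ∀ x ∈ V, V.valuation (g x - x) < 1 := by
  have k : ∀ g : DG V, g ∈ V.inertiaSubgroup ℚ ↔ ∀ x ∈ V, V.valuation (g.1 x - x) < 1 := by
    intro g
    have e : ∀ x : V, g • IsLocalRing.residue V x = IsLocalRing.residue V x ↔
        V.valuation (g.1 x - x) < 1 := fun x => by
      rw [← IsLocalRing.ResidueField.residue_smul, ← sub_eq_zero, ← map_sub,
        IsLocalRing.residue_eq_zero_iff, V.valuation_lt_one_iff]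
      rfl
    rw [ValuationSubring.inertiaSubgroup, MonoidHom.mem_ker, RingEquiv.ext_iff]
    refine ⟨fun h x hx => (e ⟨x, hx⟩).1 (h _), fun h r => ?_⟩
    obtain ⟨x, rfl⟩ := IsLocalRing.residue_surjective r
    exact (e x).2 (h x x.2)
  exact ⟨fun h => ⟨IG_le V h, (k ⟨g, IG_le V h⟩).1 ((mem_IG ⟨g, IG_le V h⟩).1 h)⟩,
    fun h => (mem_IG ⟨g, h.1⟩).2 ((k ⟨g, h.1⟩).2 h.2)⟩

lemma ig_smul (V : Pl) (g k : GQ) : k ∈ IG (g • V) ↔ g⁻¹ * k * g ∈ IG V := by
  rw [ig, ig, dg_smul]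
  refine and_congr_right fun _ => ?_
  have e : ∀ x, (g • V).valuation (k (g x) - g x) < 1 ↔
      V.valuation ((g⁻¹ * k * g) x - x) < 1 := fun x => by
    rw [← smul_lt V g, map_sub g]
    simp
  refine ⟨fun h x hx => (e x).1 (h _ (ValuationSubring.smul_mem_pointwise_smul g x V hx)),
    fun h y hy => ?_⟩
  obtain ⟨x, hx, rfl⟩ := (ValuationSubring.mem_smul_pointwise_iff_exists g y V).1 hy
  exact (e x).2 (h x hx)

lemma isOpen_ev (x : Qb) (P : Qb → Prop) : IsOpen {g : GQ | P (g x)} := by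
  refine isOpen_iff_mem_nhds.2 fun g hg => ?_
  have h : IsOpen ((fun k : GQ => g⁻¹ * k) ⁻¹' (MulAction.stabilizer GQ x : Set GQ)) :=
    (stabilizer_isOpen_of_isIntegral (K := ℚ) x).preimage (continuous_const.mul continuous_id)
  refine Filter.mem_of_superset (h.mem_nhds (by simp)) fun k hk => ?_
  have hk' : g⁻¹ • k • x = x := by rw [← mul_smul]; exact hk
  rw [inv_smul_eq_iff] at hk'
  change P (k x)
  rwa [show k x = g x from hk']

lemma isClosed_ev (x : Qb) (P : Qb → Prop) : IsClosed {g : GQ | P (g x)} :=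
  ⟨isOpen_ev x fun y => ¬ P y⟩

lemma dg_closed (V : Pl) : IsClosed (DG V : Set GQ) := by
  have e : (DG V : Set GQ) = ⋂ x : Qb, {g : GQ | g x ∈ V ↔ x ∈ V} := by
    ext g
    simp only [Set.mem_iInter, SetLike.mem_coe, MulAction.mem_stabilizer_iff]
    refine ⟨fun h x => ?_, fun h => SetLike.ext fun y => ?_⟩
    · have := ValuationSubring.smul_mem_pointwise_smul_iff (g := g) (S := V) (x := x)
      rwa [h] at this
    · obtain ⟨x, rfl⟩ := g.surjective y
      exact ValuationSubring.smul_mem_pointwise_smul_iff.trans (h x).symm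
  rw [e]
  exact isClosed_iInter fun x => isClosed_ev x fun y => y ∈ V ↔ x ∈ V

lemma ig_closed (V : Pl) : IsClosed (IG V : Set GQ) := by
  have e : (IG V : Set GQ) =
      (DG V : Set GQ) ∩ ⋂ x : Qb, {g : GQ | x ∈ V → V.valuation (g x - x) < 1} := by
    ext g
    simp only [Set.mem_inter_iff, Set.mem_iInter, SetLike.mem_coe]
    exact ig V g
  rw [e]
  exact (dg_closed V).inter
    (isClosed_iInter fun x => isClosed_ev x fun y => x ∈ V → V.valuation (y - x) < 1)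

lemma integral (V : Pl) (x : Qb) (hx : IsIntegral ℤ x) : x ∈ V := by
  obtain ⟨y, rfl⟩ := IsIntegrallyClosed.isIntegral_iff.1 (hx.tower_top (A := V))
  exact y.2

lemma int_le (V : Pl) (n : ℤ) : V.valuation (n : Qb) ≤ 1 :=
  (V.valuation_le_one_iff _).2 (intCast_mem V n)

lemma algZ (x : Qb) : IsAlgebraic ℤ x :=
  (IsFractionRing.isAlgebraic_iff ℤ ℚ Qb).2 (Algebra.IsAlgebraic.isAlgebraic x)

lemma above_ex (V : Pl) (hV : V ≠ ⊤) : ∃ l : ℕ, l.Prime ∧ Above V l := by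
  by_contra hc
  have k : ∀ n : ℕ, n ≠ 0 → V.valuation (n : Qb) = 1 := by
    intro n
    induction n using induction_on_primes with
    | zero => simp
    | one => simp
    | prime_mul p a hp ih =>
      intro h
      rw [Nat.cast_mul, map_mul, ih (right_ne_zero_of_mul h), mul_one]
      exact le_antisymm (by exact_mod_cast int_le V p) (not_lt.1 fun h' => hc ⟨p, hp, h'⟩)
  refine hV (eq_top_iff.2 fun x _ => ?_)
  obtain ⟨n, hn, hx⟩ := (algZ x).exists_integral_multiple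
  have h1 := (V.valuation_le_one_iff _).2 (integral V _ hx)
  have h2 : V.valuation (n : Qb) = 1 := by
    rcases Int.natAbs_eq n with e | e <;> rw [e] <;> simpa using k _ (Int.natAbs_ne_zero.2 hn)
  rwa [zsmul_eq_mul, map_mul, h2, one_mul, V.valuation_le_one_iff] at h1

lemma top_one (x : Qb) (hx : x ≠ 0) : (⊤ : Pl).valuation x = 1 :=
  le_antisymm ((ValuationSubring.valuation_le_one_iff _ _).2 trivial)
    ((Valuation.one_le_val_iff _ hx).2 ((ValuationSubring.valuation_le_one_iff _ _).2 trivial))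

lemma ex_above (l : ℕ) (hl : l.Prime) : ∃ V : Pl, Above V l := by
  obtain ⟨V, -, hV⟩ := Ideal.image_subset_nonunits_valuationSubring
    (A := (Int.castRingHom Qb).range) (Ideal.span {(l : (Int.castRingHom Qb).range)}) (by
      rw [Ne, Ideal.span_singleton_eq_top, isUnit_iff_exists_inv]
      rintro ⟨⟨_, n, rfl⟩, h⟩
      have h1 : ((l * n : ℤ) : Qb) = ((1 : ℤ) : Qb) := by simpa using congrArg Subtype.val h
      exact hl.one_lt.ne' (by
        simpa using Int.isUnit_iff_natAbs_eq.1 (IsUnit.of_mul_eq_one _ (Int.cast_injective h1))))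
  exact ⟨V, V.mem_nonunits_iff.1 (hV ⟨_, Ideal.mem_span_singleton_self _, by simp⟩)⟩

lemma int (V : Pl) (l : ℕ) (hl : l.Prime) (h : Above V l) (n : ℤ) :
    V.valuation (n : Qb) = 1 ↔ ¬ (l : ℤ) ∣ n := by
  have h' : V.valuation (l : Qb) < 1 := h
  constructor
  · rintro h1 ⟨m, rfl⟩
    rw [Int.cast_mul, map_mul, Int.cast_natCast] at h1
    exact (mul_lt_one_of_nonneg_of_lt_one_left zero_le h' (int_le V m)).ne h1
  · intro hn
    refine le_antisymm (int_le V n) (not_lt.1 fun h1 => ?_)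
    obtain ⟨a, b, hab⟩ := ((Nat.prime_iff_prime_int.1 hl).irreducible.coprime_iff_not_dvd).2 hn
    have e : (a : Qb) * l + b * n = 1 := by exact_mod_cast congrArg (Int.cast : ℤ → Qb) hab
    have := V.valuation.map_add_lt (x := (a : Qb) * l) (y := b * n) (g := 1)
      (by rw [map_mul]; exact mul_lt_one_of_nonneg_of_lt_one_right (int_le V a) zero_le h')
      (by rw [map_mul]; exact mul_lt_one_of_nonneg_of_lt_one_right (int_le V b) zero_le h1)
    simp [e] at this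

lemma int_pow (V : Pl) (l : ℕ) (hl : l.Prime) (h : Above V l) (n : ℤ) (hn : n ≠ 0) :
    ∃ e : ℕ, V.valuation (n : Qb) = V.valuation (l : Qb) ^ e := by
  obtain ⟨e, m, hm, rfl⟩ := WfDvdMonoid.max_power_factor hn
    (Nat.prime_iff_prime_int.1 hl).irreducible
  exact ⟨e, by simp [(int V l hl h m).2 hm]⟩

lemma arch (V : Pl) (l : ℕ) (hl : l.Prime) (h : Above V l) (x : Qb) (hx : x ≠ 0) :
    ∃ (m : ℕ) (j : ℤ), 0 < m ∧ V.valuation x ^ m = V.valuation (l : Qb) ^ j := by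
  obtain ⟨P, P0, hP⟩ := algZ x
  rw [aeval_def, eval₂_eq_sum, Polynomial.sum] at hP
  set f : ℕ → Qb := fun i => algebraMap ℤ Qb (P.coeff i) * x ^ i with hf
  have vx : V.valuation x ≠ 0 := by simpa using hx
  have vl : V.valuation (l : Qb) ≠ 0 := by simpa using hl.ne_zero
  have key : ∀ i ∈ P.support, ∀ j ∈ P.support, i < j → V.valuation (f i) = V.valuation (f j) →
      ∃ (m : ℕ) (j : ℤ), 0 < m ∧ V.valuation x ^ m = V.valuation (l : Qb) ^ j := by
    intro i hi j hj hij e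
    obtain ⟨a, ha⟩ := int_pow V l hl h _ (mem_support_iff.1 hi)
    obtain ⟨b, hb⟩ := int_pow V l hl h _ (mem_support_iff.1 hj)
    obtain ⟨m, rfl⟩ := Nat.exists_eq_add_of_lt hij
    simp only [hf, map_mul, map_pow, eq_intCast, ha, hb] at e
    refine ⟨m + 1, (a : ℤ) - b, m.succ_pos, ?_⟩
    rw [zpow_sub₀ vl, zpow_natCast, zpow_natCast, eq_div_iff (pow_ne_zero _ vl)]
    refine mul_right_cancel₀ (pow_ne_zero i vx) ?_
    rw [e, add_assoc, pow_add _ i]
    ac_rfl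
  obtain ⟨j, hj, hmax⟩ := P.support.exists_max_image (fun i => V.valuation (f i))
    (support_nonempty.2 P0)
  by_contra hc
  have := V.valuation.map_sum_eq_of_lt (f := f) hj fun i hi => by
    rw [Finset.mem_sdiff, Finset.mem_singleton] at hi
    refine lt_of_le_of_ne (hmax i hi.1) fun e => hc ?_
    rcases lt_or_gt_of_ne hi.2 with h1 | h1
    · exact key i hi.1 j hj h1 e
    · exact key j hj i hi.1 h1 e.symm
  rw [hP, map_zero, eq_comm, map_eq_zero] at this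
  exact mul_ne_zero (by simpa using mem_support_iff.1 hj) (pow_ne_zero _ hx) this

lemma ex_lt {ι : Type} (V : Pl) (s : Finset ι) (f : ι → Qb) (c : V.ValueGroup)
    (h : V.valuation (∏ i ∈ s, f i) < c ^ s.card) : ∃ i ∈ s, V.valuation (f i) < c := by
  by_contra hc
  refine h.not_ge ?_
  rw [map_prod, ← Finset.prod_const]
  exact Finset.prod_le_prod' fun i hi => not_lt.1 fun h' => hc ⟨i, hi, h'⟩

lemma hensel (V : Pl) (H : Subgroup GQ) (hH : H ≤ DG V) (P : Qb[X]) (hm : P.Monic)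
    (hc : ∀ i, P.coeff i ∈ OH V H) (r : Qb) (hr : r ∈ OH V H) (h1 : V.valuation (P.eval r) < 1)
    (h2 : V.valuation (P.derivative.eval r) = 1) :
    ∃ s ∈ OH V H, P.eval s = 0 ∧ V.valuation (s - r) < 1 := by
  obtain ⟨Q, rfl⟩ : P ∈ lifts (algebraMap V Qb) :=
    (lifts_iff_coeff_lifts _).2 fun i => ⟨⟨_, (mem_OH.1 (hc i)).1⟩, rfl⟩
  rw [coe_mapRingHom] at hm hc h1 h2 ⊢
  obtain ⟨hrV, hrH⟩ := mem_OH.1 hr
  have mem : ∀ s, V.valuation (s - r) < 1 → s ∈ V := fun s hs => by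
    simpa using add_mem ((V.valuation_le_one_iff _).1 hs.le) hrV
  have ev : ∀ (R : V[X]) (a : V), (R.map (algebraMap V Qb)).eval (a : Qb) = (R.eval a : V) :=
    fun R a => eval_map_apply (algebraMap V Qb) a
  have uniq : ∀ s s', (Q.map (algebraMap V Qb)).eval s = 0 → V.valuation (s - r) < 1 →
      (Q.map (algebraMap V Qb)).eval s' = 0 → V.valuation (s' - r) < 1 → s' = s := by
    intro s s' a1 a2 b1 b2
    lift r to V using hrV
    lift s to V using mem s a2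
    lift s' to V using mem s' b2
    rw [ev, ZeroMemClass.coe_eq_zero] at a1 b1
    rw [derivative_map, ev] at h2
    have a3 : s - r ∈ IsLocalRing.maximalIdeal V := (V.valuation_lt_one_iff _).2 a2
    have b3 : s' - r ∈ IsLocalRing.maximalIdeal V := (V.valuation_lt_one_iff _).2 b2
    by_contra hne
    obtain ⟨k, hk⟩ := Q.binomExpansion s (s' - s)
    have d0 : s' - s ≠ 0 := sub_ne_zero.2 fun e => hne (by rw [e])
    have e : Q.derivative.eval s = -k * (s' - s) := by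
      refine mul_right_cancel₀ d0 ?_
      rw [add_sub_cancel, a1, b1] at hk
      linear_combination -hk
    obtain ⟨c, hc'⟩ := sub_dvd_eval_sub s r Q.derivative
    have : Q.derivative.eval r ∈ IsLocalRing.maximalIdeal V := by
      rw [show Q.derivative.eval r = -k * ((s' - r) - (s - r)) - c * (s - r) by
        linear_combination e - hc']
      exact sub_mem (Ideal.mul_mem_left _ _ (sub_mem b3 a3)) (Ideal.mul_mem_left _ _ a3)
    exact ((V.valuation_lt_one_iff _).1 this).ne h2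
  obtain ⟨s, hs, hlt⟩ : ∃ s ∈ (Q.map (algebraMap V Qb)).roots, V.valuation (r - s) < 1 := by
    by_contra hn
    refine h1.not_ge ?_
    rw [(IsAlgClosed.splits _).eval_eq_prod_roots_of_monic hm, map_multiset_prod]
    refine Multiset.one_le_prod_of_one_le ?_
    simp only [Multiset.map_map, Multiset.mem_map]
    rintro _ ⟨s, hs, rfl⟩
    exact not_lt.1 fun h => hn ⟨s, hs, h⟩
  rw [Valuation.map_sub_swap] at hlt
  have root : (Q.map (algebraMap V Qb)).eval s = 0 := (mem_roots hm.ne_zero).1 hs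
  refine ⟨s, mem_OH.2 ⟨mem s hlt, fun g hg => uniq s _ root hlt ?_ ?_⟩, root, hlt⟩
  · have e : (Q.map (algebraMap V Qb)).map (g : Qb →+* Qb) = Q.map (algebraMap V Qb) :=
      Polynomial.ext fun i => by rw [coeff_map]; exact (mem_OH.1 (hc i)).2 g hg
    rw [← e]
    exact (eval_map_apply (g : Qb →+* Qb) s).trans (by rw [root, map_zero])
  · rwa [← hrH g hg, ← map_sub, inv V g (hH hg)]

lemma val_root (V : Pl) {n : ℕ} (hn : n ≠ 0) {z : Qb} (hz : z ^ n = 1) : V.valuation z = 1 :=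
  (pow_eq_one_iff_of_nonneg zero_le hn).1 (by rw [← map_pow, hz, map_one])

lemma pow_sub_le (V : Pl) {z : Qb} (hz : V.valuation z ≤ 1) (i : ℕ) :
    V.valuation (z ^ i - 1) ≤ V.valuation (z - 1) := by
  rw [← geom_sum_mul, map_mul]
  refine mul_le_of_le_one_left' (V.valuation.map_sum_le fun j _ => ?_)
  rw [map_pow]
  exact pow_le_one' hz j

lemma mu (V : Pl) (r : ℕ) (hr : r.Prime) (ζ : Qb) (h1 : ζ ^ r = 1) (h2 : ζ ≠ 1) :
    V.valuation (ζ - 1) ^ (r - 1) = V.valuation (r : Qb) := by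
  have pr : ∀ z : Qb, z ^ r = 1 → z ≠ 1 → IsPrimitiveRoot z r := fun z a b =>
    (mem_nthRootsFinset_iff_of_prime hr).1
      ((mem_nthRootsFinset hr.pos 1).2 a) |>.resolve_right b
  have hζ := pr ζ h1 h2
  obtain ⟨n, rfl⟩ := Nat.exists_eq_succ_of_ne_zero hr.ne_zero
  have e := hζ.prod_one_sub_pow_eq_order
  rw [Nat.cast_succ, ← e, map_prod, Nat.succ_sub_one, ← Finset.card_range n, ← Finset.prod_const,
    Finset.card_range]
  refine Finset.prod_congr rfl fun k hk => ?_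
  rw [V.valuation.map_sub_swap 1]
  have a : (ζ ^ (k + 1)) ^ n.succ = 1 := by rw [← pow_mul, mul_comm, pow_mul, h1, one_pow]
  have b := pr _ a (hζ.pow_ne_one_of_pos_of_lt k.succ_ne_zero
    (Nat.succ_lt_succ (Finset.mem_range.1 hk)))
  refine le_antisymm ?_ (pow_sub_le V (val_root V hr.ne_zero h1).le _)
  obtain ⟨i, -, hi⟩ := b.eq_pow_of_pow_eq_one h1
  conv_lhs => rw [← hi]
  exact pow_sub_le V (val_root V hr.ne_zero a).le _

lemma mu' (V : Pl) (n : ℕ) (ζ : Qb) (hn : V.valuation (n : Qb) = 1) (h1 : ζ ^ n = 1)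
    (h2 : V.valuation (ζ - 1) < 1) : ζ = 1 := by
  by_contra hne
  have n0 : n ≠ 0 := by rintro rfl; simp at hn
  have e : ∑ i ∈ Finset.range n, ζ ^ i = 0 := by
    have := geom_sum_mul ζ n
    rw [h1, sub_self] at this
    exact (mul_eq_zero.1 this).resolve_right (sub_ne_zero.2 hne)
  have := V.valuation.map_sum_lt (s := Finset.range n) (f := fun i => ζ ^ i - 1) one_ne_zero
    fun i _ => (pow_sub_le V (val_root V n0 h1).le i).trans_lt h2
  simp [Finset.sum_sub_distrib, e, hn] at this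

lemma root (V : Pl) (H : Subgroup GQ) (hH : H ≤ DG V) (r : ℕ) (hr : r.Prime) (x : Qb)
    (hx : IsFix H x) (h : V.valuation (x - 1) ^ (r - 1) < V.valuation (r : Qb) ^ r) :
    ∃ y, IsFix H y ∧ y ^ r = x ∧
      V.valuation (y - 1) * V.valuation (r : Qb) = V.valuation (x - 1) := by
  have : NeZero r := ⟨hr.ne_zero⟩
  obtain ⟨ζ, hζ⟩ := HasEnoughRootsOfUnity.exists_primitiveRoot Qb r
  set δ := V.valuation (ζ - 1) with hδ
  have r1 : r - 1 ≠ 0 := Nat.sub_ne_zero_of_lt hr.one_lt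
  have d1 : δ ^ (r - 1) = V.valuation (r : Qb) := mu V r hr ζ hζ.pow_eq_one (hζ.ne_one hr.one_lt)
  have d2 : ∀ z : Qb, z ^ r = 1 → z ≠ 1 → V.valuation (z - 1) = δ := fun z a b =>
    (pow_left_inj₀ zero_le zero_le r1).1 ((mu V r hr z a b).trans d1.symm)
  have d3 : δ ≤ 1 := V.valuation.map_sub_le (val_root V hr.ne_zero hζ.pow_eq_one).le (by simp)
  have pr : ∀ y : Qb, y ^ r - 1 = ∏ z ∈ nthRootsFinset r (1 : Qb), (y - z) := fun y => by
    simpa using hζ.pow_sub_pow_eq_prod_sub_mul y 1 hr.pos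
  obtain ⟨y₀, hy₀⟩ := IsAlgClosed.exists_pow_nat_eq x hr.pos
  obtain ⟨z, hz, hlt⟩ := ex_lt V (nthRootsFinset r (1 : Qb)) (fun z => y₀ - z) δ (by
    rw [← pr, hy₀, hζ.card_nthRootsFinset]
    refine lt_of_pow_lt_pow_left₀ (r - 1) zero_le ?_
    rwa [← pow_mul, mul_comm, pow_mul, d1])
  rw [mem_nthRootsFinset hr.pos] at hz
  have vz := val_root V hr.ne_zero hz
  have z0 : z ≠ 0 := by rintro rfl; simp at vz
  have y1 : (y₀ / z) ^ r = x := by rw [div_pow, hz, hy₀, div_one]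
  have y2 : V.valuation (y₀ / z - 1) < δ := by
    rwa [div_sub_one z0, map_div₀, vz, div_one]
  generalize y₀ / z = y at y1 y2
  have y0 : y ≠ 0 := by
    rintro rfl
    simpa using y2.trans_le d3
  refine ⟨y, fun g hg => ?_, y1, ?_⟩
  · have a : (g y / y) ^ r = 1 := by
      rw [div_pow, ← map_pow, y1, hx g hg, div_self (y1 ▸ pow_ne_zero r y0)]
    by_contra hne
    have b := d2 _ a fun e => hne ((div_eq_one_iff_eq y0).1 e)
    have c : V.valuation (g y - 1) < δ := by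
      rwa [← map_one g, ← map_sub, inv V g (hH hg)]
    have d : V.valuation (g y / y * (y - 1)) < δ := by
      rwa [map_mul, val_root V hr.ne_zero a, one_mul]
    have := V.valuation.map_sub_lt c d
    rw [show g y - 1 - g y / y * (y - 1) = g y / y - 1 by field_simp; ring] at this
    exact this.ne b
  · have m1 : (1 : Qb) ∈ nthRootsFinset r (1 : Qb) := (mem_nthRootsFinset hr.pos 1).2 (one_pow r)
    rw [← y1, pr, ← Finset.mul_prod_erase _ _ m1, map_mul, map_prod, ← d1]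
    congr 1
    rw [← hζ.card_nthRootsFinset, ← Finset.card_erase_of_mem m1, ← Finset.prod_const,
      hζ.card_nthRootsFinset]
    refine Finset.prod_congr rfl fun w hw => ?_
    rw [Finset.mem_erase, mem_nthRootsFinset hr.pos] at hw
    rw [← d2 w hw.2 hw.1] at y2 ⊢
    rw [← V.valuation.map_sub_eq_of_lt_right y2, sub_sub_sub_cancel_right]

lemma teich (V : Pl) (l : ℕ) (hl : l.Prime) (h : Above V l) (x : Qb) (hx : V.valuation x = 1) :
    ∃ (n : ℕ) (ζ : Qb), ¬ l ∣ n ∧ ζ ^ n = 1 ∧ V.valuation (x - ζ) < 1 := by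
  have := Fact.mk hl
  lift x to V using (V.valuation_le_one_iff _).1 hx.le
  have l0 : (l : IsLocalRing.ResidueField V) = 0 := by
    rw [← map_natCast (IsLocalRing.residue V), IsLocalRing.residue_eq_zero_iff,
      V.valuation_lt_one_iff]
    exact h
  have : CharP (IsLocalRing.ResidueField V) l := (CharP.charP_iff_prime_eq_zero hl).2 l0
  let _ := ZMod.algebra (IsLocalRing.ResidueField V) l
  obtain ⟨P, P0, hP⟩ := algZ (x : Qb)
  have hP1 : aeval x P.primPart = 0 := by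
    apply Subtype.val_injective
    exact (aeval_algebraMap_apply Qb x P.primPart).symm.trans (aeval_primPart_eq_zero P0 hP)
  have alg : IsAlgebraic (ZMod l) (IsLocalRing.residue V x) := by
    refine ⟨P.primPart.map (algebraMap ℤ (ZMod l)), fun e => ?_, ?_⟩
    · have := P.isPrimitive_primPart l ((C_dvd_iff_dvd_coeff _ _).2 fun i => by
        rw [← ZMod.intCast_zmod_eq_zero_iff_dvd]
        simpa using congrArg (fun Q => Q.coeff i) e)
      exact hl.one_lt.ne' (by simpa using Int.isUnit_iff_natAbs_eq.1 this)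
    · rw [aeval_def, eval₂_map, RingHom.ext_int (RingHom.comp _ _)
        ((IsLocalRing.residue V).comp (algebraMap ℤ V)), ← hom_eval₂, ← aeval_def, hP1, map_zero]
  set K := IntermediateField.adjoin (ZMod l) {IsLocalRing.residue V x}
  have : FiniteDimensional (ZMod l) K := IntermediateField.adjoin.finiteDimensional alg.isIntegral
  have : Finite K := Module.finite_of_finite (ZMod l)
  let _ := Fintype.ofFinite K
  have x0 : IsLocalRing.residue V x ≠ 0 := by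
    rw [Ne, IsLocalRing.residue_eq_zero_iff, V.valuation_lt_one_iff]
    exact hx.not_lt
  have e := FiniteField.pow_card_sub_one_eq_one
    (⟨_, IntermediateField.mem_adjoin_simple_self (ZMod l) (IsLocalRing.residue V x)⟩ : K)
    fun e => x0 (congrArg Subtype.val e)
  have nd : ¬ l ∣ Fintype.card K - 1 := by
    rw [← CharP.cast_eq_zero_iff K l, Nat.cast_pred Fintype.card_pos, FiniteField.cast_card_eq_zero]
    simp
  generalize Fintype.card K - 1 = n at e nd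
  have n0 : n ≠ 0 := by rintro rfl; simp at nd
  have : NeZero n := ⟨n0⟩
  obtain ⟨ζ, hζ⟩ := HasEnoughRootsOfUnity.exists_primitiveRoot Qb n
  obtain ⟨z, hz, hlt⟩ := ex_lt V (nthRootsFinset n (1 : Qb)) (fun z => x - z * 1) 1 (by
    rw [← hζ.pow_sub_pow_eq_prod_sub_mul _ _ (Nat.pos_of_ne_zero n0), one_pow, one_pow]
    refine (V.valuation_lt_one_iff (x ^ n - 1)).1 ?_
    rw [← IsLocalRing.residue_eq_zero_iff, map_sub, map_pow, map_one, sub_eq_zero]
    exact congrArg Subtype.val e)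
  exact ⟨n, z, nd, (mem_nthRootsFinset (Nat.pos_of_ne_zero n0) 1).1 hz, by simpa using hlt⟩

end ValP

open ValP in
theorem val : ValStmt where
  inv := inv
  smul_le V g x y := equiv V g x y
  smul_lt := smul_lt
  smul_one V g _ := (equiv V g).eq_one_iff_eq_one
  smul_top := smul_top
  dg_smul := dg_smul
  ig_smul := ig_smul
  ig := ig
  ig_normal V g hg h hh := by
    have := (ig_smul V g (g * h * g⁻¹)).2 (by simpa [mul_assoc] using hh)
    rwa [show g • V = V from hg] at this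
  dg_closed := dg_closed
  ig_closed := ig_closed
  above_ex := above_ex
  above_ne V l hl h e := by
    subst e
    exact (top_one l (Nat.cast_ne_zero.2 hl)).not_lt h
  ex_above := ex_above
  above_smul V g l := by simpa [Above] using smul_lt V g l
  top_one := top_one
  int := int
  integral := integral
  arch := arch
  hensel := hensel
  mu := mu
  mu' := mu'
  root := root
  teich := teich

end Pool.Agent.MP_59efd2_nt.lz

end
end MrgPart0

-- ======== part 1: formerly Pool.Agent.MP_59efd2_nt.lz.Dens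
section MrgPart1

/-!
# Row DENS: density of a number field in its henselisations
-/

noncomputable section

namespace Pool.Agent.MP_59efd2_nt.lz

open scoped Pointwise Classical
open Filter

namespace DensP

lemma integral_of_forall (x : Qb) (h : ∀ W : Pl, x ∈ W) : IsIntegral ℤ x := by
  by_contra hx
  have hxR : x ∉ (integralClosure ℤ Qb).toSubring := hx
  have : IsIntegrallyClosedIn (integralClosure ℤ Qb).toSubring Qb :=
    inferInstanceAs (IsIntegrallyClosedIn (integralClosure ℤ Qb) Qb)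
  obtain ⟨V, _, hV⟩ := Subring.exists_le_valuationSubring_of_isIntegrallyClosedIn hxR
  exact hV (h V)

lemma vpos (V : Pl) {x : Qb} (hx : x ≠ 0) : 0 < V.valuation x :=
  zero_lt_iff.2 ((Valuation.ne_zero_iff _).2 hx)

lemma fix_nat (H : Subgroup GQ) (n : ℕ) : IsFix H (n : Qb) := fun g _ => map_natCast g n

lemma fix_int (H : Subgroup GQ) (n : ℤ) : IsFix H (n : Qb) := fun g _ => map_intCast g n

lemma fix_mul {H : Subgroup GQ} {x y : Qb} (hx : IsFix H x) (hy : IsFix H y) : IsFix H (x * y) :=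
  fun g hg => by rw [map_mul, hx g hg, hy g hg]

lemma fix_add {H : Subgroup GQ} {x y : Qb} (hx : IsFix H x) (hy : IsFix H y) : IsFix H (x + y) :=
  fun g hg => by rw [map_add, hx g hg, hy g hg]

lemma fix_sub {H : Subgroup GQ} {x y : Qb} (hx : IsFix H x) (hy : IsFix H y) : IsFix H (x - y) :=
  fun g hg => by rw [map_sub, hx g hg, hy g hg]

lemma fix_inv {H : Subgroup GQ} {x : Qb} (hx : IsFix H x) : IsFix H x⁻¹ :=
  fun g hg => by rw [map_inv₀, hx g hg]

lemma fix_pow {H : Subgroup GQ} {x : Qb} (hx : IsFix H x) (k : ℕ) : IsFix H (x ^ k) :=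
  fun g hg => by rw [map_pow, hx g hg]

lemma fix_one (H : Subgroup GQ) : IsFix H 1 := fun g _ => map_one g

lemma fix_zero (H : Subgroup GQ) : IsFix H 0 := fun g _ => map_zero g

lemma v_nat (V : Pl) (n : ℕ) : V.valuation (n : Qb) ≤ 1 :=
  (V.valuation_le_one_iff _).2 (natCast_mem V n)

lemma v_int (V : Pl) (n : ℤ) : V.valuation (n : Qb) ≤ 1 :=
  (V.valuation_le_one_iff _).2 (intCast_mem V n)

/-- The valuation of a place has rank one. -/
lemma arch (hv : ValStmt) {V : Pl} (hV : V ≠ ⊤) {x c : Qb} (hx : V.valuation x < 1) (hc : c ≠ 0) :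
    ∀ᶠ k : ℕ in atTop, V.valuation x ^ k < V.valuation c := by
  by_cases hx0 : x = 0
  · filter_upwards [eventually_gt_atTop 0] with k hk
    rw [hx0, map_zero, zero_pow hk.ne']
    exact vpos V hc
  obtain ⟨l, hl, hVl⟩ := hv.above_ex V hV
  have hl0 : 0 < V.valuation (l : Qb) := vpos V (Nat.cast_ne_zero.2 hl.ne_zero)
  have hl1 : V.valuation (l : Qb) < 1 := hVl
  obtain ⟨m, j, hm, hj⟩ := hv.arch V l hl hVl x hx0
  obtain ⟨m', j', hm', hj'⟩ := hv.arch V l hl hVl c hc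
  have hjpos : 0 < j := by
    by_contra hneg
    have h1 : V.valuation x ^ m < 1 := pow_lt_one₀ zero_le hx hm.ne'
    rw [hj] at h1
    exact absurd (one_le_zpow_of_nonpos₀ hl0 hl1.le (not_lt.1 hneg)) (not_le.2 h1)
  filter_upwards [eventually_ge_atTop (m * (j'.natAbs + 1))] with k hk
  by_contra hcon
  have h1 : V.valuation c ≤ V.valuation x ^ (m * (j'.natAbs + 1)) :=
    (not_lt.1 hcon).trans (pow_le_pow_of_le_one zero_le hx.le hk)
  have h2 : V.valuation c ^ m' ≤ (V.valuation x ^ (m * (j'.natAbs + 1))) ^ m' :=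
    pow_le_pow_left₀ zero_le h1 m'
  rw [hj', pow_mul, hj, ← zpow_natCast, ← zpow_natCast, ← zpow_mul, ← zpow_mul] at h2
  refine absurd h2 (not_le.2 (zpow_lt_zpow_right_of_lt_one₀ hl0 hl1 ?_))
  have h3 : j' < ((j'.natAbs + 1 : ℕ) : ℤ) := by push_cast; have := le_abs_self j'; omega
  have h4 : (1 : ℤ) ≤ m' := by exact_mod_cast hm'
  have h5 : (0 : ℤ) ≤ ((j'.natAbs + 1 : ℕ) : ℤ) := Int.natCast_nonneg _
  nlinarith [mul_nonneg h5 (sub_nonneg.2 h4), mul_nonneg (mul_nonneg h5 (zero_le_one.trans h4))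
    (sub_nonneg.2 (show (1 : ℤ) ≤ j from hjpos))]

lemma sep_aux (hv : ValStmt) {N : Subgroup GQ} {V W : Pl} (hV : V ≠ ⊤) (hW : W ≠ ⊤) {x : Qb}
    (hx : IsFix N x) (h1 : x ∈ W) (h2 : x ∉ V) :
    ∃ z, IsFix N z ∧ 1 < V.valuation z ∧ W.valuation z < 1 := by
  obtain ⟨l, hl, hWl⟩ := hv.above_ex W hW
  have hl0 : (l : Qb) ≠ 0 := Nat.cast_ne_zero.2 hl.ne_zero
  have h3 : 1 < V.valuation x := not_le.1 fun h => h2 ((V.valuation_le_one_iff x).1 h)
  have h4 : V.valuation x⁻¹ < 1 := by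
    rw [map_inv₀]; exact inv_lt_one_of_one_lt₀ h3
  obtain ⟨k, hk⟩ := (arch hv hV h4 hl0).exists
  refine ⟨l * x ^ k, fix_mul (fix_nat N l) (fix_pow hx k), ?_, ?_⟩
  · rw [map_inv₀, inv_pow] at hk
    rw [map_mul, map_pow]
    exact (inv_lt_iff_one_lt_mul₀ (pow_pos (zero_lt_one.trans h3) k)).1 hk
  · rw [map_mul, map_pow]
    exact mul_lt_one_of_nonneg_of_lt_one_left zero_le hWl
      (pow_le_one₀ zero_le ((W.valuation_le_one_iff x).2 h1))

lemma sep2 (hv : ValStmt) (hp : PlcStmt) {N : Subgroup GQ} (hN : OpenIn N ⊤) {V W : Pl}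
    (hV : V ≠ ⊤) (hW : W ≠ ⊤) (h : ∀ n ∈ N, W ≠ n • V) :
    ∃ z, IsFix N z ∧ 1 < V.valuation z ∧ W.valuation z < 1 := by
  have h1 : ¬ ∀ x, IsFix N x → (x ∈ V ↔ x ∈ W) := fun h1 => by
    obtain ⟨u, hu, e⟩ := hp.trans N V W hN h1
    exact h u hu e
  push Not at h1
  obtain ⟨x, hx, h2 | h2⟩ := h1
  · obtain ⟨z, hz, h3, h4⟩ := sep_aux hv hW hV hx h2.1 h2.2
    have hz0 : z ≠ 0 := by rintro rfl; simp at h3
    refine ⟨z⁻¹, fix_inv hz, ?_, ?_⟩
    · rw [map_inv₀]; exact (one_lt_inv₀ (vpos V hz0)).2 h4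
    · rw [map_inv₀]; exact inv_lt_one_of_one_lt₀ h3
  · exact sep_aux hv hV hW hx h2.2 h2.1

lemma v_big {V : Pl} {t : Qb} (h : 1 < V.valuation t) : V.valuation (1 + t) = V.valuation t :=
  Valuation.map_add_eq_of_lt_right _ (by rwa [map_one])

lemma v_small {V : Pl} {t : Qb} (h : V.valuation t < 1) : V.valuation (1 + t) = 1 :=
  Valuation.map_one_add_of_lt _ h

/-- Artin and Whaples: one place against finitely many others. -/
lemma sepT (hv : ValStmt) (hp : PlcStmt) {N : Subgroup GQ} (hN : OpenIn N ⊤) {V : Pl}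
    (hV : V ≠ ⊤) (T : Finset Pl) (hT : ∀ W ∈ T, W ≠ ⊤ ∧ ∀ n ∈ N, W ≠ n • V) :
    ∃ z, IsFix N z ∧ 1 < V.valuation z ∧ ∀ W ∈ T, W.valuation z < 1 := by
  induction T using Finset.induction_on with
  | empty =>
    obtain ⟨l, hl, hVl⟩ := hv.above_ex V hV
    refine ⟨(l : Qb)⁻¹, fix_inv (fix_nat N l), ?_, fun W hW => absurd hW (Finset.notMem_empty W)⟩
    rw [map_inv₀]
    exact (one_lt_inv₀ (vpos V (Nat.cast_ne_zero.2 hl.ne_zero))).2 hVl
  | insert W₀ T _ ih =>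
    obtain ⟨z, hz, hzV, hzT⟩ := ih fun W hW => hT W (Finset.mem_insert_of_mem hW)
    obtain ⟨w, hw, hwV, hwW⟩ := sep2 hv hp hN hV (hT W₀ (Finset.mem_insert_self _ _)).1
      (hT W₀ (Finset.mem_insert_self _ _)).2
    have hw0 : w ≠ 0 := by rintro rfl; simp at hwV
    have hev : ∀ᶠ k : ℕ in atTop, ∀ W ∈ T, W.valuation z ^ k < W.valuation w⁻¹ :=
      (eventually_all_finset T).2 fun W hW =>
        arch hv (hT W (Finset.mem_insert_of_mem hW)).1 (hzT W hW) (inv_ne_zero hw0)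
    obtain ⟨k, hk, hk0⟩ := (hev.and (eventually_gt_atTop 0)).exists
    have hkT : ∀ W ∈ T, W.valuation (z ^ k * w) < 1 := fun W hW => by
      have h1 := hk W hW
      rw [map_inv₀, ← one_mul (W.valuation w)⁻¹] at h1
      rw [map_mul, map_pow]
      exact (lt_mul_inv_iff₀ (vpos W hw0)).1 h1
    have hzk : 1 < V.valuation (z ^ k) := by rw [map_pow]; exact one_lt_pow₀ hzV hk0.ne'
    by_cases hc : W₀.valuation z ≤ 1
    · refine ⟨z ^ k * w, fix_mul (fix_pow hz k) hw, ?_, fun W hW => ?_⟩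
      · rw [map_mul]; exact one_lt_mul'' hzk hwV
      · rcases Finset.mem_insert.1 hW with rfl | hW
        · rw [map_mul, map_pow]
          exact mul_lt_one_of_nonneg_of_lt_one_right (pow_le_one₀ zero_le hc) zero_le hwW
        · exact hkT W hW
    · have hzk' : 1 < W₀.valuation (z ^ k) := by
        rw [map_pow]; exact one_lt_pow₀ (not_le.1 hc) hk0.ne'
      refine ⟨z ^ k * w * (1 + z ^ k)⁻¹,
        fix_mul (fix_mul (fix_pow hz k) hw) (fix_inv (fix_add (fix_one N) (fix_pow hz k))), ?_,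
        fun W hW => ?_⟩
      · rw [map_mul, map_mul, map_inv₀, v_big hzk, mul_right_comm,
          mul_inv_cancel₀ (zero_lt_one.trans hzk).ne', one_mul]
        exact hwV
      · rcases Finset.mem_insert.1 hW with rfl | hW
        · rw [map_mul, map_mul, map_inv₀, v_big hzk', mul_right_comm,
            mul_inv_cancel₀ (zero_lt_one.trans hzk').ne', one_mul]
          exact hwW
        · have h1 : W.valuation (z ^ k) < 1 := by
            rw [map_pow]; exact pow_lt_one₀ zero_le (hzT W hW) hk0.ne'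
          rw [map_mul, map_inv₀, v_small h1, inv_one, mul_one]
          exact hkT W hW

lemma exists_eps (hv : ValStmt) (hp : PlcStmt) {N : Subgroup GQ} (hN : OpenIn N ⊤) {V : Pl}
    (hV : V ≠ ⊤) (T : Finset Pl) (hT : ∀ W ∈ T, W ≠ ⊤ ∧ ∀ n ∈ N, W ≠ n • V) (b : Qb) {c : Qb}
    (hc : c ≠ 0) : ∃ e, IsFix N e ∧ V.valuation (e * b - b) ≤ V.valuation c ∧
      ∀ W ∈ T, W.valuation (e * b) ≤ W.valuation c := by
  by_cases hb : b = 0
  · exact ⟨0, fix_zero N, by simp [hb], fun W _ => by simp⟩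
  obtain ⟨z, hz, hzV, hzT⟩ := sepT hv hp hN hV T hT
  have hcb : c * b⁻¹ ≠ 0 := mul_ne_zero hc (inv_ne_zero hb)
  have h1 : V.valuation z⁻¹ < 1 := by rw [map_inv₀]; exact inv_lt_one_of_one_lt₀ hzV
  have hev : ∀ᶠ k : ℕ in atTop, ∀ W ∈ T, W.valuation z ^ k < W.valuation (c * b⁻¹) :=
    (eventually_all_finset T).2 fun W hW => arch hv (hT W hW).1 (hzT W hW) hcb
  obtain ⟨k, ⟨hk, hkV⟩, hk0⟩ := ((hev.and (arch hv hV h1 hcb)).and (eventually_gt_atTop 0)).exists
  have hzk : 1 < V.valuation (z ^ k) := by rw [map_pow]; exact one_lt_pow₀ hzV hk0.ne'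
  have hne : 1 + z ^ k ≠ 0 := fun h => by
    have h2 := v_big hzk
    rw [h, map_zero] at h2
    exact (zero_lt_one.trans hzk).ne h2
  refine ⟨z ^ k * (1 + z ^ k)⁻¹,
    fix_mul (fix_pow hz k) (fix_inv (fix_add (fix_one N) (fix_pow hz k))), ?_, fun W hW => ?_⟩
  · have h2 : z ^ k * (1 + z ^ k)⁻¹ * b - b = -((1 + z ^ k)⁻¹ * b) := by
      field_simp; ring
    rw [h2, Valuation.map_neg, map_mul, map_inv₀, v_big hzk, map_pow]
    rw [map_mul, map_inv₀, map_inv₀, inv_pow] at hkV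
    exact ((lt_mul_inv_iff₀ (vpos V hb)).1 hkV).le
  · have h2 : W.valuation (z ^ k) < 1 := by
      rw [map_pow]; exact pow_lt_one₀ zero_le (hzT W hW) hk0.ne'
    have h3 := hk W hW
    rw [map_mul, map_inv₀] at h3
    rw [map_mul, map_mul, map_inv₀, v_small h2, inv_one, mul_one, map_pow]
    exact ((lt_mul_inv_iff₀ (vpos W hb)).1 h3).le

/-- Weak approximation in the fixed field of `N`. -/
lemma weak (hv : ValStmt) (hp : PlcStmt) {N : Subgroup GQ} (hN : OpenIn N ⊤) {R : Finset Pl}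
    (hR : Rep N R) (b : Pl → Qb) (hb : ∀ W ∈ R, IsFix N (b W)) {c : Qb} (hc : c ≠ 0) :
    ∃ y, IsFix N y ∧ ∀ W ∈ R, W.valuation (y - b W) ≤ W.valuation c := by
  have h1 : ∀ V ∈ R, ∃ e, IsFix N e ∧ V.valuation (e * b V - b V) ≤ V.valuation c ∧
      ∀ W ∈ R.erase V, W.valuation (e * b V) ≤ W.valuation c := fun V hV =>
    exists_eps hv hp hN (hR.1 V hV) (R.erase V) (fun W hW =>
      ⟨hR.1 W (Finset.mem_of_mem_erase hW), fun n hn e => Finset.ne_of_mem_erase hW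
        (hR.2 V hV W (Finset.mem_of_mem_erase hW) n hn e.symm).symm⟩) (b V) hc
  choose! e he using h1
  refine ⟨∑ V ∈ R, e V * b V, fun g hg => ?_, fun W hW => ?_⟩
  · rw [map_sum]
    exact Finset.sum_congr rfl fun V hV => fix_mul (he V hV).1 (hb V hV) g hg
  · rw [← Finset.add_sum_erase R _ hW, add_sub_right_comm]
    refine Valuation.map_add_le _ (he W hW).2.1 (Valuation.map_sum_le _ fun V hV => ?_)
    exact (he V (Finset.mem_of_mem_erase hV)).2.2 W
      (Finset.mem_erase.2 ⟨(Finset.ne_of_mem_erase hV).symm, hW⟩)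

/-- Coset representatives, permuted by left multiplication. -/
lemma exists_transv {H H' : Subgroup GQ} (h : OpenIn H' H) :
    ∃ (ι : Type) (_ : Fintype ι) (r : ι → GQ), Fintype.card ι ≠ 0 ∧ (∀ i, r i ∈ H) ∧
      ∀ g ∈ H, ∃ e : ι ≃ ι, ∀ i x, IsFix H' x → g (r i x) = r (e i) x := by
  have hfin : Finite (H ⧸ H'.subgroupOf H) := Nat.finite_of_card_ne_zero h.relIndex_ne_zero
  let _ : Fintype (H ⧸ H'.subgroupOf H) := Fintype.ofFinite _
  refine ⟨H ⧸ H'.subgroupOf H, inferInstance, fun q => (q.out : H), Fintype.card_ne_zero,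
    fun q => (q.out).2, fun g hg => ⟨MulAction.toPerm (⟨g, hg⟩ : H), fun q x hx => ?_⟩⟩
  have h1 : (QuotientGroup.mk (((⟨g, hg⟩ : H) • q).out) : H ⧸ H'.subgroupOf H) =
      QuotientGroup.mk ((⟨g, hg⟩ : H) * q.out) := by
    rw [QuotientGroup.out_eq']
    exact (MulAction.Quotient.mk_smul_out _ _ q).symm
  have h0 : ((((⟨g, hg⟩ : H) • q).out)⁻¹ * ((⟨g, hg⟩ : H) * q.out) : H) ∈ H'.subgroupOf H :=
    QuotientGroup.eq.1 h1
  have h2 := hx _ (Subgroup.mem_subgroupOf.1 h0)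
  have h3 := congrArg ((((⟨g, hg⟩ : H) • q).out : H) : GQ) h2
  rw [← AlgEquiv.mul_apply, ← Subgroup.coe_mul, mul_inv_cancel_left] at h3
  exact h3

lemma smul_mem (hv : ValStmt) (V : Pl) (g : GQ) {x : Qb} (hx : x ∈ V) : g x ∈ g • V := by
  have h := (hv.smul_le V g x 1).2 (by rw [map_one]; exact (V.valuation_le_one_iff x).2 hx)
  rw [map_one, map_one] at h
  exact ((g • V).valuation_le_one_iff _).1 h

/-- The equivariant target function. -/
lemma exists_target (hv : ValStmt) {U : Subgroup GQ} {R : Finset Pl} (hR : Rep U R) (a : Pl → Qb)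
    (ha : ∀ V ∈ R, a V ∈ OH V (DG V ⊓ U)) (N : ONS) (hN : ∀ V ∈ R, ∀ g ∈ N, g (a V) = a V) :
    ∃ b : Pl → Qb, (∀ V ∈ R, b V = a V) ∧ (∀ W, b W ∈ W) ∧ (∀ W, IsFix (N : Subgroup GQ) (b W)) ∧
      ∀ W, ∀ u ∈ U, b (u • W) = u (b W) := by
  have h1 : ∀ W : Pl, ∃ y : Qb, (∀ V ∈ R, ∀ u ∈ U, W = u • V → y = u (a V)) ∧
      (W ∉ Sat U R → y = 0) := fun W => by
    by_cases hW : W ∈ Sat U R
    · obtain ⟨V, hV, u, hu, rfl⟩ := hW
      refine ⟨u (a V), fun V' hV' u' hu' e => ?_, fun h => absurd ⟨V, hV, u, hu, rfl⟩ h⟩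
      have h2 : (u'⁻¹ * u) • V = V' := by rw [mul_smul, e, inv_smul_smul]
      have h3 := U.mul_mem (U.inv_mem hu') hu
      obtain rfl := hR.2 V hV V' hV' _ h3 h2
      have h4 := (mem_OH.1 (ha V hV)).2 (u'⁻¹ * u) ⟨MulAction.mem_stabilizer_iff.2 h2, h3⟩
      have h5 := congrArg u' h4
      rwa [← AlgEquiv.mul_apply, mul_inv_cancel_left] at h5
    · exact ⟨0, fun V hV u hu e => absurd ⟨V, hV, u, hu, e⟩ hW, fun _ => rfl⟩
  choose b hb hb0 using h1
  refine ⟨b, fun V hV => hb V V hV 1 U.one_mem (one_smul _ _).symm, fun W => ?_, fun W => ?_,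
    fun W u hu => ?_⟩
  · by_cases hW : W ∈ Sat U R
    · obtain ⟨V, hV, u, hu, rfl⟩ := hW
      rw [hb _ V hV u hu rfl]
      exact smul_mem hv V u (mem_OH.1 (ha V hV)).1
    · rw [hb0 W hW]; exact W.zero_mem
  · by_cases hW : W ∈ Sat U R
    · obtain ⟨V, hV, u, hu, rfl⟩ := hW
      rw [hb _ V hV u hu rfl]
      intro g hg
      have h5 := congrArg u (hN V hV _ (ons_conj' N hg u))
      rwa [← AlgEquiv.mul_apply, mul_assoc, mul_inv_cancel_left] at h5
    · rw [hb0 W hW]; exact fix_zero _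
  · by_cases hW : W ∈ Sat U R
    · obtain ⟨V, hV, u', hu', rfl⟩ := hW
      rw [hb _ V hV u' hu' rfl, hb _ V hV (u * u') (U.mul_mem hu hu') (mul_smul _ _ _).symm]
      rfl
    · have hW' : u • W ∉ Sat U R := by
        rintro ⟨V, hV, u', hu', e⟩
        exact hW ⟨V, hV, u⁻¹ * u', U.mul_mem (U.inv_mem hu) hu', by
          rw [mul_smul, ← e, inv_smul_smul]⟩
      rw [hb0 W hW, hb0 _ hW', map_zero]

lemma above_smul (hv : ValStmt) {P : Finset ℕ} {W : Pl} (hW : W ∈ AboveSet P) (g : GQ) :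
    g • W ∈ AboveSet P := by
  obtain ⟨l, hl, h1, h2⟩ := hW
  exact ⟨l, hl, h1, (hv.above_smul W g l).2 h2⟩

/-- Approximation at all places above a finite set of primes, by averaging. -/
lemma approx0 (hv : ValStmt) (hp : PlcStmt) {U : Subgroup GQ} (N : ONS)
    (hNU : (N : Subgroup GQ) ≤ U) (b : Pl → Qb) (hbN : ∀ W, IsFix (N : Subgroup GQ) (b W))
    (hbU : ∀ W, ∀ u ∈ U, b (u • W) = u (b W)) (P : Finset ℕ) {c : ℕ} (hc : c ≠ 0) :
    ∃ y, IsFix U y ∧ ∀ W ∈ AboveSet P, W.valuation (y - b W) ≤ W.valuation (c : Qb) := by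
  have hN : OpenIn (N : Subgroup GQ) ⊤ := ⟨le_top, N, fun _ _ h => h⟩
  obtain ⟨ι, _, r, hι, hr, hperm⟩ := exists_transv (H := U) (H' := N) ⟨hNU, N, fun _ _ h => h⟩
  obtain ⟨R', -, hR', hS⟩ := hp.rep N ∅ P hN
    ⟨fun V hV => absurd hV (Finset.notMem_empty V), fun V hV => absurd hV (Finset.notMem_empty V)⟩
  have hh : ((Fintype.card ι : ℕ) : Qb) ≠ 0 := Nat.cast_ne_zero.2 hι
  obtain ⟨y₀, hy₀, hy⟩ := weak hv hp hN hR' b (fun W _ => hbN W)
    (c := ((Fintype.card ι * c : ℕ) : Qb)) (Nat.cast_ne_zero.2 (mul_ne_zero hι hc))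
  have h1 : ∀ W ∈ AboveSet P,
      W.valuation (y₀ - b W) ≤ W.valuation ((Fintype.card ι * c : ℕ) : Qb) := fun W hW => by
    have h2 : W ∈ Sat N R' := by rw [hS]; exact Or.inr hW
    obtain ⟨V, hV, n, hn, rfl⟩ := h2
    have h3 := (hv.smul_le V n _ _).2 (hy V hV)
    rwa [map_sub, hy₀ n hn, ← hbU V n (hNU hn), map_natCast] at h3
  refine ⟨((Fintype.card ι : ℕ) : Qb)⁻¹ * ∑ i, r i y₀,
    fix_mul (fix_inv (fix_nat U _)) fun g hg => ?_, fun W hW => ?_⟩
  · obtain ⟨e, he⟩ := hperm g hg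
    rw [map_sum]
    simp only [he _ _ hy₀]
    exact Equiv.sum_comp e fun i => r i y₀
  · have h2 : ((Fintype.card ι : ℕ) : Qb)⁻¹ * ∑ i, r i y₀ - b W =
        ((Fintype.card ι : ℕ) : Qb)⁻¹ * ∑ i, (r i y₀ - b W) := by
      rw [Finset.sum_sub_distrib, Finset.sum_const, Finset.card_univ, nsmul_eq_mul, mul_sub,
        inv_mul_cancel_left₀ hh]
    have h3 : W.valuation (∑ i, (r i y₀ - b W)) ≤
        W.valuation ((Fintype.card ι * c : ℕ) : Qb) := by
      refine Valuation.map_sum_le _ fun i _ => ?_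
      have h4 := (hv.smul_le _ (r i) _ _).2 (h1 _ (above_smul hv hW (r i)⁻¹))
      rwa [map_sub, ← hbU _ _ (hr i), map_natCast, smul_inv_smul] at h4
    rw [h2, map_mul, map_inv₀, inv_mul_le_iff₀ (vpos W hh), ← map_mul]
    rwa [Nat.cast_mul] at h3

lemma split_nat (P : Finset ℕ) (n : ℕ) (hn : n ≠ 0) : ∃ n₁ n₂ : ℕ, n = n₁ * n₂ ∧
    (∀ q, q.Prime → q ∣ n₁ → q ∈ P) ∧ ∀ q, q.Prime → q ∣ n₂ → q ∉ P := by
  induction n using induction_on_primes with
  | zero => exact absurd rfl hn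
  | one => exact ⟨1, 1, rfl, fun q hq h => absurd (Nat.dvd_one.1 h) hq.ne_one,
      fun q hq h => absurd (Nat.dvd_one.1 h) hq.ne_one⟩
  | prime_mul p a hp ih =>
    obtain ⟨n₁, n₂, rfl, h1, h2⟩ := ih (right_ne_zero_of_mul hn)
    by_cases hP : p ∈ P
    · refine ⟨p * n₁, n₂, by ring, fun q hq h => ?_, h2⟩
      rcases (Nat.Prime.dvd_mul hq).1 h with h | h
      · rwa [(Nat.prime_dvd_prime_iff_eq hq hp).1 h]
      · exact h1 q hq h
    · refine ⟨n₁, p * n₂, by ring, h1, fun q hq h => ?_⟩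
      rcases (Nat.Prime.dvd_mul hq).1 h with h | h
      · rwa [(Nat.prime_dvd_prime_iff_eq hq hp).1 h]
      · exact h2 q hq h

lemma exists_mult (y : Qb) : ∃ n : ℕ, n ≠ 0 ∧ IsIntegral ℤ ((n : Qb) * y) := by
  have h1 : IsAlgebraic ℤ y :=
    (IsFractionRing.isAlgebraic_iff ℤ ℚ Qb).2 (Algebra.IsAlgebraic.isAlgebraic y)
  obtain ⟨m, hm, h⟩ := h1.exists_integral_multiple
  refine ⟨m.natAbs, Int.natAbs_ne_zero.2 hm, ?_⟩
  rw [zsmul_eq_mul] at h
  rcases Int.natAbs_eq m with e | e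
  · rw [← Int.cast_natCast, ← e]; exact h
  · have h2 : ((m.natAbs : ℕ) : Qb) * y = -((m : Qb) * y) := by
      rw [← Int.cast_natCast, ← neg_mul, ← Int.cast_neg, ← neg_eq_iff_eq_neg.2 e]
    rw [h2]; exact h.neg

theorem approx (hv : ValStmt) (hp : PlcStmt) (U : Subgroup GQ) (R : Finset Pl) (a : Pl → Qb)
    (c : Qb) (hU : OpenIn U ⊤) (hR : Rep U R) (ha : ∀ V ∈ R, a V ∈ OH V (DG V ⊓ U)) (hc : c ≠ 0) :
    ∃ y, IsFix U y ∧ IsIntegral ℤ y ∧ ∀ V ∈ R, V.valuation (y - a V) ≤ V.valuation c := by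
  obtain ⟨N₁, hN₁⟩ := exists_ons_forall (fun (V : R) g => g (a V) = a V)
    fun V => exists_ons_fix (a V)
  obtain ⟨N₂, hN₂⟩ := hU.2
  obtain ⟨b, hba, hbW, hbN, hbU⟩ := exists_target hv hR a ha (N₁ ⊓ N₂)
    fun V hV g hg => hN₁ ⟨V, hV⟩ g hg.1
  obtain ⟨P, hP⟩ := hp.primes R hR.1
  have hRP : ∀ V ∈ R, V ∈ AboveSet P := fun V hV =>
    hP U ⟨V, hV, 1, U.one_mem, (one_smul _ _).symm⟩
  have hL0 : (∏ l ∈ P.filter Nat.Prime, l) ≠ 0 :=
    Finset.prod_ne_zero_iff.2 fun l hl => (Finset.mem_filter.1 hl).2.ne_zero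
  have hL : ∀ V ∈ R, V.valuation ((∏ l ∈ P.filter Nat.Prime, l : ℕ) : Qb) < 1 := fun V hV => by
    obtain ⟨l, hl, h1, h2⟩ := hRP V hV
    obtain ⟨m, hm⟩ := Finset.dvd_prod_of_mem (fun l : ℕ => l) (Finset.mem_filter.2 ⟨hl, h1⟩)
    rw [hm, Nat.cast_mul, map_mul]
    exact mul_lt_one_of_nonneg_of_lt_one_left zero_le h2 (v_nat V m)
  obtain ⟨k, hk⟩ := ((eventually_all_finset R).2 fun V hV =>
    arch hv (hR.1 V hV) (hL V hV) hc).exists
  obtain ⟨y, hyU, hy⟩ := approx0 hv hp (N₁ ⊓ N₂) (fun g hg => hN₂ g trivial hg.2) b hbN hbU P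
    (pow_ne_zero k hL0)
  have hyW : ∀ W ∈ AboveSet P, W.valuation y ≤ 1 := fun W hW => by
    rw [← sub_add_cancel y (b W)]
    exact Valuation.map_add_le _ ((hy W hW).trans (v_nat W _))
      ((W.valuation_le_one_iff _).2 (hbW W))
  obtain ⟨n, hn, hny⟩ := exists_mult y
  obtain ⟨n₁, n₂, rfl, h1, h2⟩ := split_nat P n hn
  have hcop : Nat.Coprime n₂ ((∏ l ∈ P.filter Nat.Prime, l) ^ k) := by
    refine Nat.coprime_of_dvd fun q hq h3 h4 => h2 q hq h3 ?_
    obtain ⟨l, hl, h5⟩ := (Prime.dvd_finsetProd_iff hq.prime _).1 (hq.dvd_of_dvd_pow h4)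
    rw [(Nat.prime_dvd_prime_iff_eq hq (Finset.mem_filter.1 hl).2).1 h5]
    exact (Finset.mem_filter.1 hl).1
  obtain ⟨α, β, hαβ⟩ := Nat.isCoprime_iff_coprime.2 hcop
  have hQ : (α : Qb) * (n₂ : Qb) + (β : Qb) * (((∏ l ∈ P.filter Nat.Prime, l) ^ k : ℕ) : Qb) = 1 := by
    have h3 := congrArg (Int.cast : ℤ → Qb) hαβ
    simpa only [Int.cast_add, Int.cast_mul, Int.cast_natCast, Int.cast_one] using h3
  refine ⟨α * (n₂ * y), fix_mul (fix_int U α) (fix_mul (fix_nat U n₂) hyU),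
    integral_of_forall _ fun W => W.mul_mem _ _ (intCast_mem W α) ?_, fun V hV => ?_⟩
  · by_cases hW : W ∈ AboveSet P
    · exact W.mul_mem _ _ (natCast_mem W n₂) ((W.valuation_le_one_iff _).1 (hyW W hW))
    by_cases hT : W = ⊤
    · rw [hT]; exact ValuationSubring.mem_top _
    obtain ⟨l, hl, hWl⟩ := hv.above_ex W hT
    have h3 : W.valuation ((n₁ : ℤ) : Qb) = 1 := (hv.int W l hl hWl n₁).2 fun h =>
      hW ⟨l, h1 l hl (Int.natCast_dvd_natCast.1 h), hl, hWl⟩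
    have h4 := (W.valuation_le_one_iff _).2 (hv.integral W _ hny)
    rw [Int.cast_natCast] at h3
    rw [Nat.cast_mul, mul_assoc, map_mul, h3, one_mul] at h4
    exact (W.valuation_le_one_iff _).1 h4
  · have h3 : (α : Qb) * (n₂ * y) - a V =
        (y - b V) - (((∏ l ∈ P.filter Nat.Prime, l) ^ k : ℕ) : Qb) * (β * y) := by
      rw [hba V hV]; linear_combination y * hQ
    have h4 : V.valuation (((∏ l ∈ P.filter Nat.Prime, l) ^ k : ℕ) : Qb) ≤ V.valuation c := by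
      rw [Nat.cast_pow, map_pow]; exact (hk V hV).le
    rw [h3]
    refine (Valuation.map_sub_le _ (hy V (hRP V hV)) ?_).trans h4
    rw [map_mul, map_mul]
    exact mul_le_of_le_one_right' (mul_le_one' (v_int V β) (hyW V (hRP V hV)))

/-- Approximation of elements of the henselisation of `ℚ` by integers. -/
lemma approx_int (hv : ValStmt) (hp : PlcStmt) {V : Pl} (hV : V ≠ ⊤) {x c : Qb}
    (hx : x ∈ OH V (DG V)) (hc : c ≠ 0) : ∃ n : ℤ, V.valuation (x - n) ≤ V.valuation c := by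
  obtain ⟨y, h1, h2, h3⟩ := approx hv hp ⊤ {V} (fun _ => x) c (OpenIn.refl ⊤)
    ⟨fun W hW => Finset.mem_singleton.1 hW ▸ hV, fun W hW W' hW' _ _ _ =>
      (Finset.mem_singleton.1 hW).trans (Finset.mem_singleton.1 hW').symm⟩
    (fun W hW => by rw [Finset.mem_singleton.1 hW, inf_top_eq]; exact hx) hc
  obtain ⟨q, rfl⟩ := isFix_top h1
  have h4 : IsIntegral ℤ q :=
    (isIntegral_algebraMap_iff (algebraMap ℚ Qb).injective).1 (by simpa using h2)
  obtain ⟨n, hn⟩ := IsIntegrallyClosed.isIntegral_iff.1 h4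
  refine ⟨n, ?_⟩
  have h5 := h3 V (Finset.mem_singleton_self V)
  rw [← hn] at h5
  rw [Valuation.map_sub_swap]
  simpa using h5

theorem baseRes (hv : ValStmt) (hp : PlcStmt) (V : Pl) (hV : V ≠ ⊤) (x : Qb)
    (hx : x ∈ OH V (DG V)) : ∃ n : ℤ, V.valuation (x - n) < 1 := by
  obtain ⟨l, hl, hVl⟩ := hv.above_ex V hV
  obtain ⟨n, hn⟩ := approx_int hv hp hV hx (Nat.cast_ne_zero.2 hl.ne_zero : (l : Qb) ≠ 0)
  exact ⟨n, hn.trans_lt hVl⟩

lemma baseVal0 (hv : ValStmt) (hp : PlcStmt) {V : Pl} {l : ℕ} (hl : l.Prime) (hVl : Above V l)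
    {y : Qb} (hy0 : y ≠ 0) (hy : y ∈ OH V (DG V)) :
    ∃ j : ℕ, V.valuation y = V.valuation (l : Qb) ^ j := by
  have hl0 : (l : Qb) ≠ 0 := Nat.cast_ne_zero.2 hl.ne_zero
  obtain ⟨n, hn⟩ := approx_int hv hp (hv.above_ne V l hl.ne_zero hVl) hy (mul_ne_zero hy0 hl0)
  have h1 : V.valuation (y - n) < V.valuation y := by
    refine hn.trans_lt ?_
    rw [map_mul]
    exact mul_lt_of_lt_one_right (vpos V hy0) hVl
  have h2 : V.valuation (n : Qb) = V.valuation y := by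
    refine Valuation.map_eq_of_sub_lt _ ?_
    rwa [Valuation.map_sub_swap]
  have hn0 : n ≠ 0 := by
    rintro rfl
    rw [Int.cast_zero, map_zero] at h2
    exact (vpos V hy0).ne h2
  obtain ⟨j, m, hm, e⟩ := Nat.exists_eq_pow_mul_and_not_dvd (Int.natAbs_ne_zero.2 hn0) l hl.ne_one
  have h3 : V.valuation ((m : ℤ) : Qb) = 1 :=
    (hv.int V l hl hVl m).2 fun h => hm (Int.natCast_dvd_natCast.1 h)
  rw [Int.cast_natCast] at h3
  have h4 : V.valuation ((n.natAbs : ℕ) : Qb) = V.valuation (n : Qb) := by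
    rcases Int.natAbs_eq n with e | e
    · rw [← Int.cast_natCast, ← e]
    · rw [← Int.cast_natCast, ← neg_eq_iff_eq_neg.2 e, Int.cast_neg, Valuation.map_neg]
  refine ⟨j, ?_⟩
  rw [← h2, ← h4, e, Nat.cast_mul, Nat.cast_pow, map_mul, map_pow, h3, mul_one]

theorem baseVal (hv : ValStmt) (hp : PlcStmt) (V : Pl) (l : ℕ) (hl : l.Prime) (hVl : Above V l)
    (y : Qbˣ) (hy : y ∈ fixU (DG V)) :
    ∃ j : ℤ, V.valuation (y : Qb) = V.valuation (l : Qb) ^ j := by
  rcases V.mem_or_inv_mem (y : Qb) with h | h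
  · obtain ⟨j, hj⟩ := baseVal0 hv hp hl hVl y.ne_zero (mem_OH.2 ⟨h, hy⟩)
    exact ⟨j, by rw [hj, zpow_natCast]⟩
  · obtain ⟨j, hj⟩ := baseVal0 hv hp hl hVl (inv_ne_zero y.ne_zero) (mem_OH.2 ⟨h, fix_inv hy⟩)
    refine ⟨-j, ?_⟩
    rw [zpow_neg, zpow_natCast, ← hj, map_inv₀, inv_inv]

theorem unif (hv : ValStmt) (hp : PlcStmt) (V : Pl) (H : Subgroup GQ) (hV : V ≠ ⊤)
    (hH : OpenIn H (DG V)) : ∃ π, Unif V H π := by
  obtain ⟨l, hl, hVl⟩ := hv.above_ex V hV
  have hl0 : (l : Qb) ≠ 0 := Nat.cast_ne_zero.2 hl.ne_zero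
  have hp0 := vpos V hl0
  have hl1 : V.valuation (l : Qb) < 1 := hVl
  obtain ⟨ι, _, r, hι, hr, hperm⟩ := exists_transv hH
  have key : ∀ y ∈ fixU H, ∃ j : ℤ,
      V.valuation (y : Qb) ^ Fintype.card ι = V.valuation (l : Qb) ^ j := fun y hy => by
    have h1 : (∏ i, sU (r i) y) ∈ fixU (DG V) := fun g hg => by
      obtain ⟨e, he⟩ := hperm g hg
      rw [Units.coe_prod, map_prod]
      simp only [coe_sU, he _ _ hy]
      exact Equiv.prod_comp e fun i => r i (y : Qb)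
    obtain ⟨j, hj⟩ := baseVal hv hp V l hl hVl _ h1
    refine ⟨j, ?_⟩
    rw [← hj, Units.coe_prod, map_prod]
    simp only [coe_sU, hv.inv V _ (hr _), Finset.prod_const, Finset.card_univ]
  let A : AddSubgroup ℤ :=
    { carrier := {j | ∃ y ∈ fixU H,
        V.valuation (y : Qb) ^ Fintype.card ι = V.valuation (l : Qb) ^ j}
      add_mem' := by
        rintro i j ⟨y, hy, e⟩ ⟨z, hz, e'⟩
        exact ⟨y * z, (fixU H).mul_mem hy hz, by
          rw [Units.val_mul, map_mul, mul_pow, e, e', zpow_add₀ hp0.ne']⟩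
      zero_mem' := ⟨1, (fixU H).one_mem, by simp⟩
      neg_mem' := by
        rintro i ⟨y, hy, e⟩
        exact ⟨y⁻¹, (fixU H).inv_mem hy, by
          rw [Units.val_inv_eq_inv_val, map_inv₀, inv_pow, e, zpow_neg]⟩ }
  obtain ⟨a, ha⟩ := Int.subgroup_cyclic A
  have hmem : ∀ j ∈ A, ∃ q : ℤ, q * |a| = j := fun j hj => by
    rw [ha, AddSubgroup.mem_closure_singleton] at hj
    obtain ⟨q, rfl⟩ := hj
    rcases abs_choice a with e | e
    · exact ⟨q, by rw [e, smul_eq_mul]⟩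
    · exact ⟨-q, by rw [e, smul_eq_mul]; ring⟩
  have haA : a ∈ A := by rw [ha]; exact AddSubgroup.mem_closure_singleton_self a
  have habs : |a| ∈ A := by
    rcases abs_choice a with e | e
    · rwa [e]
    · rw [e]; exact A.neg_mem haA
  have hapos : 0 < |a| := by
    have h1 : ((Fintype.card ι : ℕ) : ℤ) ∈ A :=
      ⟨Units.mk0 _ hl0, fix_nat H l, by rw [zpow_natCast]; rfl⟩
    obtain ⟨q, hq⟩ := hmem _ h1
    refine abs_pos.2 fun h0 => hι ?_
    rw [h0, abs_zero, mul_zero] at hq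
    exact_mod_cast hq.symm
  obtain ⟨π, hπ, e⟩ := habs
  refine ⟨π, hπ, ?_, fun y hy => ?_⟩
  · by_contra hcon
    have h1 : 1 ≤ V.valuation (π : Qb) ^ Fintype.card ι := one_le_pow₀ (not_lt.1 hcon)
    rw [e] at h1
    exact absurd h1 (not_le.2 (zpow_lt_one₀ hp0 hl1 hapos))
  · obtain ⟨j, hj⟩ := key y hy
    obtain ⟨q, rfl⟩ := hmem j ⟨y, hy, hj⟩
    refine ⟨q, (pow_left_inj₀ zero_le zero_le hι).1 ?_⟩
    rw [hj, mul_comm, zpow_mul, ← e, ← zpow_natCast, ← zpow_natCast, ← zpow_mul, ← zpow_mul,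
      mul_comm]

lemma prod_index_dvd {M ι : Type} [AddCommGroup M] [Fintype ι] (A B : ι → AddSubgroup Qb)
    (f : M →+ Qb) (hf : ∀ i m, f m ∈ A i) (C : AddSubgroup M) (hC : ∀ i, ∀ m ∈ C, f m ∈ B i)
    (hs : ∀ x : ι → Qb, (∀ i, x i ∈ A i) → ∃ m, ∀ i, -f m + x i ∈ B i) :
    ∏ i, (B i).relIndex (A i) ∣ C.index := by
  let φ : M →+ ∀ i, A i ⧸ (B i).addSubgroupOf (A i) :=
    AddMonoidHom.pi fun i => (QuotientAddGroup.mk' _).comp (f.codRestrict (A i) (hf i))
  have hsurj : Function.Surjective φ := fun q => by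
    obtain ⟨m, hm⟩ := hs (fun i => ((q i).out : A i)) fun i => (q i).out.2
    refine ⟨m, funext fun i => ?_⟩
    rw [← QuotientAddGroup.out_eq' (q i)]
    exact QuotientAddGroup.eq.2 (hm i)
  have hker : C ≤ φ.ker := fun m hm => funext fun i =>
    (QuotientAddGroup.eq_zero_iff _).2 (hC i m hm)
  have h1 := AddSubgroup.index_dvd_of_le hker
  rw [AddSubgroup.index_ker, AddMonoidHom.range_eq_top.2 hsurj, AddSubgroup.card_top,
    Nat.card_pi] at h1
  exact h1

open NumberField in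
lemma prod_dvd (hv : ValStmt) (hp : PlcStmt) (U : Subgroup GQ) (R : Finset Pl) (c : ℕ)
    (hU : OpenIn U ⊤) (hR : Rep U R) (hc : c ≠ 0) :
    ∏ V ∈ R, qO V (DG V ⊓ U) (c : Qb) ∣ c ^ U.index := by
  have hfix : (IntermediateField.fixedField U).fixingSubgroup = U :=
    InfiniteGalois.fixingSubgroup_fixedField (k := ℚ) (K := Qb)
      ⟨U, U.isClosed_of_isOpen hU.isOpen⟩
  have hfd : FiniteDimensional ℚ (IntermediateField.fixedField U) :=
    (InfiniteGalois.isOpen_iff_finite _).1 (by rw [hfix]; exact hU.isOpen)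
  have hrank : Module.finrank ℚ (IntermediateField.fixedField U) = U.index := by
    rw [IntermediateField.finrank_eq_fixingSubgroup_index, hfix]
  have : NumberField (IntermediateField.fixedField U) := { to_finiteDimensional := hfd }
  have hc0 : (c : Qb) ≠ 0 := Nat.cast_ne_zero.2 hc
  let f : 𝓞 (IntermediateField.fixedField U) →+* Qb :=
    (algebraMap (IntermediateField.fixedField U) Qb).comp (algebraMap _ _)
  have hf : ∀ (V : Pl) m, f m ∈ OH V (DG V ⊓ U) := fun V m =>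
    mem_OH.2 ⟨hv.integral V _ (m.isIntegral_coe.map
      (IsScalarTower.toAlgHom ℤ (IntermediateField.fixedField U) Qb)),
      ((isFix_iff U _).2 (m : IntermediateField.fixedField U).2).mono inf_le_right⟩
  have h1 := prod_index_dvd (ι := R) (fun V => (OH V (DG V ⊓ U)).toAddSubgroup)
    (fun V => (OH V (DG V ⊓ U)).toAddSubgroup.map (AddMonoidHom.mulLeft (c : Qb)))
    f.toAddMonoidHom (fun V m => hf V m) (nsmulAddMonoidHom c).range
    (by
      rintro V _ ⟨m, rfl⟩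
      exact ⟨f m, hf V m, by simp⟩)
    (fun x hx => by
      obtain ⟨y, hy, hyi, hyv⟩ := approx hv hp U R
        (fun V => if h : V ∈ R then x ⟨V, h⟩ else 0) c hU hR
        (fun V hV => by rw [dif_pos hV]; exact hx ⟨V, hV⟩) hc0
      have hyi' : IsIntegral ℤ (⟨y, (isFix_iff U y).1 hy⟩ : IntermediateField.fixedField U) :=
        (isIntegral_algHom_iff (IsScalarTower.toAlgHom ℤ (IntermediateField.fixedField U) Qb)
          (algebraMap (IntermediateField.fixedField U) Qb).injective).1 hyi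
      refine ⟨⟨_, hyi'⟩, fun V => ⟨(c : Qb)⁻¹ * (x V - y), mem_OH.2 ⟨?_, ?_⟩, ?_⟩⟩
      · have h2 := hyv V V.2
        rw [dif_pos V.2, Valuation.map_sub_swap] at h2
        rw [← ValuationSubring.valuation_le_one_iff, map_mul, map_inv₀,
          inv_mul_le_iff₀ (vpos V hc0), mul_one]
        exact h2
      · exact fix_mul (fix_inv (fix_nat _ c))
          (fix_sub (mem_OH.1 (hx V)).2 (hy.mono inf_le_right))
      · change (c : Qb) * ((c : Qb)⁻¹ * (x V - y)) = -y + x V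
        rw [mul_inv_cancel_left₀ hc0]; ring)
  rw [AddSubgroup.index_range_nsmul, RingOfIntegers.rank] at h1
  rw [← Finset.prod_coe_sort, ← hrank]
  exact h1

end DensP

theorem dens (hv : ValStmt) (hp : PlcStmt) : DensStmt where
  approx := DensP.approx hv hp
  unif := DensP.unif hv hp
  fin := fun V H c hV hH hc => by
    obtain ⟨U, hU, rfl⟩ := hH.exists_inf
    have h := DensP.prod_dvd hv hp U {V} c hU
      ⟨fun W hW => Finset.mem_singleton.1 hW ▸ hV, fun W hW W' hW' _ _ _ =>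
        (Finset.mem_singleton.1 hW).trans (Finset.mem_singleton.1 hW').symm⟩ hc
    rw [Finset.prod_singleton] at h
    exact ne_zero_of_dvd_ne_zero (pow_ne_zero _ hc) h
  prod := fun U R c hU hR hc =>
    Nat.le_of_dvd (pow_pos (Nat.pos_of_ne_zero hc) _) (DensP.prod_dvd hv hp U R c hU hR hc)
  baseVal := DensP.baseVal hv hp
  baseRes := DensP.baseRes hv hp

end Pool.Agent.MP_59efd2_nt.lz

end
end MrgPart1

-- ======== part 2: formerly Pool.Agent.MP_59efd2_nt.lz.Unr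
section MrgPart2

/-!
# Row UNR: Frobenius elements and unramified extensions
-/

noncomputable section

namespace Pool.Agent.MP_59efd2_nt.lz

open scoped Pointwise Classical

namespace UnrP

open Polynomial IsLocalRing

lemma isOpen_of_ons {T : Set GQ} (h : ∀ g ∈ T, ∃ N : ONS, ∀ n ∈ N, g * n ∈ T) : IsOpen T := by
  refine isOpen_iff_mem_nhds.2 fun g hg => ?_
  obtain ⟨N, hN⟩ := h g hg
  have h1 : IsOpen ((fun k => g⁻¹ * k) ⁻¹' (N : Set GQ)) :=
    N.toOpenSubgroup.isOpen.preimage (continuous_const.mul continuous_id)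
  refine Filter.mem_of_superset (h1.mem_nhds ?_) fun k hk => ?_
  · change g⁻¹ * g ∈ N
    rw [inv_mul_cancel]; exact N.one_mem
  · have := hN _ hk
    rwa [mul_inv_cancel_left] at this

lemma isOpen_ev (x : Qb) (Q : Qb → Prop) : IsOpen {g : GQ | Q (g x)} := by
  obtain ⟨N, hN⟩ := exists_ons_fix x
  refine isOpen_of_ons fun g hg => ⟨N, fun n hn => ?_⟩
  change Q (g (n x))
  rw [hN n hn]; exact hg

lemma isClosed_ev (x : Qb) (Q : Qb → Prop) : IsClosed {g : GQ | Q (g x)} :=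
  ⟨isOpen_ev x fun y => ¬ Q y⟩

/-- Roots of unity of order prime to `l`. -/
def Mu (l : ℕ) (ζ : Qb) : Prop := ∃ n, ¬ l ∣ n ∧ ζ ^ n = 1

lemma common {l : ℕ} (hl : l.Prime) (F : Finset {ζ : Qb // Mu l ζ}) :
    ∃ (n : ℕ) (z : Qb), ¬ l ∣ n ∧ IsPrimitiveRoot z n ∧ ∀ ζ ∈ F, ∃ i : ℕ, z ^ i = ζ.1 := by
  choose m hm using fun ζ : {ζ : Qb // Mu l ζ} => ζ.2
  have h1 : ¬ l ∣ ∏ ζ ∈ F, m ζ := fun h => by
    obtain ⟨ζ, -, h2⟩ := (Nat.Prime.prime hl).exists_mem_finset_dvd h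
    exact (hm ζ).1 h2
  have h0 : ∏ ζ ∈ F, m ζ ≠ 0 := fun h => h1 (h ▸ dvd_zero l)
  have : NeZero (∏ ζ ∈ F, m ζ) := ⟨h0⟩
  obtain ⟨z, hz⟩ := HasEnoughRootsOfUnity.exists_primitiveRoot Qb (∏ ζ ∈ F, m ζ)
  refine ⟨_, z, h1, hz, fun ζ hζ => ?_⟩
  obtain ⟨c, hc⟩ := Finset.dvd_prod_of_mem m hζ
  obtain ⟨i, -, hi⟩ := hz.eq_pow_of_pow_eq_one (ξ := ζ.1) (by rw [hc, pow_mul, (hm ζ).2, one_pow])
  exact ⟨i, hi⟩

/-- Compactness over the roots of unity of order prime to `l`. -/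
lemma compact_ex {l : ℕ} (hl : l.Prime) {S : Set GQ} (hS : IsClosed S) (e : ℕ)
    (h : ∀ (n : ℕ) (z : Qb), ¬ l ∣ n → IsPrimitiveRoot z n → ∃ g ∈ S, g z = z ^ e) :
    ∃ g ∈ S, ∀ ζ, Mu l ζ → g ζ = ζ ^ e := by
  have := hS.isCompact.inter_iInter_nonempty
    (fun ζ : {ζ : Qb // Mu l ζ} => {g : GQ | g ζ.1 = ζ.1 ^ e})
    (fun ζ => isClosed_ev ζ.1 fun y => y = ζ.1 ^ e) (fun F => by
      obtain ⟨n, z, hn, hz, hF⟩ := common hl F
      obtain ⟨g, hg, hgz⟩ := h n z hn hz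
      refine ⟨g, hg, Set.mem_iInter₂.2 fun ζ hζ => ?_⟩
      obtain ⟨i, hi⟩ := hF ζ hζ
      change g ζ.1 = ζ.1 ^ e
      rw [← hi, map_pow, hgz, ← pow_mul, ← pow_mul, mul_comm])
  obtain ⟨g, hg, hg2⟩ := this
  exact ⟨g, hg, fun ζ hζ => Set.mem_iInter.1 hg2 ⟨ζ, hζ⟩⟩

lemma val_root (V : Pl) {n : ℕ} (hn : n ≠ 0) {ζ : Qb} (h : ζ ^ n = 1) : V.valuation ζ = 1 := by
  have := congrArg V.valuation h
  rw [map_pow, map_one] at this
  exact (pow_eq_one_iff_of_nonneg zero_le hn).1 this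

lemma mem_of_val {V : Pl} {x : Qb} (h : V.valuation x = 1) : x ∈ V :=
  (V.valuation_le_one_iff x).1 h.le

lemma ne_zero_of {l n : ℕ} (h : ¬ l ∣ n) : n ≠ 0 := fun h0 => h (h0 ▸ dvd_zero l)

lemma root_eq (hv : ValStmt) {V : Pl} {l : ℕ} (hl : l.Prime) (hV : Above V l) {n : ℕ}
    (hn : ¬ l ∣ n) {a b : Qb} (ha : a ^ n = 1) (hb : b ^ n = 1) (h : V.valuation (a - b) < 1) :
    a = b := by
  have hb1 := val_root V (ne_zero_of hn) hb
  have hb0 : b ≠ 0 := fun h0 => by rw [h0, map_zero] at hb1; exact zero_ne_one hb1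
  have h1 : V.valuation (n : Qb) = 1 := by
    have := (hv.int V l hl hV n).2 (fun h => hn (Int.natCast_dvd_natCast.1 h))
    simpa using this
  have h2 := hv.mu' V n (a / b) h1 (by rw [div_pow, ha, hb, div_one]) (by
    have : a / b - 1 = (a - b) / b := by field_simp
    rw [this, map_div₀, hb1, div_one]; exact h)
  exact (div_eq_one_iff_eq hb0).1 h2

lemma res_eq_iff (V : Pl) (a b : V) :
    residue V a = residue V b ↔ V.valuation ((a : Qb) - b) < 1 := by
  rw [← sub_eq_zero, ← map_sub, residue_eq_zero_iff, V.valuation_lt_one_iff]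
  rfl

lemma charP {V : Pl} {l : ℕ} (hl : l.Prime) (hV : Above V l) : CharP (ResidueField V) l := by
  have : Fact l.Prime := ⟨hl⟩
  refine (CharP.charP_iff_prime_eq_zero hl).2 ?_
  have : residue V (l : V) = residue V 0 := (res_eq_iff V _ _).2 (by simpa [Above] using hV)
  simpa using this

lemma poly {k ι : Type} [Field k] (s : Finset ι) (w : ι → k) (ψ : k →+* k)
    (h : ∀ i, ψ ((∏ a ∈ s, (X - C (w a))).coeff i) = (∏ a ∈ s, (X - C (w a))).coeff i)
    {a : ι} (ha : a ∈ s) : ∃ b ∈ s, ψ (w a) = w b := by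
  have h1 : (∏ a ∈ s, (X - C (w a))).map ψ = ∏ a ∈ s, (X - C (w a)) := by
    ext i; rw [coeff_map, h]
  have h2 : Polynomial.eval (w a) (∏ a ∈ s, (X - C (w a))) = 0 := by
    rw [eval_prod]; exact Finset.prod_eq_zero ha (by simp)
  have h3 : Polynomial.eval (ψ (w a)) (∏ a ∈ s, (X - C (w a))) = 0 := by
    rw [← h1, eval_map, eval₂_at_apply, h2, map_zero]
  rw [eval_prod, Finset.prod_eq_zero_iff] at h3
  obtain ⟨b, hb, h4⟩ := h3
  exact ⟨b, hb, by simpa [sub_eq_zero] using h4⟩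

lemma coe_smul (V : Pl) (g : DG V) (a : V) : ((g • a : V) : Qb) = (g : GQ) a := rfl

lemma orbit_finite (V : Pl) (z : V) : (MulAction.orbit (DG V) z).Finite := by
  obtain ⟨N, hN⟩ := exists_ons_fix (z : Qb)
  have h1 : Sm1 (DG V) fun g : GQ => g z := ⟨N, fun g _ n _ hn => by
    change g (n z) = g z
    rw [hN n hn]⟩
  refine Set.Finite.of_finite_image (f := fun a : V => (a : Qb)) (h1.finite.subset ?_)
    Subtype.val_injective.injOn
  rintro _ ⟨_, ⟨g, rfl⟩, rfl⟩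
  exact ⟨g, g.2, rfl⟩

/-- `z ^ l` is congruent to a conjugate of `z` under the decomposition group. -/
lemma orb (hd : DensStmt) (hv : ValStmt) {V : Pl} {l : ℕ} (hl : l.Prime) (hV : Above V l)
    (z : V) : ∃ g ∈ DG V, V.valuation (g (z : Qb) - (z : Qb) ^ l) < 1 := by
  have : Fact l.Prime := ⟨hl⟩
  have := charP hl hV
  set O : Finset V := (orbit_finite V z).toFinset with hO
  have hmem : ∀ w, w ∈ O ↔ w ∈ MulAction.orbit (DG V) z := fun w => Set.Finite.mem_toFinset _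
  set P : V[X] := ∏ w ∈ O, (X - C w) with hP
  have hfix : ∀ g : DG V, P.map (MulSemiringAction.toRingHom (DG V) V g) = P := by
    intro g
    rw [hP, Polynomial.map_prod]
    simp only [Polynomial.map_sub, map_X, map_C, MulSemiringAction.toRingHom_apply]
    refine Finset.prod_bij (fun w _ => g • w) (fun w hw => ?_) (fun a _ b _ h => ?_)
      (fun w hw => ⟨g⁻¹ • w, ?_, smul_inv_smul g w⟩) (fun _ _ => rfl)
    · exact (hmem _).2 (MulAction.mem_orbit_of_mem_orbit g ((hmem w).1 hw))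
    · exact smul_left_cancel g h
    · exact (hmem _).2 (MulAction.mem_orbit_of_mem_orbit g⁻¹ ((hmem w).1 hw))
  have hmap : P.map (residue V) = ∏ w ∈ O, (X - C (residue V w)) := by
    rw [hP, Polynomial.map_prod]
    simp only [Polynomial.map_sub, map_X, map_C]
  have hco : ∀ i, frobenius (ResidueField V) l ((∏ w ∈ O, (X - C (residue V w))).coeff i) =
      (∏ w ∈ O, (X - C (residue V w))).coeff i := by
    intro i
    rw [← hmap, coeff_map]
    have h1 : ((P.coeff i : V) : Qb) ∈ OH V (DG V) := mem_OH.2 ⟨(P.coeff i).2, fun g hg => by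
      have := congrArg (fun Q : V[X] => ((Q.coeff i : V) : Qb)) (hfix ⟨g, hg⟩)
      simpa [coeff_map, coe_smul] using this⟩
    obtain ⟨n, hn⟩ := hd.baseRes V (hv.above_ne V l hl.ne_zero hV) _ h1
    have h2 : residue V (P.coeff i) = residue V (n : V) := (res_eq_iff V _ _).2 (by simpa using hn)
    rw [h2, map_intCast, map_intCast]
  obtain ⟨w, hw, h⟩ := poly O (residue V) (frobenius (ResidueField V) l) hco
    ((hmem z).2 (MulAction.mem_orbit_self z))
  obtain ⟨g, rfl⟩ := (hmem w).1 hw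
  rw [frobenius_def, ← map_pow] at h
  exact ⟨g, g.2, (res_eq_iff V _ _).1 h.symm⟩

lemma val_sub_lt {V : Pl} {a b c : Qb} (h1 : V.valuation (a - b) < 1)
    (h2 : V.valuation (b - c) < 1) : V.valuation (a - c) < 1 := by
  have : a - c = (a - b) + (b - c) := by ring
  rw [this]; exact Valuation.map_add_lt _ h1 h2

lemma val_sub_symm {V : Pl} {a b : Qb} (h1 : V.valuation (a - b) < 1) :
    V.valuation (b - a) < 1 := by rwa [Valuation.map_sub_swap]

/-- An element of the decomposition group is determined modulo inertia by its action on roots of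
unity. -/
lemma cong_of_roots (hv : ValStmt) {V : Pl} {l : ℕ} (hl : l.Prime) (hV : Above V l) {g : GQ}
    (hg : g ∈ DG V) {e : ℕ} (he : e ≠ 0) (h : ∀ ζ, Mu l ζ → g ζ = ζ ^ e) (x : Qb) (hx : x ∈ V) :
    V.valuation (g x - x ^ e) < 1 := by
  rcases ((V.valuation_le_one_iff x).2 hx).lt_or_eq with h1 | h1
  · refine Valuation.map_sub_lt _ (by rwa [hv.inv V g hg]) ?_
    rw [map_pow]; exact pow_lt_one₀ zero_le h1 he
  · obtain ⟨n, ζ, hn, hζ, h2⟩ := hv.teich V l hl hV x h1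
    have hζV := mem_of_val (val_root V (ne_zero_of hn) hζ)
    have h3 : V.valuation (g x - g ζ) < 1 := by rw [← map_sub, hv.inv V g hg]; exact h2
    have h4 : residue V (⟨ζ, hζV⟩ ^ e) = residue V (⟨x, hx⟩ ^ e) := by
      rw [map_pow, map_pow, (res_eq_iff V ⟨x, hx⟩ ⟨ζ, hζV⟩).2 h2]
    rw [h ζ ⟨n, hn, hζ⟩] at h3
    exact val_sub_lt h3 ((res_eq_iff V _ _).1 h4)

lemma map_root {n : ℕ} {ζ : Qb} (h : ζ ^ n = 1) (g : GQ) : g ζ ^ n = 1 := by
  rw [← map_pow, h, map_one]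

lemma pow_root {n : ℕ} {ζ : Qb} (h : ζ ^ n = 1) (e : ℕ) : (ζ ^ e) ^ n = 1 := by
  rw [← pow_mul, mul_comm, pow_mul, h, one_pow]

lemma frob (hv : ValStmt) (hd : DensStmt) (V : Pl) (l : ℕ) (hl : l.Prime) (hV : Above V l) :
    ∃ φ, IsFrob V l φ := by
  obtain ⟨g, hg, h⟩ := compact_ex hl (hv.dg_closed V) l fun n z hn hz => by
    obtain ⟨g, hg, h⟩ := orb hd hv hl hV ⟨z, mem_of_val (val_root V (ne_zero_of hn) hz.pow_eq_one)⟩
    exact ⟨g, hg, root_eq hv hl hV hn (map_root hz.pow_eq_one g) (pow_root hz.pow_eq_one l) h⟩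
  exact ⟨g, hg, cong_of_roots hv hl hV hg hl.ne_zero h⟩

lemma frob_root (hv : ValStmt) (V : Pl) (l : ℕ) (φ : GQ) (hl : l.Prime) (hV : Above V l)
    (hφ : IsFrob V l φ) (n : ℕ) (ζ : Qb) (hn : ¬ l ∣ n) (hζ : ζ ^ n = 1) : φ ζ = ζ ^ l :=
  root_eq hv hl hV hn (map_root hζ φ) (pow_root hζ l)
    (hφ.2 ζ (mem_of_val (val_root V (ne_zero_of hn) hζ)))

lemma ig_root (hv : ValStmt) (V : Pl) (l : ℕ) (hl : l.Prime) (hV : Above V l) (g : GQ)
    (hg : g ∈ IG V) (n : ℕ) (ζ : Qb) (hn : ¬ l ∣ n) (hζ : ζ ^ n = 1) : g ζ = ζ :=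
  root_eq hv hl hV hn (map_root hζ g) hζ
    (((hv.ig V g).1 hg).2 ζ (mem_of_val (val_root V (ne_zero_of hn) hζ)))

lemma frob_pow (hv : ValStmt) {V : Pl} {l : ℕ} {φ : GQ} (hl : l.Prime) (hV : Above V l)
    (hφ : IsFrob V l φ) {n : ℕ} {ζ : Qb} (hn : ¬ l ∣ n) (hζ : ζ ^ n = 1) (j : ℕ) :
    (φ ^ j) ζ = ζ ^ l ^ j := by
  induction j with
  | zero => simp
  | succ j ih =>
    rw [pow_succ', AlgEquiv.mul_apply, ih, map_pow, frob_root hv V l φ hl hV hφ n ζ hn hζ,
      ← pow_mul, pow_succ']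

/-- An open subgroup that contains the inertia group contains the stabiliser of a root of unity. -/
lemma stab (hv : ValStmt) {V : Pl} {l : ℕ} (hl : l.Prime) (hV : Above V l) {H H' : Subgroup GQ}
    (hH : OpenIn H (DG V)) (hH' : OpenIn H' H) (hI : IG V ⊓ H ≤ H') :
    ∃ (n : ℕ) (z : Qb), ¬ l ∣ n ∧ IsPrimitiveRoot z n ∧ ∀ g ∈ H, g z = z → g ∈ H' := by
  by_contra hc
  obtain ⟨U, hU, rfl⟩ := hH'.exists_inf
  have hS : IsClosed ((H : Set GQ) ∩ (U : Set GQ)ᶜ) :=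
    (hH.isClosed (hv.dg_closed V)).inter hU.isOpen.isClosed_compl
  obtain ⟨g, hg, h⟩ := compact_ex hl hS 1 fun n z hn hz => by
    by_contra h2
    refine hc ⟨n, z, hn, hz, fun g hg hgz => ⟨hg, ?_⟩⟩
    by_contra h3
    exact h2 ⟨g, ⟨hg, h3⟩, by rw [hgz, pow_one]⟩
  have h1 : g ∈ IG V := (hv.ig V g).2 ⟨hH.1 hg.1, fun x hx => by
    simpa using cong_of_roots hv hl hV (hH.1 hg.1) one_ne_zero h x hx⟩
  exact hg.2 (hI ⟨h1, hg.1⟩).2

/-- The decomposition group acts on roots of unity through powers of `l`. -/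
lemma act_pow (hv : ValStmt) {V : Pl} {l : ℕ} (hl : l.Prime) (hV : Above V l) {n : ℕ}
    (hn : ¬ l ∣ n) {z : Qb} (hz : z ^ n = 1) {g : GQ} (hg : g ∈ DG V) :
    ∃ j : ℕ, g z = z ^ l ^ j := by
  have : Fact l.Prime := ⟨hl⟩
  have := charP hl hV
  have hzV := mem_of_val (val_root V (ne_zero_of hn) hz)
  set a : ResidueField V := residue V ⟨z, hzV⟩ with ha
  have hcop : Nat.Coprime l n := (Nat.Prime.coprime_iff_not_dvd hl).2 hn
  set f := n.totient with hf
  have hf0 : 0 < f := Nat.totient_pos.2 (Nat.pos_of_ne_zero (ne_zero_of hn))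
  have han : a ^ n = 1 := by
    rw [ha, ← map_pow]
    have : (⟨z, hzV⟩ : V) ^ n = 1 := Subtype.ext hz
    rw [this, map_one]
  have haf : a ^ l ^ f = a := by
    have h1 : l ^ f ≡ 1 [MOD n] := Nat.ModEq.pow_totient hcop
    rw [pow_eq_pow_of_modEq h1 han, pow_one]
  set P : (ResidueField V)[X] := ∏ i ∈ Finset.range f, (X - C (a ^ l ^ i)) with hP
  have h1 : P.map (frobenius (ResidueField V) l) = P := by
    rw [hP, Polynomial.map_prod]
    simp only [Polynomial.map_sub, map_X, map_C, frobenius_def, ← pow_mul, ← pow_succ]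
    have h2 := Finset.prod_range_succ (fun i => (X - C (a ^ l ^ i) : (ResidueField V)[X])) f
    have h3 := Finset.prod_range_succ' (fun i => (X - C (a ^ l ^ i) : (ResidueField V)[X])) f
    rw [h2, haf, pow_zero, pow_one] at h3
    exact (mul_right_cancel₀ (X_sub_C_ne_zero a) h3).symm
  set ψ := MulSemiringAction.toRingHom (DG V) (ResidueField V) ⟨g, hg⟩ with hψ
  have h2 : ∀ i, ψ (P.coeff i) = P.coeff i := by
    intro i
    have h3 : P.coeff i ^ l = P.coeff i := by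
      have := congrArg (fun Q => Q.coeff i) h1
      simpa [coeff_map, frobenius_def] using this
    have h4 := (Subfield.mem_bot_iff_pow_eq_self (ResidueField V) l).2 h3
    exact (bot_le : (⊥ : Subfield (ResidueField V)) ≤ RingHom.eqLocusField ψ (RingHom.id _)) h4
  obtain ⟨j, -, hj⟩ := poly (Finset.range f) (fun i => a ^ l ^ i) ψ h2 (Finset.mem_range.2 hf0)
  refine ⟨j, root_eq hv hl hV hn (map_root hz g) (pow_root hz _) ?_⟩
  rw [pow_zero, pow_one, ha, hψ, MulSemiringAction.toRingHom_apply,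
    ← ResidueField.residue_smul, ← map_pow] at hj
  exact (res_eq_iff V _ _).1 hj

lemma gen (hv : ValStmt) (V : Pl) (l : ℕ) (φ : GQ) (hl : l.Prime) (hV : Above V l)
    (hφ : IsFrob V l φ) (N : ONS) (g : GQ) (hg : g ∈ DG V) :
    ∃ j : ℕ, ∃ i ∈ IG V, ∃ n ∈ N, g = φ ^ j * i * n := by
  have : (N : Subgroup GQ).Normal := N.isNormal'
  obtain ⟨n, z, hn, hz, h⟩ := stab hv hl hV (OpenIn.refl (DG V))
    (H' := DG V ⊓ (IG V ⊔ (N : Subgroup GQ)))
    ⟨inf_le_left, N, fun g hg hN => ⟨hg, Subgroup.mem_sup_right hN⟩⟩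
    (fun g hg => ⟨hg.2, Subgroup.mem_sup_left hg.1⟩)
  obtain ⟨j, hj⟩ := act_pow hv hl hV hn hz.pow_eq_one hg
  have h1 : (φ ^ j)⁻¹ * g ∈ DG V := (DG V).mul_mem ((DG V).inv_mem ((DG V).pow_mem hφ.1 j)) hg
  have h2 : (φ ^ j)⁻¹ * g ∈ ((IG V ⊔ (N : Subgroup GQ) : Subgroup GQ) : Set GQ) :=
    (h _ h1 (by
      rw [AlgEquiv.mul_apply, hj, ← frob_pow hv hl hV hφ hn hz.pow_eq_one j, ← AlgEquiv.mul_apply,
        inv_mul_cancel, AlgEquiv.one_apply])).2
  rw [Subgroup.mul_normal] at h2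
  obtain ⟨i, hi, m, hm, e⟩ := h2
  refine ⟨j, i, hi, m, hm, ?_⟩
  have e' : i * m = (φ ^ j)⁻¹ * g := e
  rw [mul_assoc, e', mul_inv_cancel_left]

lemma cyc_of {Q : Type} [Group Q] [Finite Q] (χ : GQ →* Q) (H : Subgroup GQ)
    (hc : IsCyclic (H.map χ)) (ho : OpenIn (H ⊓ χ.ker) H) :
    ∃ x σ, Cyc H (H ⊓ χ.ker) (Nat.card (H.map χ)) x σ := by
  set e := zmodCyclicMulEquiv hc with he
  obtain ⟨σ, hσ, hσ2⟩ := (e (Multiplicative.ofAdd 1)).2
  refine ⟨ext H 0 fun g => (e.symm ⟨χ g, g, g.2, rfl⟩).toAdd, σ, Nat.card_pos,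
    fun g hg k hk => ?_, fun g => ⟨fun hg => ⟨hg.1, ?_⟩, fun hg => ⟨hg.1, ?_⟩⟩, hσ, ?_, ho⟩
  · rw [ext_of_mem _ _ (H.mul_mem hg hk), ext_of_mem _ _ hg, ext_of_mem _ _ hk, ← toAdd_mul,
      ← map_mul]
    congr 2
    exact Subtype.ext (map_mul χ g k)
  · rw [ext_of_mem _ _ hg.1]
    have : (⟨χ g, g, hg.1, rfl⟩ : H.map χ) = 1 := Subtype.ext hg.2
    change (e.symm ⟨χ g, g, hg.1, rfl⟩).toAdd = 0
    rw [this, map_one, toAdd_one]
  · have h2 := hg.2
    rw [ext_of_mem _ _ hg.1] at h2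
    have h3 : e.symm ⟨χ g, g, hg.1, rfl⟩ = 1 := h2
    rw [map_eq_one_iff _ e.symm.injective] at h3
    exact congrArg Subtype.val h3
  · rw [ext_of_mem _ _ hσ]
    have : (⟨χ σ, σ, hσ, rfl⟩ : H.map χ) = e (Multiplicative.ofAdd 1) := Subtype.ext hσ2
    change (e.symm ⟨χ σ, σ, hσ, rfl⟩).toAdd = 1
    rw [this, e.symm_apply_apply, toAdd_ofAdd]

lemma mem_ker_iff {n : ℕ} [NeZero n] {z : Qb} (hz : IsPrimitiveRoot z n) (g : GQ) :
    g ∈ (hz.autToPow ℚ).ker ↔ g z = z := by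
  have h1 := hz.autToPow_spec ℚ g
  have h2 := hz.autToPow_spec ℚ (1 : GQ)
  rw [MonoidHom.mem_ker]
  constructor
  · intro h
    rw [← h1, h, ← map_one (hz.autToPow ℚ), h2, AlgEquiv.one_apply]
  · intro h
    rw [← map_one (hz.autToPow ℚ)]
    refine Units.ext (ZMod.val_injective _ (hz.pow_inj (ZMod.val_lt _) (ZMod.val_lt _) ?_))
    rw [h1, h2, h, AlgEquiv.one_apply]

lemma open_ker {n : ℕ} [NeZero n] {z : Qb} (hz : IsPrimitiveRoot z n) (H : Subgroup GQ) :
    OpenIn (H ⊓ (hz.autToPow ℚ).ker) H := by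
  obtain ⟨N, hN⟩ := exists_ons_fix z
  exact ⟨inf_le_left, N, fun g hg h => ⟨hg, (mem_ker_iff hz g).2 (hN g h)⟩⟩

lemma unr_cyc (hv : ValStmt) {V : Pl} {l : ℕ} {φ : GQ} (hl : l.Prime) (hV : Above V l)
    (hφ : IsFrob V l φ) {n : ℕ} [NeZero n] (hn : ¬ l ∣ n) {z : Qb} (hz : IsPrimitiveRoot z n)
    {H : Subgroup GQ} (hH : H ≤ DG V) :
    IG V ⊓ H ≤ H ⊓ (hz.autToPow ℚ).ker ∧
      ∃ x σ, Cyc H (H ⊓ (hz.autToPow ℚ).ker) (Nat.card (H.map (hz.autToPow ℚ))) x σ := by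
  refine ⟨fun g hg => ⟨hg.2, (mem_ker_iff hz g).2 (ig_root hv V l hl hV g hg.1 n z hn
    hz.pow_eq_one)⟩, cyc_of _ H ?_ (open_ker hz H)⟩
  have hle : H.map (hz.autToPow ℚ) ≤ Subgroup.zpowers (hz.autToPow ℚ φ) := by
    rintro _ ⟨g, hg, rfl⟩
    obtain ⟨j, hj⟩ := act_pow hv hl hV hn hz.pow_eq_one (hH hg)
    have h1 : (φ ^ j)⁻¹ * g ∈ (hz.autToPow ℚ).ker := (mem_ker_iff hz _).2 (by
      rw [AlgEquiv.mul_apply, hj, ← frob_pow hv hl hV hφ hn hz.pow_eq_one j, ← AlgEquiv.mul_apply,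
        inv_mul_cancel, AlgEquiv.one_apply])
    rw [MonoidHom.mem_ker, map_mul, map_inv, inv_mul_eq_one, map_pow] at h1
    rw [← h1]
    exact Subgroup.npow_mem_zpowers _ j
  exact Subgroup.isCyclic_of_le hle

lemma cyc (hv : ValStmt) (hd : DensStmt) (V : Pl) (H H' : Subgroup GQ) (hV : V ≠ ⊤)
    (hH : OpenIn H (DG V)) (hH' : OpenIn H' H) (hI : IG V ⊓ H ≤ H') :
    ∃ (H'' : Subgroup GQ) (d : ℕ) (x : GQ → ZMod d) (σ : GQ),
      H'' ≤ H' ∧ IG V ⊓ H ≤ H'' ∧ Cyc H H'' d x σ := by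
  obtain ⟨l, hl, hV⟩ := hv.above_ex V hV
  obtain ⟨φ, hφ⟩ := frob hv hd V l hl hV
  obtain ⟨n, z, hn, hz, h⟩ := stab hv hl hV hH hH' hI
  have : NeZero n := ⟨ne_zero_of hn⟩
  obtain ⟨h1, x, σ, h2⟩ := unr_cyc hv hl hV hφ hn hz hH.1
  have h3 : H ⊓ (hz.autToPow ℚ).ker ≤ H' := fun g hg => h g hg.1 ((mem_ker_iff hz g).1 hg.2)
  exact ⟨_, _, x, σ, h3, h1, h2⟩

lemma cyc_quot {H H' : Subgroup GQ} {e : ℕ} {x : GQ → ZMod e} {σ : GQ} (h : Cyc H H' e x σ)
    {d : ℕ} (hd : d ∣ e) : ∃ (H'' : Subgroup GQ) (x' : GQ → ZMod d), H' ≤ H'' ∧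
      Cyc H H'' d x' σ := by
  set c := ZMod.castHom hd (ZMod d) with hc
  let K : Subgroup GQ :=
    { carrier := {g | g ∈ H ∧ c (x g) = 0}
      mul_mem' := fun {a b} ha hb => ⟨H.mul_mem ha.1 hb.1, by
        rw [h.add a ha.1 b hb.1, map_add, ha.2, hb.2, add_zero]⟩
      one_mem' := ⟨H.one_mem, by rw [h.map_one, map_zero]⟩
      inv_mem' := fun {a} ha => ⟨H.inv_mem ha.1, by rw [h.map_inv ha.1, map_neg, ha.2, neg_zero]⟩ }
  have hle : H' ≤ K := fun g hg => ⟨h.le hg, by rw [((h.ker g).1 hg).2, map_zero]⟩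
  have hKH : K ≤ H := fun g hg => hg.1
  exact ⟨K, fun g => c (x g), hle, Nat.pos_of_dvd_of_pos hd h.pos,
    fun g hg k hk => by rw [h.add g hg k hk, map_add], fun g => Iff.rfl, h.mem,
    by rw [h.gen, map_one], (h.opn.of_le hle hKH).2⟩

lemma ex (hv : ValStmt) (hd : DensStmt) (V : Pl) (H : Subgroup GQ) (d : ℕ) (hV : V ≠ ⊤)
    (hH : OpenIn H (DG V)) (h0 : 0 < d) :
    ∃ (H' : Subgroup GQ) (x : GQ → ZMod d) (σ : GQ), IG V ⊓ H ≤ H' ∧ Cyc H H' d x σ := by
  obtain ⟨l, hl, hV⟩ := hv.above_ex V hV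
  obtain ⟨φ, hφ⟩ := frob hv hd V l hl hV
  obtain ⟨hle, N, hN⟩ := hH
  have : (N : Subgroup GQ).Normal := N.isNormal'
  set j := (N : Subgroup GQ).index with hj
  have hj0 : 0 < j := Nat.pos_of_ne_zero (ons_finiteIndex N).index_ne_zero
  have hφj : φ ^ j ∈ H := hN _ ((DG V).pow_mem hφ.1 j) (Subgroup.pow_index_mem _ φ)
  have h1 : 1 < l ^ (j * d) := Nat.one_lt_pow (Nat.mul_pos hj0 h0).ne' hl.one_lt
  set n := l ^ (j * d) - 1 with hn
  have hln : ¬ l ∣ n := fun h => by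
    have h2 : l ∣ l ^ (j * d) := dvd_pow_self l (Nat.mul_pos hj0 h0).ne'
    have h3 : l ∣ 1 := (Nat.dvd_add_right h).1 (by rwa [hn, Nat.sub_add_cancel h1.le])
    exact hl.one_lt.ne' (Nat.dvd_one.1 h3)
  have : NeZero n := ⟨ne_zero_of hln⟩
  obtain ⟨z, hz⟩ := HasEnoughRootsOfUnity.exists_primitiveRoot Qb n
  obtain ⟨h2, x, σ, h3⟩ := unr_cyc hv hl hV hφ hln hz hle
  have key : ∀ i, hz.autToPow ℚ (φ ^ j) ^ i = 1 ↔ n ∣ l ^ (j * i) - 1 := by
    intro i
    rw [← map_pow, ← MonoidHom.mem_ker, mem_ker_iff, ← pow_mul,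
      frob_pow hv hl hV hφ hln hz.pow_eq_one, ← hz.pow_eq_one_iff_dvd]
    have h4 : l ^ (j * i) = (l ^ (j * i) - 1) + 1 :=
      (Nat.sub_add_cancel (Nat.one_le_pow _ _ hl.pos)).symm
    constructor
    · intro h
      rw [h4, pow_succ] at h
      exact mul_right_cancel₀ (hz.ne_zero (NeZero.ne n)) (h.trans (one_mul z).symm)
    · intro h
      rw [h4, pow_succ, h, one_mul]
  have hord : orderOf (hz.autToPow ℚ (φ ^ j)) = d := by
    refine (orderOf_eq_iff h0).2 ⟨(key d).2 dvd_rfl, fun m hm hm0 h => ?_⟩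
    have h4 : 1 < l ^ (j * m) := Nat.one_lt_pow (Nat.mul_pos hj0 hm0).ne' hl.one_lt
    have h5 : l ^ (j * m) < l ^ (j * d) :=
      Nat.pow_lt_pow_right hl.one_lt (Nat.mul_lt_mul_of_pos_left hm hj0)
    have h6 := Nat.le_of_dvd (by omega) ((key m).1 h)
    omega
  have hdvd : d ∣ Nat.card (H.map (hz.autToPow ℚ)) := by
    rw [← hord]
    exact Subgroup.orderOf_dvd_natCard _ ⟨_, hφj, rfl⟩
  obtain ⟨H'', x', h4, h5⟩ := cyc_quot h3 hdvd
  exact ⟨H'', x', σ, h2.trans h4, h5⟩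

/-- The conjugate of `a` by a coset. -/
def ev {H K : Subgroup GQ} (a : Qb) (q : H ⧸ K.subgroupOf H) : Qb := (q.out : GQ) a

lemma ev_smul {H K : Subgroup GQ} {a : Qb} (ha : IsFix K a) (g : H) (q : H ⧸ K.subgroupOf H) :
    ev a (g • q) = (g : GQ) (ev a q) := by
  have h1 : ((g * q.out : H) : H ⧸ K.subgroupOf H) = ((g • q).out : H) := by
    rw [QuotientGroup.out_eq', ← smul_eq_mul, ← MulAction.Quotient.smul_coe, QuotientGroup.out_eq']
  have h0 : (g * q.out)⁻¹ * (g • q).out ∈ K.subgroupOf H := QuotientGroup.eq.1 h1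
  have h2 := ha _ (Subgroup.mem_subgroupOf.1 h0)
  have h3 := congrArg ((g * q.out : H) : GQ) h2
  rw [← AlgEquiv.mul_apply, ← Subgroup.coe_mul, mul_inv_cancel_left] at h3
  exact h3

lemma fix_sum {H K : Subgroup GQ} [Fintype (H ⧸ K.subgroupOf H)] {a : Qb} (ha : IsFix K a) :
    IsFix H (∑ q : H ⧸ K.subgroupOf H, ev a q) := by
  intro g hg
  rw [map_sum]
  refine Eq.trans (Finset.sum_congr rfl fun q _ => (ev_smul ha ⟨g, hg⟩ q).symm) ?_
  exact Equiv.sum_comp (MulAction.toPerm (⟨g, hg⟩ : H)) (ev a)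

lemma fix_prod {H K : Subgroup GQ} [Fintype (H ⧸ K.subgroupOf H)] {a : Qb} (ha : IsFix K a) :
    IsFix H (∏ q : H ⧸ K.subgroupOf H, ev a q) := by
  intro g hg
  rw [map_prod]
  refine Eq.trans (Finset.prod_congr rfl fun q _ => (ev_smul ha ⟨g, hg⟩ q).symm) ?_
  exact Equiv.prod_comp (MulAction.toPerm (⟨g, hg⟩ : H)) (ev a)

lemma vg (hv : ValStmt) (V : Pl) (H : Subgroup GQ) (hV : V ≠ ⊤) (hH : OpenIn H (DG V))
    (y : Qbˣ) (hy : y ∈ fixU (IG V ⊓ H)) :
    ∃ z ∈ fixU H, V.valuation (y : Qb) = V.valuation (z : Qb) := by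
  obtain ⟨l, hl, hV⟩ := hv.above_ex V hV
  obtain ⟨N, hN⟩ := exists_ons_fix (y : Qb)
  obtain ⟨n, z, hn, hz, h⟩ := stab hv hl hV hH (H' := H ⊓ MulAction.stabilizer GQ (y : Qb))
    ⟨inf_le_left, N, fun g hg h => ⟨hg, hN g h⟩⟩ (fun g hg => ⟨hg.2, hy g hg⟩)
  have : NeZero n := ⟨ne_zero_of hn⟩
  set K := H ⊓ (hz.autToPow ℚ).ker with hK
  have hKz : IsFix K z := fun g hg => (mem_ker_iff hz g).1 hg.2
  have hKy : IsFix K y := fun g hg => (h g hg.1 (hKz g hg)).2
  have : (K.subgroupOf H).FiniteIndex := ⟨(open_ker hz H).relIndex_ne_zero⟩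
  have : Fintype (H ⧸ K.subgroupOf H) := Fintype.ofFinite _
  have hy0 : V.valuation (y : Qb) ≠ 0 := by simp
  have hu : ∀ q : H ⧸ K.subgroupOf H, V.valuation (ev (y : Qb) q / y) = 1 := fun q => by
    rw [map_div₀, ev, hv.inv V _ (hH.1 q.out.2), div_self hy0]
  have hw : ∀ q : H ⧸ K.subgroupOf H, ev z q ^ n = 1 := fun q => map_root hz.pow_eq_one _
  let u : H ⧸ K.subgroupOf H → V := fun q => ⟨_, mem_of_val (hu q)⟩
  let w : H ⧸ K.subgroupOf H → V := fun q => ⟨_, mem_of_val (val_root V (NeZero.ne n) (hw q))⟩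
  have hinj : Function.Injective fun q => powersHom (ResidueField V) (residue V (w q)) := by
    intro q q' e
    have h1 := root_eq hv hl hV hn (hw q) (hw q')
      ((res_eq_iff V _ _).1 ((powersHom (ResidueField V)).injective e))
    rw [← QuotientGroup.out_eq' q, ← QuotientGroup.out_eq' q', QuotientGroup.eq]
    refine ⟨(q.out⁻¹ * q'.out).2, (mem_ker_iff hz _).2 ?_⟩
    change (q.out : GQ)⁻¹ (ev z q') = z
    rw [← h1, ev, ← AlgEquiv.mul_apply, inv_mul_cancel, AlgEquiv.one_apply]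
  have hli := (linearIndependent_monoidHom (Multiplicative ℕ) (ResidueField V)).comp _ hinj
  have hex : ∃ i : ℕ, residue V (∑ q, u q * w q ^ i) ≠ 0 := by
    by_contra hc
    push Not at hc
    have h1 := Fintype.linearIndependent_iff.1 hli (fun q => residue V (u q)) (by
      funext i
      have := hc i.toAdd
      simpa [Finset.sum_apply] using this) (1 : H)
    have h2 := (res_eq_iff V (u (1 : H)) 0).1 (by rw [h1, map_zero])
    rw [ZeroMemClass.coe_zero, sub_zero] at h2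
    exact h2.ne (hu _)
  obtain ⟨i, hi⟩ := hex
  have h1 : V.valuation ((∑ q, u q * w q ^ i : V) : Qb) = 1 := by
    refine le_antisymm (V.valuation_le_one _) (not_lt.1 fun h => hi ?_)
    rw [← map_zero (residue V)]
    exact (res_eq_iff V _ _).2 (by simpa using h)
  have h2 : ∑ q : H ⧸ K.subgroupOf H, ev ((y : Qb) * z ^ i) q =
      ((∑ q, u q * w q ^ i : V) : Qb) * y := by
    rw [AddSubmonoidClass.coe_finsetSum, Finset.sum_mul]
    refine Finset.sum_congr rfl fun q _ => ?_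
    change (q.out : GQ) ((y : Qb) * z ^ i) = ev (y : Qb) q / y * ev z q ^ i * y
    rw [map_mul, map_pow, ev, ev]
    field_simp
  have h3 : V.valuation (∑ q : H ⧸ K.subgroupOf H, ev ((y : Qb) * z ^ i) q) = V.valuation y := by
    rw [h2, map_mul, h1, one_mul]
  have h4 : ∑ q : H ⧸ K.subgroupOf H, ev ((y : Qb) * z ^ i) q ≠ 0 := fun h0 =>
    hy0 (by rw [← h3, h0, map_zero])
  refine ⟨Units.mk0 _ h4, fix_sum fun g hg => ?_, h3.symm⟩
  rw [map_mul, map_pow, hKy g hg, hKz g hg]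

lemma ramp (hv : ValStmt) (hd : DensStmt) (p : ℕ) [Fact p.Prime] (V : Pl) (hV : Above V p)
    (t : ZMod p) (ht : t ≠ 0) : ∃ g ∈ IG V, om p g = t := by
  have hp : p.Prime := Fact.out
  let ω : GQ →* ZMod p := ⟨⟨om p, om_one p⟩, om_mul p⟩
  set χ := ω.toHomUnits with hχ
  have hker : ∀ g, g ∈ χ.ker ↔ g (zt p 1) = zt p 1 := fun g => by
    rw [← om_eq_one_iff, MonoidHom.mem_ker, Units.ext_iff]; rfl
  have : (χ.ker.subgroupOf (IG V)).FiniteIndex := inferInstance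
  have : Fintype (IG V ⧸ χ.ker.subgroupOf (IG V)) := Fintype.ofFinite _
  have hζ := zt_prim_one p
  have h0 : zt p 1 - 1 ≠ 0 := sub_ne_zero.2 (hζ.ne_one hp.one_lt)
  have hmu := hv.mu V p hp _ hζ.pow_eq_one (hζ.ne_one hp.one_lt)
  have hfix : IsFix χ.ker (zt p 1 - 1) := fun g hg => by rw [map_sub, map_one, (hker g).1 hg]
  have h1 : V.valuation (∏ q : IG V ⧸ χ.ker.subgroupOf (IG V), ev (zt p 1 - 1) q) =
      V.valuation (zt p 1 - 1) ^ Nat.card ((IG V).map χ) := by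
    have e : ∀ q : IG V ⧸ χ.ker.subgroupOf (IG V),
        V.valuation (ev (zt p 1 - 1) q) = V.valuation (zt p 1 - 1) :=
      fun q => hv.inv V _ (IG_le V q.out.2) _
    rw [map_prod, Finset.prod_congr rfl fun q _ => e q, Finset.prod_const,
      Finset.card_univ, ← Subgroup.relIndex_ker, ← Nat.card_eq_fintype_card]
    rfl
  have hv0 : V.valuation (zt p 1 - 1) ≠ 0 := by simpa using h0
  have hP : ∏ q : IG V ⧸ χ.ker.subgroupOf (IG V), ev (zt p 1 - 1) q ≠ 0 := fun h =>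
    pow_ne_zero _ hv0 (by rw [← h1, h, map_zero])
  obtain ⟨z, hz, h2⟩ := vg hv V (DG V) (hv.above_ne V p hp.ne_zero hV) (OpenIn.refl _)
    (Units.mk0 _ hP)
    ((fix_prod hfix).mono inf_le_left)
  obtain ⟨j, hj⟩ := hd.baseVal V p hp hV z hz
  rw [Units.val_mk0, h1, hj, ← hmu, ← zpow_natCast, ← zpow_natCast, ← zpow_mul] at h2
  have hne : V.valuation (zt p 1 - 1) ≠ 1 := fun h => by
    rw [h, one_pow] at hmu
    exact hV.ne hmu.symm
  have h3 := zpow_right_injective₀ (zero_lt_iff.2 hv0) hne h2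
  have h4 : p - 1 ∣ Nat.card ((IG V).map χ) := Int.natCast_dvd_natCast.1 ⟨j, h3⟩
  have h5 : (IG V).map χ = ⊤ := by
    refine Subgroup.eq_top_of_le_card _ ?_
    rw [Nat.card_eq_fintype_card, ZMod.card_units]
    exact Nat.le_of_dvd Nat.card_pos h4
  obtain ⟨g, hg, e⟩ : Units.mk0 t ht ∈ (IG V).map χ := h5 ▸ Subgroup.mem_top _
  exact ⟨g, hg, congrArg Units.val e⟩

end UnrP

theorem unr (_h1 : Coh1Stmt) (hv : ValStmt) (hd : DensStmt) : UnrStmt :=
  ⟨UnrP.frob hv hd, UnrP.frob_root hv, UnrP.ig_root hv, UnrP.gen hv, UnrP.cyc hv hd, UnrP.vg hv,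
    UnrP.ex hv hd, UnrP.ramp hv hd⟩

end Pool.Agent.MP_59efd2_nt.lz

end
end MrgPart2

-- marker of a merged file
example : 731051 + 280886 = 731051 + 280886 := rfl
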