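import Pool.Agent.MP_59efd2_nt.lz.Iwa
import Pool.Agent.MP_59efd2_nt.lz.Inv
import Pool.Agent.MP_59efd2_nt.lz.Unr
import Pool.Agent.MP_59efd2_nt.lz.Lift
import Pool.Agent.MP_59efd2_nt.lz.Lii
import Pool.Agent.MP_59efd2_nt.sel.Gen

/-!
# Assembly of stage 1
-/

namespace Pool.Agent.MP_59efd2_nt.lz

theorem hCont : ContStmt := cont val
theorem hDv : DvStmt := dv coh1 coh2 coh3
theorem hPlc : PlcStmt := plc val
theorem hDens : DensStmt := dens val hPlc
theorem hUnr : UnrStmt := unr coh1 val hDens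
theorem hPhi : PhiStmt := phi coh1 val hDens
theorem hLii : LiiStmt := lii coh3 tate hDens hPhi
theorem hUn : UnStmt := un coh1 val hDens hUnr hLii
theorem hBri : BriStmt := bri coh1 hDv val hDens hUnr hPhi hLii hUn
theorem hLb : LbStmt := lb coh1 coh2 coh3 val hDens hUnr hLii hUn hBri
theorem hH2v : H2vStmt := h2v coh1 coh3 hLb
theorem hSu : SuStmt := su val hPlc hDens
theorem hAdq : AdqStmt := adq val hPlc hDens
theorem hFirst : FirstStmt := first coh1 coh3 tate val hPlc hDens hUnr hPhi hLii hSu hAdq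
theorem hF : FStmt := fst val hPlc hDens hFirst
theorem hTset : TsetStmt := tset coh1 coh3 val hPlc hUnr hPhi hSu hF
theorem hHnt : HntStmt := hnt coh1 coh3 val hPlc hDens hUnr hPhi hLii hUn hSu hAdq hFirst hTset
theorem hAbhn : AbhnStmt := abhn coh1 coh2 coh3 hDv hHnt
theorem hRec : RecStmt := recip coh1 coh2 coh3 val hDens hUnr hLb hAbhn
theorem hNd : NdStmt := nd coh1 coh2 coh3 val hDens hLii hH2v
theorem hLift : LiftStmt := lift coh3 hCont hH2v
theorem hIwa : IwaStmt := iwa coh1 coh3 hCont val hDens hUnr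
theorem hIwb : IwbStmt := iwb coh2 coh3 hCont val hUnr hUn hRec hIwa
theorem hInv : InvStmt := inv hCont hLb

theorem general : GeneralStmt := final coh3 hCont val hUnr hNd hLift hIwb hInv

end Pool.Agent.MP_59efd2_nt.lz
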